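import Pool.Agent.MP_efb2da_gt.Emb.St

section

/-! Straightening of a neighbourhood of a point of the surface. -/

open scoped Manifold ContDiff RealInnerProductSpace Topology ENNReal
open Set MeasureTheory Filter Metric

noncomputable section

namespace Pool.Agent.MP_efb2da_gt.Emb

/-- the horizontal projection as a continuous linear map -/
def prL_Flat : E3 →L[ℝ] E2 := LinearMap.toContinuousLinearMap
  { toFun := pr
    map_add' := fun x y => by ext i; fin_cases i <;> simp [pr]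
    map_smul' := fun a x => by ext i; fin_cases i <;> simp [pr] }

theorem cpr_Flat : Continuous pr := prL_Flat.continuous

theorem pr_incl_Flat (x : E2) : pr (incl x) = x := by ext i; fin_cases i <;> simp [pr, incl]

theorem cincl_Flat : Continuous incl := by
  unfold incl
  fun_prop

theorem pr_eq_Flat (w : E3) :
    pr w = w 0 • EuclideanSpace.single 0 (1 : ℝ) + w 1 • EuclideanSpace.single 1 (1 : ℝ) := by
  ext i; fin_cases i <;> simp [pr]

theorem sign_Flat {h : ℝ → ℝ} {a : ℝ} (hd : HasDerivAt h a 0) (h0 : h 0 = 0) :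
    (0 < a → ∀ᶠ s in 𝓝[>] (0:ℝ), 0 < h s) ∧ (a < 0 → ∀ᶠ s in 𝓝[>] (0:ℝ), h s < 0) := by
  have ht := hd.tendsto_slope_zero_right
  simp only [zero_add, h0, sub_zero, smul_eq_mul] at ht
  constructor
  · intro ha
    filter_upwards [ht.eventually (lt_mem_nhds ha), self_mem_nhdsWithin] with s h1 h2
    exact (pos_iff_pos_of_mul_pos h1).1 (inv_pos.2 h2)
  · intro ha
    filter_upwards [ht.eventually (gt_mem_nhds ha), self_mem_nhdsWithin] with s h1 h2
    by_contra e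
    exact absurd h1 (not_lt.2 (mul_nonneg (inv_pos.2 h2).le (not_lt.1 e)))

theorem cube_open_Flat (y0 : E3) (ε : ℝ) : IsOpen (cube y0 ε) := by
  rw [cube, ofPred_forall]
  exact isOpen_iInter_of_finite fun i => isOpen_lt (by fun_prop) continuous_const

theorem cube_sub_Flat (y0 : E3) {ε : ℝ} (hε : 0 < ε) : cube y0 ε ⊆ ball y0 (2 * ε) := by
  intro y hy
  rw [mem_ball, EuclideanSpace.dist_eq, Real.sqrt_lt' (by positivity), Fin.sum_univ_three]
  have h : ∀ i, dist (y i) (y0 i) ^ 2 ≤ ε ^ 2 := fun i =>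
    pow_le_pow_left₀ dist_nonneg (by rw [Real.dist_eq]; exact (hy i).le) 2
  nlinarith [h 0, h 1, h 2]

/-- the derivative of the straightening map -/
def DP_Flat (G : E2 → E3) (n0 y : E3) : E3 →L[ℝ] E3 :=
  (fderiv ℝ G (pr y)).comp prL_Flat + (EuclideanSpace.proj (2 : Fin 3) : E3 →L[ℝ] ℝ).smulRight n0

theorem DP_apply_Flat (G : E2 → E3) (n0 y w : E3) : DP_Flat G n0 y w =
    w 0 • fderiv ℝ G (pr y) (EuclideanSpace.single 0 1) +
      w 1 • fderiv ℝ G (pr y) (EuclideanSpace.single 1 1) + w 2 • n0 := by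
  have : DP_Flat G n0 y w = fderiv ℝ G (pr y) (pr w) + w 2 • n0 := rfl
  rw [this, pr_eq_Flat w, map_add, map_smul, map_smul]

theorem hasD_Flat {G : E2 → E3} (n0 : E3) {y : E3} (h : DifferentiableAt ℝ G (pr y)) :
    HasFDerivAt (fun y : E3 => G (pr y) + y 2 • n0) (DP_Flat G n0 y) y :=
  (HasFDerivAt.comp (g := G) (f := prL_Flat) y h.hasFDerivAt prL_Flat.hasFDerivAt).add
    ((EuclideanSpace.proj (2 : Fin 3) : E3 →L[ℝ] ℝ).hasFDerivAt.smul_const n0)

theorem equiv_Flat {A : E3 →L[ℝ] E3} {a : Fin 2 → E3} {n0 n : E3}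
    (hA : ∀ w, A w = w 0 • a 0 + w 1 • a 1 + w 2 • n0) (hi : LinearIndependent ℝ a)
    (ho : ∀ i, ⟪a i, n⟫ = 0) (hn : 0 < ⟪n0, n⟫) :
    ∃ B : E3 ≃L[ℝ] E3, (B : E3 →L[ℝ] E3) = A ∧ ∀ w, ⟪w, n⟫ = B.symm w 2 * ⟪n0, n⟫ := by
  have h1 : ∀ w, ⟪A w, n⟫ = w 2 * ⟪n0, n⟫ := fun w => by
    rw [hA, inner_add_left, inner_add_left, real_inner_smul_left, real_inner_smul_left,
      real_inner_smul_left, ho, ho]
    ring
  have h2 : Function.Injective (A : E3 →ₗ[ℝ] E3) := by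
    rw [injective_iff_map_eq_zero]
    intro w hw
    have hw' : A w = 0 := hw
    have b1 := h1 w
    rw [hw', inner_zero_left] at b1
    have b2 : w 2 = 0 := (mul_eq_zero.1 b1.symm).resolve_right hn.ne'
    rw [hA, b2, zero_smul, add_zero] at hw'
    have b3 := Fintype.linearIndependent_iff.1 hi ![w 0, w 1] (by
      rw [Fin.sum_univ_two]
      exact hw')
    ext i
    fin_cases i
    · exact b3 0
    · exact b3 1
    · exact b2
  refine ⟨(LinearEquiv.ofInjectiveEndo (A : E3 →ₗ[ℝ] E3) h2).toContinuousLinearEquiv,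
    ContinuousLinearMap.ext fun _ => rfl, fun w => ?_⟩
  rw [← h1]
  exact congrArg (fun z => ⟪z, n⟫)
    ((LinearEquiv.ofInjectiveEndo (A : E3 →ₗ[ℝ] E3) h2).toContinuousLinearEquiv.apply_symm_apply
      w).symm

theorem line_Flat {G : E2 → E3} {x v : E2} {t : ℝ} (h : DifferentiableAt ℝ G (x + t • v)) :
    HasDerivAt (fun s : ℝ => G (x + s • v) 2) (fderiv ℝ G (x + t • v) v 2) t := by
  have a1 : HasDerivAt (fun s : ℝ => x + s • v) v t := by
    simpa using ((hasDerivAt_id t).smul_const v).const_add x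
  exact (EuclideanSpace.proj (2 : Fin 3) : E3 →L[ℝ] ℝ).hasFDerivAt.comp_hasDerivAt t
    (HasFDerivAt.comp_hasDerivAt (l := G) t h.hasFDerivAt a1)

variable {M : Type} [TopologicalSpace M]

theorem nrm_Flat (E : Dat M) (hO : E.Ok) {c : ℝ} (hE : E.Em c) (p : M) :
    ∃ n0 : E3, 0 < ⟪n0, E.N p⟫ ∧ (p ∈ E.bd → n0 2 = 0) := by
  have h1 : ⟪E.N p, E.N p⟫ = 1 := by rw [real_inner_self_eq_norm_sq, hO.o0.un p, one_pow]
  by_cases h : p ∈ E.bd
  · refine ⟨E.N p - E.N p 2 • e3, ?_, fun _ => by simp [e3]⟩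
    rw [inner_sub_left, h1, real_inner_smul_left, inner3, hE.ang p h]
    have := abs_lt.1 hE.lt
    simp only [e3]
    simp
    nlinarith [this.1, this.2]
  · exact ⟨E.N p, by rw [h1]; exact one_pos, fun a => absurd a h⟩

theorem zero_Flat (E : Dat M) (hO : E.Ok) {c : ℝ} (hE : E.Em c) (p : M) {x : E2}
    (hx : x ∈ (E.c p).O ∩ halfPlane) (h0 : x 0 = 0) : E.F p x 2 = 0 :=
  hE.e0.bdP _ ((hO.o0.bdi p _ ((E.c p).mψ hx)).2 (by rw [(E.c p).ri x hx, h0]))

theorem slope_Flat (E : Dat M) (hO : E.Ok) {c : ℝ} (hE : E.Em c) {p : M} (hp : p ∈ E.bd)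
    {r : ℝ} (hr : 0 < r) {G : E2 → E3} (hb : ball ((E.c p).φ p) r ⊆ (E.c p).O)
    (hG : DifferentiableAt ℝ G ((E.c p).φ p))
    (hF : ∀ x ∈ ball ((E.c p).φ p) r ∩ halfPlane,
      G x = E.F p x ∧ fderiv ℝ G x = fderivWithin ℝ (E.F p) halfPlane x) :
    0 < fderiv ℝ G ((E.c p).φ p) (EuclideanSpace.single 0 1) 2 := by
  have m0 := (E.c p).mφ (hO.o0.mem p)
  have z0 := (hO.o0.bdi p p (hO.o0.mem p)).1 hp
  have l0 := (E.c p).li p (hO.o0.mem p)
  generalize (E.c p).φ p = x0 at *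
  have hD := (hF x0 ⟨mem_ball_self hr, m0.2⟩).2
  have ct : ∀ v : E2, Tendsto (fun s : ℝ => x0 + s • v) (𝓝 0) (𝓝 x0) := fun v => by
    have : Continuous fun s : ℝ => x0 + s • v := by fun_prop
    simpa using this.tendsto 0
  have ln : ∀ v : E2, HasDerivAt (fun s : ℝ => G (x0 + s • v) 2) (fderiv ℝ G x0 v 2) 0 := fun v => by
    have := line_Flat (G := G) (x := x0) (v := v) (t := 0) (by simpa using hG)
    simpa using this
  have a1 : fderiv ℝ G x0 (EuclideanSpace.single 1 1) 2 = 0 := by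
    refine (ln _).unique ((hasDerivAt_const (0 : ℝ) (0 : ℝ)).congr_of_eventuallyEq ?_)
    filter_upwards [(ct (EuclideanSpace.single 1 1)).eventually (ball_mem_nhds x0 hr)] with s hs
    have b1 : (x0 + s • EuclideanSpace.single 1 (1 : ℝ) : E2) 0 = 0 := by simp [z0]
    rw [(hF _ ⟨hs, b1.ge⟩).1]
    exact zero_Flat E hO hE p ⟨hb hs, b1.ge⟩ b1
  have a2 : fderiv ℝ G x0 (EuclideanSpace.single 0 1) 2 ≠ 0 := by
    intro e
    have b1 := hO.o2.crsJ p x0 m0
    have b2 := hO.o2.Jne p x0 m0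
    have b3 : E.n p x0 = E.N p := congrArg E.N l0
    rw [hD] at e a1
    have c0 := congrArg (fun z : E3 => z 0) b1
    have c1 := congrArg (fun z : E3 => z 1) b1
    simp only [crs, pd, b3] at c0 c1
    simp [e, a1, b2] at c0 c1
    have c2 : ⟪E.N p, E.N p⟫ = 1 := by rw [real_inner_self_eq_norm_sq, hO.o0.un p, one_pow]
    rw [inner3, c0, c1, hE.ang p hp] at c2
    have := abs_lt.1 hE.lt
    nlinarith [this.1, this.2]
  refine lt_of_le_of_ne (not_lt.1 fun e => ?_) a2.symm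
  have a3 := (sign_Flat (ln (EuclideanSpace.single 0 1)) (by
    simp only [zero_smul, add_zero]
    rw [(hF x0 ⟨mem_ball_self hr, m0.2⟩).1]
    exact zero_Flat E hO hE p m0 z0)).2 e
  have a4 : ∀ᶠ s : ℝ in 𝓝[>] 0,
      (x0 + s • EuclideanSpace.single 0 (1 : ℝ) : E2) ∈ ball x0 r ∩ halfPlane := by
    filter_upwards [((ct (EuclideanSpace.single 0 1)).mono_left nhdsWithin_le_nhds).eventually
      (ball_mem_nhds x0 hr), self_mem_nhdsWithin] with s h1 h2
    refine ⟨h1, ?_⟩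
    simp only [halfPlane, mem_ofPred_eq]
    simp [z0]
    exact le_of_lt h2
  have a5 : Tendsto (fun s : ℝ => (E.c p).ψ (x0 + s • EuclideanSpace.single 0 (1 : ℝ))) (𝓝[>] 0)
      (𝓝 p) := by
    have b1 := ((E.c p).cψ x0 m0).tendsto
    rw [l0] at b1
    exact b1.comp (tendsto_nhdsWithin_iff.2 ⟨(ct _).mono_left nhdsWithin_le_nhds,
      a4.mono fun s hs => ⟨hb hs.1, hs.2⟩⟩)
  obtain ⟨s, h1, h2, h3⟩ := (a3.and (a4.and (a5.eventually (hE.up p hp)))).exists
  rw [(hF _ h2).1] at h1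
  exact absurd h1 (not_lt.2 h3)

variable [T2Space M] [CompactSpace M] [ConnectedSpace M] [MeasurableSpace M] [BorelSpace M]

theorem Flat_pf (E : Dat M) : SFlat E := by
  intro hx hO c hE p V hV
  have m0 := (E.c p).mφ (hO.o0.mem p)
  have l0 := (E.c p).li p (hO.o0.mem p)
  obtain ⟨r, hr, G, hb, hG, hF⟩ := hx (E.F p) (E.c p).O ((E.c p).φ p) (E.c p).oO
    ((hO.o0.sF p).of_le (by exact_mod_cast le_top)) m0
  obtain ⟨n0, hn, hn2⟩ := nrm_Flat E hO hE p
  have hd : ∀ x ∈ ball ((E.c p).φ p) r, DifferentiableAt ℝ G x := fun x h =>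
    (hG.contDiffAt (isOpen_ball.mem_nhds h)).differentiableAt one_ne_zero
  have hs := fun hp => slope_Flat E hO hE hp hr hb (hd _ (mem_ball_self hr)) hF
  have hz0 := hO.o0.bdi p p (hO.o0.mem p)
  have hφ : Tendsto (E.c p).φ (𝓝 p) (𝓝 ((E.c p).φ p)) :=
    (E.c p).cφ.continuousAt ((E.c p).oS.mem_nhds (hO.o0.mem p))
  generalize hx0 : (E.c p).φ p = x0 at *
  have hB : ∀ y : E3, pr y ∈ ball x0 r ∩ halfPlane → 0 < ⟪n0, E.n p (pr y)⟫ →
      ∃ B : E3 ≃L[ℝ] E3, (B : E3 →L[ℝ] E3) = DP_Flat G n0 y ∧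
        ∀ w, ⟪w, E.n p (pr y)⟫ = B.symm w 2 * ⟪n0, E.n p (pr y)⟫ := fun y h1 h2 =>
    equiv_Flat (a := fun i => pd (E.F p) i (pr y))
      (fun w => by rw [DP_apply_Flat, (hF _ h1).2]; rfl) (hO.o1 p _ ⟨hb h1.1, h1.2⟩).imm
      (hO.o1 p _ ⟨hb h1.1, h1.2⟩).orth h2
  have np : E.n p x0 = E.N p := congrArg E.N l0
  have tp : Tendsto pr (𝓝 (incl x0)) (𝓝 x0) := by
    have := cpr_Flat.tendsto (incl x0)
    rwa [pr_incl_Flat] at this
  obtain ⟨Ψ, hΨ⟩ : ∃ Ψ : E3 → E3, Ψ = fun y => G (pr y) + y 2 • n0 := ⟨_, rfl⟩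
  have hΨd : ∀ y, pr y ∈ ball x0 r → HasFDerivAt Ψ (DP_Flat G n0 y) y := fun y h =>
    hΨ ▸ hasD_Flat n0 (hd _ h)
  have hΨi : ∀ x ∈ ball x0 r ∩ halfPlane, Ψ (incl x) = E.f ((E.c p).ψ x) := fun x h => by
    rw [hΨ]
    simp only [pr_incl_Flat]
    rw [(hF x h).1, show incl x 2 = 0 by simp [incl], zero_smul, add_zero]
    rfl
  obtain ⟨B0, hB0, -⟩ := hB (incl x0) (by rw [pr_incl_Flat]; exact ⟨mem_ball_self hr, m0.2⟩)
    (by rwa [pr_incl_Flat, np])
  have hc : ContDiffAt ℝ 1 Ψ (incl x0) := by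
    rw [hΨ]
    refine ContDiffAt.add (ContDiffAt.comp (g := G) (f := prL_Flat) _ ?_
      prL_Flat.contDiff.contDiffAt) (ContDiffAt.smul
        (EuclideanSpace.proj (2 : Fin 3) : E3 →L[ℝ] ℝ).contDiff.contDiffAt contDiffAt_const)
    rw [show prL_Flat (incl x0) = x0 from pr_incl_Flat x0]
    exact hG.contDiffAt (ball_mem_nhds x0 hr)
  have hst : HasStrictFDerivAt Ψ (B0 : E3 →L[ℝ] E3) (incl x0) :=
    hc.hasStrictFDerivAt' (hB0 ▸ hΨd _ (by rw [pr_incl_Flat]; exact mem_ball_self hr)) one_ne_zero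
  obtain ⟨e0, he0, hs0⟩ : ∃ e0 : OpenPartialHomeomorph E3 E3, ⇑e0 = Ψ ∧ incl x0 ∈ e0.source :=
    ⟨hst.toOpenPartialHomeomorph Ψ, rfl, hst.mem_toOpenPartialHomeomorph_source⟩
  have hs1 := e0.open_source.mem_nhds hs0
  obtain ⟨U1, hU1, hU⟩ : ∃ U1 ∈ 𝓝 (E.f p), E.f ⁻¹' U1 ⊆
      {q | q ∈ (E.c p).S ∧ incl ((E.c p).φ q) ∈ e0.source ∧ (E.c p).φ q ∈ ball x0 r} := by
    rw [← mem_comap, ← (hO.o0.cf.isClosedEmbedding hE.e0.inj).isInducing.nhds_eq_comap]
    filter_upwards [(E.c p).oS.mem_nhds (hO.o0.mem p),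
      ((cincl_Flat.tendsto x0).comp hφ).eventually hs1, hφ.eventually (ball_mem_nhds x0 hr)]
      with q h1 h2 h3
    exact ⟨h1, h2, h3⟩
  have tΨ : Tendsto Ψ (𝓝 (incl x0)) (𝓝 (E.f p)) := by
    have := hc.continuousAt.tendsto
    rwa [hΨi x0 ⟨mem_ball_self hr, m0.2⟩, l0] at this
  have ev1 : ∀ᶠ y in 𝓝 (incl x0), p ∉ E.bd → 0 < y 0 := by
    by_cases hp : p ∈ E.bd
    · exact Eventually.of_forall fun _ h => absurd hp h
    · have b1 : 0 < incl x0 0 := lt_of_le_of_ne m0.2 fun e => hp (hz0.2 e.symm)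
      have b2 : Continuous fun y : E3 => y 0 := by fun_prop
      exact ((b2.tendsto _).eventually (lt_mem_nhds b1)).mono fun _ h _ => h
  have ev2 : ∀ᶠ x in 𝓝 x0, x ∈ (E.c p).O ∩ halfPlane → 0 < ⟪n0, E.n p x⟫ := by
    rw [← eventually_nhdsWithin_iff]
    have b1 : ContinuousWithinAt (fun x => ⟪n0, E.n p x⟫) ((E.c p).O ∩ halfPlane) x0 :=
      continuousWithinAt_const.inner
        (hO.o0.cN.continuousAt.comp_continuousWithinAt ((E.c p).cψ x0 m0))
    exact b1.tendsto.eventually (lt_mem_nhds (by rwa [np]))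
  have ev3 : ∀ᶠ x in 𝓝 x0, p ∈ E.bd → 0 < fderiv ℝ G x (EuclideanSpace.single 0 1) 2 := by
    by_cases hp : p ∈ E.bd
    · have b1 : ContinuousAt (fderiv ℝ G) x0 :=
        (hG.continuousOn_fderiv_of_isOpen isOpen_ball le_rfl).continuousAt (ball_mem_nhds x0 hr)
      have b2 : Continuous fun L : E2 →L[ℝ] E3 => L (EuclideanSpace.single 0 1) 2 := by fun_prop
      exact ((b2.continuousAt.comp b1).tendsto.eventually (lt_mem_nhds (hs hp))).mono
        fun _ h _ => h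
    · exact Eventually.of_forall fun _ h => absurd h hp
  obtain ⟨δ, hδ, hP⟩ := Metric.eventually_nhds_iff_ball.1 ((Filter.Eventually.and hs1
    (tp.eventually (ball_mem_nhds x0 hr))).and ((ev1.and (tp.eventually ev2)).and
      ((tp.eventually ev3).and ((tΨ.eventually hV).and (tΨ.eventually hU1)))))
  have hε : 0 < δ / 2 := half_pos hδ
  have hQ := fun y (hy : y ∈ cube (incl x0) (δ / 2)) =>
    hP y (by simpa [mul_div_cancel₀] using cube_sub_Flat (incl x0) hε hy)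
  generalize δ / 2 = ε at hε hQ
  obtain ⟨e, he, hes⟩ : ∃ e : OpenPartialHomeomorph E3 E3, ⇑e = Ψ ∧ e.source = cube (incl x0) ε :=
    ⟨e0.restrOpen _ (cube_open_Flat (incl x0) ε), he0,
      (e0.restrOpen_source _ _).trans (inter_eq_right.2 fun y hy => (hQ y hy).1.1)⟩
  have ht : ∀ z ∈ e.target, e.symm z ∈ cube (incl x0) ε ∧ Ψ (e.symm z) = z := fun z hz =>
    ⟨hes ▸ e.map_target hz, he ▸ e.right_inv hz⟩
  have hsg : ∀ q, E.f q ∈ e.target → q ∈ (E.c p).S ∧ e.symm (E.f q) = incl ((E.c p).φ q) := by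
    intro q hq
    obtain ⟨b1, b2⟩ := ht _ hq
    have b3 := (hQ _ b1).2.2.2.2
    rw [b2] at b3
    obtain ⟨b4, b5, b6⟩ := hU b3
    refine ⟨b4, e0.injOn (hQ _ b1).1.1 b5 ?_⟩
    rw [he0, b2, hΨi _ ⟨b6, ((E.c p).mφ b4).2⟩, (E.c p).li q b4]
  have hh : ∀ y : E3, 0 ≤ y 0 → pr y ∈ halfPlane := fun y h => h
  have htv : ∀ y ∈ cube (incl x0) ε, 0 ≤ y 0 → 0 < ⟪n0, E.n p (pr y)⟫ := fun y hy h =>
    (hQ y hy).2.1.2 ⟨hb (hQ y hy).1.2, hh y h⟩
  refine ⟨e, n0, ε, ⟨hε, by rw [hx0, hes], fun y hy => hb (hQ y (hes ▸ hy)).1.2,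
    fun hp y hy => (hQ y (hes ▸ hy)).2.1.1 hp, fun y hy h => ?_, fun q hq => ?_,
    fun y hy => htv y (hes ▸ hy), fun hp => ⟨hn2 hp, fun y hy => ?_⟩, fun q hq w => ?_⟩,
    fun z hz => ?_⟩
  · rw [he, hΨ, ← (hF _ ⟨(hQ y (hes ▸ hy)).1.2, hh y h⟩).1]
  · refine ⟨(hsg q hq).1, ?_⟩
    rw [← (hsg q hq).2]
    exact e.map_target hq
  · rw [hes] at hy
    have z0 : incl x0 0 = 0 := hz0.1 hp
    have b1 : ∀ t ∈ Ioo (-ε) ε, (!₂[t, y 1, y 2] : E3) ∈ cube (incl x0) ε := by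
      intro t h i
      fin_cases i
      · simpa [z0, abs_lt] using h
      · exact hy 1
      · exact hy 2
    have b2 : ∀ t : ℝ, pr !₂[t, y 1, y 2] = ln (y 1) + t • EuclideanSpace.single 0 (1 : ℝ) :=
      fun t => by ext i; fin_cases i <;> simp [pr, ln]
    have b3 : ∀ t ∈ Ioo (-ε) ε, HasDerivAt
        (fun s : ℝ => G (ln (y 1) + s • EuclideanSpace.single 0 (1 : ℝ)) 2)
        (fderiv ℝ G (ln (y 1) + t • EuclideanSpace.single 0 (1 : ℝ))
          (EuclideanSpace.single 0 1) 2) t :=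
      fun t h => line_Flat (hd _ (b2 t ▸ (hQ _ (b1 t h)).1.2))
    have b4 : StrictMonoOn (fun s : ℝ => G (ln (y 1) + s • EuclideanSpace.single 0 (1 : ℝ)) 2)
        (Ioo (-ε) ε) := by
      refine strictMonoOn_of_deriv_pos (convex_Ioo _ _)
        (fun t h => (b3 t h).continuousAt.continuousWithinAt) fun t h => ?_
      rw [interior_Ioo] at h
      rw [(b3 t h).deriv, ← b2]
      exact (hQ _ (b1 t h)).2.2.1 hp
    have b5 : (0 : ℝ) ∈ Ioo (-ε) ε := ⟨by linarith, hε⟩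
    have b6 : y 0 ∈ Ioo (-ε) ε := by simpa [z0, abs_lt] using hy 0
    have b7 : G (ln (y 1) + (0 : ℝ) • EuclideanSpace.single 0 (1 : ℝ)) 2 = 0 := by
      have c1 := (hQ _ (b1 0 b5)).1.2
      have c2 : pr !₂[0, y 1, y 2] ∈ halfPlane := hh _ le_rfl
      rw [← b2, (hF _ ⟨c1, c2⟩).1]
      exact zero_Flat E hO hE p ⟨hb c1, c2⟩ rfl
    have b8 : e y 2 = G (ln (y 1) + y 0 • EuclideanSpace.single 0 (1 : ℝ)) 2 := by
      rw [he, hΨ, ← b2]
      simp [hn2 hp, pr]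
    rw [b8]
    exact ⟨fun h => b7.symm.trans_lt (b4 b5 b6 h), fun h => (b4 b6 b5 h).trans_eq b7⟩
  · obtain ⟨b1, b2⟩ := hsg q hq
    have b3 := (ht _ hq).1
    have b4 : 0 ≤ e.symm (E.f q) 0 := by rw [b2]; exact ((E.c p).mφ b1).2
    have b5 := htv _ b3 b4
    obtain ⟨B, c1, c2⟩ := hB _ ⟨(hQ _ b3).1.2, hh _ b4⟩ b5
    have b6 : E.n p (pr (e.symm (E.f q))) = E.N q := by
      rw [b2, pr_incl_Flat]
      exact congrArg E.N ((E.c p).li q b1)
    rw [b6] at b5 c2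
    have b7 := e.hasFDerivAt_symm (f' := B) hq (by rw [he, c1]; exact hΨd _ (hQ _ b3).1.2)
    have b8 : HasDerivAt (fun s : ℝ => E.f q + s • w) w 0 := by
      simpa using ((hasDerivAt_id (0 : ℝ)).smul_const w).const_add (E.f q)
    have b9 : HasDerivAt (fun s : ℝ => e.symm (E.f q + s • w) 2) (B.symm w 2) 0 :=
      (EuclideanSpace.proj (2 : Fin 3) : E3 →L[ℝ] ℝ).hasFDerivAt.comp_hasDerivAt 0
        (HasFDerivAt.comp_hasDerivAt_of_eq (l := e.symm) 0 b7 b8 (by simp))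
    have b10 := sign_Flat b9 (by
      simp only [zero_smul, add_zero]
      rw [b2]
      simp [incl])
    rw [c2 w]
    exact ⟨fun h => b10.1 ((pos_iff_pos_of_mul_pos h).2 b5),
      fun h => b10.2 (neg_of_mul_neg_left h b5.le)⟩
  · obtain ⟨b1, b2⟩ := ht z hz
    exact b2 ▸ (hQ _ b1).2.2.2.1

end Pool.Agent.MP_efb2da_gt.Emb

end

end

section

/-! The two sides of the surface in a straightening chart. -/

open scoped Manifold ContDiff RealInnerProductSpace Topology ENNReal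
open Set MeasureTheory Filter Metric

noncomputable section

namespace Pool.Agent.MP_efb2da_gt.Emb

theorem pr_incl_Box (x : E2) : pr (incl x) = x := by
  ext i
  fin_cases i <;> simp [pr, incl]

theorem cube_Box (y0 : E3) (ε : ℝ) : Convex ℝ (cube y0 ε) := by
  have e : cube y0 ε = ⋂ i, ({y : E3 | y0 i - ε < y i} ∩ {y : E3 | y i < y0 i + ε}) := by
    ext y
    simp only [cube, mem_ofPred_eq, mem_iInter, mem_inter_iff, abs_lt]
    exact forall_congr' fun i => ⟨fun h => ⟨by linarith [h.1], by linarith [h.2]⟩,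
      fun h => ⟨by linarith [h.1], by linarith [h.2]⟩⟩
  rw [e]
  exact convex_iInter fun i =>
    (convex_halfSpace_gt (EuclideanSpace.proj (𝕜 := ℝ) i).toLinearMap.isLinear _).inter
      (convex_halfSpace_lt (EuclideanSpace.proj (𝕜 := ℝ) i).toLinearMap.isLinear _)

theorem gt_Box (i : Fin 3) : Convex ℝ {y : E3 | 0 < y i} ∧ IsOpen {y : E3 | 0 < y i} :=
  ⟨convex_halfSpace_gt (EuclideanSpace.proj (𝕜 := ℝ) i).toLinearMap.isLinear _,
    isOpen_lt continuous_const (EuclideanSpace.proj (𝕜 := ℝ) i).continuous⟩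

theorem lt_Box (i : Fin 3) : Convex ℝ {y : E3 | y i < 0} ∧ IsOpen {y : E3 | y i < 0} :=
  ⟨convex_halfSpace_lt (EuclideanSpace.proj (𝕜 := ℝ) i).toLinearMap.isLinear _,
    isOpen_lt (EuclideanSpace.proj (𝕜 := ℝ) i).continuous continuous_const⟩

section

variable {M : Type} [TopologicalSpace M] {E : Dat M} {p : M} {e : OpenPartialHomeomorph E3 E3}
  {n0 : E3} {ε : ℝ}

theorem conn_Box (fl : E.Flat p e n0 ε) {s : Set E3} (hs : Convex ℝ s) :
    IsPreconnected (e '' (e.source ∩ s)) :=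
  IsPreconnected.image (Convex.isPreconnected (Convex.inter (fl.src ▸ cube_Box _ _) hs)) _
    (e.continuousOn.mono inter_subset_left)

theorem at_Box (fl : E.Flat p e n0 ε) {q : M} (hq : q ∈ (E.c p).S)
    (hy : incl ((E.c p).φ q) ∈ e.source) : e (incl ((E.c p).φ q)) = E.f q := by
  rw [fl.eq _ hy ((E.c p).mφ hq).2, pr_incl_Box, Dat.F, Function.comp_apply, (E.c p).li q hq]
  simp [incl]

theorem sg_Box (fl : E.Flat p e n0 ε) {y : E3} (hy : y ∈ e.source) :
    e y ∈ E.Sg ↔ y 2 = 0 ∧ 0 ≤ y 0 := by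
  constructor
  · rintro ⟨q, hq⟩
    obtain ⟨h1, h2⟩ := fl.sg q (hq ▸ e.map_source hy)
    obtain rfl := e.injOn h2 hy ((at_Box fl h1 h2).trans hq)
    exact ⟨rfl, ((E.c p).mφ h1).2⟩
  · rintro ⟨h1, h2⟩
    refine ⟨(E.c p).ψ (pr y), ?_⟩
    rw [fl.eq y hy h2, h1, zero_smul, add_zero]
    rfl

theorem dj_Box (e : OpenPartialHomeomorph E3 E3) :
    Disjoint (e '' (e.source ∩ {y | 0 < y 0 ∧ y 2 < 0}))
      (e '' (e.source ∩ {y | 0 < y 0 ∧ 0 < y 2})) := by
  refine disjoint_left.2 ?_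
  rintro _ ⟨y, hy, rfl⟩ ⟨y', hy', h⟩
  obtain rfl := e.injOn hy'.1 hy.1 h
  exact lt_asymm hy.2.2 hy'.2.2

theorem ev_Box {x : E3} (w : E3) {U : Set E3} (hU : IsOpen U) (hx : x ∈ U) :
    ∀ᶠ s in 𝓝[>] (0:ℝ), x + s • w ∈ U := by
  have h : Continuous fun s : ℝ => x + s • w := by fun_prop
  exact nhdsWithin_le_nhds (h.continuousAt.eventually_mem (hU.mem_nhds (by simpa using hx)))

theorem dir_Box (fl : E.Flat p e n0 ε) {q : M} (hq : E.f q ∈ e.target) (w : E3)
    (h : ∀ᶠ s in 𝓝[>] (0:ℝ), E.f q + s • w ∈ e.target → 0 < e.symm (E.f q + s • w) 0) :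
    (0 < ⟪w, E.N q⟫ → ∀ᶠ s in 𝓝[>] (0:ℝ),
      E.f q + s • w ∈ e '' (e.source ∩ {y | 0 < y 0 ∧ 0 < y 2})) ∧
    (⟪w, E.N q⟫ < 0 → ∀ᶠ s in 𝓝[>] (0:ℝ),
      E.f q + s • w ∈ e '' (e.source ∩ {y | 0 < y 0 ∧ y 2 < 0})) := by
  refine ⟨fun hw => ?_, fun hw => ?_⟩
  · filter_upwards [h, ev_Box w e.open_target hq, (fl.dir q hq w).1 hw] with s h1 h2 h3
    exact ⟨_, ⟨e.map_target h2, h1 h2, h3⟩, e.right_inv h2⟩
  · filter_upwards [h, ev_Box w e.open_target hq, (fl.dir q hq w).2 hw] with s h1 h2 h3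
    exact ⟨_, ⟨e.map_target h2, h1 h2, h3⟩, e.right_inv h2⟩

theorem un_Box (fl : E.Flat p e n0 ε) {V : Set E3}
    (hV : ∀ x, x ∈ V ↔ ∃ y ∈ e.source, 0 < y 0 ∧ e y = x) :
    V \ E.Sg = e '' (e.source ∩ {y | 0 < y 0 ∧ y 2 < 0}) ∪
      e '' (e.source ∩ {y | 0 < y 0 ∧ 0 < y 2}) := by
  ext x
  constructor
  · rintro ⟨h1, h2⟩
    obtain ⟨y, hy, h3, rfl⟩ := (hV x).1 h1
    rcases lt_trichotomy (y 2) 0 with h | h | h
    · exact Or.inl ⟨y, ⟨hy, h3, h⟩, rfl⟩
    · exact (h2 ((sg_Box fl hy).2 ⟨h, h3.le⟩)).elim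
    · exact Or.inr ⟨y, ⟨hy, h3, h⟩, rfl⟩
  · rintro (⟨y, hy, rfl⟩ | ⟨y, hy, rfl⟩)
    · exact ⟨(hV _).2 ⟨y, hy.1, hy.2.1, rfl⟩, fun h => hy.2.2.ne ((sg_Box fl hy.1).1 h).1⟩
    · exact ⟨(hV _).2 ⟨y, hy.1, hy.2.1, rfl⟩, fun h => hy.2.2.ne' ((sg_Box fl hy.1).1 h).1⟩

end

variable {M : Type} [TopologicalSpace M] [T2Space M] [CompactSpace M] [ConnectedSpace M]
  [MeasurableSpace M] [BorelSpace M]

set_option linter.unusedSectionVars false in
theorem Box_pf (E : Dat M) : SBox E := by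
  intro ok c em p e n0 ε fl
  have oA := e.isOpen_image_source_inter ((gt_Box 0).2.inter (lt_Box 2).2)
  have oB := e.isOpen_image_source_inter ((gt_Box 0).2.inter (gt_Box 2).2)
  have cA := conn_Box fl ((gt_Box 0).1.inter (lt_Box 2).1)
  have cB := conn_Box fl ((gt_Box 0).1.inter (gt_Box 2).1)
  have hp : incl ((E.c p).φ p) ∈ e.source := by
    rw [fl.src]
    intro i
    rw [sub_self, abs_zero]
    exact fl.pos
  refine ⟨at_Box fl (ok.o0.mem p) hp ▸ e.map_source hp, fun hb => ?_, fun hb => ?_⟩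
  · refine ⟨e.open_target, oA, oB, cA, cB, dj_Box e, un_Box fl fun x => ⟨fun hx =>
      ⟨_, e.map_target hx, fl.int hb _ (e.map_target hx), e.right_inv hx⟩, ?_⟩,
      disjoint_left.2 ?_, fun q hq w => dir_Box fl hq w (Eventually.of_forall fun s hs =>
        fl.int hb _ (e.map_target hs))⟩
    · rintro ⟨y, hy, -, rfl⟩
      exact e.map_source hy
    · rintro _ hx ⟨q, hq, rfl⟩
      obtain ⟨h1, h2⟩ := fl.sg q hx
      exact (fl.int hb _ h2).ne' ((ok.o0.bdi p q h1).1 hq)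
  · obtain ⟨z1, z2⟩ := fl.hz hb
    have pt : ∀ y ∈ e.source, 0 ≤ y 0 → ((E.c p).ψ (pr y) ∈ E.bd ↔ y 0 = 0) := fun y hy h => by
      have h1 : pr y ∈ (E.c p).O ∩ halfPlane := ⟨fl.sub y hy, h⟩
      rw [ok.o0.bdi p _ ((E.c p).mψ h1), (E.c p).ri _ h1]
      rfl
    have z3 : ∀ y ∈ e.source, y 0 = 0 → e y 2 = 0 := fun y hy h => by
      have h1 : E.F p (pr y) 2 = 0 := em.e0.bdP _ ((pt y hy h.ge).2 h)
      rw [fl.eq y hy h.ge]
      simp [h1, z1]
    have z4 : ∀ y ∈ e.source, (0 < e y 2 → 0 < y 0) ∧ (e y 2 < 0 → y 0 < 0) := fun y hy => by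
      rcases lt_trichotomy (y 0) 0 with h | h | h
      · exact ⟨fun h1 => (lt_asymm h1 ((z2 y hy).2 h)).elim, fun _ => h⟩
      · exact ⟨fun h1 => (h1.ne' (z3 y hy h)).elim, fun h1 => (h1.ne (z3 y hy h)).elim⟩
      · exact ⟨fun _ => h, fun h1 => (lt_asymm h1 ((z2 y hy).1 h)).elim⟩
    have sg : ∀ q, E.f q ∈ e.target → 0 ≤ E.f q 2 ∧ (E.f q 2 = 0 → q ∈ E.bd) := fun q hq => by
      obtain ⟨h1, h2⟩ := fl.sg q hq
      have h3 : 0 ≤ (E.c p).φ q 0 := ((E.c p).mφ h1).2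
      rw [← at_Box fl h1 h2]
      refine ⟨not_lt.1 fun h => not_lt.2 h3 ((z4 _ h2).2 h), fun h => ?_⟩
      exact (ok.o0.bdi p q h1).2 (h3.eq_or_lt.resolve_right fun h4 => ((z2 _ h2).1 h4).ne' h).symm
    refine ⟨e.open_target, oA, oB, cA, cB, ?_, dj_Box e, un_Box fl fun x => ⟨fun hx =>
      ⟨_, e.map_target hx.1, (z4 _ (e.map_target hx.1)).1 (by rw [e.right_inv hx.1]; exact hx.2),
        e.right_inv hx.1⟩, ?_⟩, sg, ?_, fun q hq w hw => dir_Box fl hq w ?_⟩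
    · have h : e.target ∩ {x | x 2 < 0} = e '' (e.source ∩ {y | y 0 < 0}) := by
        ext x
        constructor
        · intro hx
          exact ⟨_, ⟨e.map_target hx.1, (z4 _ (e.map_target hx.1)).2
            (by rw [e.right_inv hx.1]; exact hx.2)⟩, e.right_inv hx.1⟩
        · rintro ⟨y, hy, rfl⟩
          exact ⟨e.map_source hy.1, (z2 y hy.1).2 hy.2⟩
      rw [h]
      exact conn_Box fl (lt_Box 0).1
    · rintro ⟨y, hy, h, rfl⟩
      exact ⟨e.map_source hy, (z2 y hy).1 h⟩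
    · have h0 : (E.c p).φ p 0 = 0 := (ok.o0.bdi p p (ok.o0.mem p)).1 hb
      have e0 := fl.pos
      have hy : (!₂[ε / 2, (E.c p).φ p 1, 0] : E3) ∈ e.source := by
        rw [fl.src]
        intro i
        fin_cases i
        · simp [incl, h0, abs_lt]
          constructor <;> linarith
        · simpa [incl] using e0
        · simpa [incl] using e0
      have h1 : 0 < (!₂[ε / 2, (E.c p).φ p 1, 0] : E3) 0 := half_pos e0
      refine ⟨_, fun h => h1.ne' ((pt _ hy h1.le).1 h), ?_⟩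
      have h2 := e.map_source hy
      rw [fl.eq _ hy h1.le] at h2
      simpa [Dat.F] using h2
    · have h1 : ∀ᶠ s in 𝓝[>] (0:ℝ), 0 < (E.f q + s • w) 2 := by
        rcases (sg q hq).1.eq_or_lt with h | h
        · filter_upwards [self_mem_nhdsWithin] with s hs
          have := mul_pos (mem_Ioi.1 hs) (hw ((sg q hq).2 h.symm))
          simpa [← h] using this
        · exact ev_Box w (gt_Box 2).2 h
      filter_upwards [h1] with s hs h2
      exact (z4 _ (e.map_target h2)).1 (by rw [e.right_inv h2]; exact hs)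

end Pool.Agent.MP_efb2da_gt.Emb

end

end

section

/-! Calculus used in the divergence theorem for one side of a surface. -/

open scoped Manifold ContDiff RealInnerProductSpace Topology ENNReal
open Set MeasureTheory Filter Metric

noncomputable section

namespace Pool.Agent.MP_efb2da_gt.Emb

theorem exp3_AD (A : E3 →L[ℝ] E3) (a : E3) :
    A a = a 0 • A (EuclideanSpace.single 0 1) + a 1 • A (EuclideanSpace.single 1 1) +
      a 2 • A (EuclideanSpace.single 2 1) := by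
  rw [← map_smul, ← map_smul, ← map_smul, ← map_add, ← map_add]
  congr 1
  ext i
  fin_cases i <;> simp

theorem trace_AD (A : E3 →L[ℝ] E3) (a b c : E3) :
    dt (A a) b c + dt a (A b) c + dt a b (A c) =
      (A (EuclideanSpace.single 0 1) 0 + A (EuclideanSpace.single 1 1) 1 +
        A (EuclideanSpace.single 2 1) 2) * dt a b c := by
  rw [exp3_AD A a, exp3_AD A b, exp3_AD A c]
  simp only [dt, PiLp.add_apply, PiLp.smul_apply, smul_eq_mul]
  ring

theorem det_AD (L : E3 →L[ℝ] E3) : L.det =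
    dt (L (EuclideanSpace.single 0 1)) (L (EuclideanSpace.single 1 1))
      (L (EuclideanSpace.single 2 1)) := by
  have h := LinearMap.det_toMatrix (EuclideanSpace.basisFun (Fin 3) ℝ).toBasis
    (L : E3 →ₗ[ℝ] E3)
  have h2 : L.det = LinearMap.det (L : E3 →ₗ[ℝ] E3) := rfl
  rw [h2, ← h, Matrix.det_fin_three]
  simp only [LinearMap.toMatrix_apply, OrthonormalBasis.coe_toBasis,
    EuclideanSpace.basisFun_apply, OrthonormalBasis.coe_toBasis_repr_apply,
    EuclideanSpace.basisFun_repr, ContinuousLinearMap.coe_coe, dt]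
  ring

theorem coord_AD {a : E3 → E3} {a' : E3 →L[ℝ] E3} {y : E3} (h : HasFDerivAt a a' y) (i : Fin 3) :
    HasFDerivAt (fun y => a y i) ((EuclideanSpace.proj i : E3 →L[ℝ] ℝ).comp a') y :=
  (EuclideanSpace.proj i : E3 →L[ℝ] ℝ).hasFDerivAt.comp y h

theorem hdt_AD {a b c : E3 → E3} {a' b' c' : E3 →L[ℝ] E3} {y : E3} (ha : HasFDerivAt a a' y)
    (hb : HasFDerivAt b b' y) (hc : HasFDerivAt c c' y) :
    ∃ D : E3 →L[ℝ] ℝ, HasFDerivAt (fun y => dt (a y) (b y) (c y)) D y ∧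
      ∀ v, D v = dt (a' v) (b y) (c y) + dt (a y) (b' v) (c y) + dt (a y) (b y) (c' v) := by
  have h := (((coord_AD ha 0).mul (((coord_AD hb 1).mul (coord_AD hc 2)).sub
    ((coord_AD hb 2).mul (coord_AD hc 1)))).sub
    ((coord_AD ha 1).mul (((coord_AD hb 0).mul (coord_AD hc 2)).sub
    ((coord_AD hb 2).mul (coord_AD hc 0))))).add
    ((coord_AD ha 2).mul (((coord_AD hb 0).mul (coord_AD hc 1)).sub
    ((coord_AD hb 1).mul (coord_AD hc 0))))
  refine ⟨_, h, fun v => ?_⟩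
  simp only [dt, add_apply, sub_apply, smul_apply,
    ContinuousLinearMap.comp_apply, PiLp.proj_apply, smul_eq_mul,
    Pi.mul_apply, Pi.sub_apply]
  ring

theorem cdt_AD {Y : Type} [TopologicalSpace Y] {a b c : Y → E3} {s : Set Y}
    (ha : ContinuousOn a s) (hb : ContinuousOn b s) (hc : ContinuousOn c s) :
    ContinuousOn (fun y => dt (a y) (b y) (c y)) s := by
  have hp : ∀ {u : Y → E3}, ContinuousOn u s → ∀ i, ContinuousOn (fun y => u y i) s :=
    fun {u} hu i => (EuclideanSpace.proj i : E3 →L[ℝ] ℝ).continuous.comp_continuousOn hu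
  exact (((hp ha 0).mul (((hp hb 1).mul (hp hc 2)).sub ((hp hb 2).mul (hp hc 1)))).sub
    ((hp ha 1).mul (((hp hb 0).mul (hp hc 2)).sub ((hp hb 2).mul (hp hc 0))))).add
    ((hp ha 2).mul (((hp hb 0).mul (hp hc 1)).sub ((hp hb 1).mul (hp hc 0))))

/-- divergence theorem on a box, when only the bottom face contributes -/
theorem box_AD (W : Fin 3 → E3 → ℝ) (g : E3 → ℝ) (a b : Fin 3 → ℝ) (hab : a ≤ b) (ha : a 2 = 0)
    (hc : ∀ i, ContinuousOn (W i) {y : E3 | ∀ i, a i ≤ y i ∧ y i ≤ b i})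
    (hg : ContinuousOn g {y : E3 | ∀ i, a i ≤ y i ∧ y i ≤ b i})
    (hd : ∀ y : E3, (∀ i, a i < y i ∧ y i < b i) → ∃ D : Fin 3 → E3 →L[ℝ] ℝ,
      (∀ i, HasFDerivAt (W i) (D i) y) ∧ D 0 (EuclideanSpace.single 0 1) +
        D 1 (EuclideanSpace.single 1 1) + D 2 (EuclideanSpace.single 2 1) = g y)
    (hb0 : ∀ i, ∀ y : E3, (∀ i, a i ≤ y i ∧ y i ≤ b i) → y i = b i → W i y = 0)
    (ha0 : ∀ y : E3, (∀ i, a i ≤ y i ∧ y i ≤ b i) → y 0 = a 0 → W 0 y = 0)
    (ha1 : ∀ y : E3, (∀ i, a i ≤ y i ∧ y i ≤ b i) → y 1 = a 1 → W 1 y = 0) :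
    ∫ y in {y : E3 | ∀ i, a i < y i ∧ y i < b i}, g y =
      -∫ x in {x : E2 | (a 0 ≤ x 0 ∧ x 0 ≤ b 0) ∧ a 1 ≤ x 1 ∧ x 1 ≤ b 1}, W 2 (incl x) := by
  let L : (Fin 3 → ℝ) ≃L[ℝ] E3 := (PiLp.continuousLinearEquiv 2 ℝ (fun _ : Fin 3 => ℝ)).symm
  have hL : ∀ z, L z = WithLp.toLp 2 z := fun _ => rfl
  have hLe : ∀ i : Fin 3, L (Pi.single i 1) = EuclideanSpace.single i 1 := fun _ => rfl
  have hm : MapsTo L (Icc a b) {y : E3 | ∀ i, a i ≤ y i ∧ y i ≤ b i} :=
    fun z hz i => ⟨hz.1 i, hz.2 i⟩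
  have hae : (Set.pi univ fun i => Ioo (a i) (b i)) =ᵐ[volume] Icc a b :=
    Measure.univ_pi_Ioo_ae_eq_Icc
  have hmo : MeasurableSet (Set.pi univ fun i => Ioo (a i) (b i)) :=
    MeasurableSet.univ_pi fun i => measurableSet_Ioo
  have heq : EqOn (fun z => g (L z))
      (fun z => ∑ i, ((fderiv ℝ (W i) (L z)).comp (L : (Fin 3 → ℝ) →L[ℝ] E3)) (Pi.single i 1))
      (Set.pi univ fun i => Ioo (a i) (b i)) := by
    intro z hz
    obtain ⟨D, hD, hs⟩ := hd (L z) (fun i => hz i (mem_univ i))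
    simp only [Fin.sum_univ_three, ContinuousLinearMap.comp_apply, ContinuousLinearEquiv.coe_coe,
      hLe, (hD _).fderiv]
    exact hs.symm
  have hgi : IntegrableOn (fun z => g (L z)) (Icc a b) :=
    (hg.comp L.continuous.continuousOn hm).integrableOn_Icc
  have key := integral_divergence_of_hasFDerivAt_off_countable' (n := 2) a b hab
    (fun i z => W i (L z)) (fun i z => (fderiv ℝ (W i) (L z)).comp (L : (Fin 3 → ℝ) →L[ℝ] E3)) ∅
    countable_empty (fun i => (hc i).comp L.continuous.continuousOn hm)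
    (fun z hz i => by
      obtain ⟨D, hD, -⟩ := hd (L z) (fun i => hz.1 i (mem_univ i))
      exact (hD i).differentiableAt.hasFDerivAt.comp z (L : (Fin 3 → ℝ) →L[ℝ] E3).hasFDerivAt)
    (((hgi.congr_set_ae hae).congr_fun heq hmo).congr_set_ae hae.symm)
  rw [← setIntegral_congr_set hae, ← setIntegral_congr_fun hmo heq] at key
  have hfront : ∀ i : Fin 3, ∫ x in Icc (a ∘ Fin.succAbove i) (b ∘ Fin.succAbove i),
      W i (L (Fin.insertNth i (b i) x)) = 0 := by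
    intro i
    refine setIntegral_eq_zero_of_forall_eq_zero fun x hx => hb0 i _ (hm ?_) ?_
    · exact Fin.insertNth_mem_Icc.2 ⟨⟨hab i, le_rfl⟩, hx⟩
    · exact Fin.insertNth_apply_same (α := fun _ => ℝ) i (b i) x
  have hback : ∀ i : Fin 3, (∀ y : E3, (∀ i, a i ≤ y i ∧ y i ≤ b i) → y i = a i → W i y = 0) →
      ∫ x in Icc (a ∘ Fin.succAbove i) (b ∘ Fin.succAbove i),
      W i (L (Fin.insertNth i (a i) x)) = 0 := by
    intro i h
    refine setIntegral_eq_zero_of_forall_eq_zero fun x hx => h _ (hm ?_) ?_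
    · exact Fin.insertNth_mem_Icc.2 ⟨⟨le_rfl, hab i⟩, hx⟩
    · exact Fin.insertNth_apply_same (α := fun _ => ℝ) i (a i) x
  rw [Fin.sum_univ_three, hfront 0, hfront 1, hfront 2, hback 0 ha0, hback 1 ha1] at key
  have e3 := (PiLp.volume_preserving_toLp (Fin 3)).setIntegral_preimage_emb
    (MeasurableEquiv.toLp 2 _).measurableEmbedding g {y : E3 | ∀ i, a i < y i ∧ y i < b i}
  have e2 := (PiLp.volume_preserving_toLp (Fin 2)).setIntegral_preimage_emb
    (MeasurableEquiv.toLp 2 _).measurableEmbedding (fun x => W 2 (incl x))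
    {x : E2 | (a 0 ≤ x 0 ∧ x 0 ≤ b 0) ∧ a 1 ≤ x 1 ∧ x 1 ≤ b 1}
  have s3 : (WithLp.toLp 2 : (Fin 3 → ℝ) → E3) ⁻¹' {y : E3 | ∀ i, a i < y i ∧ y i < b i} =
      Set.pi univ fun i => Ioo (a i) (b i) := by
    ext z
    exact ⟨fun h i _ => h i, fun h i => h i (mem_univ i)⟩
  have s2 : (WithLp.toLp 2 : (Fin 2 → ℝ) → E2) ⁻¹'
      {x : E2 | (a 0 ≤ x 0 ∧ x 0 ≤ b 0) ∧ a 1 ≤ x 1 ∧ x 1 ≤ b 1} =
      Icc (a ∘ Fin.succAbove 2) (b ∘ Fin.succAbove 2) := by
    ext z
    constructor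
    · intro h
      exact ⟨Fin.forall_fin_two.2 ⟨h.1.1, h.2.1⟩, Fin.forall_fin_two.2 ⟨h.1.2, h.2.2⟩⟩
    · intro h
      exact ⟨⟨h.1 0, h.2 0⟩, h.1 1, h.2 1⟩
  have hi : ∀ x : Fin 2 → ℝ, L (Fin.insertNth 2 (a 2) x) = incl (WithLp.toLp 2 x) := by
    intro x
    ext i
    fin_cases i
    · exact Fin.insertNth_apply_succAbove (α := fun _ => ℝ) 2 (a 2) x 0
    · exact Fin.insertNth_apply_succAbove (α := fun _ => ℝ) 2 (a 2) x 1
    · exact (Fin.insertNth_apply_same (α := fun _ => ℝ) 2 (a 2) x).trans ha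
  rw [← e3, ← e2, s3, s2]
  simp only [hi] at key
  simp only [← hL]
  rw [key]
  ring

/-- the horizontal projection as a continuous linear map -/
def prL_AD : E3 →L[ℝ] E2 := LinearMap.toContinuousLinearMap
  { toFun := pr
    map_add' := fun x y => by ext i; fin_cases i <;> simp [pr]
    map_smul' := fun t x => by ext i; fin_cases i <;> simp [pr] }

theorem prL_ap_AD (y : E3) : prL_AD y = pr y := rfl

theorem cpr_AD : Continuous pr := prL_AD.continuous

theorem pr_incl_AD (x : E2) : pr (incl x) = x := by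
  ext i; fin_cases i <;> simp [pr, incl]

theorem pr0_AD : pr (EuclideanSpace.single 0 1) = EuclideanSpace.single 0 1 := by
  ext i; fin_cases i <;> simp [pr]

theorem pr1_AD : pr (EuclideanSpace.single 1 1) = EuclideanSpace.single 1 1 := by
  ext i; fin_cases i <;> simp [pr]

theorem pr2_AD : pr (EuclideanSpace.single 2 1) = 0 := by
  ext i; fin_cases i <;> simp [pr]

theorem mh_AD {x : E2} (h : 0 ≤ x 0) : x ∈ halfPlane := h

theorem udh_AD : UniqueDiffOn ℝ halfPlane := by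
  refine uniqueDiffOn_convex ?_ ?_
  · intro x hx y hy s t hs ht _
    have hx' : 0 ≤ x 0 := hx
    have hy' : 0 ≤ y 0 := hy
    show 0 ≤ (s • x + t • y) 0
    simp only [PiLp.add_apply, PiLp.smul_apply, smul_eq_mul]
    positivity
  · refine ⟨EuclideanSpace.single 0 1, mem_interior.2 ⟨{x : E2 | 0 < x 0},
      fun x hx => mh_AD (le_of_lt hx),
      isOpen_lt continuous_const (EuclideanSpace.proj (0 : Fin 2) : E2 →L[ℝ] ℝ).continuous, ?_⟩⟩
    show (0 : ℝ) < (EuclideanSpace.single (0 : Fin 2) (1 : ℝ) : E2) 0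
    simp

theorem pdsm_AD {G : E2 → E3} {O : Set E2} (hO : IsOpen O)
    (hG : ContDiffOn ℝ ∞ G (O ∩ halfPlane)) (i : Fin 2) :
    ContDiffOn ℝ ∞ (pd G i) (O ∩ halfPlane) := by
  have hu : UniqueDiffOn ℝ (O ∩ halfPlane) := by
    rw [inter_comm]; exact udh_AD.inter hO
  have h := (hG.fderivWithin hu (m := ∞) le_rfl).clm_apply
    (contDiffOn_const (c := (EuclideanSpace.single i 1 : E2)))
  refine h.congr fun x hx => ?_
  unfold pd
  rw [inter_comm, fderivWithin_inter (hO.mem_nhds hx.1)]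

theorem pdw_AD {G : E2 → E3} {O : Set E2} (hO : IsOpen O)
    (hG : ContDiffOn ℝ ∞ G (O ∩ halfPlane)) {x : E2} (hx : x ∈ O ∩ halfPlane) :
    HasFDerivWithinAt G (fderivWithin ℝ G halfPlane x) halfPlane x := by
  have h := (hG.differentiableOn (by simp) x hx)
  rw [inter_comm] at h
  exact ((differentiableWithinAt_inter (hO.mem_nhds hx.1)).1 h).hasFDerivWithinAt

theorem pdat_AD {G : E2 → E3} {O : Set E2} (hO : IsOpen O)
    (hG : ContDiffOn ℝ ∞ G (O ∩ halfPlane)) {y : E3} (hy : pr y ∈ O) (h0 : 0 < y 0) :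
    ∃ D : E3 →L[ℝ] E3, HasFDerivAt (fun y => G (pr y)) D y ∧
      D (EuclideanSpace.single 0 1) = pd G 0 (pr y) ∧
      D (EuclideanSpace.single 1 1) = pd G 1 (pr y) ∧ D (EuclideanSpace.single 2 1) = 0 := by
  have hn : halfPlane ∈ 𝓝 (pr y) :=
    mem_of_superset ((isOpen_lt continuous_const
      (EuclideanSpace.proj (0 : Fin 2) : E2 →L[ℝ] ℝ).continuous).mem_nhds
      (show (0 : ℝ) < pr y 0 from h0)) fun x hx => mh_AD (le_of_lt hx)
  have h := (pdw_AD hO hG ⟨hy, mem_of_mem_nhds hn⟩).hasFDerivAt hn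
  refine ⟨_, h.comp y prL_AD.hasFDerivAt, ?_, ?_, ?_⟩
  · rw [ContinuousLinearMap.comp_apply, prL_ap_AD, pr0_AD]; rfl
  · rw [ContinuousLinearMap.comp_apply, prL_ap_AD, pr1_AD]; rfl
  · rw [ContinuousLinearMap.comp_apply, prL_ap_AD, pr2_AD, map_zero]

theorem pdbd_AD {G : E2 → E3} {O : Set E2} (hO : IsOpen O)
    (hG : ContDiffOn ℝ ∞ G (O ∩ halfPlane)) (hz : ∀ x ∈ O, x 0 = 0 → G x 2 = 0)
    {x : E2} (hx : x ∈ O) (h0 : x 0 = 0) : pd G 1 x 2 = 0 := by
  have hxh : x ∈ halfPlane := le_of_eq h0.symm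
  have h := pdw_AD hO hG ⟨hx, hxh⟩
  have hl : HasDerivAt (fun t : ℝ => x + t • (EuclideanSpace.single 1 1 : E2))
      (EuclideanSpace.single 1 1 : E2) 0 := by
    simpa using ((hasDerivAt_id (0 : ℝ)).smul_const (EuclideanSpace.single 1 1 : E2)).const_add x
  have hl0 : ∀ t : ℝ, (x + t • (EuclideanSpace.single 1 1 : E2)) 0 = 0 := by
    intro t; simp [h0]
  have h1 : HasFDerivWithinAt G (fderivWithin ℝ G halfPlane x) halfPlane
      (x + (0 : ℝ) • (EuclideanSpace.single 1 1 : E2)) := by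
    rw [zero_smul, add_zero]; exact h
  have h2 := (h1.comp_hasDerivWithinAt (0 : ℝ) (hl.hasDerivWithinAt (s := univ))
    (fun t _ => mh_AD (le_of_eq (hl0 t).symm))).hasDerivAt univ_mem
  have h3 := (EuclideanSpace.proj (2 : Fin 3) : E3 →L[ℝ] ℝ).hasFDerivAt.comp_hasDerivAt (0 : ℝ) h2
  have hev : ∀ᶠ t in 𝓝 (0 : ℝ), x + t • (EuclideanSpace.single 1 1 : E2) ∈ O := by
    refine hl.continuousAt.preimage_mem_nhds (hO.mem_nhds ?_)
    show x + (0 : ℝ) • (EuclideanSpace.single 1 1 : E2) ∈ O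
    rw [zero_smul, add_zero]; exact hx
  have h4 := (hasDerivAt_const (0 : ℝ) (0 : ℝ)).congr_of_eventuallyEq
    (f₁ := (EuclideanSpace.proj (2 : Fin 3) : E3 →L[ℝ] ℝ) ∘ G ∘
      fun t : ℝ => x + t • (EuclideanSpace.single 1 1 : E2))
    (hev.mono fun t ht => hz _ ht (hl0 t))
  exact h3.unique h4

theorem sign_AD {J : E2 → ℝ} {Q : Set E2} (hQ : IsPreconnected Q) (hJ : ContinuousOn J Q)
    (hne : ∀ x ∈ Q, J x ≠ 0) : ∃ ς : ℝ, ∀ x ∈ Q, |J x| = ς * J x ∧ 0 < ς * J x := by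
  by_cases h : ∀ x ∈ Q, 0 < J x
  · exact ⟨1, fun x hx => ⟨by rw [one_mul, abs_of_pos (h x hx)], by rw [one_mul]; exact h x hx⟩⟩
  · push Not at h
    obtain ⟨x1, hx1, h1⟩ := h
    have hneg : ∀ x ∈ Q, J x < 0 := by
      intro x hx
      by_contra hc
      obtain ⟨z, hz, hz0⟩ := hQ.intermediate_value hx1 hx hJ ⟨h1, not_lt.1 hc⟩
      exact hne z hz hz0
    refine ⟨-1, fun x hx => ⟨?_, ?_⟩⟩
    · rw [abs_of_neg (hneg x hx)]; ring
    · have := hneg x hx
      linarith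

theorem dv0_AD {X : E3 → E3} {x : E3} (hx : x ∉ tsupport X) : dv X x = 0 := by
  have h : fderiv ℝ X x = 0 := by
    by_contra hc
    exact hx (support_fderiv_subset ℝ hc)
  simp [dv, pD, h]

theorem cdv_AD {X : E3 → E3} (hX : ContDiff ℝ 1 X) : Continuous (dv X) := by
  have h : Continuous (fderiv ℝ X) := hX.continuous_fderiv one_ne_zero
  have hp : ∀ i j, Continuous fun x => pD X x i j := fun i j =>
    (EuclideanSpace.proj j : E3 →L[ℝ] ℝ).continuous.comp (h.clm_apply continuous_const)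
  exact ((hp 0 0).add (hp 1 1)).add (hp 2 2)

theorem shrink_AD {K : Set E3} (hK : IsCompact K) {y0 : E3} {ε : ℝ} (hε : 0 < ε)
    (hs : K ⊆ cube y0 ε) : ∃ δ, 0 < δ ∧ δ < ε ∧ K ⊆ cube y0 δ := by
  rcases K.eq_empty_or_nonempty with rfl | hne
  · exact ⟨ε / 2, by linarith, by linarith, empty_subset _⟩
  have hc : Continuous fun y : E3 => ‖WithLp.ofLp (y - y0)‖ := by fun_prop
  obtain ⟨z, hz, hm⟩ := hK.exists_isMaxOn hne hc.continuousOn
  have hz' : ‖WithLp.ofLp (z - y0)‖ < ε := (pi_norm_lt_iff hε).2 fun i => hs hz i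
  have h0 := norm_nonneg (WithLp.ofLp (z - y0))
  refine ⟨(‖WithLp.ofLp (z - y0)‖ + ε) / 2, by linarith, by linarith, fun y hy i => ?_⟩
  have h1 : ‖WithLp.ofLp (y - y0)‖ ≤ ‖WithLp.ofLp (z - y0)‖ := hm hy
  have h2 : |y i - y0 i| ≤ ‖WithLp.ofLp (y - y0)‖ := norm_le_pi_norm (WithLp.ofLp (y - y0)) i
  linarith

end Pool.Agent.MP_efb2da_gt.Emb

end

end

section

/-! The divergence theorem for one side of a surface in a straightening chart. -/

open scoped Manifold ContDiff RealInnerProductSpace Topology ENNReal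
open Set MeasureTheory Filter Metric

noncomputable section

namespace Pool.Agent.MP_efb2da_gt.Emb

theorem f3_AD {P : Fin 3 → Prop} (h0 : P 0) (h1 : P 1) (h2 : P 2) : ∀ i, P i := by
  intro i
  fin_cases i
  · exact h0
  · exact h1
  · exact h2

theorem dtz_AD (a b : E3) : dt 0 a b = 0 ∧ dt a 0 b = 0 ∧ dt a b 0 = 0 := by
  simp [dt]

theorem psi_AD {F : E2 → E3} {O : Set E2} (hO : IsOpen O)
    (hF : ContDiffOn ℝ ∞ F (O ∩ halfPlane)) (n0 : E3) {y : E3} (hy : pr y ∈ O) (h0 : 0 < y 0) :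
    ∃ D : E3 →L[ℝ] E3, HasFDerivAt (fun y : E3 => F (pr y) + y 2 • n0) D y ∧
      D (EuclideanSpace.single 0 1) = pd F 0 (pr y) ∧
      D (EuclideanSpace.single 1 1) = pd F 1 (pr y) ∧ D (EuclideanSpace.single 2 1) = n0 := by
  obtain ⟨D, hD, d0, d1, d2⟩ := pdat_AD hO hF hy h0
  have h2 := (EuclideanSpace.proj (2 : Fin 3) : E3 →L[ℝ] ℝ).hasFDerivAt (x := y)
  refine ⟨_, hD.add (h2.smul_const n0), ?_, ?_, ?_⟩
  · simp [d0]
  · simp [d1]
  · simp [d2]

theorem core_AD {F : E2 → E3} {O : Set E2} (hO : IsOpen O)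
    (hF : ContDiffOn ℝ ∞ F (O ∩ halfPlane))
    (hsy : ∀ x ∈ O ∩ halfPlane, pd (pd F 0) 1 x = pd (pd F 1) 0 x)
    (n0 : E3) {X : E3 → E3} (hX : ContDiff ℝ 1 X) (a b : Fin 3 → ℝ) (hab : a ≤ b) (ha : a 2 = 0)
    (ha0 : 0 ≤ a 0) (hsub : ∀ y : E3, (∀ i, a i ≤ y i ∧ y i ≤ b i) → pr y ∈ O)
    (hb0 : ∀ i, ∀ y : E3, (∀ i, a i ≤ y i ∧ y i ≤ b i) → y i = b i → X (F (pr y) + y 2 • n0) = 0)
    (h0 : ∀ y : E3, (∀ i, a i ≤ y i ∧ y i ≤ b i) → y 0 = a 0 →
      dt (X (F (pr y) + y 2 • n0)) (pd F 1 (pr y)) n0 = 0)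
    (h1 : ∀ y : E3, (∀ i, a i ≤ y i ∧ y i ≤ b i) → y 1 = a 1 → X (F (pr y) + y 2 • n0) = 0) :
    ∫ y in {y : E3 | ∀ i, a i < y i ∧ y i < b i},
      dv X (F (pr y) + y 2 • n0) * dt (pd F 0 (pr y)) (pd F 1 (pr y)) n0 =
      -∫ x in {x : E2 | (a 0 ≤ x 0 ∧ x 0 ≤ b 0) ∧ a 1 ≤ x 1 ∧ x 1 ≤ b 1},
        dt (pd F 0 x) (pd F 1 x) (X (F x)) := by
  have hm : MapsTo pr {y : E3 | ∀ i, a i ≤ y i ∧ y i ≤ b i} (O ∩ halfPlane) :=
    fun y hy => ⟨hsub y hy, mh_AD (ha0.trans (hy 0).1)⟩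
  have cP : ∀ i, ContinuousOn (fun y => pd F i (pr y)) {y : E3 | ∀ i, a i ≤ y i ∧ y i ≤ b i} :=
    fun i => (pdsm_AD hO hF i).continuousOn.comp cpr_AD.continuousOn hm
  have cΨ : ContinuousOn (fun y : E3 => F (pr y) + y 2 • n0)
      {y : E3 | ∀ i, a i ≤ y i ∧ y i ≤ b i} :=
    (hF.continuousOn.comp cpr_AD.continuousOn hm).add
      ((EuclideanSpace.proj (2 : Fin 3) : E3 →L[ℝ] ℝ).continuous.continuousOn.smul
        continuousOn_const)
  have cX : ContinuousOn (fun y : E3 => X (F (pr y) + y 2 • n0))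
      {y : E3 | ∀ i, a i ≤ y i ∧ y i ≤ b i} := hX.continuous.comp_continuousOn cΨ
  have key := box_AD
    ![fun y => dt (X (F (pr y) + y 2 • n0)) (pd F 1 (pr y)) n0,
      fun y => dt (pd F 0 (pr y)) (X (F (pr y) + y 2 • n0)) n0,
      fun y => dt (pd F 0 (pr y)) (pd F 1 (pr y)) (X (F (pr y) + y 2 • n0))]
    (fun y => dv X (F (pr y) + y 2 • n0) * dt (pd F 0 (pr y)) (pd F 1 (pr y)) n0) a b hab ha
    (f3_AD (cdt_AD cX (cP 1) continuousOn_const) (cdt_AD (cP 0) cX continuousOn_const)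
      (cdt_AD (cP 0) (cP 1) cX))
    (((cdv_AD hX).comp_continuousOn cΨ).mul (cdt_AD (cP 0) (cP 1) continuousOn_const))
    (fun y hy => by
      have hy' : ∀ i, a i ≤ y i ∧ y i ≤ b i := fun i => ⟨(hy i).1.le, (hy i).2.le⟩
      have hyO := hsub y hy'
      have hy0 : 0 < y 0 := ha0.trans_lt (hy 0).1
      obtain ⟨D, hD, d0, d1, d2⟩ := psi_AD hO hF n0 hyO hy0
      obtain ⟨P, hP, -, p1, p2⟩ := pdat_AD hO (pdsm_AD hO hF 0) hyO hy0
      obtain ⟨Q, hQ, q0, -, q2⟩ := pdat_AD hO (pdsm_AD hO hF 1) hyO hy0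
      have hA := ((hX.differentiable one_ne_zero) (F (pr y) + y 2 • n0)).hasFDerivAt.comp y hD
      obtain ⟨D0, hD0, e0⟩ := hdt_AD hA hQ (hasFDerivAt_const n0 y)
      obtain ⟨D1, hD1, e1⟩ := hdt_AD hP hA (hasFDerivAt_const n0 y)
      obtain ⟨D2, hD2, e2⟩ := hdt_AD hP hQ hA
      refine ⟨![D0, D1, D2], f3_AD hD0 hD1 hD2, ?_⟩
      show D0 (EuclideanSpace.single 0 1) + D1 (EuclideanSpace.single 1 1) +
        D2 (EuclideanSpace.single 2 1) =
        dv X (F (pr y) + y 2 • n0) * dt (pd F 0 (pr y)) (pd F 1 (pr y)) n0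
      have ht := trace_AD (fderiv ℝ X (F (pr y) + y 2 • n0)) (pd F 0 (pr y)) (pd F 1 (pr y)) n0
      have hs := hsy _ (hm hy')
      rw [e0, e1, e2]
      simp only [ContinuousLinearMap.comp_apply, d0, d1, d2, p1, p2, q0, q2, hs,
        zero_apply, (dtz_AD _ _).1, (dtz_AD _ _).2.1, (dtz_AD _ _).2.2, Function.comp_apply]
      have hsw : ∀ u v : E3, dt u v n0 + dt v u n0 = 0 := fun u v => by
        simp only [dt]; ring
      have hsw' := hsw (X (F (pr y) + y 2 • n0)) (pd (pd F 1) 0 (pr y))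
      simp only [dv, pD]
      linarith)
    (f3_AD
      (fun y hy h => by
        show dt (X (F (pr y) + y 2 • n0)) (pd F 1 (pr y)) n0 = 0
        rw [hb0 0 y hy h]; exact (dtz_AD _ _).1)
      (fun y hy h => by
        show dt (pd F 0 (pr y)) (X (F (pr y) + y 2 • n0)) n0 = 0
        rw [hb0 1 y hy h]; exact (dtz_AD _ _).2.1)
      (fun y hy h => by
        show dt (pd F 0 (pr y)) (pd F 1 (pr y)) (X (F (pr y) + y 2 • n0)) = 0
        rw [hb0 2 y hy h]; exact (dtz_AD _ _).2.2))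
    h0
    (fun y hy h => by
      show dt (pd F 0 (pr y)) (X (F (pr y) + y 2 • n0)) n0 = 0
      rw [h1 y hy h]; exact (dtz_AD _ _).2.1)
  rw [key]
  congr 1
  refine integral_congr_ae (Eventually.of_forall fun x => ?_)
  show dt (pd F 0 (pr (incl x))) (pd F 1 (pr (incl x))) (X (F (pr (incl x)) + incl x 2 • n0)) =
    dt (pd F 0 x) (pd F 1 x) (X (F x))
  have hi : incl x 2 = 0 := rfl
  rw [pr_incl_AD, hi, zero_smul, add_zero]

theorem cube_AD (x0 : E2) (r : ℝ) (y : E3) : y ∈ cube (incl x0) r ↔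
    (x0 0 - r < y 0 ∧ y 0 < x0 0 + r) ∧ (x0 1 - r < y 1 ∧ y 1 < x0 1 + r) ∧
      -r < y 2 ∧ y 2 < r := by
  constructor
  · intro h
    have h0 : |y 0 - x0 0| < r := h 0
    have h1 : |y 1 - x0 1| < r := h 1
    have h2 : |y 2 - 0| < r := h 2
    rw [abs_lt] at h0 h1 h2
    refine ⟨⟨?_, ?_⟩, ⟨?_, ?_⟩, ?_, ?_⟩ <;> linarith [h0.1, h0.2, h1.1, h1.2, h2.1, h2.2]
  · rintro ⟨⟨h1, h2⟩, ⟨h3, h4⟩, h5, h6⟩
    refine f3_AD ?_ ?_ ?_
    · show |y 0 - x0 0| < r
      rw [abs_lt]; constructor <;> linarith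
    · show |y 1 - x0 1| < r
      rw [abs_lt]; constructor <;> linarith
    · show |y 2 - 0| < r
      rw [abs_lt]; constructor <;> linarith

variable {M : Type} [TopologicalSpace M] [T2Space M] [CompactSpace M] [ConnectedSpace M]
  [MeasurableSpace M] [BorelSpace M]

theorem AD_pf (E : Dat M) (μ : Measure M) (c : ℝ) : SAD E μ c := by
  intro ok mu em p e n0 ε fl X hX hXs hTg
  obtain ⟨x0, hx0⟩ : ∃ x0, x0 = (E.c p).φ p := ⟨_, rfl⟩
  have hx0T : x0 ∈ (E.c p).O ∩ halfPlane := hx0 ▸ (E.c p).mφ (ok.o0.mem p)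
  have hx00 : 0 ≤ x0 0 := hx0T.2
  have hsrc : e.source = cube (incl x0) ε := hx0 ▸ fl.src
  have hO := (E.c p).oO
  have hF : ContDiffOn ℝ ∞ (E.F p) ((E.c p).O ∩ halfPlane) := ok.o0.sF p
  have hKc : IsCompact (e.symm '' tsupport X) :=
    hX.2.isCompact.image_of_continuousOn (e.continuousOn_symm.mono hXs)
  have hKs : e.symm '' tsupport X ⊆ cube (incl x0) ε := by
    rintro _ ⟨z, hz, rfl⟩
    exact hsrc ▸ e.map_target (hXs hz)
  obtain ⟨δ, hδ, hδε, hK⟩ := shrink_AD hKc fl.pos hKs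
  have hsupp : ∀ y ∈ e.source, 0 ≤ y 0 → E.F p (pr y) + y 2 • n0 ∈ tsupport X →
      y ∈ cube (incl x0) δ := by
    intro y hy h0 h
    rw [← fl.eq y hy h0] at h
    exact hK ⟨_, h, e.left_inv hy⟩
  obtain ⟨a, ha⟩ : ∃ a : Fin 3 → ℝ, a = ![max (x0 0 - δ) 0, x0 1 - δ, 0] := ⟨_, rfl⟩
  obtain ⟨b, hb⟩ : ∃ b : Fin 3 → ℝ, b = ![x0 0 + δ, x0 1 + δ, δ] := ⟨_, rfl⟩
  have a0 : a 0 = max (x0 0 - δ) 0 := by rw [ha]; rfl
  have a1 : a 1 = x0 1 - δ := by rw [ha]; rfl
  have a2 : a 2 = 0 := by rw [ha]; rfl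
  have b0 : b 0 = x0 0 + δ := by rw [hb]; rfl
  have b1 : b 1 = x0 1 + δ := by rw [hb]; rfl
  have b2 : b 2 = δ := by rw [hb]; rfl
  have m1 : x0 0 - δ ≤ a 0 := a0 ▸ le_max_left _ _
  have m2 : 0 ≤ a 0 := a0 ▸ le_max_right _ _
  have m3 : ∀ t : ℝ, x0 0 - δ < t → 0 < t → a 0 < t := fun t h1 h2 => a0 ▸ max_lt h1 h2
  have m4 : ∀ t : ℝ, x0 0 - δ < t → 0 ≤ t → a 0 ≤ t := fun t h1 h2 => a0 ▸ max_le h1.le h2
  have hab : a ≤ b := by
    refine f3_AD ?_ ?_ ?_
    · exact m4 _ (by linarith) (by linarith)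
    · linarith
    · linarith
  have hbox : ∀ y : E3, (∀ i, a i ≤ y i ∧ y i ≤ b i) → y ∈ e.source ∧ 0 ≤ y 0 := by
    intro y hy
    have y0 := hy 0
    have y1 := hy 1
    have y2 := hy 2
    refine ⟨?_, by linarith [y0.1]⟩
    rw [hsrc, cube_AD]
    refine ⟨⟨?_, ?_⟩, ⟨?_, ?_⟩, ?_, ?_⟩ <;> linarith [y0.1, y0.2, y1.1, y1.2, y2.1, y2.2]
  have hzero : ∀ y : E3, (∀ i, a i ≤ y i ∧ y i ≤ b i) → y ∉ cube (incl x0) δ →
      X (E.F p (pr y) + y 2 • n0) = 0 := fun y hy h =>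
    image_eq_zero_of_notMem_tsupport fun hc => h (hsupp y (hbox y hy).1 (hbox y hy).2 hc)
  have core := core_AD hO hF (ok.o2.sy p) n0 hX.1 a b hab a2 m2
    (fun y hy => fl.sub y (hbox y hy).1)
    (f3_AD
      (fun y hy h => hzero y hy fun hc => by
        have := ((cube_AD _ _ _).1 hc).1.2
        linarith)
      (fun y hy h => hzero y hy fun hc => by
        have := ((cube_AD _ _ _).1 hc).2.1.2
        linarith)
      (fun y hy h => hzero y hy fun hc => by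
        have := ((cube_AD _ _ _).1 hc).2.2.2
        linarith))
    (fun y hy h => by
      by_cases hc : y ∈ cube (incl x0) δ
      · have h1 := ((cube_AD _ _ _).1 hc).1.1
        have h0 : y 0 = 0 := by
          by_contra hne
          have := m3 (y 0) h1 (lt_of_le_of_ne (hbox y hy).2 (Ne.symm hne))
          linarith
        have hp : p ∈ E.bd := by
          by_contra hp
          have := fl.int hp y (hbox y hy).1
          linarith
        have hn : n0 2 = 0 := (fl.hz hp).1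
        have hz : ∀ x ∈ (E.c p).O, x 0 = 0 → E.F p x 2 = 0 := by
          intro x hx hx0
          have hT : x ∈ (E.c p).O ∩ halfPlane := ⟨hx, mh_AD hx0.ge⟩
          refine em.e0.bdP _ ((ok.o0.bdi p _ ((E.c p).mψ hT)).2 ?_)
          rw [(E.c p).ri x hT]; exact hx0
        have hyO := fl.sub y (hbox y hy).1
        have h2 : pd (E.F p) 1 (pr y) 2 = 0 := pdbd_AD hO hF hz hyO h0
        have h3 : X (E.F p (pr y) + y 2 • n0) 2 = 0 := by
          refine hTg hp _ ?_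
          rw [PiLp.add_apply, PiLp.smul_apply, hn, hz _ hyO h0, smul_zero, add_zero]
        simp only [dt, hn, h2, h3]
        ring
      · rw [hzero y hy hc]; exact (dtz_AD _ _).1)
    (fun y hy h => hzero y hy fun hc => by
      have := ((cube_AD _ _ _).1 hc).2.1.1
      linarith)
  obtain ⟨Q, hQ⟩ : ∃ Q, Q = {x : E2 | (a 0 ≤ x 0 ∧ x 0 ≤ b 0) ∧ a 1 ≤ x 1 ∧ x 1 ≤ b 1} := ⟨_, rfl⟩
  have c0 := (EuclideanSpace.proj (0 : Fin 2) : E2 →L[ℝ] ℝ).continuous
  have c1 := (EuclideanSpace.proj (1 : Fin 2) : E2 →L[ℝ] ℝ).continuous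
  have hQi : ∀ x ∈ Q, ∀ i, a i ≤ incl x i ∧ incl x i ≤ b i := by
    intro x hx
    rw [hQ] at hx
    exact f3_AD hx.1 hx.2 ⟨a2.le, b2 ▸ hδ.le⟩
  have hQT : Q ⊆ E.T p := by
    intro x hx
    have h := hbox _ (hQi x hx)
    have h1 := fl.sub _ h.1
    rw [pr_incl_AD] at h1
    exact ⟨h1, mh_AD h.2⟩
  have hQc : IsPreconnected Q := by
    have l0 : IsLinearMap ℝ fun x : E2 => x 0 := ⟨fun _ _ => rfl, fun _ _ => rfl⟩
    have l1 : IsLinearMap ℝ fun x : E2 => x 1 := ⟨fun _ _ => rfl, fun _ _ => rfl⟩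
    rw [hQ]
    exact (((convex_halfSpace_ge l0 _).inter (convex_halfSpace_le l0 _)).inter
      ((convex_halfSpace_ge l1 _).inter (convex_halfSpace_le l1 _))).isPreconnected
  have hQm : MeasurableSet Q := by
    rw [hQ]
    exact (((isClosed_le continuous_const c0).inter (isClosed_le c0 continuous_const)).inter
      ((isClosed_le continuous_const c1).inter (isClosed_le c1 continuous_const))).measurableSet
  obtain ⟨ς, hς⟩ := sign_AD hQc ((ok.o2.cJ p).mono hQT) fun x hx => ok.o2.Jne p x (hQT hx)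
  have hdt : ∀ x ∈ E.T p, ∀ v : E3,
      dt (pd (E.F p) 0 x) (pd (E.F p) 1 x) v = E.J p x * ⟪v, E.n p x⟫ := by
    intro x hx v
    rw [← inner_crs, ok.o2.crsJ p x hx, real_inner_smul_left, real_inner_comm]
  rw [← hQ] at core
  have d := fun i : Fin 3 => (EuclideanSpace.proj i : E3 →L[ℝ] ℝ).continuous
  have hRo : IsOpen (e.source ∩ {y : E3 | 0 < y 0 ∧ 0 < y 2}) :=
    e.open_source.inter ((isOpen_lt continuous_const (d 0)).inter (isOpen_lt continuous_const (d 2)))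
  have hBo : IsOpen {y : E3 | ∀ i, a i < y i ∧ y i < b i} := by
    rw [ofPred_forall]
    exact isOpen_iInter_of_finite fun i =>
      (isOpen_lt continuous_const (d i)).inter (isOpen_lt (d i) continuous_const)
  have heq : EqOn e (fun y : E3 => E.F p (pr y) + y 2 • n0)
      (e.source ∩ {y : E3 | 0 < y 0 ∧ 0 < y 2}) := fun y hy => fl.eq y hy.1 hy.2.1.le
  have hBR : {y : E3 | ∀ i, a i < y i ∧ y i < b i} ⊆ e.source ∩ {y : E3 | 0 < y 0 ∧ 0 < y 2} :=
    fun y hy => ⟨(hbox y fun i => ⟨(hy i).1.le, (hy i).2.le⟩).1, m2.trans_lt (hy 0).1,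
      a2 ▸ (hy 2).1⟩
  have s1 := integral_image_eq_integral_abs_det_fderiv_smul volume hRo.measurableSet
    (f := fun y : E3 => E.F p (pr y) + y 2 • n0)
    (f' := fderiv ℝ fun y : E3 => E.F p (pr y) + y 2 • n0)
    (fun y hy => by
      obtain ⟨D, hD, -⟩ := psi_AD hO hF n0 (fl.sub y hy.1) hy.2.1
      exact hD.differentiableAt.hasFDerivAt.hasFDerivWithinAt)
    ((e.injOn.mono inter_subset_left).congr heq) (dv X)
  rw [heq.image_eq, s1, setIntegral_eq_of_subset_of_forall_sdiff_eq_zero hRo.measurableSet hBR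
    (fun y hy => by
      have h : E.F p (pr y) + y 2 • n0 ∉ tsupport X := by
        intro hc
        obtain ⟨⟨h1, h2⟩, ⟨h3, h4⟩, -, h6⟩ :=
          (cube_AD _ _ _).1 (hsupp y hy.1.1 hy.1.2.1.le hc)
        refine hy.2 (f3_AD ⟨m3 _ h1 hy.1.2.1, ?_⟩ ⟨?_, ?_⟩ ⟨?_, ?_⟩)
        · linarith
        · linarith
        · linarith
        · exact a2 ▸ hy.1.2.2
        · linarith
      rw [dv0_AD h, smul_zero])]
  have s2 : ∫ y in {y : E3 | ∀ i, a i < y i ∧ y i < b i},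
      |(fderiv ℝ (fun y : E3 => E.F p (pr y) + y 2 • n0) y).det| • dv X (E.F p (pr y) + y 2 • n0) =
      ∫ y in {y : E3 | ∀ i, a i < y i ∧ y i < b i}, ς * (dv X (E.F p (pr y) + y 2 • n0) *
        dt (pd (E.F p) 0 (pr y)) (pd (E.F p) 1 (pr y)) n0) := by
    refine setIntegral_congr_fun hBo.measurableSet fun y hy => ?_
    have hyR := hBR hy
    obtain ⟨D, hD, d0, d1, d2⟩ := psi_AD hO hF n0 (fl.sub y hyR.1) hyR.2.1
    have hyQ : pr y ∈ Q := by
      rw [hQ]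
      exact ⟨⟨(hy 0).1.le, (hy 0).2.le⟩, (hy 1).1.le, (hy 1).2.le⟩
    have htv := fl.tv y hyR.1 hyR.2.1.le
    show |(fderiv ℝ (fun y : E3 => E.F p (pr y) + y 2 • n0) y).det| •
      dv X (E.F p (pr y) + y 2 • n0) = ς * (dv X (E.F p (pr y) + y 2 • n0) *
        dt (pd (E.F p) 0 (pr y)) (pd (E.F p) 1 (pr y)) n0)
    rw [hD.fderiv, det_AD, d0, d1, d2, hdt _ (hQT hyQ), abs_mul, (hς _ hyQ).1, abs_of_pos htv,
      smul_eq_mul]
    ring
  rw [s2, integral_const_mul, core]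
  have hu : Continuous fun q => ⟪X (E.f q), E.N q⟫ :=
    (hX.1.continuous.comp ok.o0.cf).inner ok.o0.cN
  have s3 : ∫ q in (E.c p).S, ⟪X (E.f q), E.N q⟫ ∂μ = ∫ q, ⟪X (E.f q), E.N q⟫ ∂μ := by
    refine setIntegral_eq_integral_of_forall_compl_eq_zero fun q hq => ?_
    have h : X (E.f q) = 0 :=
      image_eq_zero_of_notMem_tsupport fun hc => hq (fl.sg q (hXs hc)).1
    rw [h, inner_zero_left]
  have hTm : MeasurableSet (E.T p) :=
    hO.measurableSet.inter (isClosed_le continuous_const c0).measurableSet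
  rw [← s3, mu.int p _ hu.measurable, setIntegral_eq_of_subset_of_forall_sdiff_eq_zero hTm hQT
    (fun x hx => by
      have h : X (E.f ((E.c p).ψ x)) = 0 := by
        refine image_eq_zero_of_notMem_tsupport fun hc => hx.2 ?_
        have h1 := (fl.sg _ (hXs hc)).2
        rw [(E.c p).ri x hx.1] at h1
        have h0 : 0 ≤ x 0 := hx.1.2
        have hi : incl x 2 = 0 := rfl
        have h2 := hsupp (incl x) h1 h0 (by
          rw [pr_incl_AD, hi, zero_smul, add_zero]; exact hc)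
        obtain ⟨⟨h1, h2⟩, ⟨h3, h4⟩, -⟩ := (cube_AD _ _ _).1 h2
        rw [hQ]
        exact ⟨⟨m4 _ h1 h0, b0 ▸ h2.le⟩, a1 ▸ h3.le, b1 ▸ h4.le⟩
      rw [h, inner_zero_left, mul_zero]), mul_neg, ← integral_const_mul]
  congr 1
  refine setIntegral_congr_fun hQm fun x hx => ?_
  show ς * dt (pd (E.F p) 0 x) (pd (E.F p) 1 x) (X (E.F p x)) =
    |E.J p x| * ⟪X (E.F p x), E.n p x⟫
  rw [hdt _ (hQT hx), (hς x hx).1]
  ring

end Pool.Agent.MP_efb2da_gt.Emb

end

end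

section

/-! The local Stokes formula. -/

open scoped Manifold ContDiff RealInnerProductSpace Topology ENNReal
open Set MeasureTheory Filter Metric

noncomputable section

namespace Pool.Agent.MP_efb2da_gt.Emb

theorem ud_Stk : UniqueDiffOn ℝ halfPlane := by
  have h := (𝓡∂ 2).uniqueDiffOn
  rwa [range_modelWithCornersEuclideanHalfSpace] at h

theorem cl_Stk : IsClosed halfPlane := isClosed_le continuous_const (by fun_prop)

theorem eqv_Stk : ∃ e : (ℝ × ℝ) ≃L[ℝ] E2, MeasurePreserving e ∧ ∀ z, e z = !₂[z.1, z.2] :=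
  ⟨(ContinuousLinearEquiv.finTwoArrow ℝ ℝ).symm.trans (EuclideanSpace.equiv (Fin 2) ℝ).symm,
    (PiLp.volume_preserving_toLp (Fin 2)).comp (volume_preserving_finTwoArrow ℝ).symm,
    fun _ => rfl⟩

theorem hp_Stk {a b : E2 → ℝ} {R : ℝ} (hR : 0 < R) (ha : ContDiffOn ℝ 1 a halfPlane)
    (hb : ContDiffOn ℝ 1 b halfPlane) (h0 : ∀ x ∈ halfPlane, x ∉ closedBall 0 R → a x = 0 ∧ b x = 0) :
    ∫ x in halfPlane, (fderivWithin ℝ b halfPlane x (EuclideanSpace.single 0 1) -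
      fderivWithin ℝ a halfPlane x (EuclideanSpace.single 1 1)) = -∫ v, b (ln v) := by
  obtain ⟨e, he, hz⟩ := eqv_Stk
  have n1 : ∀ z : ℝ × ℝ, |z.1| ≤ ‖e z‖ := fun z => by
    simpa [hz] using PiLp.norm_apply_le (e z) 0
  have n2 : ∀ z : ℝ × ℝ, |z.2| ≤ ‖e z‖ := fun z => by
    simpa [hz] using PiLp.norm_apply_le (e z) 1
  have m : ∀ z : ℝ × ℝ, e z ∈ halfPlane ↔ 0 ≤ z.1 := fun z => by simp [hz, halfPlane]
  have sub : MapsTo e (Icc ((0 : ℝ), -(R + 1)) (R + 1, R + 1)) halfPlane :=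
    fun z h => (m z).2 h.1.1
  have e0 : e (1, 0) = EuclideanSpace.single 0 1 := by
    ext i
    fin_cases i <;> simp [hz]
  have e1 : e (0, 1) = EuclideanSpace.single 1 1 := by
    ext i
    fin_cases i <;> simp [hz]
  have out : ∀ z : ℝ × ℝ, R < |z.1| ∨ R < |z.2| → e z ∉ closedBall 0 R := fun z h h' => by
    have := n1 z
    have := n2 z
    rw [mem_closedBall_zero_iff] at h'
    rcases h with h | h <;> linarith
  have der : ∀ {c : E2 → ℝ}, ContDiffOn ℝ 1 c halfPlane → ∀ z : ℝ × ℝ, 0 < z.1 →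
      HasFDerivAt (c ∘ e) ((fderivWithin ℝ c halfPlane (e z)).comp (e : ℝ × ℝ →L[ℝ] E2)) z :=
    fun {c} hc z h => by
      have hn : halfPlane ∈ 𝓝 (e z) := mem_of_superset
        ((isOpen_lt continuous_const (by fun_prop) : IsOpen {x : E2 | 0 < x 0}).mem_nhds
          (by simpa [hz] using h)) fun x hx => show 0 ≤ x 0 from le_of_lt hx
      exact ((hc.differentiableOn one_ne_zero _ ((m z).2 h.le)).hasFDerivWithinAt.hasFDerivAt
        hn).comp z e.hasFDerivAt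
  have zer : ∀ {c : E2 → ℝ}, (∀ x ∈ halfPlane, x ∉ closedBall 0 R → c x = 0) →
      ∀ x ∈ halfPlane, x ∉ closedBall 0 R → fderivWithin ℝ c halfPlane x = 0 := fun {c} hc x hx h => by
    have : c =ᶠ[𝓝[halfPlane] x] fun _ => 0 := by
      filter_upwards [self_mem_nhdsWithin,
        mem_nhdsWithin_of_mem_nhds (isClosed_closedBall.isOpen_compl.mem_nhds h)] with y h1 h2
        using hc y h1 h2
    rw [this.fderivWithin_eq_of_mem hx]
    simp
  have key := integral_divergence_prod_Icc_of_hasFDerivAt_of_le (b ∘ e) (-(a ∘ e))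
    (fun z => (fderivWithin ℝ b halfPlane (e z)).comp (e : ℝ × ℝ →L[ℝ] E2))
    (fun z => -(fderivWithin ℝ a halfPlane (e z)).comp (e : ℝ × ℝ →L[ℝ] E2))
    (0, -(R + 1)) (R + 1, R + 1) ⟨by simp only; linarith, by simp only; linarith⟩
    (hb.continuousOn.comp e.continuous.continuousOn sub)
    (ha.continuousOn.comp e.continuous.continuousOn sub).neg
    (fun z h => der hb z h.1.1) (fun z h => (der ha z h.1.1).neg)
    (ContinuousOn.integrableOn_compact isCompact_Icc (ContinuousOn.add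
      ((((hb.continuousOn_fderivWithin ud_Stk le_rfl).comp e.continuous.continuousOn
        sub).clm_comp continuousOn_const).clm_apply continuousOn_const)
      ((((ha.continuousOn_fderivWithin ud_Stk le_rfl).comp e.continuous.continuousOn
        sub).clm_comp continuousOn_const).neg.clm_apply continuousOn_const)))
  have z1 : ∀ t : ℝ, |t| = R + 1 → ∫ x in (0:ℝ)..(R + 1), (-(a ∘ e)) (x, t) = 0 := fun t ht => by
    rw [intervalIntegral.integral_congr (g := fun _ => 0), intervalIntegral.integral_zero]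
    intro x hx
    rw [uIcc_of_le (by linarith)] at hx
    simpa using (h0 _ ((m (x, t)).2 hx.1) (out _ (Or.inr (by simp [ht])))).1
  have z2 : ∫ y in (-(R + 1))..(R + 1), (b ∘ e) (R + 1, y) = 0 := by
    rw [intervalIntegral.integral_congr (g := fun _ => 0), intervalIntegral.integral_zero]
    intro y _
    exact (h0 _ ((m (R + 1, y)).2 (by simp only; linarith))
      (out _ (Or.inl (by rw [abs_of_pos (by simp only; linarith)]; simp)))).2
  have z3 : ∫ y in (-(R + 1))..(R + 1), (b ∘ e) (0, y) = ∫ v, b (ln v) := by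
    refine (intervalIntegral.integral_eq_integral_of_support_subset fun y hy => ?_).trans ?_
    · by_contra h
      refine hy (h0 _ ((m (0, y)).2 le_rfl) (out _ (Or.inr ?_))).2
      by_contra h'
      have := abs_le.1 (not_lt.1 h')
      exact h ⟨by linarith [this.1], by linarith [this.2]⟩
    · simp only [Function.comp, hz, ln]
  simp only at key
  rw [z1 _ (abs_of_pos (by linarith)), z1 _ (by rw [abs_neg, abs_of_pos (by linarith)]), z2,
    z3] at key
  rw [← he.setIntegral_preimage_emb e.toHomeomorph.measurableEmbedding,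
    setIntegral_eq_of_subset_of_forall_sdiff_eq_zero
      (s := Icc ((0 : ℝ), -(R + 1)) (R + 1, R + 1))
      ((cl_Stk.preimage e.continuous).measurableSet) sub]
  · simpa [e0, e1, sub_eq_add_neg] using key
  · intro z ⟨h1, h2⟩
    have h3 : e z ∉ closedBall 0 R := out z (by
      by_contra h
      push Not at h
      have u := abs_le.1 h.1
      have v := abs_le.1 h.2
      exact h2 ⟨⟨(m z).1 h1, by simp only; linarith⟩, by simp only; linarith,
        by simp only; linarith⟩)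
    rw [zer (fun x a b => (h0 x a b).1) _ h1 h3, zer (fun x a b => (h0 x a b).2) _ h1 h3]
    simp

theorem ind_Stk {c : E2 → ℝ} {O K : Set E2} (hO : IsOpen O) (hK : IsClosed K) (hKO : K ⊆ O)
    (hc : ContDiffOn ℝ 1 c (O ∩ halfPlane)) (h0 : ∀ x ∈ O ∩ halfPlane, x ∉ K → c x = 0) :
    ContDiffOn ℝ 1 (O.indicator c) halfPlane ∧ (∀ x ∈ halfPlane, x ∉ K → O.indicator c x = 0) ∧
      ∀ x ∈ halfPlane, ∀ v, fderivWithin ℝ (O.indicator c) halfPlane x v =
        O.indicator (fun y => fderivWithin ℝ c halfPlane y v) x := by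
  have a1 : ∀ x ∈ halfPlane, x ∉ K → O.indicator c x = 0 := fun x hx h => by
    by_cases ho : x ∈ O
    · rw [indicator_of_mem ho, h0 x ⟨ho, hx⟩ h]
    · exact indicator_of_notMem ho _
  have a2 : ∀ x ∈ O, O.indicator c =ᶠ[𝓝[halfPlane] x] c := fun x hx => by
    filter_upwards [mem_nhdsWithin_of_mem_nhds (hO.mem_nhds hx)] with y hy
      using indicator_of_mem hy _
  have a3 : ∀ x ∉ O, O.indicator c =ᶠ[𝓝[halfPlane] x] fun _ => 0 := fun x hx => by
    filter_upwards [self_mem_nhdsWithin,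
      mem_nhdsWithin_of_mem_nhds (hK.isOpen_compl.mem_nhds fun h => hx (hKO h))] with y h1 h2
      using a1 y h1 h2
  refine ⟨fun x hx => ?_, a1, fun x hx v => ?_⟩
  · by_cases ho : x ∈ O
    · have := hc x ⟨ho, hx⟩
      rw [inter_comm, contDiffWithinAt_inter (hO.mem_nhds ho)] at this
      exact this.congr_of_eventuallyEq_of_mem (a2 x ho) hx
    · exact contDiffWithinAt_const.congr_of_eventuallyEq_of_mem (a3 x ho) hx
  · by_cases ho : x ∈ O
    · rw [(a2 x ho).fderivWithin_eq_of_mem hx, indicator_of_mem ho]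
    · rw [(a3 x ho).fderivWithin_eq_of_mem hx, indicator_of_notMem ho]
      simp

theorem loc_Stk {a b : E2 → ℝ} {O K : Set E2} (hO : IsOpen O) (hK : IsCompact K) (hKO : K ⊆ O)
    (ha : ContDiffOn ℝ 1 a (O ∩ halfPlane)) (hb : ContDiffOn ℝ 1 b (O ∩ halfPlane))
    (h0 : ∀ x ∈ O ∩ halfPlane, x ∉ K → a x = 0 ∧ b x = 0) :
    ∫ x in O ∩ halfPlane, (fderivWithin ℝ b halfPlane x (EuclideanSpace.single 0 1) -
      fderivWithin ℝ a halfPlane x (EuclideanSpace.single 1 1)) =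
      -∫ v in {v | ln v ∈ O}, b (ln v) := by
  obtain ⟨a1, a2, a3⟩ := ind_Stk hO hK.isClosed hKO ha fun x u v => (h0 x u v).1
  obtain ⟨b1, b2, b3⟩ := ind_Stk hO hK.isClosed hKO hb fun x u v => (h0 x u v).2
  obtain ⟨R, hR, hKR⟩ := hK.isBounded.subset_closedBall_lt 0 0
  have key := hp_Stk hR a1 b1 fun x u v => ⟨a2 x u fun h => v (hKR h), b2 x u fun h => v (hKR h)⟩
  have hl : Continuous ln := by
    unfold ln
    fun_prop
  rw [inter_comm, ← setIntegral_indicator hO.measurableSet,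
    ← integral_indicator (s := {v | ln v ∈ O}) (hO.preimage hl).measurableSet]
  refine Eq.trans (setIntegral_congr_fun cl_Stk.measurableSet fun x hx => ?_) (key.trans ?_)
  · simp only [a3 x hx, b3 x hx, indicator_sub]
  · rfl

theorem app_Stk (A : E3 →L[ℝ] E3) (v : E3) (j : Fin 3) :
    A v j = v 0 * A (EuclideanSpace.single 0 1) j + v 1 * A (EuclideanSpace.single 1 1) j +
      v 2 * A (EuclideanSpace.single 2 1) j := by
  have : v = v 0 • EuclideanSpace.single 0 (1 : ℝ) + v 1 • EuclideanSpace.single 1 (1 : ℝ) +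
      v 2 • EuclideanSpace.single 2 (1 : ℝ) := by
    ext i
    fin_cases i <;> simp
  conv_lhs => rw [this]
  simp

theorem bil_Stk : ∃ B : E3 →L[ℝ] E3 →L[ℝ] E3, ∀ a b, B a b = crs a b :=
  ⟨(LinearMap.mk₂ ℝ crs
    (fun a b c => by ext i; fin_cases i <;> simp [crs] <;> ring)
    (fun t a b => by ext i; fin_cases i <;> simp [crs] <;> ring)
    (fun a b c => by ext i; fin_cases i <;> simp [crs] <;> ring)
    (fun t a b => by ext i; fin_cases i <;> simp [crs] <;> ring)).toContinuousBilinearMap,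
    fun _ _ => rfl⟩

theorem alg_Stk (X Y : E3 → E3) (y F0 F1 n n0 n1 G : E3) (J H : ℝ) (h1 : crs F0 F1 = J • n)
    (h2 : ‖n‖ = 1) (h3 : ⟪F0, n⟫ = 0) (h4 : ⟪F1, n⟫ = 0) (h5 : ⟪n0, n⟫ = 0) (h6 : ⟪n1, n⟫ = 0)
    (h7 : dt n0 F1 n + dt F0 n1 n = -(2 * H) * J) :
    (⟪crs (X y) n + Y y, G⟫ +
      ⟪crs (X y) n0 + crs (fderiv ℝ X y F0) n + fderiv ℝ Y y F0, F1⟫) -
    (⟪crs (X y) n + Y y, G⟫ +
      ⟪crs (X y) n1 + crs (fderiv ℝ X y F1) n + fderiv ℝ Y y F1, F0⟫) =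
    J * (⟪curl Y y, n⟫ - (dv X y - ⟪fderiv ℝ X y n, n⟫ + 2 * H * ⟪X y, n⟫)) := by
  have h8 : ⟪n, n⟫ = 1 := by rw [real_inner_self_eq_norm_sq, h2, one_pow]
  have c0 : F0 1 * F1 2 - F0 2 * F1 1 = J * n 0 := by simpa [crs] using congrArg (· 0) h1
  have c1 : F0 2 * F1 0 - F0 0 * F1 2 = J * n 1 := by simpa [crs] using congrArg (· 1) h1
  have c2 : F0 0 * F1 1 - F0 1 * F1 0 = J * n 2 := by simpa [crs] using congrArg (· 2) h1
  have ea : ⟪fderiv ℝ Y y F0, F1⟫ - ⟪fderiv ℝ Y y F1, F0⟫ = J * ⟪curl Y y, n⟫ := by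
    simp only [inner3, app_Stk _ F0, app_Stk _ F1]
    simp only [curl, pD, Matrix.cons_val, PiLp.toLp_apply]
    linear_combination
      (fderiv ℝ Y y (EuclideanSpace.single 1 1) 2 - fderiv ℝ Y y (EuclideanSpace.single 2 1) 1) * c0 +
      (fderiv ℝ Y y (EuclideanSpace.single 2 1) 0 - fderiv ℝ Y y (EuclideanSpace.single 0 1) 2) * c1 +
      (fderiv ℝ Y y (EuclideanSpace.single 0 1) 1 - fderiv ℝ Y y (EuclideanSpace.single 1 1) 0) * c2
  have eb : dt (fderiv ℝ X y F0) n F1 - dt (fderiv ℝ X y F1) n F0 =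
      -J * (dv X y - ⟪fderiv ℝ X y n, n⟫) := by
    have k : dt (fderiv ℝ X y F0) n F1 - dt (fderiv ℝ X y F1) n F0 =
        dt F0 F1 (fderiv ℝ X y n) - dv X y * dt F0 F1 n := by
      simp only [dt, dv, pD, app_Stk _ F0, app_Stk _ F1, app_Stk _ n]
      ring
    rw [k, ← inner_crs, ← inner_crs, h1, real_inner_smul_left, real_inner_smul_left, h8,
      real_inner_comm]
    ring
  have ec : dt (X y) n0 F1 - dt (X y) n1 F0 = -(2 * H) * J * ⟪X y, n⟫ := by
    have k : ∀ a b : E3, dt (X y) a b * ⟪n, n⟫ =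
        ⟪X y, n⟫ * dt a b n + ⟪a, n⟫ * dt (X y) n b + ⟪b, n⟫ * dt (X y) a n := fun a b => by
      simp only [dt, inner3]
      ring
    have k1 := k n0 F1
    have k2 := k F0 n1
    rw [h8, h4, h5] at k1
    rw [h8, h3, h6] at k2
    have k3 : dt (X y) n1 F0 = -dt (X y) F0 n1 := by
      simp only [dt]
      ring
    rw [← h7]
    linear_combination k1 + k2 - k3
  simp only [inner_add_left, inner_crs]
  linear_combination ea + eb + ec

theorem has_Stk {F : E2 → E3} {O : Set E2} (hO : IsOpen O) (hF : ContDiffOn ℝ 1 F (O ∩ halfPlane))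
    {x : E2} (hx : x ∈ O ∩ halfPlane) :
    HasFDerivWithinAt F (fderivWithin ℝ F halfPlane x) halfPlane x := by
  have := hF.differentiableOn one_ne_zero x hx
  rw [inter_comm, differentiableWithinAt_inter (hO.mem_nhds hx.1)] at this
  exact this.hasFDerivWithinAt

theorem der_Stk {F n : E2 → E3} {X Y : E3 → E3} {O : Set E2} (hO : IsOpen O)
    (hF : ContDiffOn ℝ ∞ F (O ∩ halfPlane)) (hn : ContDiffOn ℝ ∞ n (O ∩ halfPlane))
    (hX : ContDiff ℝ 1 X) (hY : ContDiff ℝ 1 Y) (i : Fin 2) :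
    ContDiffOn ℝ 1 (fun x => ⟪crs (X (F x)) (n x) + Y (F x), pd F i x⟫) (O ∩ halfPlane) ∧
    ∀ x ∈ O ∩ halfPlane, ∀ j : Fin 2,
      fderivWithin ℝ (fun x => ⟪crs (X (F x)) (n x) + Y (F x), pd F i x⟫) halfPlane x
        (EuclideanSpace.single j 1) =
      ⟪crs (X (F x)) (n x) + Y (F x), pd (pd F i) j x⟫ +
        ⟪crs (X (F x)) (pd n j x) + crs (fderiv ℝ X (F x) (pd F j x)) (n x) +
          fderiv ℝ Y (F x) (pd F j x), pd F i x⟫ := by
  obtain ⟨B, hB⟩ := bil_Stk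
  have hF1 : ContDiffOn ℝ 1 F (O ∩ halfPlane) := hF.of_le (by simp)
  have hn1 : ContDiffOn ℝ 1 n (O ∩ halfPlane) := hn.of_le (by simp)
  have hu : UniqueDiffOn ℝ (O ∩ halfPlane) := inter_comm O halfPlane ▸ ud_Stk.inter hO
  have hp : ContDiffOn ℝ 1 (pd F i) (O ∩ halfPlane) := by
    refine ((hF.fderivWithin hu (m := 1) (by norm_cast)).clm_apply
      (contDiffOn_const (c := EuclideanSpace.single i (1 : ℝ)))).congr fun x hx => ?_
    rw [pd, inter_comm, fderivWithin_inter (hO.mem_nhds hx.1)]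
  simp only [← hB]
  refine ⟨(((B.contDiff.comp_contDiffOn (hX.comp_contDiffOn hF1)).clm_apply hn1).add
    (hY.comp_contDiffOn hF1)).inner ℝ hp, fun x hx j => ?_⟩
  have h1 := has_Stk hO hF1 hx
  have h2 := ((B.hasFDerivWithinAt_of_bilinear
    ((hX.differentiable one_ne_zero _).hasFDerivAt.comp_hasFDerivWithinAt x h1)
    (has_Stk hO hn1 hx)).add
    ((hY.differentiable one_ne_zero _).hasFDerivAt.comp_hasFDerivWithinAt x h1)).inner ℝ
    (has_Stk hO hp hx)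
  exact (congrArg (· (EuclideanSpace.single j (1 : ℝ))) (h2.fderivWithin (ud_Stk x hx.2))).trans rfl

theorem cont_Stk {M : Type} [TopologicalSpace M] (E : Dat M) (h : E.Ok0) {X Y : E3 → E3}
    (hX : ContDiff ℝ 1 X) (hY : ContDiff ℝ 1 Y) : Continuous (E.stI X Y) := by
  have h1 := (hX.continuous_fderiv one_ne_zero).comp h.cf
  have h2 := (hY.continuous_fderiv one_ne_zero).comp h.cf
  have h3 := hX.continuous.comp h.cf
  have h4 := h.cN
  have h5 : ∀ i j, Continuous fun q => pD X (E.f q) i j := fun i j =>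
    (EuclideanSpace.proj j : E3 →L[ℝ] ℝ).continuous.comp (h1.clm_apply continuous_const)
  have h6 : ∀ i j, Continuous fun q => pD Y (E.f q) i j := fun i j =>
    (EuclideanSpace.proj j : E3 →L[ℝ] ℝ).continuous.comp (h2.clm_apply continuous_const)
  have h7 : Continuous fun q => curl Y (E.f q) := by
    unfold curl
    fun_prop
  exact (h7.inner h4).sub (((((h5 0 0).add (h5 1 1)).add (h5 2 2)).sub
    ((h1.clm_apply h4).inner h4)).add (continuous_const.mul (h3.inner h4)))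

theorem off_Stk {X : E3 → E3} {y : E3} (h : y ∉ tsupport X) : X y = 0 ∧ fderiv ℝ X y = 0 :=
  ⟨image_eq_zero_of_notMem_tsupport h,
    Function.notMem_support.1 fun h' => h (support_fderiv_subset ℝ h')⟩

variable {M : Type} [TopologicalSpace M] [T2Space M] [CompactSpace M] [ConnectedSpace M]
  [MeasurableSpace M] [BorelSpace M]

theorem Stk_pf (E : Dat M) (μ : Measure M) : SStk E μ := by
  intro hE hμ hinj p
  have hp := hE.o0.mem p
  have hx0 : (E.c p).φ p ∈ E.T p := (E.c p).mφ hp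
  obtain ⟨s, hs, hs0⟩ : ∃ s : ℝ, (s = 1 ∨ s = -1) ∧ 0 < s * E.J p ((E.c p).φ p) := by
    rcases lt_or_gt_of_ne (hE.o2.Jne p _ hx0) with h | h
    · exact ⟨-1, Or.inr rfl, by linarith⟩
    · exact ⟨1, Or.inl rfl, by linarith⟩
  obtain ⟨r, hr, hb⟩ : ∃ r > 0, closedBall ((E.c p).φ p) r ⊆
      (E.c p).O ∩ {x | x ∈ E.T p → 0 < s * E.J p x} :=
    nhds_basis_closedBall.mem_iff.1 (inter_mem ((E.c p).oO.mem_nhds hx0.1)
      (eventually_nhdsWithin_iff.1 ((continuousWithinAt_const.mul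
        (hE.o2.cJ p _ hx0)).eventually (lt_mem_nhds hs0))))
  have hN : (E.c p).S ∩ (E.c p).φ ⁻¹' closedBall ((E.c p).φ p) r ∈ 𝓝 p :=
    inter_mem ((E.c p).oS.mem_nhds hp)
      (((E.c p).cφ.continuousAt ((E.c p).oS.mem_nhds hp)) (closedBall_mem_nhds _ hr))
  rw [(hE.o0.cf.isClosedEmbedding hinj).isInducing.nhds_eq_comap, mem_comap] at hN
  obtain ⟨U, hU, hsub⟩ := hN
  refine ⟨U, hU, -s, by rcases hs with rfl | rfl <;> simp, fun X Y hX hY sX sY => ?_⟩
  have z0 : ∀ q, E.f q ∉ U → E.stI X Y q = 0 := fun q hq => by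
    obtain ⟨a1, a2⟩ := off_Stk fun h => hq (sX h)
    obtain ⟨b1, b2⟩ := off_Stk fun h => hq (sY h)
    simp [Dat.stI, inner3, curl, dv, pD, a1, a2, b2]
  have z1 : ∀ x ∈ E.T p, x ∉ closedBall ((E.c p).φ p) r → E.F p x ∉ U := fun x hx h h' => by
    have := (hsub (a := (E.c p).ψ x) h').2
    rw [mem_preimage, (E.c p).ri x hx] at this
    exact h this
  have d := fun i => der_Stk (E.c p).oO (hE.o0.sF p) (hE.o2.sn p) hX.1 hY.1 i
  have z2 : ∀ i, ∀ x ∈ E.T p, x ∉ closedBall ((E.c p).φ p) r →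
      ⟪crs (X (E.F p x)) (E.n p x) + Y (E.F p x), pd (E.F p) i x⟫ = 0 := fun i x hx h => by
    rw [(off_Stk fun h' => z1 x hx h (sX h')).1, (off_Stk fun h' => z1 x hx h (sY h')).1]
    simp [inner3, crs]
  have key := loc_Stk (E.c p).oO (isCompact_closedBall _ r) (fun x hx => (hb hx).1) (d 0).1 (d 1).1
    fun x hx h => ⟨z2 0 x hx h, z2 1 x hx h⟩
  rw [← setIntegral_eq_integral_of_forall_compl_eq_zero (s := (E.c p).S)
      fun q hq => z0 q fun h => hq (hsub h).1,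
    hμ.int p _ (cont_Stk E hE.o0 hX.1 hY.1).measurable, neg_mul, ← mul_neg, ← key,
    ← integral_const_mul]
  refine setIntegral_congr_fun ((E.c p).oO.measurableSet.inter cl_Stk.measurableSet)
    fun x hx => ?_
  have a := alg_Stk X Y (E.F p x) _ _ _ _ _ (pd (pd (E.F p) 1) 0 x) _ _ (hE.o2.crsJ p x hx)
    (hE.o0.un _) ((hE.o1 p x hx).orth 0) ((hE.o1 p x hx).orth 1) (hE.o2.tN p x hx 0)
    (hE.o2.tN p x hx 1) (hE.o2.wH p x hx)
  rw [(d 1).2 x hx 0, (d 0).2 x hx 1, hE.o2.sy p x hx, a]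
  change _ = s * (E.J p x * E.stI X Y ((E.c p).ψ x))
  by_cases h : x ∈ closedBall ((E.c p).φ p) r
  · have h1 := (hb h).2 hx
    rcases hs with rfl | rfl
    · rw [abs_of_pos (by linarith), one_mul]
    · rw [abs_of_neg (by linarith)]
      ring
  · rw [z0 _ (z1 x hx h)]
    ring

end Pool.Agent.MP_efb2da_gt.Emb

end

end

section

/-! The local first variation formula. -/

open scoped Manifold ContDiff RealInnerProductSpace Topology ENNReal
open Set MeasureTheory Filter Metric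

noncomputable section

namespace Pool.Agent.MP_efb2da_gt.Emb

/-- the cross product with a vertical vector -/
def rot_FV (c : ℝ) : E3 →L[ℝ] E3 := LinearMap.toContinuousLinearMap
  { toFun := fun v => !₂[c * v 1, - (c * v 0), 0]
    map_add' := fun v w => by
      ext i
      fin_cases i <;> simp <;> ring
    map_smul' := fun a v => by
      ext i
      fin_cases i <;> simp <;> ring }

theorem rot_apply_FV (c : ℝ) (v : E3) : rot_FV c v = !₂[c * v 1, - (c * v 0), 0] := rfl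

theorem ln_FV (v : ℝ) : HasDerivAt ln (EuclideanSpace.single 1 1) v := by
  have e : ln = fun t : ℝ => t • (EuclideanSpace.single 1 1 : E2) := by
    funext t
    ext i
    fin_cases i <;> simp [ln]
  rw [e]
  simpa using (hasDerivAt_id v).smul_const (EuclideanSpace.single 1 1 : E2)

theorem hor_FV (F : E2 → E3) (v : ℝ) (h : ∀ᶠ t in 𝓝 v, F (ln t) 2 = 0) :
    pd F 1 (ln v) 2 = 0 := by
  unfold pd
  by_cases hd : DifferentiableWithinAt ℝ F halfPlane (ln v)
  · have h1 := hd.hasFDerivWithinAt.comp_hasDerivWithinAt v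
      (ln_FV v).hasDerivWithinAt (s := univ) fun t _ => by simp [halfPlane, ln]
    rw [hasDerivWithinAt_univ] at h1
    have h2 := (EuclideanSpace.proj (𝕜 := ℝ) (2 : Fin 3)).hasFDerivAt.comp_hasDerivAt v h1
    exact h2.unique ((hasDerivAt_const v (0 : ℝ)).congr_of_eventuallyEq h)
  · rw [fderivWithin_zero_of_not_differentiableWithinAt hd]
    rfl

variable {M : Type} [TopologicalSpace M] [T2Space M] [CompactSpace M] [ConnectedSpace M]
  [MeasurableSpace M] [BorelSpace M]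

theorem FV_pf (E : Dat M) (μ : Measure M) (c : ℝ) : SFV E μ c := by
  intro ho he hs p
  obtain ⟨U, hU, ς, -, H⟩ := hs p
  refine ⟨U, hU, fun X hX hXU h0 => ?_⟩
  have hsup : tsupport (rot_FV c ∘ X) ⊆ tsupport X :=
    closure_mono (Function.support_comp_subset (map_zero _) X)
  have h1 := H X (rot_FV c ∘ X) hX
    ⟨(rot_FV c).contDiff.comp hX.1, hX.2.comp_left (map_zero _)⟩ hXU (hsup.trans hXU)
  have hb : ∀ v, ln v ∈ (E.c p).O → (E.c p).ψ (ln v) ∈ E.bd := fun v hv => by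
    have hv' : ln v ∈ (E.c p).O ∩ halfPlane := ⟨hv, by simp [halfPlane, ln]⟩
    rw [ho.o0.bdi p _ ((E.c p).mψ hv'), (E.c p).ri _ hv']
    rfl
  rw [setIntegral_eq_zero_of_forall_eq_zero fun v hv => ?_, mul_zero] at h1
  · rw [← neg_eq_zero, ← integral_neg, ← h1]
    refine integral_congr_ae (Eventually.of_forall fun q => ?_)
    have e1 : fderiv ℝ (rot_FV c ∘ X) (E.f q) = (rot_FV c).comp (fderiv ℝ X (E.f q)) :=
      ((rot_FV c).hasFDerivAt.comp _
        (hX.1.differentiable one_ne_zero (E.f q)).hasFDerivAt).fderiv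
    have e2 : e3 = EuclideanSpace.single 2 1 := by
      ext i
      fin_cases i <;> simp [e3]
    have e4 : ⟪curl (rot_FV c ∘ X) (E.f q), E.N q⟫ =
        c * (⟪fderiv ℝ X (E.f q) e3, E.N q⟫ - dv X (E.f q) * E.N q 2) := by
      rw [inner3, inner3, e2]
      simp [curl, pD, dv, e1, rot_apply_FV]
      ring
    beta_reduce
    rw [Dat.stI, Dat.fvI, e4]
    ring
  · have a1 : X (E.F p (ln v)) 2 = 0 := h0 _ ⟨_, hb v hv, rfl⟩
    have a2 : E.n p (ln v) 2 = -c := he.ang _ (hb v hv)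
    have a3 : pd (E.F p) 1 (ln v) 2 = 0 := hor_FV _ v (by
      filter_upwards [(ln_FV v).continuousAt.preimage_mem_nhds ((E.c p).oO.mem_nhds hv)] with t ht
      exact he.e0.bdP _ (hb t ht))
    rw [inner_add_left, inner_crs, inner3, dt, a1, a2, a3, Function.comp_apply, rot_apply_FV]
    simp
    ring

end Pool.Agent.MP_efb2da_gt.Emb

end

end

section

/-! Existence of jump functions on convex sets. -/

open scoped Manifold ContDiff RealInnerProductSpace Topology ENNReal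
open Set MeasureTheory Filter Metric

noncomputable section

namespace Pool.Agent.MP_efb2da_gt.Emb

theorem ext_Jump (V : Set E3) (φ : C(V, ℝ)) :
    ∃ h : E3 → ℝ, ContinuousOn h V ∧ ∀ y : V, h y = φ y := by
  have h1 : ∀ y : V, Function.extend Subtype.val φ 0 (y : E3) = φ y := fun y =>
    Subtype.val_injective.extend_apply _ _ y
  refine ⟨Function.extend Subtype.val φ 0, ?_, h1⟩
  rw [continuousOn_iff_continuous_restrict]
  exact φ.continuous.congr fun y => (h1 y).symm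

theorem ury_Jump (V O S : Set E3) (hO : IsOpen O) (hS : IsClosed S) (h : ∀ y ∈ V, y ∈ S → y ∈ O) :
    ∃ u : E3 → ℝ, ContinuousOn u V ∧ (∀ y ∈ V, y ∉ O → u y = 0) ∧ ∀ y ∈ V, y ∈ S → u y = 1 := by
  obtain ⟨φ, h0, h1, -⟩ := exists_continuous_zero_one_of_isClosed (X := V)
    (hO.isClosed_compl.preimage continuous_subtype_val) (hS.preimage continuous_subtype_val)
    (Set.disjoint_left.2 fun y hy hy' => hy (h y y.2 hy'))
  obtain ⟨u, hu, he⟩ := ext_Jump V φ
  exact ⟨u, hu, fun y hy hy' => (he ⟨y, hy⟩).trans (h0 hy'),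
    fun y hy hy' => (he ⟨y, hy⟩).trans (h1 hy')⟩

theorem lift_Jump (V : Set E3) (hV : IsOpen V) (hc : Convex ℝ V) (g : E3 → ℝ)
    (hg : ContinuousOn (fun y => ((g y : ℝ) : AddCircle (1 : ℝ))) V) :
    ∃ (Θ : E3 → ℝ) (α : E3 → ℤ), ContinuousOn Θ V ∧ ∀ y ∈ V, (α y : ℝ) = g y - Θ y := by
  rcases V.eq_empty_or_nonempty with rfl | ⟨x, hx⟩
  · exact ⟨0, 0, continuousOn_empty _, fun y hy => absurd hy (notMem_empty y)⟩
  have i1 := hc.contractibleSpace ⟨x, hx⟩
  have i2 := hV.locallyPathConnectedSpace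
  obtain ⟨F, ⟨-, hF⟩, -⟩ := (AddCircle.isCoveringMap_coe (1 : ℝ)).existsUnique_continuousMap_lifts
    (A := V) ⟨_, continuousOn_iff_continuous_restrict.1 hg⟩ ⟨x, hx⟩ (g x) rfl
  obtain ⟨Θ, hΘ, he⟩ := ext_Jump V F
  have h1 : ∀ y, ∃ n : ℤ, y ∈ V → (n : ℝ) = g y - Θ y := by
    intro y
    by_cases hy : y ∈ V
    · have h2 : ((F ⟨y, hy⟩ : ℝ) : AddCircle (1 : ℝ)) = (g y : ℝ) := congrFun hF ⟨y, hy⟩
      have h3 : ((g y - Θ y : ℝ) : AddCircle (1 : ℝ)) = 0 := by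
        rw [AddCircle.coe_sub, he ⟨y, hy⟩, h2, sub_self]
      obtain ⟨n, hn⟩ := (AddCircle.coe_eq_zero_iff (1 : ℝ)).1 h3
      exact ⟨n, fun _ => by rw [← hn, zsmul_eq_mul, mul_one]⟩
    · exact ⟨0, fun h => absurd h hy⟩
  choose α hα using h1
  exact ⟨Θ, α, hΘ, hα⟩

theorem int_Jump {a b : ℤ} (h : |(a : ℝ) - b| < 1) : a = b := by
  have h1 : |a - b| < 1 := by exact_mod_cast h
  exact sub_eq_zero.1 (Int.abs_lt_one_iff.1 h1)

variable {M : Type} [TopologicalSpace M]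

theorem nbd_Jump (E : Dat M) {U A B : Set E3} (h : E.Box U A B) {q : M} (hq : E.f q ∈ U) :
    q ∉ E.bd := fun hb => Set.disjoint_left.1 h.dC hq ⟨q, hb, rfl⟩

theorem left_Jump (E : Dat M) {U A B : Set E3} (h : E.Box U A B) {y : E3} (hy : y ∈ A) :
    y ∈ U \ E.Sg := by
  rw [h.un]
  exact Or.inl hy

theorem right_Jump (E : Dat M) {U A B : Set E3} (h : E.Box U A B) {y : E3} (hy : y ∈ B) :
    y ∈ U \ E.Sg := by
  rw [h.un]
  exact Or.inr hy

theorem cons_Jump (E : Dat M) (hS : IsCompact E.Sg) (hT : E.BoxT) (hB : E.BoxSub)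
    {U A B U' A' B' : Set E3} {z z' y : E3} {r r' : ℝ} (h : E.Box U A B) (h' : E.Box U' A' B')
    (hz : z ∈ E.Sg) (hz' : z' ∈ E.Sg) (hU : ball z (2 * r) ⊆ U) (hU' : ball z' (2 * r') ⊆ U')
    (hy : y ∈ ball z r) (hy' : y ∈ ball z' r') (hb : y ∈ B) (ha : y ∈ A') : False := by
  obtain ⟨w, hw, hd⟩ := hS.exists_infDist_eq_dist ⟨z, hz⟩ y
  have hyS : y ∉ E.Sg := (right_Jump E h hb).2
  have hne : 0 < ‖y - w‖ := norm_pos_iff.2 (sub_ne_zero.2 fun e => hyS (e ▸ hw))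
  have hseg : ∀ {x : E3} {s : ℝ}, x ∈ E.Sg → y ∈ ball x s → ∀ t ∈ Icc (0 : ℝ) 1,
      w + t • (y - w) ∈ ball x (2 * s) := by
    intro x s hx hyx t ht
    have h1 : dist y w ≤ dist y x := hd ▸ infDist_le_dist_of_mem hx
    have h2 : dist y x < s := hyx
    have h3 : (0 : ℝ) ≤ dist y x := dist_nonneg
    have h4 := dist_triangle_left w x y
    exact (convex_ball x (2 * s)).add_smul_sub_mem (mem_ball.2 (by linarith))
      (mem_ball.2 (by linarith)) ht
  have hoff : ∀ t ∈ Ioc (0 : ℝ) 1, w + t • (y - w) ∉ E.Sg := by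
    intro t ht hm
    have h1 : dist y w ≤ dist y (w + t • (y - w)) := hd ▸ infDist_le_dist_of_mem hm
    have h2 : y - (w + t • (y - w)) = (1 - t) • (y - w) := by
      rw [sub_smul, one_smul]
      abel
    rw [dist_eq_norm, dist_eq_norm, h2, norm_smul, Real.norm_of_nonneg (sub_nonneg.2 ht.2)] at h1
    nlinarith [ht.1]
  have hc : Continuous fun t : ℝ => w + t • (y - w) := by fun_prop
  have hP : IsPreconnected ((fun t : ℝ => w + t • (y - w)) '' Ioc 0 1) :=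
    isPreconnected_Ioc.image _ hc.continuousOn
  have hy1 : y ∈ (fun t : ℝ => w + t • (y - w)) '' Ioc 0 1 :=
    ⟨1, ⟨one_pos, le_rfl⟩, by simp only [one_smul, add_sub_cancel]⟩
  have hPB := hP.subset_right_of_subset_union h.oA h.oB h.dj (by
    rintro _ ⟨t, ht, rfl⟩
    rw [← h.un]
    exact ⟨hU (hseg hz hy t ⟨ht.1.le, ht.2⟩), hoff t ht⟩) ⟨y, hy1, hb⟩
  have hPA := hP.subset_left_of_subset_union h'.oA h'.oB h'.dj (by
    rintro _ ⟨t, ht, rfl⟩
    rw [← h'.un]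
    exact ⟨hU' (hseg hz' hy' t ⟨ht.1.le, ht.2⟩), hoff t ht⟩) ⟨y, hy1, ha⟩
  have h0 : w + (0 : ℝ) • (y - w) = w := by rw [zero_smul, add_zero]
  have hwU : w ∈ U := h0 ▸ hU (hseg hz hy 0 ⟨le_rfl, zero_le_one⟩)
  have hwU' : w ∈ U' := h0 ▸ hU' (hseg hz' hy' 0 ⟨le_rfl, zero_le_one⟩)
  obtain ⟨q, rfl⟩ := hw
  obtain ⟨U₂, A₂, B₂, hq, hsub, h₂⟩ := hT q (nbd_Jump E h hwU) (U ∩ U')
    ((h.oU.inter h'.oU).mem_nhds ⟨hwU, hwU'⟩)
  have s1 := hB _ _ _ _ _ _ h h₂ (fun x hx => (hsub hx).1) ⟨q, hq⟩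
  have s2 := hB _ _ _ _ _ _ h' h₂ (fun x hx => (hsub hx).2) ⟨q, hq⟩
  have e1 : ∀ᶠ t in 𝓝[>] (0 : ℝ), E.f q + t • (y - E.f q) ∈ U₂ :=
    mem_nhdsWithin_of_mem_nhds (hc.continuousAt.preimage_mem_nhds (h₂.oU.mem_nhds (h0.symm ▸ hq)))
  obtain ⟨t, ht1, ht⟩ := (e1.and (Ioc_mem_nhdsGT (one_pos : (0 : ℝ) < 1))).exists
  have h3 : E.f q + t • (y - E.f q) ∈ A₂ ∪ B₂ := h₂.un ▸ ⟨ht1, hoff t ht⟩
  rcases h3 with h3 | h3
  · exact Set.disjoint_left.1 h.dj (s1.1 h3) (hPB ⟨t, ht, rfl⟩)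
  · exact Set.disjoint_left.1 h'.dj (hPA ⟨t, ht, rfl⟩) (s2.2 h3)

theorem sides_Jump (E : Dat M) (hS : IsCompact E.Sg) (hT : E.BoxT) (hB : E.BoxSub) :
    ∃ O P Q : Set E3, IsOpen O ∧ IsOpen P ∧ IsOpen Q ∧ (∀ y ∈ Q, y ∉ P) ∧
      (∀ y ∈ P, y ∈ O ∧ y ∉ E.Sg) ∧ (∀ y ∈ O, y ∉ E.Sg → y ∈ P ∨ y ∈ Q) ∧
      ∀ q ∉ E.bd, E.f q ∈ O ∧ ∀ V ∈ 𝓝 (E.f q),
        ∃ U A B, E.f q ∈ U ∧ U ⊆ V ∧ E.Box U A B ∧ A ⊆ Q ∧ B ⊆ P := by
  let G : Set (Set E3 × Set E3 × Set E3 × E3 × ℝ) := {d | E.Box d.1 d.2.1 d.2.2.1 ∧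
    d.2.2.2.1 ∈ E.Sg ∧ ball d.2.2.2.1 (2 * d.2.2.2.2) ⊆ d.1}
  refine ⟨⋃ d ∈ G, ball d.2.2.2.1 d.2.2.2.2, ⋃ d ∈ G, ball d.2.2.2.1 d.2.2.2.2 ∩ d.2.2.1,
    ⋃ d ∈ G, ball d.2.2.2.1 d.2.2.2.2 ∩ d.2.1, isOpen_biUnion fun d _ => isOpen_ball,
    isOpen_biUnion fun d hd => isOpen_ball.inter hd.1.oB,
    isOpen_biUnion fun d hd => isOpen_ball.inter hd.1.oA, fun y hy hy' => ?_, fun y hy => ?_,
    fun y hy hy' => ?_, fun q hq => ?_⟩
  · obtain ⟨d, hd, h1⟩ := mem_iUnion₂.1 hy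
    obtain ⟨d', hd', h2⟩ := mem_iUnion₂.1 hy'
    exact cons_Jump E hS hT hB hd'.1 hd.1 hd'.2.1 hd.2.1 hd'.2.2 hd.2.2 h2.1 h1.1 h2.2 h1.2
  · obtain ⟨d, hd, h1⟩ := mem_iUnion₂.1 hy
    exact ⟨mem_iUnion₂.2 ⟨d, hd, h1.1⟩, (right_Jump E hd.1 h1.2).2⟩
  · obtain ⟨d, hd, h1⟩ := mem_iUnion₂.1 hy
    have h2 : (0 : ℝ) < d.2.2.2.2 := pos_of_mem_ball h1
    have h3 : y ∈ d.2.1 ∪ d.2.2.1 := hd.1.un ▸ ⟨hd.2.2 (ball_subset_ball (by linarith) h1), hy'⟩
    rcases h3 with h3 | h3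
    · exact Or.inr (mem_iUnion₂.2 ⟨d, hd, h1, h3⟩)
    · exact Or.inl (mem_iUnion₂.2 ⟨d, hd, h1, h3⟩)
  · obtain ⟨U₀, A₀, B₀, h1, -, h₀⟩ := hT q hq univ univ_mem
    obtain ⟨ε, hε, hb⟩ := Metric.isOpen_iff.1 h₀.oU _ h1
    have hG : (U₀, A₀, B₀, E.f q, ε / 2) ∈ G :=
      ⟨h₀, ⟨q, rfl⟩, (ball_subset_ball (by linarith)).trans hb⟩
    refine ⟨mem_iUnion₂.2 ⟨_, hG, mem_ball_self (half_pos hε)⟩, fun V hV => ?_⟩
    obtain ⟨U, A, B, h2, h3, h4⟩ := hT q hq (V ∩ ball (E.f q) (ε / 2))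
      (inter_mem hV (ball_mem_nhds _ (half_pos hε)))
    have h5 := hB _ _ _ _ _ _ h₀ h4
      (fun x hx => hb (ball_subset_ball (half_le_self hε.le) (h3 hx).2)) ⟨q, h2⟩
    exact ⟨U, A, B, h2, fun x hx => (h3 hx).1, h4,
      fun y hy => mem_iUnion₂.2 ⟨_, hG, (h3 (left_Jump E h4 hy).1).2, h5.1 hy⟩,
      fun y hy => mem_iUnion₂.2 ⟨_, hG, (h3 (right_Jump E h4 hy).1).2, h5.2 hy⟩⟩

variable [T2Space M] [CompactSpace M] [ConnectedSpace M] [MeasurableSpace M] [BorelSpace M]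

theorem Jump_pf (E : Dat M) : SJump E := by
  classical
  intro h0 hT hB V hV hc hC
  have hS : IsCompact E.Sg := isCompact_range h0.cf
  obtain ⟨O, P, Q, oO, oP, oQ, hQP, hP, hO, hq⟩ := sides_Jump E hS hT hB
  have hnb : ∀ q, E.f q ∈ V → q ∉ E.bd := fun q h1 h2 => Set.disjoint_left.1 hC h1 ⟨q, h2, rfl⟩
  obtain ⟨u, hu, u0, u1⟩ := ury_Jump V O E.Sg oO hS.isClosed (by
    rintro _ h1 ⟨q, rfl⟩
    exact (hq q (hnb q h1)).1)
  let g : E3 → ℝ := fun y => if y ∈ P then u y else 0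
  have gP : ∀ y ∈ P, g y = u y := fun y hy => if_pos hy
  have gN : ∀ y, y ∉ P → g y = 0 := fun y hy => if_neg hy
  have hua : ∀ x ∈ V, ContinuousAt u x := fun x hx => hu.continuousAt (hV.mem_nhds hx)
  have hg : ∀ x ∈ V, x ∉ E.Sg → ContinuousAt g x := by
    intro x hx hxS
    by_cases hxO : x ∈ O
    · rcases hO x hxO hxS with h1 | h1
      · exact (hua x hx).congr (mem_of_superset (oP.mem_nhds h1) fun y hy => (gP y hy).symm)
      · exact (continuousAt_const (y := (0 : ℝ))).congr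
          (mem_of_superset (oQ.mem_nhds h1) fun y hy => (gN y (hQP y hy)).symm)
    · have h1 : Tendsto u (𝓝 x) (𝓝 0) := u0 x hx hxO ▸ hua x hx
      have h2 : Tendsto g (𝓝 x) (𝓝 0) := h1.if' tendsto_const_nhds
      rwa [← gN x fun h => hxO (hP x h).1] at h2
  have hq1 : Continuous fun t : ℝ => (t : AddCircle (1 : ℝ)) := AddCircle.continuous_mk' 1
  obtain ⟨Θ, α, hΘ, hα⟩ := lift_Jump V hV hc g (by
    intro x hx
    refine ContinuousAt.continuousWithinAt ?_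
    by_cases hxS : x ∈ E.Sg
    · have h1 : Tendsto (fun y => ((u y : ℝ) : AddCircle (1 : ℝ))) (𝓝 x) (𝓝 0) := by
        have h2 := (hq1.continuousAt.comp (hua x hx)).tendsto
        rwa [Function.comp_apply, u1 x hx hxS, AddCircle.coe_period] at h2
      have h2 := h1.if' (p := fun y => y ∈ P) (tendsto_const_nhds (x := (0 : AddCircle (1 : ℝ))))
      have h3 : ((g x : ℝ) : AddCircle (1 : ℝ)) = 0 := by
        rw [gN x fun h => (hP x h).2 hxS, AddCircle.coe_zero]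
      rw [ContinuousAt, h3]
      refine h2.congr fun y => ?_
      by_cases hy : y ∈ P
      · rw [if_pos hy, gP y hy]
      · rw [if_neg hy, gN y hy, AddCircle.coe_zero]
    · exact hq1.continuousAt.comp (hg x hx hxS))
  have hΘa : ∀ x ∈ V, ContinuousAt Θ x := fun x hx => hΘ.continuousAt (hV.mem_nhds hx)
  refine ⟨α, fun x hx hxS => ?_, fun q hqV => ⟨α (E.f q), ?_⟩⟩
  · have h1 := Metric.tendsto_nhds.1 ((hg x hx hxS).sub (hΘa x hx)).tendsto 1 one_pos
    filter_upwards [h1, hV.mem_nhds hx] with y hy hyV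
    refine int_Jump ?_
    rw [hα y hyV, hα x hx]
    exact hy
  · have h1 := Metric.tendsto_nhds.1 (hΘa _ hqV).tendsto (1 / 2) one_half_pos
    have h2 := Metric.tendsto_nhds.1 (hua _ hqV).tendsto (1 / 2) one_half_pos
    obtain ⟨U, A, B, h3, h4, h5, h6, h7⟩ := (hq q (hnb q hqV)).2 _
      ((h1.and h2).and (hV.mem_nhds hqV))
    have h8 : (α (E.f q) : ℝ) = -Θ (E.f q) := by
      rw [hα _ hqV, gN _ fun h => (hP _ h).2 ⟨q, rfl⟩, zero_sub]
    refine ⟨U, A, B, h3, fun y hy => (h4 hy).2, h5, fun y hy => int_Jump ?_,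
      fun y hy => int_Jump ?_⟩
    · obtain ⟨⟨k1, -⟩, k3⟩ := h4 (left_Jump E h5 hy).1
      rw [Real.dist_eq, abs_lt] at k1
      rw [hα y k3, gN y (hQP y (h6 hy)), h8, abs_lt]
      constructor <;> linarith [k1.1, k1.2]
    · obtain ⟨⟨k1, k2⟩, k3⟩ := h4 (right_Jump E h5 hy).1
      rw [Real.dist_eq, abs_lt] at k1 k2
      rw [u1 _ hqV ⟨q, rfl⟩] at k2
      rw [hα y k3, gP y (h7 hy), Int.cast_add, Int.cast_one, h8, abs_lt]
      constructor <;> linarith [k1.1, k1.2, k2.1, k2.2]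

end Pool.Agent.MP_efb2da_gt.Emb

end

end

section

open scoped Manifold ContDiff RealInnerProductSpace Topology ENNReal
open Set MeasureTheory Filter Metric

noncomputable section

namespace Pool.Agent.MP_efb2da_gt.Emb

theorem ray_Bas (x w : E3) : Tendsto (fun s : ℝ => x + s • w) (𝓝[>] 0) (𝓝 x) := by
  have : Continuous fun s : ℝ => x + s • w := by fun_prop
  simpa using (this.tendsto 0).mono_left (nhdsWithin_le_nhds (s := Ioi 0))

theorem dense_Bas : Dense {x : E3 | x 2 ≠ 0} := fun x => by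
  by_cases h : x 2 = 0
  · refine mem_closure_of_tendsto (ray_Bas x e3) ?_
    filter_upwards [self_mem_nhdsWithin] with s hs
    simpa [h, e3] using ne_of_gt hs
  · exact subset_closure h

section
variable {M : Type} [TopologicalSpace M] {E : Dat M} {U A B : Set E3} {q : M}

theorem ev_Bas (h0 : E.Ok0) (h : E.Box U A B) (hq : E.f q ∈ U) :
    (∀ᶠ s in 𝓝[>] (0:ℝ), E.f q + s • (-E.N q) ∈ A) ∧
      ∀ᶠ s in 𝓝[>] (0:ℝ), E.f q + s • E.N q ∈ B :=
  ⟨(h.dir q hq _).2 (by rw [inner_neg_left, real_inner_self_eq_norm_sq, h0.un]; norm_num),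
    (h.dir q hq _).1 (by rw [real_inner_self_eq_norm_sq, h0.un]; norm_num)⟩

theorem cl_Bas (h0 : E.Ok0) (h : E.Box U A B) (hq : E.f q ∈ U) :
    E.f q ∈ closure A ∧ E.f q ∈ closure B :=
  ⟨mem_closure_of_tendsto (ray_Bas _ _) (ev_Bas h0 h hq).1,
    mem_closure_of_tendsto (ray_Bas _ _) (ev_Bas h0 h hq).2⟩

theorem boxCl_Bas (h0 : E.Ok0) : E.BoxCl := fun _ _ _ h _ hq =>
  ⟨closure_minimal (dense_Bas.open_subset_closure_inter h.oA) isClosed_closure
      (cl_Bas h0 h hq).1,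
    closure_minimal (dense_Bas.open_subset_closure_inter h.oB) isClosed_closure
      (cl_Bas h0 h hq).2⟩

theorem boxSub_Bas (h0 : E.Ok0) : E.BoxSub := by
  rintro U A B U' A' B' h h' hU ⟨q, hq⟩
  have s : A' ∪ B' ⊆ A ∪ B := by
    rw [← h.un, ← h'.un]
    exact sdiff_subset_sdiff_left hU
  obtain ⟨s1, a1⟩ := ((ev_Bas h0 h' hq).1.and (ev_Bas h0 h (hU hq)).1).exists
  obtain ⟨s2, a2⟩ := ((ev_Bas h0 h' hq).2.and (ev_Bas h0 h (hU hq)).2).exists
  exact ⟨h'.cA.subset_left_of_subset_union h.oA h.oB h.dj (subset_union_left.trans s) ⟨_, a1⟩,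
    h'.cB.subset_right_of_subset_union h.oA h.oB h.dj (subset_union_right.trans s) ⟨_, a2⟩⟩

theorem nb_Bas (h : E.Box U A B) (hq : E.f q ∈ U) : q ∉ E.bd := fun hb =>
  disjoint_left.1 h.dC hq ⟨q, hb, rfl⟩

variable [MeasurableSpace M] {μ : Measure M}

theorem shr_Bas (h0 : E.Ok0) (hI : E.BoxI μ) : E.JumpShr μ := by
  rintro α q l V ⟨U₀, A₀, B₀, hq, hV, h, hA, hB⟩ V' hV'
  obtain ⟨U, A, B, a1, a2, a3, a4⟩ := hI q (nb_Bas h hq) _ (inter_mem hV' (h.oU.mem_nhds hq))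
  have s := boxSub_Bas h0 _ _ _ _ _ _ h a3 (a2.trans inter_subset_right) ⟨q, a1⟩
  exact ⟨U, A, B, a1, a2.trans inter_subset_left, (a2.trans inter_subset_right).trans hV, a3, a4,
    fun y hy => hA y (s.1 hy), fun y hy => hB y (s.2 hy)⟩

theorem mono_Bas (h0 : E.Ok0) (hI : E.BoxI μ) : E.JumpMono := by
  intro V V' α h hV' hs
  refine ⟨fun x hx => h.1 x (hs hx), fun q hq => ?_⟩
  obtain ⟨l, hl⟩ := h.2 q (hs hq)
  obtain ⟨U, A, B, a1, a2, -, a3, -, a4⟩ := shr_Bas h0 hI α q l V hl V' (hV'.mem_nhds hq)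
  exact ⟨l, U, A, B, a1, a2, a3, a4⟩

theorem un_Bas (h0 : E.Ok0) (hI : E.BoxI μ) : E.JumpUn := by
  intro V α β hV hc ha hb
  have ex : ∀ y, ∃ d : ℤ, y ∈ V → ∀ᶠ y' in 𝓝 y, y' ∉ E.Sg → α y' = β y' + d := by
    intro y
    by_cases hy : y ∈ V
    swap
    · exact ⟨0, fun h => absurd h hy⟩
    by_cases hs : y ∈ E.Sg
    · obtain ⟨q, rfl⟩ := hs
      obtain ⟨l, U₁, A₁, B₁, b1, -, b3, b4, b5⟩ := ha.2 q hy
      obtain ⟨l', hl'⟩ := hb.2 q hy
      obtain ⟨U, A, B, a1, a2, -, a3, -, a4, a5⟩ :=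
        shr_Bas h0 hI β q l' V hl' U₁ (b3.oU.mem_nhds b1)
      have s := boxSub_Bas h0 _ _ _ _ _ _ b3 a3 a2 ⟨q, a1⟩
      refine ⟨l - l', fun _ => ?_⟩
      filter_upwards [a3.oU.mem_nhds a1] with y h1 h2
      have : y ∈ A ∪ B := a3.un ▸ ⟨h1, h2⟩
      rcases this with h | h
      · rw [b4 y (s.1 h), a4 y h]; ring
      · rw [b5 y (s.2 h), a5 y h]; ring
    · refine ⟨α y - β y, fun _ => ?_⟩
      filter_upwards [ha.1 y hy hs, hb.1 y hy hs] with y' h1 h2 _
      rw [h1, h2]; ring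
  choose g hg using ex
  have fr : ∀ y ∈ V, ∃ᶠ y' in 𝓝 y, y' ∉ E.Sg := by
    intro y hy
    refine mem_closure_iff_frequently.1 (show y ∈ closure E.Sgᶜ from ?_)
    by_cases hs : y ∈ E.Sg
    · obtain ⟨q, rfl⟩ := hs
      obtain ⟨l, U, A, B, b1, -, b3, -⟩ := ha.2 q hy
      refine closure_mono (fun x hx => ?_) (cl_Bas h0 b3 b1).1
      have : x ∈ U \ E.Sg := b3.un ▸ Or.inl hx
      exact this.2
    · exact subset_closure hs
  have ct : ContinuousOn g V := fun y hy => by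
    refine (continuousAt_const (y := g y)).congr ?_ |>.continuousWithinAt
    filter_upwards [(hg y hy).eventually_nhds, hV.mem_nhds hy] with y' h1 h2
    obtain ⟨z, z1, z2, z3⟩ := ((fr y' h2).and_eventually (h1.and (hg y' h2))).exists
    have := z2 z1
    have := z3 z1
    omega
  rcases V.eq_empty_or_nonempty with rfl | ⟨y₀, h₀⟩
  · exact ⟨0, fun y hy => hy.elim⟩
  · exact ⟨g y₀, fun y hy hs => by rw [hc.constant ct h₀ hy]; exact (hg y hy).self_of_nhds hs⟩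

omit [MeasurableSpace M] in
theorem mp_Bas (h0 : E.Ok0) (hH : 0 < E.H) (hM : E.MP0) : E.MP := by
  intro U A B h q hq v hv
  by_contra c
  have c' : ∀ᶠ y in 𝓝 (E.f q), y ∈ A → ⟪y, v⟫ ≤ ⟪E.f q, v⟫ :=
    (not_frequently.1 c).mono fun y hy hA => not_lt.1 fun l => hy ⟨hA, l⟩
  obtain ⟨O, h1, h2, h3⟩ := _root_.eventually_nhds_iff.1 c'
  have k : IsClosed {y : E3 | ⟪y, v⟫ ≤ ⟪E.f q, v⟫} := isClosed_le (by fun_prop) continuous_const
  rcases hM q (nb_Bas h hq) v hv (by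
    filter_upwards [h0.cf.continuousAt.preimage_mem_nhds ((h2.inter h.oU).mem_nhds ⟨h3, hq⟩)]
      with q' hq'
    exact closure_minimal (fun y hy => h1 y hy.1 hy.2) k
      (h2.inter_closure ⟨hq'.1, (cl_Bas h0 h hq'.2).1⟩)) with e | e
  · obtain ⟨s, s1, s2, s3⟩ := ((ev_Bas h0 h hq).1.and (((ray_Bas _ (-E.N q)).eventually c').and
      self_mem_nhdsWithin)).exists
    have := s2 s1
    rw [← e, inner_add_left, real_inner_smul_left, real_inner_self_eq_norm_sq, hv] at this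
    have : (0 : ℝ) < s := s3
    linarith
  · exact absurd e.2 (not_le.2 hH)

end

variable {M : Type} [TopologicalSpace M] [T2Space M] [CompactSpace M] [ConnectedSpace M]
  [MeasurableSpace M] [BorelSpace M]

theorem Bas_pf (E : Dat M) (μ : Measure M) (c : ℝ) : SBas E μ c := fun h0 hE hI hM =>
  ⟨boxCl_Bas h0, boxSub_Bas h0, shr_Bas h0 hI, mono_Bas h0 hI, un_Bas h0 hI, mp_Bas h0 hE.pos hM⟩

end Pool.Agent.MP_efb2da_gt.Emb

end

end

section

/-! The boundary integral in a chart and along the boundary curve. -/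

open scoped Manifold ContDiff RealInnerProductSpace Topology ENNReal
open Set MeasureTheory Filter Metric

noncomputable section

namespace Pool.Agent.MP_efb2da_gt.Emb

theorem core_BdLoc {h h' Γ Γ' : ℝ → E3} {V J : Set ℝ} {v : ℝ → ℝ} {s0 : ℝ} (hJ : IsOpen J)
    (hs0 : s0 ∈ J) (hv : ContinuousOn v J) (hm : MapsTo v J V)
    (hh : ∀ x ∈ V, HasDerivAt h (h' x) x) (hc : ContinuousOn h' V) (h0 : ∀ x ∈ V, h' x ≠ 0)
    (hΓ : ∀ s, HasDerivAt Γ (Γ' s) s) (cΓ : Continuous Γ') (Γ0 : ∀ s, Γ' s ≠ 0)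
    (e : ∀ s ∈ J, h (v s) = Γ s) : ∃ (τ δ : ℝ) (v' : ℝ → ℝ), (τ = 1 ∨ τ = -1) ∧ 0 < δ ∧
      δ ≤ 1 / 2 ∧ ∀ s ∈ Ioo (s0 - δ) (s0 + δ), s ∈ J ∧ HasDerivAt v (v' s) s ∧
        |v' s| = τ * v' s ∧ v' s • h' (v s) = Γ' s := by
  obtain ⟨v', hv'⟩ : ∃ v' : ℝ → ℝ, v' = fun s => ⟪h' (v s), Γ' s⟫ / ⟪h' (v s), h' (v s)⟫ :=
    ⟨_, rfl⟩
  have n0 : ∀ s ∈ J, ⟪h' (v s), h' (v s)⟫ ≠ 0 := fun s hs =>
    inner_self_ne_zero.2 (h0 _ (hm hs))
  have h1 : ∀ s ∈ J, HasDerivAt v (v' s) s := fun s hs => by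
    have a := (hasDerivAt_const (v s) (h' (v s))).inner ℝ (hh _ (hm hs))
    have b := (hasDerivAt_const s (h' (v s))).inner ℝ (hΓ s)
    simp only [inner_zero_left, add_zero] at a b
    rw [hv']
    refine HasDerivAt.of_comp_left (hv.continuousAt (hJ.mem_nhds hs)) a b (n0 s hs) ?_
    filter_upwards [hJ.mem_nhds hs] with t ht
    simp [e t ht]
  have h2 : ∀ s ∈ J, v' s • h' (v s) = Γ' s := fun s hs => by
    refine ((hh _ (hm hs)).scomp s (h1 s hs)).unique ((hΓ s).congr_of_eventuallyEq ?_)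
    filter_upwards [hJ.mem_nhds hs] with t ht
    exact e t ht
  have h3 : ContinuousAt v' s0 := by
    have a : ContinuousOn (fun s => h' (v s)) J := hc.comp hv hm
    rw [hv']
    exact (((a.inner cΓ.continuousOn).div (a.inner a) n0).continuousAt (hJ.mem_nhds hs0))
  have h4 : v' s0 ≠ 0 := fun h => Γ0 s0 (by rw [← h2 s0 hs0, h, zero_smul])
  obtain ⟨τ, hτ, h5⟩ : ∃ τ : ℝ, (τ = 1 ∨ τ = -1) ∧ ∀ᶠ s in 𝓝 s0, |v' s| = τ * v' s := by
    rcases lt_or_gt_of_ne h4 with h | h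
    · exact ⟨-1, Or.inr rfl, (h3.eventually_lt continuousAt_const h).mono fun s hs => by
        rw [abs_of_neg hs, neg_one_mul]⟩
    · exact ⟨1, Or.inl rfl, (continuousAt_const.eventually_lt h3 h).mono fun s hs => by
        rw [abs_of_pos hs, one_mul]⟩
  obtain ⟨δ, hδ, h6⟩ := Metric.eventually_nhds_iff_ball.1 (h5.and (hJ.mem_nhds hs0))
  refine ⟨τ, min δ (1 / 2), v', hτ, by positivity, min_le_right _ _, fun s hs => ?_⟩
  have h7 := h6 s (by
    rw [Real.ball_eq_Ioo]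
    have := min_le_left δ (1 / 2)
    exact ⟨by linarith [hs.1], by linarith [hs.2]⟩)
  exact ⟨h7.2, h1 s h7.2, h7.1, h2 s h7.2⟩

theorem inj_BdLoc {γ : ℝ → E2} (per : Function.Periodic γ 1) (inj : InjOn γ (Ico 0 1))
    {s t : ℝ} (h : γ s = γ t) (h1 : |s - t| < 1) : s = t := by
  have e : ∀ x, γ (Int.fract x) = γ x := fun x => by
    have := per.sub_int_mul_eq (x := x) ⌊x⌋
    rwa [mul_one] at this
  have h2 := inj ⟨Int.fract_nonneg s, Int.fract_lt_one s⟩ ⟨Int.fract_nonneg t, Int.fract_lt_one t⟩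
    (by rw [e, e, h])
  obtain ⟨z, hz⟩ := Int.fract_eq_fract.1 h2
  rw [hz] at h1
  have h3 : z = 0 := Int.abs_lt_one_iff.1 (by exact_mod_cast h1)
  rwa [h3, Int.cast_zero, sub_eq_zero] at hz

/-- the inclusion of the plane as a linear map -/
def inL_BdLoc : E2 →L[ℝ] E3 := LinearMap.toContinuousLinearMap
  { toFun := incl
    map_add' := fun x y => by ext i; fin_cases i <;> simp [incl]
    map_smul' := fun a x => by ext i; fin_cases i <;> simp [incl] }

theorem incl_BdLoc : Function.Injective incl := fun x y h => by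
  ext i
  fin_cases i
  · simpa [incl] using congrArg (fun z : E3 => z 0) h
  · simpa [incl] using congrArg (fun z : E3 => z 1) h

theorem ln_BdLoc : ln = fun v : ℝ => v • (EuclideanSpace.single 1 1 : E2) := by
  ext v i
  fin_cases i <;> simp [ln]

theorem half_BdLoc (v : ℝ) : ln v ∈ halfPlane := by simp [ln, halfPlane]

variable {M : Type} [TopologicalSpace M] [T2Space M] [CompactSpace M] [ConnectedSpace M]
  [MeasurableSpace M] [BorelSpace M]

omit [T2Space M] [ConnectedSpace M] [MeasurableSpace M] [BorelSpace M] in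
theorem aux_BdLoc (E : Dat M) : SBdLoc E := by
  intro ok em γ β par p
  have o := ok.o0
  have cl : ContDiff ℝ ∞ ln := by
    rw [ln_BdLoc]
    exact contDiff_id.smul contDiff_const
  have dl : ∀ v, HasDerivAt ln (EuclideanSpace.single 1 1 : E2) v := fun v => by
    rw [ln_BdLoc]
    simpa using (hasDerivAt_id v).smul_const (EuclideanSpace.single 1 1 : E2)
  have oV : IsOpen {v | ln v ∈ (E.c p).O} := (E.c p).oO.preimage cl.continuous
  have mT : ∀ v ∈ {v | ln v ∈ (E.c p).O}, ln v ∈ E.T p := fun v hv => ⟨hv, half_BdLoc v⟩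
  have mb : ∀ v ∈ {v | ln v ∈ (E.c p).O}, (E.c p).ψ (ln v) ∈ E.bd := fun v hv =>
    (o.bdi p _ ((E.c p).mψ (mT v hv))).2 (by rw [(E.c p).ri _ (mT v hv)]; simp [ln])
  by_cases hp : p ∈ E.bd
  swap
  · refine ⟨(E.f '' E.bd)ᶜ, (o.clb.isCompact.image o.cf).isClosed.isOpen_compl.mem_nhds
      (fun ⟨q, hq, e⟩ => hp (em.inj e ▸ hq)), 1, Or.inl rfl, fun Y _ hY => ?_⟩
    have h0 : ∀ q ∈ E.bd, Y q = 0 := fun q hq => hY q fun h => h ⟨q, hq, rfl⟩
    rw [setIntegral_eq_zero_of_forall_eq_zero fun v hv => by rw [h0 _ (mb v hv), inner_zero_left]]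
    simp [h0 _ (par.mem _)]
  obtain ⟨s0, hpe⟩ := par.sur p hp
  have hh : ∀ v ∈ {v | ln v ∈ (E.c p).O},
      HasDerivAt (E.F p ∘ ln) (pd (E.F p) 1 (ln v)) v := fun v hv => by
    have a : DifferentiableWithinAt ℝ (E.F p) halfPlane (ln v) :=
      ((o.sF p).differentiableOn (by simp) _ (mT v hv)).mono_of_mem_nhdsWithin
        (by rw [Dat.T, inter_comm]; exact inter_mem_nhdsWithin _ ((E.c p).oO.mem_nhds hv))
    exact a.hasFDerivWithinAt.comp_hasDerivAt v (dl v) (.of_forall half_BdLoc)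
  have hc : ContinuousOn (fun v => pd (E.F p) 1 (ln v)) {v | ln v ∈ (E.c p).O} :=
    (((o.sF p).comp cl.contDiffOn mT).continuousOn_deriv_of_isOpen oV (by simp)).congr
      fun v hv => (hh v hv).deriv.symm
  have dγ : ∀ s, HasDerivAt (fun s => incl (γ s)) (incl (deriv γ s)) s := fun s =>
    inL_BdLoc.hasFDerivAt.comp_hasDerivAt s (par.sm.differentiable (by simp) s).hasDerivAt
  obtain ⟨w, hw⟩ : ∃ w : ℝ → ℝ, w = fun s => (E.c p).φ (β s) 1 := ⟨_, rfl⟩
  have e1 : ∀ s ∈ β ⁻¹' (E.c p).S, ln (w s) = (E.c p).φ (β s) := fun s hs => by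
    have := (o.bdi p _ hs).1 (par.mem s)
    ext i
    fin_cases i <;> simp [ln, this, hw]
  have e2 : ∀ s ∈ β ⁻¹' (E.c p).S, (E.c p).ψ (ln (w s)) = β s := fun s hs => by
    rw [e1 s hs, (E.c p).li _ hs]
  have hm : MapsTo w (β ⁻¹' (E.c p).S) {v | ln v ∈ (E.c p).O} := fun s hs => by
    change ln _ ∈ (E.c p).O
    rw [e1 s hs]
    exact ((E.c p).mφ hs).1
  have cw : ContinuousOn w (β ⁻¹' (E.c p).S) := by
    rw [hw]
    exact (EuclideanSpace.proj (1 : Fin 2) : E2 →L[ℝ] ℝ).continuous.comp_continuousOn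
      ((E.c p).cφ.comp par.cβ.continuousOn fun s hs => hs)
  obtain ⟨τ, δ, v', hτ, hδ, hδ', hI⟩ := core_BdLoc (s0 := s0) ((E.c p).oS.preimage par.cβ)
    (show β s0 ∈ (E.c p).S by rw [hpe]; exact o.mem p) cw hm hh hc
    (fun v hv => (ok.o1 p _ (mT v hv)).imm.ne_zero 1) dγ
    (inL_BdLoc.continuous.comp (par.sm.continuous_deriv le_rfl))
    (fun s h => par.reg s (incl_BdLoc (h.trans (map_zero inL_BdLoc).symm)))
    (fun s hs => (congrArg E.f (e2 s hs)).trans (par.eq s))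
  have pβ : Function.Periodic β 1 := fun s => em.inj (by rw [par.eq, par.eq, par.per])
  have cK : IsCompact ((fun s => incl (γ s)) '' Icc (s0 + δ) (s0 - δ + 1)) :=
    isCompact_Icc.image (inL_BdLoc.continuous.comp par.sm.continuous)
  refine ⟨_, cK.isClosed.isOpen_compl.mem_nhds ?_, τ, hτ, fun Y _ hY => ?_⟩
  · rintro ⟨s, hs, e⟩
    rw [← hpe, par.eq] at e
    have := inj_BdLoc par.per par.inj (incl_BdLoc e)
      (abs_lt.2 ⟨by linarith [hs.1], by linarith [hs.2]⟩)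
    linarith [hs.1]
  have h0 : ∀ s ∈ Icc (s0 + δ) (s0 - δ + 1), Y (β s) = 0 := fun s hs =>
    hY _ fun h => h ⟨s, hs, (par.eq s).symm⟩
  have pg : Function.Periodic (fun s => ⟪Y (β s), incl (deriv γ s)⟫) 1 := fun s => by
    have : deriv γ (s + 1) = deriv γ s := by
      rw [← deriv_comp_add_const, funext par.per]
    simp only [pβ s, this]
  have e3 := pg.intervalIntegral_add_eq 0 (s0 - δ)
  rw [zero_add] at e3
  rw [e3, intervalIntegral.integral_of_le (by linarith),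
    setIntegral_eq_of_subset_of_forall_sdiff_eq_zero (s := Ioo (s0 - δ) (s0 + δ))
      measurableSet_Ioc (fun s hs => ⟨hs.1, by linarith [hs.2]⟩) (fun s hs => by
        rw [h0 s ⟨not_lt.1 fun h => hs.2 ⟨hs.1.1, h⟩, hs.1.2⟩, inner_zero_left]),
    setIntegral_eq_of_subset_of_forall_sdiff_eq_zero
      (s := w '' Ioo (s0 - δ) (s0 + δ)) oV.measurableSet
      (by rintro _ ⟨s, hs, rfl⟩; exact hm (hI s hs).1) (fun v hv => ?_),
    integral_image_eq_integral_abs_deriv_smul measurableSet_Ioo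
      (fun s hs => (hI s hs).2.1.hasDerivWithinAt) (fun s hs t ht e => ?_),
    ← integral_const_mul]
  · refine setIntegral_congr_fun measurableSet_Ioo fun s hs => ?_
    obtain ⟨a, -, b, c⟩ := hI s hs
    rw [e2 s a, b, ← c, inner_smul_right, smul_eq_mul, mul_assoc]
  · have e4 : β s = β t := by rw [← e2 s (hI s hs).1, ← e2 t (hI t ht).1, e]
    refine inj_BdLoc par.per par.inj (incl_BdLoc ?_)
      (abs_lt.2 ⟨by linarith [hs.1, ht.2], by linarith [hs.2, ht.1]⟩)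
    rw [← par.eq, ← par.eq, e4]
  · obtain ⟨s, hs⟩ := par.sur _ (mb v hv.1)
    obtain ⟨t, ht, e⟩ := pβ.exists_mem_Ioc one_pos s (s0 - δ)
    rw [← hs, e, h0 t ⟨not_lt.1 fun h => hv.2 ⟨t, ⟨ht.1, h⟩, ?_⟩, ht.2⟩, inner_zero_left]
    simp only [hw]
    rw [← e, hs, (E.c p).ri _ (mT v hv.1)]
    simp [ln]

set_option linter.unusedSectionVars false in
theorem BdLoc_pf (E : Dat M) : SBdLoc E := aux_BdLoc E

end Pool.Agent.MP_efb2da_gt.Emb

end

end

section

/-! The global Stokes formula. -/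

open scoped Manifold ContDiff RealInnerProductSpace Topology ENNReal
open Set MeasureTheory Filter Metric

noncomputable section

namespace Pool.Agent.MP_efb2da_gt.Emb

theorem incl_StkG : Continuous incl := by
  unfold incl
  fun_prop

theorem crs_StkG {Z : Type} [TopologicalSpace Z] {a b : Z → E3} (ha : Continuous a)
    (hb : Continuous b) : Continuous fun z => crs (a z) (b z) := by
  unfold crs
  fun_prop

theorem crs0_StkG (b : E3) : crs 0 b = 0 := by
  ext i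
  fin_cases i <;> simp [crs]

theorem zero_StkG : C1c 0 := ⟨contDiff_const, HasCompactSupport.zero⟩

/-- a test field along the curve -/
theorem test_StkG {γ : ℝ → E2} (sm : ContDiff ℝ 1 γ) (per : Function.Periodic γ 1)
    (inj : InjOn γ (Ico 0 1)) (reg : ∀ s, deriv γ s ≠ 0) (t : ℝ) {W : Set E3}
    (hW : W ∈ 𝓝 (incl (γ t))) : ∃ Y, C1c Y ∧ tsupport Y ⊆ W ∧
      0 < ∫ s in (0:ℝ)..1, ⟪Y (incl (γ s)), incl (deriv γ s)⟫ := by
  obtain ⟨s0, hs0, e⟩ := per.exists_mem_Ico₀ one_pos t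
  rw [e] at hW
  have c1 : Continuous fun s => incl (γ s) := incl_StkG.comp sm.continuous
  have c2 : Continuous fun s => incl (deriv γ s) := incl_StkG.comp (sm.continuous_deriv le_rfl)
  obtain ⟨v, hv⟩ : ∃ v, v = incl (deriv γ s0) := ⟨_, rfl⟩
  have ii : Function.Injective incl := fun a b h => by
    ext i
    fin_cases i
    · exact congrArg (fun z : E3 => z 0) h
    · exact congrArg (fun z : E3 => z 1) h
  have v0 : 0 < ⟪v, incl (deriv γ s0)⟫ := by
    rw [← hv]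
    refine real_inner_self_pos.2 fun h => reg s0 (ii ?_)
    rw [← hv, h]
    ext i
    fin_cases i <;> simp [incl]
  have hK : IsCompact ((fun s => incl (γ s)) ''
      (Icc (0:ℝ) 1 ∩ {s | ⟪v, incl (deriv γ s)⟫ ≤ 0})) :=
    (isCompact_Icc.inter_right (isClosed_le (by fun_prop) continuous_const)).image c1
  have hn : incl (γ s0) ∉ (fun s => incl (γ s)) ''
      (Icc (0:ℝ) 1 ∩ {s | ⟪v, incl (deriv γ s)⟫ ≤ 0}) := by
    rintro ⟨s, ⟨h1, h2⟩, h3⟩
    have h4 : γ s = γ s0 := ii h3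
    refine absurd v0 (not_lt.2 ?_)
    rcases h1.2.eq_or_lt with rfl | h5
    · have h6 : γ 0 = γ s0 := by rw [← h4, ← per 0, zero_add]
      have h7 : deriv γ 1 = deriv γ 0 := by
        rw [← zero_add (1 : ℝ), ← deriv_comp_add_const, funext per]
      rw [← inj ⟨le_rfl, one_pos⟩ hs0 h6, ← h7]
      exact h2
    · rw [← inj ⟨h1.1, h5⟩ hs0 h4]
      exact h2
  obtain ⟨g, g1, g2, g3, g4, g5⟩ := exists_contDiff_tsupport_subset (n := 1)
    (inter_mem hW (hK.isClosed.isOpen_compl.mem_nhds hn))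
  have cg := g3.continuous
  refine ⟨fun x => g x • v, ⟨g3.smul contDiff_const, g2.smul_right (f' := fun _ => v)⟩,
    (tsupport_smul_subset_left _ _).trans (g1.trans inter_subset_left),
    intervalIntegral.integral_pos one_pos (Continuous.continuousOn (by fun_prop))
      (fun s hs => ?_) ⟨s0, ⟨hs0.1, hs0.2.le⟩, ?_⟩⟩
  · rw [real_inner_smul_left]
    rcases le_total ⟪v, incl (deriv γ s)⟫ 0 with h | h
    · rw [image_eq_zero_of_notMem_tsupport fun a => (g1 a).2 ⟨s, ⟨⟨hs.1.le, hs.2⟩, h⟩, rfl⟩,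
        zero_mul]
    · exact mul_nonneg (g4 ⟨_, rfl⟩).1 h
  · rwa [real_inner_smul_left, g5, one_mul]

variable {M : Type} [TopologicalSpace M]

theorem cont_StkG (E : Dat M) (h : E.Ok0) {X Y : E3 → E3} (hX : C1c X) (hY : C1c Y) :
    Continuous (E.stI X Y) := by
  have c1 := h.cf
  have c2 := h.cN
  have c3 := hX.1.continuous
  have c4 := hX.1.continuous_fderiv one_ne_zero
  have c5 := hY.1.continuous_fderiv one_ne_zero
  unfold Dat.stI dv curl pD
  generalize fderiv ℝ X = D at c4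
  generalize fderiv ℝ Y = D' at c5
  fun_prop

theorem add_StkG (E : Dat M) {X Y X' Y' : E3 → E3} (hX : C1c X) (hY : C1c Y) (hX' : C1c X')
    (hY' : C1c Y') (q : M) : E.stI (X + X') (Y + Y') q = E.stI X Y q + E.stI X' Y' q := by
  have e1 := fderiv_add (hX.1.differentiable one_ne_zero (E.f q))
    (hX'.1.differentiable one_ne_zero (E.f q))
  have e2 := fderiv_add (hY.1.differentiable one_ne_zero (E.f q))
    (hY'.1.differentiable one_ne_zero (E.f q))
  simp only [Dat.stI, dv, curl, pD, e1, e2, inner3]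
  simp
  ring

theorem off_StkG (E : Dat M) {X Y : E3 → E3} {q : M} (hX : E.f q ∉ tsupport X)
    (hY : E.f q ∉ tsupport Y) : E.stI X Y q = 0 := by
  simp only [Dat.stI, dv, curl, pD, fderiv_of_notMem_tsupport ℝ hX, fderiv_of_notMem_tsupport ℝ hY,
    image_eq_zero_of_notMem_tsupport hX, inner3]
  simp

variable [T2Space M] [CompactSpace M] [ConnectedSpace M] [MeasurableSpace M] [BorelSpace M]

theorem StkG_pf (E : Dat M) (μ : Measure M) : SStkG E μ := by
  intro hG hD hO hμ hE γ β hP hS hB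
  have := hμ.fin
  have cf := hO.o0.cf
  have cN := hO.o0.cN
  have c1 : Continuous fun s => incl (γ s) := incl_StkG.comp hP.sm.continuous
  have c2 : Continuous fun s => incl (deriv γ s) :=
    incl_StkG.comp (hP.sm.continuous_deriv le_rfl)
  obtain ⟨A, hA⟩ : ∃ A : (E3 → E3) → (E3 → E3) → ℝ, ∀ X Y, A X Y = ∫ q, E.stI X Y q ∂μ :=
    ⟨_, fun _ _ => rfl⟩
  obtain ⟨B, hB'⟩ : ∃ B : (E3 → E3) → (E3 → E3) → ℝ, ∀ X Y, B X Y = ∫ s in (0:ℝ)..1,
      ⟪crs (X (incl (γ s))) (E.N (β s)) + Y (incl (γ s)), incl (deriv γ s)⟫ := ⟨_, fun _ _ => rfl⟩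
  have aA : ∀ X Y X' Y', C1c X → C1c Y → C1c X' → C1c Y' →
      A (X + X') (Y + Y') = A X Y + A X' Y' := by
    intro X Y X' Y' hX hY hX' hY'
    rw [hA, hA, hA, ← integral_add ((cont_StkG E hO.o0 hX hY).integrable_of_hasCompactSupport
      (HasCompactSupport.of_compactSpace _)) ((cont_StkG E hO.o0 hX' hY').integrable_of_hasCompactSupport
      (HasCompactSupport.of_compactSpace _))]
    simp only [add_StkG E hX hY hX' hY']
  have iB : ∀ X Y, C1c X → C1c Y → IntervalIntegrable (fun s =>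
      ⟪crs (X (incl (γ s))) (E.N (β s)) + Y (incl (γ s)), incl (deriv γ s)⟫) volume 0 1 :=
    fun X Y hX hY => (((crs_StkG (hX.1.continuous.comp c1) (cN.comp hP.cβ)).add
      (hY.1.continuous.comp c1)).inner c2).intervalIntegrable _ _
  have aB : ∀ X Y X' Y', C1c X → C1c Y → C1c X' → C1c Y' →
      B (X + X') (Y + Y') = B X Y + B X' Y' := by
    intro X Y X' Y' hX hY hX' hY'
    rw [hB', hB', hB', ← intervalIntegral.integral_add (iB X Y hX hY) (iB X' Y' hX' hY')]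
    refine intervalIntegral.integral_congr fun s _ => ?_
    simp only [inner3]
    simp [crs]
    ring
  have loc : ∀ p, ∃ U ∈ 𝓝 (E.f p), ∃ σ : ℝ, (σ = 1 ∨ σ = -1) ∧ ∀ X Y, C1c X → C1c Y →
      tsupport X ⊆ U → tsupport Y ⊆ U → A X Y = σ * B X Y := by
    intro p
    obtain ⟨U, hU, ς, hς, h1⟩ := hS p
    obtain ⟨V, hV, τ, hτ, h2⟩ := hB p
    refine ⟨U ∩ V, inter_mem hU hV, ς * τ, by rcases hς with rfl | rfl <;> rcases hτ with rfl | rfl <;>
      simp, fun X Y hX hY sX sY => ?_⟩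
    have h3 := h2 (fun q => crs (X (E.f q)) (E.N q) + Y (E.f q))
      ((crs_StkG (hX.1.continuous.comp cf) cN).add (hY.1.continuous.comp cf)) fun q hq => by
        rw [image_eq_zero_of_notMem_tsupport fun a => hq (sX a).2,
          image_eq_zero_of_notMem_tsupport fun a => hq (sY a).2, crs0_StkG, add_zero]
    simp only [hP.eq] at h3
    rw [hA, hB', h1 X Y hX hY (sX.trans inter_subset_left) (sY.trans inter_subset_left),
      mul_assoc, ← h3]
    rfl
  choose U hU σ hσ hl using loc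
  have cst : ∀ p ∈ E.bd, ∀ᶠ p' in 𝓝[E.bd] p, σ p = σ p' := by
    intro p _
    filter_upwards [self_mem_nhdsWithin, mem_nhdsWithin_of_mem_nhds
      (cf.continuousAt.preimage_mem_nhds (interior_mem_nhds.2 (hU p)))] with p' h1 h2
    obtain ⟨s, rfl⟩ := hP.sur p' h1
    have h3 : U p ∩ U (β s) ∈ 𝓝 (incl (γ s)) :=
      hP.eq s ▸ inter_mem (mem_interior_iff_mem_nhds.1 h2) (hU _)
    obtain ⟨Y, y1, y2, y3⟩ := test_StkG hP.sm hP.per hP.inj hP.reg s h3
    have h4 : 0 < B 0 Y := by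
      rw [hB']
      simpa only [Pi.zero_apply, crs0_StkG, zero_add] using y3
    exact mul_right_cancel₀ h4.ne'
      ((hl p 0 Y zero_StkG y1 (by simp) (y2.trans inter_subset_left)).symm.trans
        (hl _ 0 Y zero_StkG y1 (by simp) (y2.trans inter_subset_right)))
  obtain ⟨p0, hp0⟩ := hE.ne
  have cs : ∀ p ∈ E.bd, σ p = σ p0 := fun p hp =>
    hE.pc.induction₂ (fun a b => σ a = σ b) cst (fun _ _ _ _ _ _ => Eq.trans)
      (fun _ _ _ _ => Eq.symm) hp hp0
  have all : ∀ x ∈ (univ : Set E3), ∃ V ∈ 𝓝 x, ∀ X Y, C1c X → C1c Y →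
      tsupport X ⊆ V → tsupport Y ⊆ V → A X Y - σ p0 * B X Y = 0 := by
    intro x _
    have b0 : ∀ X Y : E3 → E3, tsupport X ⊆ E.Cᶜ → tsupport Y ⊆ E.Cᶜ → B X Y = 0 := by
      intro X Y sX sY
      have hm : ∀ s, incl (γ s) ∈ E.C := fun s => ⟨_, hP.mem s, hP.eq s⟩
      rw [hB']
      simp only [fun s => image_eq_zero_of_notMem_tsupport fun a => sX a (hm s),
        fun s => image_eq_zero_of_notMem_tsupport fun a => sY a (hm s), crs0_StkG]
      simp
    by_cases h1 : x ∈ E.Sg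
    · obtain ⟨p, rfl⟩ := h1
      by_cases h2 : p ∈ E.bd
      · exact ⟨U p, hU p, fun X Y hX hY sX sY => by rw [hl p X Y hX hY sX sY, cs p h2, sub_self]⟩
      · have h3 : E.f p ∈ E.Cᶜ := fun ⟨q, hq, e⟩ => h2 (hE.inj e ▸ hq)
        refine ⟨U p ∩ E.Cᶜ, inter_mem (hU p)
          ((hO.o0.clb.isCompact.image cf).isClosed.isOpen_compl.mem_nhds h3),
          fun X Y hX hY sX sY => ?_⟩
        rw [hl p X Y hX hY (sX.trans inter_subset_left) (sY.trans inter_subset_left),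
          b0 X Y (sX.trans inter_subset_right) (sY.trans inter_subset_right)]
        simp
    · have h3 : E.Sgᶜ ⊆ E.Cᶜ := compl_subset_compl.2 (image_subset_range _ _)
      refine ⟨E.Sgᶜ, (isCompact_range cf).isClosed.isOpen_compl.mem_nhds h1,
        fun X Y hX hY sX sY => ?_⟩
      rw [b0 X Y (sX.trans h3) (sY.trans h3), hA]
      simp only [fun q => off_StkG E (fun a => sX a ⟨q, rfl⟩) fun a => sY a ⟨q, rfl⟩]
      simp
  refine ⟨σ p0, hσ p0, fun X Y hX hY => ?_⟩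
  have g1 := hG univ C1c (fun X => A X 0 - σ p0 * B X 0) hD.smul (fun X X' hX hX' => by
      have a := aA X 0 X' 0 hX zero_StkG hX' zero_StkG
      have b := aB X 0 X' 0 hX zero_StkG hX' zero_StkG
      rw [add_zero] at a b
      rw [a, b]
      ring)
    (fun x hx => (all x hx).imp fun V hV => ⟨hV.1, fun X hX sX =>
      hV.2 X 0 hX zero_StkG sX (by simp)⟩) X hX hX.2 (subset_univ _)
  have g2 := hG univ C1c (fun Y => A 0 Y - σ p0 * B 0 Y) hD.smul (fun Y Y' hY hY' => by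
      have a := aA 0 Y 0 Y' zero_StkG hY zero_StkG hY'
      have b := aB 0 Y 0 Y' zero_StkG hY zero_StkG hY'
      rw [add_zero] at a b
      rw [a, b]
      ring)
    (fun x hx => (all x hx).imp fun V hV => ⟨hV.1, fun Y hY sY =>
      hV.2 0 Y zero_StkG hY (by simp) sY⟩) Y hY hY.2 (subset_univ _)
  have a := aA X 0 0 Y hX zero_StkG zero_StkG hY
  have b := aB X 0 0 Y hX zero_StkG zero_StkG hY
  rw [add_zero, zero_add] at a b
  rw [← hA, ← hB', a, b]
  linear_combination g1 + g2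

end Pool.Agent.MP_efb2da_gt.Emb

end

end

section

/-! The Montiel-Ros inequality with multiplicity. -/

open scoped Manifold ContDiff RealInnerProductSpace Topology ENNReal
open Set MeasureTheory Filter Metric

noncomputable section

namespace Pool.Agent.MP_efb2da_gt.Emb

theorem ton_HK (g : E2 × ℝ → ℝ≥0∞) : ∫⁻ y : E3, g (pr y, y 2) ≤ ∫⁻ x : E2, ∫⁻ t : ℝ, g (x, t) := by
  have h1 := EuclideanSpace.volume_preserving_symm_measurableEquiv_toLp (Fin 3)
  have h2 := volume_preserving_piFinSuccAbove (fun _ : Fin 3 => ℝ) 2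
  have h3 : MeasurePreserving (MeasurableEquiv.prodComm : ℝ × (Fin 2 → ℝ) ≃ᵐ (Fin 2 → ℝ) × ℝ)
      volume volume := Measure.measurePreserving_swap
  have h4 : MeasurePreserving ((MeasurableEquiv.toLp 2 (Fin 2 → ℝ)).prodCongr
      (MeasurableEquiv.refl ℝ)) volume (volume.prod volume) :=
    (PiLp.volume_preserving_toLp (Fin 2)).prod (MeasurePreserving.id volume)
  have h5 := ((h1.trans h2).trans h3).trans h4
  refine le_trans (le_of_eq ?_) (lintegral_prod_le g)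
  rw [← h5.lintegral_comp_emb (MeasurableEquiv.measurableEmbedding _) g]
  refine lintegral_congr fun y => congrArg g (Prod.ext ?_ rfl)
  ext i
  fin_cases i <;> rfl

theorem det_HK (L : E3 →L[ℝ] E3) : L.det = dt (L (EuclideanSpace.single 0 1))
    (L (EuclideanSpace.single 1 1)) (L (EuclideanSpace.single 2 1)) := by
  rw [ContinuousLinearMap.det, ← LinearMap.det_toMatrix (EuclideanSpace.basisFun (Fin 3) ℝ).toBasis,
    Matrix.det_fin_three]
  simp only [LinearMap.toMatrix_apply, OrthonormalBasis.coe_toBasis,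
    OrthonormalBasis.coe_toBasis_repr_apply, EuclideanSpace.basisFun_apply,
    EuclideanSpace.basisFun_repr, ContinuousLinearMap.coe_coe, dt]
  ring

theorem alg_HK (a b n : E3) (c : ℝ) (hn : ‖n‖ = 1) (ha : ⟪a, n⟫ = 0) (hb : ⟪b, n⟫ = 0) :
    dt a b (n + c • e3) = dt a b n * (1 + c * n 2) := by
  have h1 : ⟪n, n⟫ = 1 := by rw [real_inner_self_eq_norm_sq, hn, one_pow]
  rw [inner3] at h1 ha hb
  simp only [dt, e3, PiLp.add_apply, PiLp.smul_apply, smul_eq_mul]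
  simp only [Matrix.cons_val_zero, Matrix.cons_val_one, Matrix.cons_val]
  linear_combination c * (-(a 0 * b 1 - a 1 * b 0) * h1 + (n 0 * b 1 - n 1 * b 0) * ha -
    (n 0 * a 1 - n 1 * a 0) * hb)

/-- the projection as a linear map -/
def prL_HK : E3 →L[ℝ] E2 :=
  (EuclideanSpace.proj (𝕜 := ℝ) (0 : Fin 3)).smulRight (EuclideanSpace.single (0 : Fin 2) (1 : ℝ)) +
    (EuclideanSpace.proj (𝕜 := ℝ) (1 : Fin 3)).smulRight (EuclideanSpace.single (1 : Fin 2) (1 : ℝ))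

theorem prL_eq_HK (y : E3) : prL_HK y = pr y := by
  ext i
  fin_cases i <;> simp [prL_HK, pr]

theorem pr_cont_HK : Continuous pr := by
  rw [← funext prL_eq_HK]
  exact prL_HK.continuous

theorem Gf_cont_HK (H : ℝ) : Continuous (Gf H) :=
  intervalIntegral.continuous_parametric_intervalIntegral_of_continuous' (by fun_prop) _ _

theorem Gf_HK {H : ℝ} (hH : 0 < H) (κ : ℝ) :
    ∫⁻ t in Ioc 0 (1 / H), ENNReal.ofReal (max 0 (1 - 2 * H * t + κ * t ^ 2)) =
      ENNReal.ofReal (Gf H κ) := by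
  rw [Gf, intervalIntegral.integral_of_le (by positivity)]
  exact (ofReal_integral_eq_lintegral_ofReal (f := fun t => max 0 (1 - 2 * H * t + κ * t ^ 2))
    (Continuous.integrableOn_Ioc (by fun_prop)) (Eventually.of_forall fun t => le_max_left _ _)).symm

theorem pos_HK {M : Type} [TopologicalSpace M] {E : Dat M} {c : ℝ} (ho : E.Ok) (he : E.Em c)
    (q : M) : 0 ≤ 1 + c * E.N q 2 := by
  have h1 : |E.N q 2| ≤ 1 := (ho.o0.un q) ▸ (PiLp.norm_apply_le (E.N q) 2)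
  have h2 : |c * E.N q 2| ≤ 1 := by
    rw [abs_mul]
    exact mul_le_one₀ he.lt.le (abs_nonneg _) h1
  linarith [(abs_le.1 h2).1]

theorem piece_HK {M : Type} [TopologicalSpace M] [MeasurableSpace M] [BorelSpace M] (E : Dat M)
    (μ : Measure M) (c : ℝ) (hm : SMult) (ho : E.Ok) (hμ : E.Mu μ)
    (he : E.Em c) (p : M) (A : Set M) (hA : MeasurableSet A) (hAS : A ⊆ (E.c p).S) :
    ∃ k : E3 → ℝ≥0∞, Measurable k ∧
      ∫⁻ x, k x ≤ ∫⁻ q in A, ENNReal.ofReal ((1 + c * E.N q 2) * Gf E.H (E.K q)) ∂μ ∧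
      ∀ (x : E3) (T : Finset (M × ℝ)), (∀ z ∈ T, z.1 ∈ A ∧ 0 < z.2 ∧ z.2 * E.H ≤ 1 ∧
        0 ≤ 1 - 2 * E.H * z.2 + E.K z.1 * z.2 ^ 2 ∧ x = E.f z.1 + z.2 • (E.N z.1 + c • e3)) →
        (T.card : ℝ≥0∞) ≤ k x := by
  classical
  have hT : MeasurableSet (E.T p) := (E.c p).oO.measurableSet.inter
    (isClosed_le continuous_const (by fun_prop)).measurableSet
  set ψ : E2 → M := (E.T p).piecewise (E.c p).ψ fun _ => p with hψ
  have mψ : Measurable ψ :=
    ContinuousOn.measurable_piecewise (s := E.T p) (E.c p).cψ continuousOn_const hT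
  have eψ : ∀ x ∈ E.T p, ψ x = (E.c p).ψ x := fun x hx => piecewise_eq_of_mem _ _ _ hx
  have m2 : Measurable fun y : E3 => y 2 := by fun_prop
  have m3 : Measurable fun y : E3 => ψ (pr y) := mψ.comp pr_cont_HK.measurable
  set s : Set E3 := {y | pr y ∈ E.T p ∧ ψ (pr y) ∈ A ∧ 0 < y 2 ∧ y 2 * E.H ≤ 1 ∧
    0 ≤ 1 - 2 * E.H * y 2 + E.K (ψ (pr y)) * y 2 ^ 2} with hs
  have ms : MeasurableSet s := (pr_cont_HK.measurable hT).inter ((m3 hA).inter
    ((measurableSet_lt measurable_const m2).inter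
    ((measurableSet_le (m2.mul_const _) measurable_const).inter
    (measurableSet_le measurable_const ((measurable_const.sub (m2.const_mul _)).add
      ((ho.o2.cK.measurable.comp m3).mul (m2.pow_const _)))))))
  have hd : ∀ (G : E2 → E3), ContDiffOn ℝ ∞ G (E.T p) → ∀ y ∈ s, HasFDerivWithinAt
      (fun y => G (pr y)) ((fderivWithin ℝ G halfPlane (pr y)).comp prL_HK) s y := by
    intro G hG y hy
    have h1 : DifferentiableWithinAt ℝ G (halfPlane ∩ (E.c p).O) (pr y) := by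
      rw [inter_comm]
      exact hG.differentiableOn (by simp) _ hy.1
    have h2 := ((differentiableWithinAt_inter ((E.c p).oO.mem_nhds hy.1.1)).1 h1).hasFDerivWithinAt
    have h3 : HasFDerivWithinAt pr prL_HK s y := by
      rw [← funext prL_eq_HK]
      exact prL_HK.hasFDerivWithinAt
    exact h2.comp y h3 fun z hz => hz.1.2
  obtain ⟨k, k1, k2, k3⟩ := hm s (fun y => E.F p (pr y) + y 2 • (E.n p (pr y) + c • e3))
    (fun y => (fderivWithin ℝ (E.F p) halfPlane (pr y)).comp prL_HK +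
      (y 2 • (fderivWithin ℝ (E.n p) halfPlane (pr y)).comp prL_HK +
        (EuclideanSpace.proj (𝕜 := ℝ) (2 : Fin 3)).smulRight (E.n p (pr y) + c • e3))) ms
    fun y hy => (hd _ (ho.o0.sF p) y hy).add
      ((EuclideanSpace.proj (𝕜 := ℝ) (2 : Fin 3)).hasFDerivWithinAt.smul
        ((hd _ (ho.o2.sn p) y hy).add_const _))
  have mu : Measurable (A.indicator fun q =>
      ENNReal.ofReal ((1 + c * E.N q 2) * Gf E.H (E.K q))) := by
    refine Measurable.indicator (Continuous.measurable (ENNReal.continuous_ofReal.comp ?_)) hA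
    have := ho.o0.cN
    exact Continuous.mul (by fun_prop) ((Gf_cont_HK _).comp ho.o2.cK)
  refine ⟨k, k1, k2.trans ?_, fun x T hz => ?_⟩
  · let g : E2 × ℝ → ℝ≥0∞ := fun z => (E.T p).indicator (fun x => ENNReal.ofReal |E.J p x| *
      A.indicator (fun q => ENNReal.ofReal (1 + c * E.N q 2)) ((E.c p).ψ x)) z.1 *
      (Ioc 0 (1 / E.H)).indicator (fun t => ENNReal.ofReal
        (max 0 (1 - 2 * E.H * t + E.K ((E.c p).ψ z.1) * t ^ 2))) z.2
    rw [← lintegral_indicator ms]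
    refine le_trans (lintegral_mono fun y => ?_) ((ton_HK g).trans (le_of_eq ?_))
    · by_cases hy : y ∈ s
      swap
      · simp [hy]
      obtain ⟨y1, y2, y3, y4, y5⟩ := id hy
      rw [eψ _ y1] at y2 y5
      have y6 : y 2 ∈ Ioc 0 (1 / E.H) := ⟨y3, (le_div_iff₀ he.pos).2 y4⟩
      have y7 := pos_HK ho he ((E.c p).ψ (pr y))
      simp only [g, indicator_of_mem hy, indicator_of_mem y1, indicator_of_mem y2,
        indicator_of_mem y6, max_eq_right y5]
      rw [← ENNReal.ofReal_mul (abs_nonneg _), ← ENNReal.ofReal_mul (by positivity), det_HK]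
      have e0 : prL_HK (EuclideanSpace.single 0 1) = EuclideanSpace.single 0 1 := by
        simp [prL_HK]
      have e1 : prL_HK (EuclideanSpace.single 1 1) = EuclideanSpace.single 1 1 := by
        simp [prL_HK]
      have e2 : prL_HK (EuclideanSpace.single 2 1) = 0 := by simp [prL_HK]
      have o1 := (ho.o1 p _ y1).orth
      have o2 := ho.o2.tN p _ y1
      have e3' := alg_HK (pd (E.F p) 0 (pr y) + y 2 • pd (E.n p) 0 (pr y))
        (pd (E.F p) 1 (pr y) + y 2 • pd (E.n p) 1 (pr y)) (E.n p (pr y)) c (ho.o0.un _)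
        (by rw [inner_add_left, real_inner_smul_left, o1, o2]; simp)
        (by rw [inner_add_left, real_inner_smul_left, o1, o2]; simp)
      have e4 : dt (pd (E.F p) 0 (pr y) + y 2 • pd (E.n p) 0 (pr y))
          (pd (E.F p) 1 (pr y) + y 2 • pd (E.n p) 1 (pr y)) (E.n p (pr y)) =
          E.J p (pr y) * (1 - 2 * E.H * y 2 + E.K ((E.c p).ψ (pr y)) * y 2 ^ 2) := by
        have w1 := ho.o2.wH p _ y1
        have w2 := ho.o2.wK p _ y1
        have w3 : E.J p (pr y) = dt (pd (E.F p) 0 (pr y)) (pd (E.F p) 1 (pr y)) (E.n p (pr y)) :=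
          rfl
        simp only [dt, PiLp.add_apply, PiLp.smul_apply, smul_eq_mul] at w1 w2 w3 ⊢
        linear_combination y 2 * w1 + y 2 ^ 2 * w2 - w3
      refine ENNReal.ofReal_le_ofReal (le_of_eq ?_)
      simp only [add_apply, ContinuousLinearMap.comp_apply,
        smul_apply, ContinuousLinearMap.smulRight_apply, e0, e1, e2, map_zero,
        smul_zero, zero_add]
      have z0 : (EuclideanSpace.proj (𝕜 := ℝ) (2 : Fin 3))
          (EuclideanSpace.single (0 : Fin 3) (1 : ℝ)) = 0 := by simp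
      have z1 : (EuclideanSpace.proj (𝕜 := ℝ) (2 : Fin 3))
          (EuclideanSpace.single (1 : Fin 3) (1 : ℝ)) = 0 := by simp
      have z2 : (EuclideanSpace.proj (𝕜 := ℝ) (2 : Fin 3))
          (EuclideanSpace.single (2 : Fin 3) (1 : ℝ)) = 1 := by simp
      rw [z0, z1, z2, zero_smul, add_zero, add_zero, one_smul]
      refine (congrArg abs e3').trans ?_
      rw [e4, abs_mul, abs_mul, abs_of_nonneg y5]
      have y8 : |1 + c * E.n p (pr y) 2| = 1 + c * E.N ((E.c p).ψ (pr y)) 2 := abs_of_nonneg y7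
      rw [y8]
      ring
    · rw [← inter_eq_left.2 hAS, ← Measure.restrict_restrict hA, ← lintegral_indicator hA,
        hμ.lint p _ mu, ← lintegral_indicator hT]
      refine lintegral_congr fun x => ?_
      simp only [g]
      rw [lintegral_const_mul' _ _ (by
        by_cases h1 : x ∈ E.T p <;> by_cases h2 : (E.c p).ψ x ∈ A <;>
          simp [h1, h2, ENNReal.mul_eq_top]),
        lintegral_indicator measurableSet_Ioc, Gf_HK he.pos]
      by_cases h1 : x ∈ E.T p <;> by_cases h2 : (E.c p).ψ x ∈ A <;>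
        simp [h1, h2, ENNReal.ofReal_mul (pos_HK ho he _), mul_assoc]
  · have e1 : ∀ z : M × ℝ, pr (incl ((E.c p).φ z.1) + z.2 • e3) = (E.c p).φ z.1 := fun z => by
      ext i
      fin_cases i <;> simp [pr, incl, e3]
    have e2 : ∀ z : M × ℝ, (incl ((E.c p).φ z.1) + z.2 • e3) 2 = z.2 := fun z => by
      simp [incl, e3]
    rw [← Finset.card_image_of_injOn (f := fun z : M × ℝ => incl ((E.c p).φ z.1) + z.2 • e3)
      fun z h z' h' e => Prod.ext (by
        rw [← (E.c p).li _ (hAS (hz z h).1), ← (E.c p).li _ (hAS (hz z' h').1), ← e1 z, ← e1 z']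
        exact congrArg (fun y => (E.c p).ψ (pr y)) e) (by
        rw [← e2 z, ← e2 z']
        exact congrArg (fun y : E3 => y 2) e)]
    refine k3 x _ fun y hy => ?_
    obtain ⟨z, h, rfl⟩ := Finset.mem_image.1 hy
    obtain ⟨z1, z2, z3, z4, z5⟩ := hz z h
    have z6 : (E.c p).φ z.1 ∈ E.T p := (E.c p).mφ (hAS z1)
    have z7 := (E.c p).li _ (hAS z1)
    refine ⟨?_, ?_⟩
    · simp only [hs, mem_ofPred_eq, e1, e2, eψ _ z6, z7]
      exact ⟨z6, z1, z2, z3, z4⟩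
    · simp only [e1, e2, Dat.F, Dat.n, Function.comp_apply, z7]
      exact z5.symm

variable {M : Type} [TopologicalSpace M] [T2Space M] [CompactSpace M] [ConnectedSpace M]
  [MeasurableSpace M] [BorelSpace M]

set_option linter.unusedSectionVars false in
theorem HK_pf (E : Dat M) (μ : Measure M) (c : ℝ) : SHK E μ c := by
  classical
  intro hm ho hμ he a ha
  obtain ⟨t, ht⟩ := isCompact_univ.elim_finite_subcover (fun p => (E.c p).S)
    (fun p => (E.c p).oS) fun q _ => mem_iUnion.2 ⟨q, ho.o0.mem q⟩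
  obtain ⟨u, hu⟩ := (t.countable_toSet.insert (Classical.arbitrary M)).exists_eq_range
    (insert_nonempty _ _)
  have hU : ⋃ i, disjointed (fun i => (E.c (u i)).S) i = univ := by
    rw [iUnion_disjointed]
    refine eq_univ_of_forall fun q => ?_
    obtain ⟨p, hp, hq⟩ := mem_iUnion₂.1 (ht (mem_univ q))
    obtain ⟨i, rfl⟩ : p ∈ range u := hu ▸ mem_insert_of_mem _ hp
    exact mem_iUnion.2 ⟨i, hq⟩
  have hM : ∀ i, MeasurableSet (disjointed (fun i => (E.c (u i)).S) i) :=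
    MeasurableSet.disjointed fun i => (E.c (u i)).oS.measurableSet
  choose k k1 k2 k3 using fun i => piece_HK E μ c hm ho hμ he (u i) _ (hM i)
    (disjointed_subset (fun i => (E.c (u i)).S) i)
  choose ι hι using fun q : M => mem_iUnion.1 (hU ▸ mem_univ q)
  calc _ ≤ ∫⁻ x, ∑' i, k i x := lintegral_mono fun x => by
        obtain ⟨T, h1, h2⟩ := ha x
        calc ENNReal.ofReal (a x) ≤ (T.card : ℝ≥0∞) := by
              rw [← ENNReal.ofReal_natCast]
              exact ENNReal.ofReal_le_ofReal (by exact_mod_cast h1)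
          _ = ∑ i ∈ T.image fun z => ι z.1, ((T.filter fun z => ι z.1 = i).card : ℝ≥0∞) := by
              rw [Finset.card_eq_sum_card_image (fun z : M × ℝ => ι z.1) T, Nat.cast_sum]
          _ ≤ ∑ i ∈ T.image fun z => ι z.1, k i x := Finset.sum_le_sum fun i _ =>
              k3 i x _ fun z hz => ⟨(Finset.mem_filter.1 hz).2 ▸ hι z.1,
                (h2 z (Finset.mem_filter.1 hz).1).2⟩
          _ ≤ _ := ENNReal.sum_le_tsum _
    _ = ∑' i, ∫⁻ x, k i x := lintegral_tsum fun i => (k1 i).aemeasurable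
    _ ≤ _ := by
        refine (ENNReal.tsum_le_tsum k2).trans (le_of_eq ?_)
        rw [← lintegral_iUnion hM (disjoint_disjointed _), hU, Measure.restrict_univ]

end Pool.Agent.MP_efb2da_gt.Emb

end

end

section

/-! Equality in the Heintze-Karcher inequality forces umbilicity. -/

open scoped Manifold ContDiff RealInnerProductSpace Topology ENNReal
open Set MeasureTheory Filter Metric

noncomputable section

namespace Pool.Agent.MP_efb2da_gt.Emb

theorem sq_Umb {H : ℝ} (hH : 0 < H) : ∫ t in (0:ℝ)..(1 / H), (1 - H * t) ^ 2 = 1 / (3 * H) := by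
  have hd : ∀ t ∈ uIcc (0:ℝ) (1 / H),
      HasDerivAt (fun t : ℝ => -(1 / (3 * H)) * (1 - H * t) ^ 3) ((1 - H * t) ^ 2) t := by
    intro t _
    have h1 : HasDerivAt (fun t : ℝ => 1 - H * t) (-H) t := by
      simpa using ((hasDerivAt_id t).const_mul H).const_sub 1
    have h2 := (h1.fun_pow 3).const_mul (-(1 / (3 * H)))
    refine h2.congr_deriv ?_
    field_simp
    norm_num
  rw [intervalIntegral.integral_eq_sub_of_hasDerivAt hd (Continuous.intervalIntegrable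
    (by fun_prop) _ _)]
  field_simp
  ring

theorem ptw_Umb {H κ : ℝ} (h : κ ≤ H ^ 2) (t : ℝ) :
    max 0 (1 - 2 * H * t + κ * t ^ 2) ≤ (1 - H * t) ^ 2 :=
  max_le (sq_nonneg _) (by nlinarith [mul_le_mul_of_nonneg_right h (sq_nonneg t)])

theorem le_Umb {H κ : ℝ} (hH : 0 < H) (h : κ ≤ H ^ 2) : Gf H κ ≤ 1 / (3 * H) := by
  rw [← sq_Umb hH]
  exact intervalIntegral.integral_mono_on (by positivity)
    (Continuous.intervalIntegrable (by fun_prop) _ _)
    (Continuous.intervalIntegrable (by fun_prop) _ _) fun t _ => ptw_Umb h t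

theorem lt_Umb {H κ : ℝ} (hH : 0 < H) (h : κ < H ^ 2) : Gf H κ < 1 / (3 * H) := by
  rw [← sq_Umb hH]
  refine intervalIntegral.integral_lt_integral_of_continuousOn_of_le_of_exists_lt (by positivity)
    (Continuous.continuousOn (by fun_prop)) (Continuous.continuousOn (by fun_prop))
    (fun t _ => ptw_Umb h.le t) ⟨1 / (2 * H), ⟨by positivity, ?_⟩, max_lt ?_ ?_⟩
  · exact one_div_le_one_div_of_le hH (by linarith)
  · have : 1 - H * (1 / (2 * H)) = 1 / 2 := by field_simp; ring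
    rw [this]
    norm_num
  · have : 0 < (1 / (2 * H)) ^ 2 := by positivity
    nlinarith [mul_lt_mul_of_pos_right h this]

theorem nn_Umb {H : ℝ} (hH : 0 < H) (κ : ℝ) : 0 ≤ Gf H κ :=
  intervalIntegral.integral_nonneg (by positivity) fun _ _ => le_max_left _ _

theorem cont_Umb (H : ℝ) : Continuous (Gf H) :=
  intervalIntegral.continuous_parametric_intervalIntegral_of_continuous'
    (f := fun κ t : ℝ => max 0 (1 - 2 * H * t + κ * t ^ 2)) (by fun_prop) _ _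

variable {M : Type} [TopologicalSpace M] [T2Space M] [CompactSpace M] [ConnectedSpace M]
  [MeasurableSpace M] [BorelSpace M]

omit [T2Space M] [CompactSpace M] [ConnectedSpace M] in
theorem pos_Umb {E : Dat M} {μ : Measure M} (ok : E.Ok) (mu : E.Mu μ) : μ.IsOpenPosMeasure := by
  refine ⟨fun U hU ⟨p, hp⟩ h0 => ?_⟩
  obtain ⟨W, hW, hWe⟩ := continuousOn_iff'.1 (E.c p).cψ U hU
  have hx0 := (E.c p).mφ (ok.o0.mem p)
  have hx1 : (E.c p).φ p ∈ W := by
    have : (E.c p).φ p ∈ (E.c p).ψ ⁻¹' U ∩ ((E.c p).O ∩ halfPlane) :=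
      ⟨by rw [mem_preimage, (E.c p).li p (ok.o0.mem p)]; exact hp, hx0⟩
    rw [hWe] at this
    exact this.1
  obtain ⟨B, hB⟩ : ∃ B : Set E2, B = W ∩ (E.c p).O ∩ {x | 0 < x 0} := ⟨_, rfl⟩
  have oB : IsOpen B := by
    rw [hB]
    exact (hW.inter (E.c p).oO).inter (isOpen_lt continuous_const (by fun_prop))
  have nB : B.Nonempty := by
    have c1 : Continuous fun s : ℝ => (E.c p).φ p + s • (EuclideanSpace.single 0 1 : E2) := by
      fun_prop
    have c2 : ∀ᶠ s in 𝓝 (0:ℝ),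
        (E.c p).φ p + s • (EuclideanSpace.single 0 1 : E2) ∈ W ∩ (E.c p).O :=
      c1.continuousAt.eventually ((hW.inter (E.c p).oO).mem_nhds (by simpa using ⟨hx1, hx0.1⟩))
    obtain ⟨s, h1, h2⟩ := ((c2.filter_mono nhdsWithin_le_nhds).and
      (self_mem_nhdsWithin (s := Ioi (0:ℝ)))).exists
    rw [hB]
    refine ⟨_, h1, ?_⟩
    have h3 : 0 ≤ (E.c p).φ p 0 := hx0.2
    have h4 : 0 < s := h2
    simp only [mem_ofPred_eq, PiLp.add_apply, PiLp.smul_apply, PiLp.single_apply, if_true,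
      smul_eq_mul, mul_one]
    linarith
  have sB : B ⊆ E.T p := fun x hx => by
    rw [hB] at hx
    exact ⟨hx.1.2, show 0 ≤ x 0 from le_of_lt hx.2⟩
  have h1 := mu.lint p (U.indicator 1) (measurable_one.indicator hU.measurableSet)
  have h2 : ∫⁻ q in (E.c p).S, U.indicator 1 q ∂μ = 0 := by
    refine le_antisymm ((setLIntegral_le_lintegral _ _).trans ?_) zero_le
    rw [lintegral_indicator_one hU.measurableSet, h0]
  have h3 : ∫⁻ x in B, ENNReal.ofReal |E.J p x| = 0 := by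
    refine le_antisymm ?_ zero_le
    rw [← h2, h1]
    refine le_trans (le_of_eq (setLIntegral_congr_fun oB.measurableSet fun x hx => ?_))
      (lintegral_mono_set sB)
    have : x ∈ (E.c p).ψ ⁻¹' U ∩ ((E.c p).O ∩ halfPlane) := by
      rw [hWe]
      exact ⟨(hB ▸ hx).1.1, sB hx⟩
    simp only [indicator_of_mem (show (E.c p).ψ x ∈ U from this.1), Pi.one_apply, mul_one]
  have hm : AEMeasurable (fun x => ENNReal.ofReal |E.J p x|) (volume.restrict B) :=
    ENNReal.measurable_ofReal.comp_aemeasurable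
      (((ok.o2.cJ p).mono sB).abs.aemeasurable oB.measurableSet)
  rw [lintegral_eq_zero_iff' hm] at h3
  have h4 : ∀ᵐ x ∂(volume.restrict B), False := by
    filter_upwards [h3, ae_restrict_mem oB.measurableSet] with x h5 h6
    have h7 : ENNReal.ofReal |E.J p x| = 0 := h5
    rw [ENNReal.ofReal_eq_zero] at h7
    exact absurd (abs_pos.2 (ok.o2.Jne p x (sB h6))) (not_lt.2 h7)
  rw [eventually_false_iff_eq_bot, ae_eq_bot, Measure.restrict_eq_zero] at h4
  exact oB.measure_ne_zero volume nB h4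

omit [T2Space M] [ConnectedSpace M] in
theorem aux_Umb (E : Dat M) (μ : Measure M) (c : ℝ) : SUmb E μ c := by
  intro ok mu em a a0 ai h1 h2 h3 q
  have := mu.fin
  have := pos_Umb ok mu
  have hH := em.pos
  have int : ∀ {u : M → ℝ}, Continuous u → Integrable u μ := fun hu =>
    hu.integrable_of_hasCompactSupport (HasCompactSupport.of_compactSpace _)
  have cN := ok.o0.cN
  have cf := ok.o0.cf
  have cw : Continuous fun q => 1 + c * E.N q 2 := by fun_prop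
  have cG : Continuous fun q => Gf E.H (E.K q) := (cont_Umb _).comp ok.o2.cK
  have cP : Continuous fun q => (1 + c * E.N q 2) * Gf E.H (E.K q) := cw.mul cG
  have ci : Continuous fun q => ⟪E.f q, E.N q⟫ := cf.inner cN
  have w0 : ∀ q, 0 < 1 + c * E.N q 2 := fun q => by
    have e1 : |E.N q 2| ≤ 1 := by
      have := PiLp.norm_apply_le (E.N q) 2
      rwa [ok.o0.un q, Real.norm_eq_abs] at this
    have e2 : |c * E.N q 2| ≤ |c| := by
      rw [abs_mul]
      exact mul_le_of_le_one_right (abs_nonneg _) e1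
    linarith [neg_abs_le (c * E.N q 2), em.lt]
  have k1 : ∫ q, (1 + c * E.N q 2) ∂μ + E.H * ∫ q, ⟪E.f q, E.N q⟫ ∂μ = 0 := by
    rw [← integral_const_mul, ← integral_add (int cw) (int (by fun_prop)), ← h2]
    exact integral_congr_ae (Eventually.of_forall fun q => by ring)
  have nn : ∀ q, 0 ≤ (1 + c * E.N q 2) * Gf E.H (E.K q) := fun q =>
    mul_nonneg (w0 q).le (nn_Umb hH _)
  rw [← ofReal_integral_eq_lintegral_ofReal ai (Eventually.of_forall fun x => by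
      simpa using a0 x),
    ← ofReal_integral_eq_lintegral_ofReal (int cP) (Eventually.of_forall nn),
    ENNReal.ofReal_le_ofReal_iff (integral_nonneg nn)] at h3
  have cu : Continuous fun q => (1 + c * E.N q 2) * (1 / (3 * E.H) - Gf E.H (E.K q)) := by
    fun_prop
  have u0 : ∀ q, 0 ≤ (1 + c * E.N q 2) * (1 / (3 * E.H) - Gf E.H (E.K q)) := fun q =>
    mul_nonneg (w0 q).le (sub_nonneg.2 (le_Umb hH (ok.o2.KH q)))
  have k2 : ∫ q, (1 + c * E.N q 2) * (1 / (3 * E.H) - Gf E.H (E.K q)) ∂μ =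
      (∫ q, (1 + c * E.N q 2) ∂μ) * (1 / (3 * E.H)) -
        ∫ q, (1 + c * E.N q 2) * Gf E.H (E.K q) ∂μ := by
    rw [← integral_mul_const, ← integral_sub (int (by fun_prop)) (int cP)]
    exact integral_congr_ae (Eventually.of_forall fun q => by ring)
  have k3 : (∫ q, (1 + c * E.N q 2) ∂μ) * (1 / (3 * E.H)) = ∫ x, (a x : ℝ) := by
    field_simp
    linear_combination k1 - E.H * h1
  have k4 : ∫ q, (1 + c * E.N q 2) * (1 / (3 * E.H) - Gf E.H (E.K q)) ∂μ = 0 :=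
    le_antisymm (by rw [k2, k3]; exact sub_nonpos.2 h3) (integral_nonneg u0)
  rw [integral_eq_zero_iff_of_nonneg u0 (int cu),
    Continuous.ae_eq_iff_eq μ cu continuous_zero] at k4
  have k5 := (mul_eq_zero.1 (congrFun k4 q)).resolve_left (w0 q).ne'
  by_contra hne
  linarith [lt_Umb hH (lt_of_le_of_ne (ok.o2.KH q) hne)]

theorem Umb_pf (E : Dat M) (μ : Measure M) (c : ℝ) : SUmb E μ c := aux_Umb E μ c

end Pool.Agent.MP_efb2da_gt.Emb

end

end
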