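import Pool.Agent.MP_efb2da_gt.Emb.St

section

/-! The jump function on the two half spaces and its values near the boundary curve. -/

open scoped Manifold ContDiff RealInnerProductSpace Topology ENNReal
open Set MeasureTheory Filter Metric

noncomputable section

namespace Pool.Agent.MP_efb2da_gt.Emb

theorem lc_A0 {α : E3 → ℤ} {S : Set E3} (hS : IsPreconnected S)
    (h : ∀ x ∈ S, ∀ᶠ y in 𝓝 x, α y = α x) {x y : E3} (hx : x ∈ S) (hy : y ∈ S) : α x = α y :=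
  hS.constant (fun z hz => (continuousAt_const.congr
    (EventuallyEq.symm (h z hz))).continuousWithinAt) hx hy

theorem normsq_A0 (x : E3) : ‖x‖ ^ 2 = x 0 * x 0 + x 1 * x 1 + x 2 * x 2 := by
  rw [← real_inner_self_eq_norm_sq, inner3]

theorem cont2_A0 : Continuous fun x : E3 => x 2 := by fun_prop

variable {M : Type} [TopologicalSpace M]

theorem congr_A0 {E : Dat M} {α a : E3 → ℤ} {V : Set E3} (h : E.IsJ α V) (hV : IsOpen V)
    (hS : IsClosed E.Sg) (d : ℤ) (e : ∀ x ∈ V, x ∉ E.Sg → a x = α x + d) : E.IsJ a V := by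
  refine ⟨fun x hx hx' => ?_, fun q hq => ?_⟩
  · filter_upwards [h.1 x hx hx', hV.mem_nhds hx, hS.isOpen_compl.mem_nhds hx'] with y h1 h2 h3
    rw [e y h2 h3, e x hx hx', h1]
  · obtain ⟨l, U, A, B, h1, h2, h3, h4, h5⟩ := h.2 q hq
    refine ⟨l + d, U, A, B, h1, h2, h3, fun y hy => ?_, fun y hy => ?_⟩
    · have : y ∈ U \ E.Sg := h3.un ▸ Or.inl hy
      rw [e y (h2 this.1) this.2, h4 y hy]
    · have : y ∈ U \ E.Sg := h3.un ▸ Or.inr hy
      rw [e y (h2 this.1) this.2, h5 y hy]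
      ring

theorem half_A0 {E : Dat M} (hj : E.JumpEx) (hP : ∀ p ∈ E.bd, E.f p 2 = 0) (hS : IsClosed E.Sg)
    {R : ℝ} (hR : ∀ x ∈ E.Sg, ‖x‖ < R) (R0 : 0 < R) {σ : ℝ} (hσ : σ * σ = 1) :
    ∃ α, E.IsJ α {x | 0 < σ * x 2} ∧ ∀ x, R ≤ ‖x‖ → 0 < σ * x 2 → α x = 0 := by
  have lin : IsLinearMap ℝ fun x : E3 => σ * x 2 :=
    ⟨fun x y => by simp [mul_add], fun c x => by simp [mul_left_comm]⟩
  have op : IsOpen {x : E3 | 0 < σ * x 2} :=
    isOpen_lt continuous_const (continuous_const.mul cont2_A0)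
  obtain ⟨α, hα⟩ := hj _ op (convex_halfSpace_gt lin 0) (Set.disjoint_left.2 (by
    rintro _ hx ⟨p, hp, rfl⟩
    simp [hP p hp] at hx))
  have top : ∀ x ∈ {x : E3 | R < σ * x 2}, ∀ᶠ y in 𝓝 x, α y = α x := by
    intro x hx
    have hx' : R < σ * x 2 := hx
    refine hα.1 x (R0.trans hx') fun hs => ?_
    have h1 := hR x hs
    have h2 := normsq_A0 x
    have h3 : (σ * x 2) * (σ * x 2) = x 2 * x 2 := by linear_combination (x 2 * x 2) * hσ
    nlinarith [norm_nonneg x, mul_self_nonneg (x 0), mul_self_nonneg (x 1)]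
  have co : ∀ (x : E3) (s : ℝ), (x + s • e3) 0 = x 0 ∧ (x + s • e3) 1 = x 1 ∧
      (x + s • e3) 2 = x 2 + s := fun x s => by simp [e3]
  refine ⟨fun x => α x - α (0 + ((R + 1) * σ) • e3),
    congr_A0 hα op hS _ fun x _ _ => sub_eq_add_neg _ _, fun x hx hx' => sub_eq_zero.2 ?_⟩
  have h1 : α x = α (x + ((R + 1) * σ) • e3) := by
    refine lc_A0 (S := (fun s : ℝ => x + (s * σ) • e3) '' Ici 0)
      (isPreconnected_Ici.image _ (by fun_prop)) ?_ ⟨0, self_mem_Ici, by simp⟩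
      ⟨R + 1, mem_Ici.2 (by linarith), rfl⟩
    rintro _ ⟨s, hs, rfl⟩
    have hs' : 0 ≤ s := hs
    obtain ⟨c0, c1, c2⟩ := co x (s * σ)
    refine hα.1 _ ?_ fun h => ?_
    · change 0 < σ * (x + (s * σ) • e3) 2
      rw [c2]
      nlinarith
    · have h1 := hR _ h
      have h2 := normsq_A0 (x + (s * σ) • e3)
      have h3 := normsq_A0 x
      rw [c0, c1, c2] at h2
      have h4 : (x 2 + s * σ) * (x 2 + s * σ) = x 2 * x 2 + 2 * s * (σ * x 2) + s * s := by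
        linear_combination (s * s) * hσ
      have h5 : ‖x‖ ^ 2 ≤ ‖x + (s * σ) • e3‖ ^ 2 := by
        nlinarith [mul_nonneg hs' hx'.le, mul_self_nonneg s]
      have h6 := pow_le_pow_left₀ (norm_nonneg _) (h1.trans_le hx).le 2
      have h7 := pow_lt_pow_left₀ (h1.trans_le hx) (norm_nonneg _) two_ne_zero
      linarith
  rw [h1]
  refine lc_A0 (convex_halfSpace_gt lin R).isPreconnected top ?_ ?_
  · change R < σ * (x + ((R + 1) * σ) • e3) 2
    rw [(co x _).2.2]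
    nlinarith
  · change R < σ * (0 + ((R + 1) * σ) • e3) 2
    rw [(co 0 _).2.2]
    simp only [PiLp.zero_apply]
    nlinarith

/-- the values of `a` on the three regions -/
def Val_A0 (a : E3 → ℤ) (U A B : Set E3) (k m : ℤ) : Prop :=
  (∀ y ∈ A, a y = k) ∧ (∀ y ∈ B, a y = k + 1) ∧ ∀ y ∈ U, y 2 < 0 → a y = m

theorem pts_A0 {E : Dat M} (hN : ∀ p, ‖E.N p‖ = 1) {a : E3 → ℤ} {U A B V : Set E3}
    (h : E.BBox U A B) {q : M} (hq : q ∉ E.bd) (hU : E.f q ∈ U) {l : ℤ} (hl : E.Jmp a q l V) :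
    (∃ y ∈ A, a y = l) ∧ ∃ y ∈ B, a y = l + 1 := by
  obtain ⟨U', A', B', h1, -, h3, h4, h5⟩ := hl
  have e : ⟪E.N q, E.N q⟫ = 1 := by rw [real_inner_self_eq_norm_sq, hN, one_pow]
  have p1 : 0 < ⟪E.N q, E.N q⟫ := by rw [e]; exact one_pos
  have p2 : ⟪-E.N q, E.N q⟫ < 0 := by rw [inner_neg_left, e]; norm_num
  obtain ⟨s, hs, hs'⟩ := (((h.dir q hU _ fun h => absurd h hq).2 p2).and
    ((h3.dir q h1 _).2 p2)).exists
  obtain ⟨t, ht, ht'⟩ := (((h.dir q hU _ fun h => absurd h hq).1 p1).and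
    ((h3.dir q h1 _).1 p1)).exists
  exact ⟨⟨_, hs, h4 _ hs'⟩, _, ht, h5 _ ht'⟩

theorem jmp_A0 {E : Dat M} {a : E3 → ℤ} (ha : E.Good0 a) {U A B : Set E3} (h : E.BBox U A B) :
    ∃ q l, q ∉ E.bd ∧ E.f q ∈ U ∧ E.Jmp a q l {x | 0 < x 2} := by
  obtain ⟨q, hq, hU⟩ := h.ex
  obtain ⟨l, hl⟩ := ha.up.2 q ((h.sg q hU).1.lt_of_ne fun e => hq ((h.sg q hU).2 e.symm))
  exact ⟨q, l, hq, hU, hl⟩

theorem val_A0 {E : Dat M} (hN : ∀ p, ‖E.N p‖ = 1) {a : E3 → ℤ} (ha : E.Good0 a)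
    {U A B : Set E3} (h : E.BBox U A B) : ∃ k m, Val_A0 a U A B k m := by
  obtain ⟨q, l, hq, hU, hl⟩ := jmp_A0 ha h
  obtain ⟨⟨y, hy, e⟩, z, hz, e'⟩ := pts_A0 hN h hq hU hl
  have loc : ∀ x ∈ A ∪ B, ∀ᶠ y in 𝓝 x, a y = a x := fun x hx => by
    rw [← h.un] at hx
    exact ha.up.1 x hx.1.2 hx.2
  have hL : ∃ m, ∀ y ∈ U, y 2 < 0 → a y = m := by
    by_cases hn : ∃ y ∈ U, y 2 < 0
    · obtain ⟨w, hw, hw'⟩ := hn
      refine ⟨a w, fun y hy hy' => lc_A0 h.cL (fun x hx => ha.dn.1 x hx.2 ?_) ⟨hy, hy'⟩ ⟨hw, hw'⟩⟩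
      rintro ⟨p, rfl⟩
      exact absurd (h.sg p hx.1).1 (not_le.2 hx.2)
    · exact ⟨0, fun y hy hy' => absurd ⟨y, hy, hy'⟩ hn⟩
  obtain ⟨m, hm⟩ := hL
  exact ⟨l, m, fun x hx => (lc_A0 h.cA (fun x hx => loc x (Or.inl hx)) hx hy).trans e,
    fun x hx => (lc_A0 h.cB (fun x hx => loc x (Or.inr hx)) hx hz).trans e', hm⟩

theorem share_A0 [MeasurableSpace M] {E : Dat M} {μ : Measure M} {c : ℝ} (hW : E.W μ c)
    {a : E3 → ℤ} (ha : E.Good0 a) {U A B U' A' B' : Set E3} (h : E.BBox U A B)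
    (h' : E.BBox U' A' B') {k m k' m' : ℤ} (hv : Val_A0 a U A B k m)
    (hv' : Val_A0 a U' A' B' k' m') {p : M} (hp : p ∈ E.bd) (hU : E.f p ∈ U) (hU' : E.f p ∈ U') :
    k = k' ∧ m = m' := by
  have hn : U ∩ U' ∈ 𝓝 (E.f p) := (h.oU.inter h'.oU).mem_nhds ⟨hU, hU'⟩
  obtain ⟨U2, A2, B2, -, h2, h3, -⟩ := hW.boxB p hp _ hn
  obtain ⟨q, l, hq, hq', hl⟩ := jmp_A0 ha h3
  obtain ⟨y, hy, e⟩ := (pts_A0 hW.ok.o0.un h hq (h2 hq').1 hl).1
  obtain ⟨z, hz, e'⟩ := (pts_A0 hW.ok.o0.un h' hq (h2 hq').2 hl).1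
  refine ⟨by rw [← hv.1 y hy, ← hv'.1 z hz, e, e'], ?_⟩
  have hc : ContinuousAt (fun s : ℝ => E.f p + s • e3) 0 := by fun_prop
  have h4 : ∀ᶠ s in 𝓝[<] (0 : ℝ), E.f p + s • e3 ∈ U ∩ U' :=
    mem_nhdsWithin_of_mem_nhds (hc.preimage_mem_nhds (by simpa using hn))
  obtain ⟨s, hs, hs'⟩ := (h4.and self_mem_nhdsWithin).exists
  have h5 : (E.f p + s • e3) 2 < 0 := by simpa [e3, hW.em.e0.bdP p hp] using hs'
  rw [← hv.2.2 _ hs.1 h5, ← hv'.2.2 _ hs.2 h5]

variable [T2Space M] [CompactSpace M] [ConnectedSpace M] [MeasurableSpace M] [BorelSpace M]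

theorem A0_pf (E : Dat M) (μ : Measure M) (c : ℝ) : SA0 E μ c := by
  classical
  intro hW
  have hK : IsCompact E.Sg := isCompact_range hW.ok.o0.cf
  obtain ⟨R, R0, hR⟩ := hK.isBounded.subset_ball_lt 0 0
  have hR' : ∀ x ∈ E.Sg, ‖x‖ < R := fun x hx => mem_ball_zero_iff.1 (hR hx)
  obtain ⟨α, hα, hα'⟩ := half_A0 hW.jump hW.em.e0.bdP hK.isClosed hR' R0 (σ := 1) (one_mul 1)
  obtain ⟨β, hβ, hβ'⟩ := half_A0 hW.jump hW.em.e0.bdP hK.isClosed hR' R0 (σ := -1) (by norm_num)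
  simp only [one_mul] at hα hα'
  simp only [neg_one_mul, neg_pos] at hβ hβ'
  refine ⟨fun x => if x ∈ E.Sg ∨ x 2 = 0 then 0 else if 0 < x 2 then α x else β x,
    congr_A0 hα (isOpen_lt continuous_const cont2_A0) hK.isClosed 0 fun x hx hx' => ?_,
    congr_A0 hβ (isOpen_lt cont2_A0 continuous_const) hK.isClosed 0 fun x hx hx' => ?_,
    ⟨R, fun x hx => ?_⟩, fun x hx => if_pos hx⟩
  · have hx0 : 0 < x 2 := hx
    rw [if_neg (not_or.2 ⟨hx', hx0.ne'⟩), if_pos hx0, add_zero]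
  · have hx0 : x 2 < 0 := hx
    rw [if_neg (not_or.2 ⟨hx', hx0.ne⟩), if_neg hx0.not_gt, add_zero]
  · split_ifs with h1 h2
    · rfl
    · exact hα' x hx h2
    · exact hβ' x hx (lt_of_le_of_ne (not_lt.1 h2) fun e => h1 (Or.inr e))

theorem Edge_pf (E : Dat M) (μ : Measure M) (c : ℝ) : SEdge E μ c := by
  intro hW a ha
  have ex : ∀ p ∈ E.bd, ∃ (U A B : Set E3) (κ : ℤ × ℤ), E.f p ∈ U ∧ E.BBox U A B ∧
      Val_A0 a U A B κ.1 κ.2 := by
    intro p hp
    obtain ⟨U, A, B, h1, -, h3, -⟩ := hW.boxB p hp univ univ_mem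
    obtain ⟨k, m, hv⟩ := val_A0 hW.ok.o0.un ha h3
    exact ⟨U, A, B, (k, m), h1, h3, hv⟩
  choose! U A B κ h1 h2 h3 using ex
  have hc : ContinuousOn κ E.bd := by
    intro p hp
    refine (continuousWithinAt_const (b := κ p)).congr_of_eventuallyEq ?_ rfl
    have : ∀ᶠ q in 𝓝[E.bd] p, E.f q ∈ U p := mem_nhdsWithin_of_mem_nhds
      (hW.ok.o0.cf.continuousAt.preimage_mem_nhds ((h2 p hp).oU.mem_nhds (h1 p hp)))
    filter_upwards [this, self_mem_nhdsWithin] with q hq hq'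
    obtain ⟨e1, e2⟩ := share_A0 hW ha (h2 q hq') (h2 p hp) (h3 q hq') (h3 p hp) hq' (h1 q hq') hq
    exact Prod.ext e1 e2
  obtain ⟨p0, hp0⟩ := hW.em.e0.ne
  refine ⟨(κ p0).1, (κ p0).2, fun p hp V hV => ?_⟩
  obtain ⟨U', A', B', g1, g2, g3, g4⟩ := hW.boxB p hp V hV
  obtain ⟨k, m, hv⟩ := val_A0 hW.ok.o0.un ha g3
  obtain ⟨e1, e2⟩ := share_A0 hW ha g3 (h2 p hp) hv (h3 p hp) hp g1 (h1 p hp)
  rw [← hW.em.e0.pc.constant hc hp hp0, ← e1, ← e2]
  exact ⟨U', A', B', g1, g2, g3, g4, hv⟩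

end Pool.Agent.MP_efb2da_gt.Emb

end

end

section

/-! The relation between the values of `a` above and below the plane. -/

open scoped Manifold ContDiff RealInnerProductSpace Topology ENNReal
open Set MeasureTheory Filter Metric

noncomputable section

namespace Pool.Agent.MP_efb2da_gt.Emb

theorem opU_Rel : IsOpen {x : E3 | 0 < x 2} := isOpen_lt continuous_const (by fun_prop)

theorem opD_Rel : IsOpen {x : E3 | x 2 < 0} := isOpen_lt (by fun_prop) continuous_const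

theorem lin_Rel : IsLinearMap ℝ fun x : E3 => x 2 := ⟨fun _ _ => rfl, fun _ _ => rfl⟩

theorem cvU_Rel (y : E3) (r : ℝ) : IsPreconnected (ball y r ∩ {x : E3 | 0 < x 2}) :=
  ((convex_ball y r).inter (convex_halfSpace_gt lin_Rel 0)).isPreconnected

theorem cvD_Rel (y : E3) (r : ℝ) : IsPreconnected (ball y r ∩ {x : E3 | x 2 < 0}) :=
  ((convex_ball y r).inter (convex_halfSpace_lt lin_Rel 0)).isPreconnected

theorem pt_Rel {y : E3} (hy : y 2 = 0) {r : ℝ} (s : ℝ) (hs : |s| < r) :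
    ∃ x ∈ ball y r, x 2 = s := by
  refine ⟨y + EuclideanSpace.single 2 s, ?_, by simp [hy]⟩
  simpa using hs

theorem off_Rel {S V : Set E3} (hS : volume S = 0) (hV : IsOpen V) (hn : V.Nonempty) :
    ∃ x ∈ V, x ∉ S := by
  by_contra h
  have : V ⊆ S := fun x hx => by
    by_contra h'
    exact h ⟨x, hx, h'⟩
  exact (hV.measure_pos volume hn).ne' (measure_mono_null this hS)

section

variable {M : Type} [TopologicalSpace M] {E : Dat M} {a : E3 → ℤ}

theorem shift_Rel {α : E3 → ℤ} {V : Set E3} (h : E.IsJ α V) (e : ℤ) :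
    E.IsJ (fun x => α x + e) V := by
  refine ⟨fun x hx hx' => (h.1 x hx hx').mono fun y hy => congrArg (· + e) hy, fun q hq => ?_⟩
  obtain ⟨l, U, A, B, h1, h2, h3, h4, h5⟩ := h.2 q hq
  refine ⟨l + e, U, A, B, h1, h2, h3, fun y hy => ?_, fun y hy => ?_⟩
  · show α y + e = _
    rw [h4 y hy]
  · show α y + e = _
    rw [h5 y hy, add_right_comm]

theorem const_Rel {y : E3} {r : ℝ} (hr : 0 < r) (h : ∀ x ∈ ball y r, x ∉ E.Sg) (m d : ℤ)
    (ha : ∀ x ∈ ball y r, (0 < x 2 → a x = m + d) ∧ (x 2 < 0 → a x = m)) : E.Rel a y d := by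
  refine ⟨r, hr, fun _ => m, disjoint_left.2 fun x hx hx' => h x hx ?_,
    ⟨fun _ _ _ => Eventually.of_forall fun _ => rfl, fun q hq => (h _ hq ⟨q, rfl⟩).elim⟩,
    fun x hx _ => ha x hx⟩
  exact image_subset_range _ _ hx'

theorem lc_Rel (hm : E.JumpMono) {y : E3} {d : ℤ} (h : E.Rel a y d) :
    ∀ᶠ y' in 𝓝 y, E.Rel a y' d := by
  obtain ⟨r, hr, α, h1, h2, h3⟩ := h
  filter_upwards [ball_mem_nhds y hr] with y' hy'
  have hs : ball y' (r - dist y' y) ⊆ ball y r := ball_subset_ball' (by linarith)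
  exact ⟨_, sub_pos.2 hy', α, h1.mono_left hs, hm _ _ _ h2 isOpen_ball hs,
    fun x hx => h3 x (hs hx)⟩

theorem un_Rel (hm : E.JumpMono) (hu : E.JumpUn) (hn : volume E.Sg = 0) {y : E3} {d d' : ℤ}
    (hy : y 2 = 0) (h : E.Rel a y d) (h' : E.Rel a y d') : d = d' := by
  obtain ⟨r, hr, α, -, h2, h3⟩ := h
  obtain ⟨r', hr', α', -, h2', h3'⟩ := h'
  have h0 : 0 < min r r' := lt_min hr hr'
  have s1 : ball y (min r r') ⊆ ball y r := ball_subset_ball (min_le_left _ _)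
  have s2 : ball y (min r r') ⊆ ball y r' := ball_subset_ball (min_le_right _ _)
  obtain ⟨e, he⟩ := hu _ α α' isOpen_ball (convex_ball y _).isPreconnected
    (hm _ _ _ h2 isOpen_ball s1) (hm _ _ _ h2' isOpen_ball s2)
  obtain ⟨u, hu1, hu2⟩ := pt_Rel hy (r := min r r') (min r r' / 2)
    (by rw [abs_of_pos (by linarith)]; linarith)
  obtain ⟨v, hv1, hv2⟩ := pt_Rel hy (r := min r r') (-(min r r' / 2))
    (by rw [abs_neg, abs_of_pos (by linarith)]; linarith)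
  obtain ⟨x, ⟨hx1, hx2⟩, hx3⟩ := off_Rel hn (isOpen_ball.inter opU_Rel)
    ⟨u, hu1, show 0 < u 2 by linarith⟩
  obtain ⟨z, ⟨hz1, hz2⟩, hz3⟩ := off_Rel hn (isOpen_ball.inter opD_Rel)
    ⟨v, hv1, show v 2 < 0 by linarith⟩
  have e1 := (h3 x (s1 hx1) hx3).1 hx2
  have e2 := (h3' x (s2 hx1) hx3).1 hx2
  have e3 := (h3 z (s1 hz1) hz3).2 hz2
  have e4 := (h3' z (s2 hz1) hz3).2 hz2
  have e5 := he x hx1 hx3
  have e6 := he z hz1 hz3
  omega

theorem ex_Rel (hm : E.JumpMono) (hu : E.JumpUn) (hj : E.JumpEx) (hC : IsClosed E.C)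
    (g : E.Good0 a) (y : E3) (hy : y ∉ E.C) : ∃ d, E.Rel a y d := by
  obtain ⟨r, hr, hs⟩ := Metric.isOpen_iff.1 hC.isOpen_compl y hy
  have hd : Disjoint (ball y r) E.C := disjoint_left.2 hs
  obtain ⟨α, hα⟩ := hj _ isOpen_ball (convex_ball y r) hd
  have o1 := (isOpen_ball (x := y) (ε := r)).inter opU_Rel
  have o2 := (isOpen_ball (x := y) (ε := r)).inter opD_Rel
  obtain ⟨d₁, h₁⟩ := hu _ a α o1 (cvU_Rel y r) (hm _ _ _ g.up o1 inter_subset_right)
    (hm _ _ _ hα o1 inter_subset_left)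
  obtain ⟨d₂, h₂⟩ := hu _ a α o2 (cvD_Rel y r) (hm _ _ _ g.dn o2 inter_subset_right)
    (hm _ _ _ hα o2 inter_subset_left)
  refine ⟨d₁ - d₂, r, hr, _, hd, shift_Rel hα d₂, fun x hx hx' =>
    ⟨fun h => ?_, fun h => h₂ x ⟨hx, h⟩ hx'⟩⟩
  show a x = α x + d₂ + (d₁ - d₂)
  rw [h₁ x ⟨hx, h⟩ hx']
  ring

theorem near_Rel (hS : IsClosed E.Sg) {U A B : Set E3} (h : E.BBox U A B) {k m : ℤ}
    (hA : ∀ y ∈ A, a y = k) (hB : ∀ y ∈ B, a y = k + 1) (hL : ∀ y ∈ U, y 2 < 0 → a y = m)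
    {y : E3} (hU : y ∈ U) (hy : y 2 = 0) (hC : y ∉ E.C) :
    E.Rel a y (k - m) ∨ E.Rel a y (k + 1 - m) := by
  have h1 : y ∉ E.Sg := by
    rintro ⟨q, rfl⟩
    exact hC ⟨q, (h.sg q hU).2 hy, rfl⟩
  obtain ⟨r, hr, hs⟩ := Metric.isOpen_iff.1 (h.oU.inter hS.isOpen_compl) y ⟨hU, h1⟩
  have h2 : ball y r ∩ {x : E3 | 0 < x 2} ⊆ A ∪ B := fun x hx => by
    rw [← h.un]
    exact ⟨⟨(hs hx.1).1, hx.2⟩, (hs hx.1).2⟩
  refine ((cvU_Rel y r).subset_or_subset h.oA h.oB h.dj h2).imp (fun h3 => ?_) fun h3 => ?_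
  · refine const_Rel hr (fun x hx => (hs hx).2) m _ fun x hx =>
      ⟨fun h4 => ?_, hL x (hs hx).1⟩
    rw [hA x (h3 ⟨hx, h4⟩)]
    ring
  · refine const_Rel hr (fun x hx => (hs hx).2) m _ fun x hx =>
      ⟨fun h4 => ?_, hL x (hs hx).1⟩
    rw [hB x (h3 ⟨hx, h4⟩)]
    ring

end

variable {M : Type} [TopologicalSpace M] [T2Space M] [CompactSpace M] [ConnectedSpace M]
  [MeasurableSpace M] [BorelSpace M]

theorem Rel_pf (E : Dat M) (μ : Measure M) (c : ℝ) : SRel E μ c := by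
  intro w a k m g he
  have cS : IsCompact E.Sg := isCompact_range w.ok.o0.cf
  have cC : IsCompact E.C := w.ok.o0.clb.isCompact.image w.ok.o0.cf
  refine ⟨fun y hy hC => ?_, fun y d d' => un_Rel w.mono w.uniq w.null,
    fun y d _ h => (lc_Rel w.mono h).mono fun _ h _ => h, ?_⟩
  · choose! D hD using ex_Rel w.mono w.uniq w.jump cC.isClosed g
    obtain ⟨z, hz, hmin⟩ := cC.exists_isMinOn (w.em.e0.ne.image E.f)
      (f := fun x => dist x y) (by fun_prop)
    have hzy : 0 < dist z y := dist_pos.2 fun h => hC (h ▸ hz)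
    have hSC : ∀ x ∈ ball y (dist z y) ∩ {x : E3 | x 2 = 0}, x ∉ E.C := fun x hx h =>
      (isMinOn_iff.1 hmin x h).not_gt (mem_ball.1 hx.1)
    have hS : IsPreconnected (ball y (dist z y) ∩ {x : E3 | x 2 = 0}) :=
      ((convex_ball y _).inter (convex_hyperplane lin_Rel 0)).isPreconnected
    have hc : ContinuousOn D (ball y (dist z y) ∩ {x : E3 | x 2 = 0}) := by
      intro x hx
      refine (continuousWithinAt_const (b := D x)).congr_of_eventuallyEq ?_ rfl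
      filter_upwards [self_mem_nhdsWithin,
        (lc_Rel w.mono (hD x (hSC x hx))).filter_mono nhdsWithin_le_nhds] with x' h1 h2
      exact un_Rel w.mono w.uniq w.null h1.2 (hD x' (hSC x' h1)) h2
    obtain ⟨p, hp, rfl⟩ := hz
    obtain ⟨U, A, B, h1, -, h2, -, h3, h4, h5⟩ := he p hp univ univ_mem
    have h6 : ∀ᶠ t in 𝓝 (1 : ℝ), AffineMap.lineMap y (E.f p) t ∈ U :=
      AffineMap.lineMap_continuous.continuousAt.eventually
        (h2.oU.mem_nhds (by rwa [AffineMap.lineMap_apply_one]))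
    obtain ⟨t, h7, h8⟩ := ((h6.filter_mono nhdsWithin_le_nhds).and
      (Ico_mem_nhdsLT zero_lt_one)).exists
    have h9 : AffineMap.lineMap y (E.f p) t ∈ ball y (dist (E.f p) y) ∩ {x : E3 | x 2 = 0} := by
      refine ⟨?_, ?_⟩
      · rw [mem_ball, dist_lineMap_left, Real.norm_of_nonneg h8.1, dist_comm y]
        exact mul_lt_of_lt_one_left hzy h8.2
      · show AffineMap.lineMap y (E.f p) t 2 = 0
        simp [AffineMap.lineMap_apply, hy, w.em.e0.bdP p hp]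
    have h10 : D y = D (AffineMap.lineMap y (E.f p) t) :=
      hS.constant hc ⟨mem_ball_self hzy, hy⟩ h9
    refine (near_Rel cS.isClosed h2 h3 h4 h5 h7 h9.2 (hSC _ h9)).imp (fun h => ?_) fun h => ?_ <;>
    · rw [← un_Rel w.mono w.uniq w.null h9.2 (hD _ (hSC _ h9)) h, ← h10]
      exact hD y hC
  · obtain ⟨R, hR⟩ := g.far
    obtain ⟨R', hR'⟩ := cS.isBounded.exists_norm_le
    refine ⟨max R R' + 1, fun y _ hy => ?_⟩
    have h : ∀ x ∈ ball y 1, max R R' < ‖x‖ := fun x hx => by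
      have h1 := norm_sub_norm_le y x
      rw [mem_ball', dist_eq_norm] at hx
      linarith
    refine const_Rel one_pos (fun x hx h' => ?_) 0 0 fun x hx => ?_
    · exact ((hR' x h').trans (le_max_right R R')).not_gt (h x hx)
    · have := hR x ((le_max_left R R').trans (h x hx).le)
      exact ⟨fun _ => by rw [this, add_zero], fun _ => this⟩

end Pool.Agent.MP_efb2da_gt.Emb

end

end

section

/-! The function `a` is bounded, measurable and nonnegative. -/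

open scoped Manifold ContDiff RealInnerProductSpace Topology ENNReal
open Set MeasureTheory Filter Metric

noncomputable section

namespace Pool.Agent.MP_efb2da_gt.Emb

section aux

variable {M : Type} [TopologicalSpace M] {E : Dat M}

theorem locJ_Bdd {α : E3 → ℤ} {V : Set E3} (h : E.IsJ α V) {x : E3} (hx : x ∈ V) :
    ∃ B : ℤ, 0 ≤ B ∧ ∀ᶠ y in 𝓝 x, y ∉ E.Sg → |α y| ≤ B := by
  by_cases hs : x ∈ E.Sg
  · obtain ⟨q, rfl⟩ := hs
    obtain ⟨l, U, A, B, hU, -, hB, hA1, hB1⟩ := h.2 q hx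
    refine ⟨|l| + 1, by positivity, ?_⟩
    filter_upwards [hB.oU.mem_nhds hU] with y hy hy'
    have h1 : y ∈ A ∪ B := hB.un ▸ (⟨hy, hy'⟩ : y ∈ U \ E.Sg)
    rcases h1 with h1 | h1
    · rw [hA1 y h1]; omega
    · rw [hB1 y h1]; exact (abs_add_le l 1).trans (by simp)
  · refine ⟨|α x|, abs_nonneg _, ?_⟩
    filter_upwards [h.1 x hx hs] with y hy _
    rw [hy]

theorem lc_Bdd {a : E3 → ℤ} (h0 : E.Good0 a) {x : E3} (hs : x ∉ E.Sg) (hx : x 2 ≠ 0) :
    ∀ᶠ y in 𝓝 x, a y = a x := by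
  rcases lt_or_gt_of_ne hx with h | h
  · exact h0.dn.1 x h hs
  · exact h0.up.1 x h hs

theorem jm_Bdd {a : E3 → ℤ} (h0 : E.Good0 a) {q : M} (hx : E.f q 2 ≠ 0) :
    ∃ (l : ℤ) (U A B : Set E3), E.f q ∈ U ∧ E.Box U A B ∧ (∀ y ∈ A, a y = l) ∧
      ∀ y ∈ B, a y = l + 1 := by
  rcases lt_or_gt_of_ne hx with h | h
  · obtain ⟨l, U, A, B, h1, -, h2, h3, h4⟩ := h0.dn.2 q h
    exact ⟨l, U, A, B, h1, h2, h3, h4⟩
  · obtain ⟨l, U, A, B, h1, -, h2, h3, h4⟩ := h0.up.2 q h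
    exact ⟨l, U, A, B, h1, h2, h3, h4⟩

theorem loc_Bdd [MeasurableSpace M] {μ : Measure M} {a : E3 → ℤ} {k m : ℤ} (h0 : E.Good0 a)
    (he : E.Edge μ a k m) (hr : E.RelF a k m) (x : E3) :
    ∃ B : ℤ, ∀ᶠ y in 𝓝 x, |a y| ≤ B := by
  have key : ∀ V : Set E3, E.IsJ a V → x ∈ V → ∃ B : ℤ, ∀ᶠ y in 𝓝 x, |a y| ≤ B := by
    intro V hV hx
    obtain ⟨B, hB, h⟩ := locJ_Bdd hV hx
    refine ⟨B, ?_⟩
    filter_upwards [h] with y hy
    by_cases hs : y ∈ E.Sg
    · rw [h0.zero y (Or.inl hs)]; simpa using hB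
    · exact hy hs
  rcases lt_trichotomy (x 2) 0 with h | h | h
  · exact key _ h0.dn h
  · by_cases hC : x ∈ E.C
    · obtain ⟨p, hp, rfl⟩ := hC
      obtain ⟨U, A, B, hU, -, hB, -, hA1, hB1, hL⟩ := he p hp univ univ_mem
      refine ⟨|k| + 1 + |m|, ?_⟩
      filter_upwards [hB.oU.mem_nhds hU] with y hy
      have hk := abs_nonneg k
      have hm := abs_nonneg m
      by_cases hs : y ∈ E.Sg
      · rw [h0.zero y (Or.inl hs), abs_zero]; omega
      rcases lt_trichotomy (y 2) 0 with h1 | h1 | h1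
      · rw [hL y hy h1]; omega
      · rw [h0.zero y (Or.inr h1), abs_zero]; omega
      · have h2 : y ∈ A ∪ B := hB.un ▸ (⟨⟨hy, h1⟩, hs⟩ : y ∈ (U ∩ {x | 0 < x 2}) \ E.Sg)
        rcases h2 with h2 | h2
        · rw [hA1 y h2]; omega
        · rw [hB1 y h2]
          have := abs_add_le k 1
          rw [abs_one] at this
          omega
    · have h1 : ∃ d, E.Rel a x d := by
        rcases hr.two x h hC with h1 | h1
        · exact ⟨_, h1⟩
        · exact ⟨_, h1⟩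
      obtain ⟨d, r, hr0, α, -, hJ, hα⟩ := h1
      obtain ⟨B, hB, h2⟩ := locJ_Bdd hJ (mem_ball_self hr0)
      refine ⟨B + |d|, ?_⟩
      filter_upwards [h2, ball_mem_nhds x hr0] with y hy hy'
      have hd := abs_nonneg d
      by_cases hs : y ∈ E.Sg
      · rw [h0.zero y (Or.inl hs), abs_zero]; omega
      have h3 := hy hs
      rcases lt_trichotomy (y 2) 0 with h1 | h1 | h1
      · rw [(hα y hy' hs).2 h1]; omega
      · rw [h0.zero y (Or.inr h1), abs_zero]; omega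
      · rw [(hα y hy' hs).1 h1]
        have := abs_add_le (α y) d
        omega
  · exact key _ h0.up h

theorem glob_Bdd {a : E3 → ℤ} (h0 : E.Good0 a)
    (h : ∀ x, ∃ B : ℤ, ∀ᶠ y in 𝓝 x, |a y| ≤ B) : ∃ B : ℤ, ∀ x, |a x| ≤ B := by
  obtain ⟨R, hR⟩ := h0.far
  have h1 : ∃ B : ℤ, ∀ y ∈ closedBall (0 : E3) R, |a y| ≤ B := by
    refine (isCompact_closedBall (0 : E3) R).induction_on
      (p := fun s : Set E3 => ∃ B : ℤ, ∀ y ∈ s, |a y| ≤ B) ⟨0, by simp⟩ ?_ ?_ ?_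
    · rintro s t hst ⟨B, hB⟩
      exact ⟨B, fun y hy => hB y (hst hy)⟩
    · rintro s t ⟨B, hB⟩ ⟨B', hB'⟩
      refine ⟨max B B', ?_⟩
      rintro y (hy | hy)
      · exact (hB y hy).trans (le_max_left _ _)
      · exact (hB' y hy).trans (le_max_right _ _)
    · intro x _
      obtain ⟨B, hB⟩ := h x
      exact ⟨{y | |a y| ≤ B}, mem_nhdsWithin_of_mem_nhds hB, B, fun y hy => hy⟩
  obtain ⟨B, hB⟩ := h1
  refine ⟨max B 0, fun x => ?_⟩
  rcases le_total ‖x‖ R with hx | hx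
  · exact (hB x (mem_closedBall_zero_iff.2 hx)).trans (le_max_left _ _)
  · rw [hR x hx, abs_zero]; exact le_max_right _ _

theorem meas_Bdd {a : E3 → ℤ} (h0 : E.Good0 a) (hS : IsClosed E.Sg) : Measurable a := by
  have hc : Continuous fun x : E3 => x 2 := by fun_prop
  have hG : IsOpen {x : E3 | x ∉ E.Sg ∧ x 2 ≠ 0} :=
    hS.isOpen_compl.inter (isOpen_ne_fun hc continuous_const)
  have hn : ∀ n : ℤ, IsOpen ({x : E3 | x ∉ E.Sg ∧ x 2 ≠ 0} ∩ a ⁻¹' {n}) := by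
    intro n
    rw [isOpen_iff_mem_nhds]
    rintro x ⟨hx, hx'⟩
    filter_upwards [hG.mem_nhds hx, lc_Bdd h0 hx.1 hx.2] with y hy hy'
    exact ⟨hy, hy'.trans hx'⟩
  have hz : ∀ x, x ∉ {x : E3 | x ∉ E.Sg ∧ x 2 ≠ 0} → a x = 0 := by
    intro x hx
    refine h0.zero x ?_
    by_contra h
    rw [not_or] at h
    exact hx h
  refine measurable_to_countable' fun n => ?_
  by_cases h : n = 0
  · have e : a ⁻¹' {n} = ({x : E3 | x ∉ E.Sg ∧ x 2 ≠ 0} ∩ a ⁻¹' {n}) ∪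
        {x : E3 | x ∉ E.Sg ∧ x 2 ≠ 0}ᶜ := by
      ext x
      constructor
      · intro hx
        by_cases hx' : x ∈ {x : E3 | x ∉ E.Sg ∧ x 2 ≠ 0}
        · exact Or.inl ⟨hx', hx⟩
        · exact Or.inr hx'
      · rintro (hx | hx)
        · exact hx.2
        · exact (hz x hx).trans h.symm
    rw [e]
    exact (hn n).measurableSet.union hG.measurableSet.compl
  · have e : a ⁻¹' {n} = {x : E3 | x ∉ E.Sg ∧ x 2 ≠ 0} ∩ a ⁻¹' {n} := by
      refine (inter_eq_right.2 fun x hx => ?_).symm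
      by_contra hx'
      exact h ((show a x = n from hx).symm.trans (hz x hx'))
    rw [e]
    exact (hn n).measurableSet

theorem sgn_Bdd {t : ℝ} : ∃ σ : ℝ, σ * σ = 1 ∧ |σ| = 1 ∧ σ * t = |t| ∧ ∀ s : ℝ, σ * s ≤ |s| := by
  rcases le_total 0 t with h | h
  · exact ⟨1, by simp, by simp, by rw [one_mul, abs_of_nonneg h],
      fun s => by rw [one_mul]; exact le_abs_self s⟩
  · exact ⟨-1, by simp, by simp, by rw [abs_of_nonpos h]; ring,
      fun s => by rw [neg_one_mul]; exact neg_le_abs s⟩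

theorem nn_Bdd {a : E3 → ℤ} (h0 : E.Good0 a) (hmp : E.MP) (hb : ∃ B : ℤ, ∀ x, |a x| ≤ B)
    (x : E3) : 0 ≤ a x := by
  by_contra hx
  obtain ⟨B₀, hB₀⟩ := hb
  obtain ⟨n, ⟨x₁, hx₁⟩, hn⟩ := Int.exists_least_of_bdd (P := fun z : ℤ => ∃ y, a y = z)
    ⟨-B₀, by rintro z ⟨y, rfl⟩; exact (abs_le.1 (hB₀ y)).1⟩ ⟨a x, x, rfl⟩
  have hn0 : n < 0 := lt_of_le_of_lt (hn _ ⟨x, rfl⟩) (not_le.1 hx)
  have hZ : ∀ y, a y = n → y ∉ E.Sg ∧ y 2 ≠ 0 := by
    intro y hy
    rw [← not_or]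
    intro h
    have := h0.zero y h
    omega
  obtain ⟨R, hR⟩ := h0.far
  have hK : IsCompact (closure {y : E3 | a y = n}) := by
    refine (isCompact_closedBall (0 : E3) R).of_isClosed_subset isClosed_closure
      (closure_minimal (fun y hy => mem_closedBall_zero_iff.2 ?_) isClosed_closedBall)
    by_contra h
    have h1 := hR y (not_le.1 h).le
    have h2 : a y = n := hy
    omega
  have hc : Continuous fun y : E3 => |y 2| := by fun_prop
  obtain ⟨x₀, hx₀, hmax⟩ := hK.exists_isMaxOn ⟨x₁, subset_closure hx₁⟩ hc.continuousOn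
  have hle : ∀ y, a y = n → |y 2| ≤ |x₀ 2| := fun y hy => hmax (subset_closure hy)
  have hne : x₀ 2 ≠ 0 := abs_pos.1 (lt_of_lt_of_le (abs_pos.2 (hZ x₁ hx₁).2) (hle x₁ hx₁))
  obtain ⟨σ, hσ1, hσ2, hσ3, hσ4⟩ := sgn_Bdd (t := x₀ 2)
  have hle' : ∀ y, a y = n → σ * y 2 ≤ σ * x₀ 2 := fun y hy =>
    (hσ4 _).trans ((hle y hy).trans hσ3.ge)
  by_cases hs : x₀ ∈ E.Sg
  · obtain ⟨q, rfl⟩ := hs
    obtain ⟨l, U, A, B, hU, hB, hA1, hB1⟩ := jm_Bdd h0 hne
    have hv : ‖σ • e3‖ = 1 := by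
      rw [norm_smul, Real.norm_eq_abs, hσ2, one_mul, EuclideanSpace.norm_eq]
      simp [Fin.sum_univ_three, e3]
    have hin : ∀ y : E3, ⟪y, σ • e3⟫ = σ * y 2 := by
      intro y
      rw [inner3]
      simp [e3, mul_comm]
    obtain ⟨y, hyA, hy⟩ := (hmp U A B hB q hU _ hv).exists
    rw [hin, hin] at hy
    obtain ⟨z, hzU, hz⟩ := mem_closure_iff.1 hx₀ U hB.oU hU
    have hz' : a z = n := hz
    have h1 : z ∈ A ∪ B := hB.un ▸ (⟨hzU, (hZ z hz').1⟩ : z ∈ U \ E.Sg)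
    have h2 : n ≤ l := hn l ⟨y, hA1 y hyA⟩
    have h3 : l = n := by
      rcases h1 with h1 | h1
      · exact (hA1 z h1).symm.trans hz'
      · have := hB1 z h1
        omega
    exact absurd (hle' y ((hA1 y hyA).trans h3)) (not_le.2 hy)
  · have h1 := lc_Bdd h0 hs hne
    obtain ⟨z, hz, hz'⟩ := ((mem_closure_iff_frequently.1 hx₀).and_eventually h1).exists
    have h2 : a x₀ = n := hz'.symm.trans hz
    have h3 : Tendsto (fun t : ℝ => x₀ + (t * σ) • e3) (𝓝[>] 0) (𝓝 x₀) := by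
      have h4 : Continuous fun t : ℝ => x₀ + (t * σ) • e3 := by fun_prop
      have h5 := h4.tendsto 0
      rw [zero_mul, zero_smul, add_zero] at h5
      exact h5.mono_left nhdsWithin_le_nhds
    obtain ⟨t, ht, ht0⟩ := ((h3.eventually h1).and self_mem_nhdsWithin).exists
    have h6 := hle' _ (ht.trans h2)
    have h7 : (x₀ + (t * σ) • e3) 2 = x₀ 2 + t * σ := by simp [e3]
    have h8 : 0 < t := ht0
    have h9 : σ * (x₀ 2 + t * σ) = σ * x₀ 2 + t * (σ * σ) := by ring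
    rw [h7, h9, hσ1] at h6
    linarith

end aux

variable {M : Type} [TopologicalSpace M] [T2Space M] [CompactSpace M] [ConnectedSpace M]
  [MeasurableSpace M] [BorelSpace M]

set_option linter.unusedSectionVars false in
theorem Bdd_pf (E : Dat M) (μ : Measure M) (c : ℝ) : SBdd E μ c := by
  intro hW a k m h0 he hr
  have hb := glob_Bdd h0 (loc_Bdd h0 he hr)
  exact ⟨hb, meas_Bdd h0 (isCompact_range hW.ok.o0.cf).isClosed, nn_Bdd h0 hW.mp hb⟩

end Pool.Agent.MP_efb2da_gt.Emb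

end

end

section

/-! The compact set across which `a` is not continued. -/

open scoped Manifold ContDiff RealInnerProductSpace Topology ENNReal
open Set MeasureTheory Filter Metric

noncomputable section

namespace Pool.Agent.MP_efb2da_gt.Emb

theorem cont2_Kz : Continuous (fun x : E3 => x 2) := by fun_prop

theorem norm_e3_Kz : ‖e3‖ = 1 := by
  rw [EuclideanSpace.norm_eq]
  simp [e3, Fin.sum_univ_three]

/-- points strictly on a given side of the plane accumulate at each point of the plane -/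
theorem freq_Kz (y : E3) (hy : y 2 = 0) (s : ℝ) (hs : s = 1 ∨ s = -1) :
    ∃ᶠ x in 𝓝 y, 0 < s * x 2 := by
  have hc : Continuous (fun t : ℝ => y + (t * s) • e3) := by fun_prop
  have ht : Tendsto (fun t : ℝ => y + (t * s) • e3) (𝓝[>] 0) (𝓝 y) := by
    have h := hc.tendsto 0
    simp only [zero_mul, zero_smul, add_zero] at h
    exact h.mono_left nhdsWithin_le_nhds
  refine ht.frequently (Eventually.frequently ?_)
  filter_upwards [self_mem_nhdsWithin] with t ht0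
  have h1 : (y + (t * s) • e3) 2 = t * s := by simp [e3, hy]
  have h2 : (0:ℝ) < t := ht0
  rw [h1]
  rcases hs with rfl | rfl <;> linarith

variable {M : Type} [TopologicalSpace M] [T2Space M] [CompactSpace M] [ConnectedSpace M]
  [MeasurableSpace M] [BorelSpace M]

omit [T2Space M] [ConnectedSpace M] [MeasurableSpace M] [BorelSpace M] in
theorem off_Kz (E : Dat M) (hf : Continuous E.f) (y : E3) (hy : y ∉ E.Sg) :
    ∀ᶠ x in 𝓝 y, x ∉ E.Sg :=
  (isCompact_range hf).isClosed.isOpen_compl.mem_nhds hy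

omit [T2Space M] [CompactSpace M] [ConnectedSpace M] [MeasurableSpace M] [BorelSpace M] in
theorem notC_Kz (E : Dat M) (a : E3 → ℤ) (y : E3) (d : ℤ) (h : E.Rel a y d) : y ∉ E.C := by
  obtain ⟨r, hr, α, hd, -⟩ := h
  exact fun hy => Set.disjoint_left.1 hd (mem_ball_self hr) hy

omit [T2Space M] [ConnectedSpace M] [MeasurableSpace M] [BorelSpace M] in
/-- a lower bound for a jump function on one side of the plane holds on both sides -/
theorem both_Kz (E : Dat M) (hf : Continuous E.f) (hmp : E.MP) (α : E3 → ℤ) (y : E3) (r : ℝ)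
    (hr : 0 < r) (hy : y 2 = 0) (hJ : E.IsJ α (ball y r)) (s : ℝ) (hs : s = 1 ∨ s = -1) (n : ℤ)
    (hn : ∀ x ∈ ball y r, x ∉ E.Sg → 0 < s * x 2 → n ≤ α x) :
    ∀ᶠ x in 𝓝 y, x ∉ E.Sg → n ≤ α x := by
  by_cases hS : y ∈ E.Sg
  · obtain ⟨q, rfl⟩ := hS
    obtain ⟨l, U, A, B, hU, hUV, hB, hA1, hB1⟩ := hJ.2 q (mem_ball_self hr)
    have hv : ‖s • e3‖ = 1 := by
      rw [norm_smul, norm_e3_Kz]
      rcases hs with rfl | rfl <;> simp
    obtain ⟨x, hxA, hx⟩ := (hmp U A B hB q hU (s • e3) hv).exists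
    have hx' : x ∈ U \ E.Sg := by rw [hB.un]; exact Or.inl hxA
    have h1 : ∀ z : E3, ⟪z, s • e3⟫ = s * z 2 := by
      intro z
      rw [inner3]
      simp [e3, mul_comm]
    rw [h1, h1, hy, mul_zero] at hx
    have hl : n ≤ l := by
      rw [← hA1 x hxA]
      exact hn x (hUV hx'.1) hx'.2 hx
    filter_upwards [hB.oU.mem_nhds hU] with z hz hzS
    have hz' : z ∈ A ∪ B := by rw [← hB.un]; exact ⟨hz, hzS⟩
    rcases hz' with h | h
    · rw [hA1 z h]; exact hl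
    · rw [hB1 z h]; omega
  · have h1 := hJ.1 y (mem_ball_self hr) hS
    have h2 := off_Kz E hf y hS
    have h3 : ∀ᶠ x in 𝓝 y, x ∈ ball y r := ball_mem_nhds y hr
    obtain ⟨x, hx, hx1, hx2, hx3⟩ := ((freq_Kz y hy s hs).and_eventually (h1.and (h2.and h3))).exists
    have hl : n ≤ α y := by
      rw [← hx1]
      exact hn x hx3 hx2 hx
    filter_upwards [h1] with z hz _
    rw [hz]; exact hl

theorem Kz_pf (E : Dat M) (μ : Measure M) (c : ℝ) : SKz E μ c := by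
  intro hW a k m hG hm
  have hf : Continuous E.f := hW.ok.o0.cf
  have hR := hG.rel
  obtain ⟨R, hfar⟩ := hR.far
  have hkm : k = m ∨ k + 1 = m := by
    have hy2 : (|R| • (!₂[1, 0, 0] : E3)) 2 = 0 := by simp
    have hn : R ≤ ‖|R| • (!₂[1, 0, 0] : E3)‖ := by
      have h1 : ‖(!₂[1, 0, 0] : E3)‖ = 1 := by
        rw [EuclideanSpace.norm_eq]
        simp [Fin.sum_univ_three]
      rw [norm_smul, h1, mul_one, Real.norm_eq_abs, abs_abs]
      exact le_abs_self R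
    have h0 := hfar _ hy2 hn
    rcases hR.two _ hy2 (notC_Kz E a _ 0 h0) with h | h
    · have := hR.un _ _ _ hy2 h h0
      omega
    · have := hR.un _ _ _ hy2 h h0
      omega
  obtain ⟨ε, σ, hεσ, hε⟩ : ∃ (ε : ℤ) (σ : ℝ),
      ((k = m ∧ ε = 1 ∧ σ = -1) ∨ (k + 1 = m ∧ ε = -1 ∧ σ = 1)) ∧
      ∀ y : E3, y 2 = 0 → y ∉ E.C → ¬ E.Rel a y 0 → E.Rel a y ε := by
    rcases hkm with h | h
    · refine ⟨1, -1, Or.inl ⟨h, rfl, rfl⟩, fun y hy hC h0 => ?_⟩
      have h1 : k - m = 0 := by omega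
      have h2 : k + 1 - m = 1 := by omega
      have h3 := hR.two y hy hC
      rw [h1, h2] at h3
      exact h3.resolve_left h0
    · refine ⟨-1, 1, Or.inr ⟨h, rfl, rfl⟩, fun y hy hC h0 => ?_⟩
      have h1 : k - m = -1 := by omega
      have h2 : k + 1 - m = 0 := by omega
      have h3 := hR.two y hy hC
      rw [h1, h2] at h3
      exact h3.resolve_right h0
  have hε0 : ε ≠ 0 := by
    rcases hεσ with h | h <;> omega
  refine ⟨{y | y 2 = 0 ∧ ¬ E.Rel a y 0}, σ, ?_, ?_, fun y hy => hy.1, ?_, ?_, ?_, ?_⟩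
  · refine Metric.isCompact_of_isClosed_isBounded ?_ ?_
    · rw [← isOpen_compl_iff, isOpen_iff_mem_nhds]
      intro y hy
      by_cases h2 : y 2 = 0
      · have h0 : E.Rel a y 0 := by
          by_contra h
          exact hy ⟨h2, h⟩
        filter_upwards [hR.lc y 0 h2 h0] with z hz hzK
        exact hzK.2 (hz hzK.1)
      · filter_upwards [cont2_Kz.continuousAt.eventually_ne h2] with z hz hzK
        exact hz hzK.1
    · refine (isBounded_ball (x := (0 : E3)) (r := R)).subset fun y hy => ?_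
      rw [mem_ball_zero_iff]
      by_contra h
      exact hy.2 (hfar y hy.1 (not_lt.1 h))
  · intro y hy
    refine ⟨?_, fun h => notC_Kz E a y 0 h hy⟩
    obtain ⟨p, hp, rfl⟩ := hy
    exact hW.em.e0.bdP p hp
  · rcases hεσ with h | h
    · exact Or.inr h.2.2
    · exact Or.inl h.2.2
  · intro y hy
    by_cases hC : y ∈ E.C
    · obtain ⟨p, hp, rfl⟩ := hC
      obtain ⟨U, A, B, hU, -, hB, -, hA1, hB1, hL⟩ := hG.edge p hp univ univ_mem
      filter_upwards [hB.oU.mem_nhds hU] with x hx hZ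
      obtain ⟨hS, h2, h0⟩ := hZ
      have hpos : 0 < x 2 := by
        rcases lt_or_gt_of_ne h2 with h | h
        · have := hL x hx h
          omega
        · exact h
      rcases hεσ with ⟨h, -, -⟩ | ⟨-, -, h⟩
      · have hx' : x ∈ A ∪ B := by rw [← hB.un]; exact ⟨⟨hx, hpos⟩, hS⟩
        rcases hx' with h' | h'
        · have := hA1 x h'
          omega
        · have := hB1 x h'
          omega
      · rw [h, one_mul]; exact hpos
    · obtain ⟨r, hr, α, -, hJ, ha⟩ := hε y hy.1 hC hy.2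
      rcases hεσ with ⟨-, rfl, rfl⟩ | ⟨-, rfl, rfl⟩
      · have h1 := both_Kz E hf hW.mp α y r hr hy.1 hJ (-1) (Or.inr rfl) 0 (fun x hx hS h2 => by
          rw [← (ha x hx hS).2 (by linarith)]
          exact hG.nn x)
        filter_upwards [h1, ball_mem_nhds y hr] with x hx hxb hZ
        obtain ⟨hS, h2, h0⟩ := hZ
        rcases lt_or_gt_of_ne h2 with h | h
        · linarith
        · have h3 := (ha x hxb hS).1 h
          have h4 := hx hS
          omega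
      · have h1 := both_Kz E hf hW.mp α y r hr hy.1 hJ 1 (Or.inl rfl) 1 (fun x hx hS h2 => by
          have h3 := (ha x hx hS).1 (by linarith)
          have h4 := hG.nn x
          omega)
        filter_upwards [h1, ball_mem_nhds y hr] with x hx hxb hZ
        obtain ⟨hS, h2, h0⟩ := hZ
        rcases lt_or_gt_of_ne h2 with h | h
        · have h3 := (ha x hxb hS).2 h
          have h4 := hx hS
          omega
        · linarith
  · refine ⟨interior {y : E3 | y 2 = 0 → E.Rel a y 0 → y ∉ closure (E.Z a)}, isOpen_interior,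
      fun y hy => ?_, fun y hy h2 hK => ?_⟩
    · rw [mem_interior_iff_mem_nhds]
      by_cases hC : y ∈ E.C
      · obtain ⟨p, hp, rfl⟩ := hC
        obtain ⟨U, A, B, hU, -, hB, -, -, -, hL⟩ := hG.edge p hp univ univ_mem
        filter_upwards [hB.oU.mem_nhds hU] with z hz h2 h0
        have hzC := notC_Kz E a z 0 h0
        have hzS : z ∉ E.Sg := by
          rintro ⟨q, rfl⟩
          exact hzC ⟨q, (hB.sg q hz).2 h2, rfl⟩
        obtain ⟨r, hr, α, -, hJ, ha⟩ := h0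
        have h1 := hJ.1 z (mem_ball_self hr) hzS
        have h3 := off_Kz E hf z hzS
        have h4 : ∀ᶠ x in 𝓝 z, x ∈ ball z r := ball_mem_nhds z hr
        have h5 : ∀ᶠ x in 𝓝 z, x ∈ U := hB.oU.mem_nhds hz
        obtain ⟨x, hx, hx1, hx3, hx4, hx5⟩ := ((freq_Kz z h2 (-1) (Or.inr rfl)).and_eventually
          (h1.and (h3.and (h4.and h5)))).exists
        have hx2 : x 2 < 0 := by linarith
        have hz' : α z = m := by
          rw [← hx1, ← (ha x hx4 hx3).2 hx2]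
          exact hL x hx5 hx2
        rw [mem_closure_iff_frequently, not_frequently]
        filter_upwards [h1, h4] with w hw1 hw4 hZ
        obtain ⟨hS, hw2, hw0⟩ := hZ
        rcases lt_or_gt_of_ne hw2 with h | h
        · have := (ha w hw4 hS).2 h
          omega
        · have := (ha w hw4 hS).1 h
          omega
      · filter_upwards [hR.lc y ε hy.1 (hε y hy.1 hC hy.2)] with z hz h2 h0
        exact absurd (hR.un z _ _ h2 (hz h2) h0) hε0
    · refine interior_subset hy h2 ?_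
      by_contra h
      exact hK ⟨h2, h⟩
  · intro y h2 hK
    by_contra h
    exact hK ⟨h2, h⟩

end Pool.Agent.MP_efb2da_gt.Emb

end

end

section

/-! The flux identities on the outermost sheet. -/

open scoped Manifold ContDiff RealInnerProductSpace Topology ENNReal
open Set MeasureTheory Filter Metric

noncomputable section

namespace Pool.Agent.MP_efb2da_gt.Emb

theorem congr_Flux {α : Type} [MeasurableSpace α] {ν : Measure α} {s t U : Set α} {g : α → ℝ}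
    (hs : MeasurableSet s) (ht : MeasurableSet t) (hg : ∀ y, y ∉ U → g y = 0)
    (h : ∀ᵐ y ∂ν, y ∈ U → (y ∈ s ↔ y ∈ t)) : ∫ y in s, g y ∂ν = ∫ y in t, g y ∂ν := by
  rw [← integral_indicator hs, ← integral_indicator ht]
  apply integral_congr_ae
  filter_upwards [h] with y hy
  by_cases hU : y ∈ U
  · by_cases h1 : y ∈ s
    · rw [indicator_of_mem h1, indicator_of_mem ((hy hU).1 h1)]
    · rw [indicator_of_notMem h1, indicator_of_notMem (fun h2 => h1 ((hy hU).2 h2))]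
  · rw [indicator_apply_eq_zero.2 (fun _ => hg y hU), indicator_apply_eq_zero.2 (fun _ => hg y hU)]

variable {M : Type} [TopologicalSpace M] [T2Space M] [CompactSpace M] [ConnectedSpace M]
  [MeasurableSpace M] [BorelSpace M]

omit [T2Space M] [CompactSpace M] [ConnectedSpace M] [MeasurableSpace M] [BorelSpace M] in
theorem loc_Flux {E : Dat M} {a : E3 → ℤ} {K : Set E3} {σ : ℝ} (g0 : E.Good0 a)
    (hK : E.Kz a K σ) {x : E3} (hx : x ∉ K) :
    ∃ (V : Set E3) (α : E3 → ℤ), IsOpen V ∧ x ∈ V ∧ E.IsJ α V ∧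
      ∀ y ∈ V, y ∉ E.Sg → y 2 ≠ 0 → a y = α y := by
  have hc : Continuous fun y : E3 => y 2 := by fun_prop
  rcases lt_trichotomy (x 2) 0 with h | h | h
  · exact ⟨_, a, isOpen_lt hc continuous_const, h, g0.dn, fun _ _ _ _ => rfl⟩
  · obtain ⟨r, hr, α, -, h2, h3⟩ := hK.rel x h hx
    refine ⟨ball x r, α, isOpen_ball, mem_ball_self hr, h2, fun y hy h4 h5 => ?_⟩
    rcases lt_or_gt_of_ne h5 with h6 | h6
    · exact (h3 y hy h4).2 h6
    · rw [(h3 y hy h4).1 h6, add_zero]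
  · exact ⟨_, a, isOpen_lt continuous_const hc, h, g0.up, fun _ _ _ _ => rfl⟩

omit [T2Space M] [ConnectedSpace M] in
theorem form_Flux {E : Dat M} {μ : Measure M} {c : ℝ} (w : E.W μ c) {a : E3 → ℤ} {k m : ℤ}
    (g : E.Good1 μ a k m) {K : Set E3} {σ : ℝ} (hK : E.Kz a K σ) {x : E3} (hx : x ∉ K) :
    ∃ U : Set E3, IsOpen U ∧ x ∈ U ∧
      (∀ X, C1c X → tsupport X ⊆ U → ∫ y in {y | 1 ≤ a y}, dv X y =
        -∫ q in E.f ⁻¹' closure (E.Z a), ⟪X (E.f q), E.N q⟫ ∂μ) ∧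
      ((∀ q, E.f q ∈ U → E.f q ∈ closure (E.Z a)) ∨
        ∀ q, E.f q ∈ U → E.f q ∉ closure (E.Z a)) := by
  obtain ⟨V, α, oV, xV, hJ, hα⟩ := loc_Flux g.g0 hK hx
  have mΩ : MeasurableSet {y | 1 ≤ a y} := g.ms (MeasurableSet.of_discrete (s := Ici 1))
  have mS : MeasurableSet (E.f ⁻¹' closure (E.Z a)) :=
    (isClosed_closure.preimage w.ok.o0.cf).measurableSet
  have ae : ∀ᵐ y : E3, y ∉ E.Sg ∧ y 2 ≠ 0 := by
    have h1 : ∀ᵐ y : E3, y ∉ E.Sg := measure_eq_zero_iff_ae_notMem.1 w.null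
    have h2 : ∀ᵐ y : E3, y ∉ {x : E3 | x 2 = 0} := measure_eq_zero_iff_ae_notMem.1 w.div.plane
    filter_upwards [h1, h2] with y a1 a2
    exact ⟨a1, a2⟩
  have dz : ∀ (U : Set E3) X, C1c X → tsupport X ⊆ U → ∀ y, y ∉ U → dv X y = 0 :=
    fun U X hX hU y hy => (w.div.cont X hX).2.2 y fun h => hy (hU h)
  have xz : ∀ (U : Set E3) (X : E3 → E3), tsupport X ⊆ U → ∀ q, E.f q ∉ U →
      ⟪X (E.f q), E.N q⟫ = 0 := fun U X hU q hq => by
    rw [image_eq_zero_of_notMem_tsupport (fun h => hq (hU h)), inner_zero_left]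
  have full : ∀ (U : Set E3), (∀ y ∈ U, y ∉ E.Sg → y 2 ≠ 0 → 1 ≤ a y) → ∀ X, C1c X →
      tsupport X ⊆ U → ∫ y in {y | 1 ≤ a y}, dv X y = 0 := by
    intro U hU X hX hs
    rw [congr_Flux mΩ MeasurableSet.univ (dz U X hX hs), setIntegral_univ, w.div.all X hX]
    filter_upwards [ae] with y hy hyU
    exact ⟨fun _ => mem_univ _, fun _ => hU y hyU hy.1 hy.2⟩
  have miss : ∀ (U : Set E3), (∀ q, E.f q ∈ U → E.f q ∉ closure (E.Z a)) → ∀ X : E3 → E3,
      tsupport X ⊆ U → ∫ q in E.f ⁻¹' closure (E.Z a), ⟪X (E.f q), E.N q⟫ ∂μ = 0 := by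
    intro U hU X hs
    exact setIntegral_eq_zero_of_forall_eq_zero fun q hq => xz U X hs q fun h => hU q h hq
  by_cases hS : x ∈ E.Sg
  · obtain ⟨q, rfl⟩ := hS
    obtain ⟨l, hl⟩ := hJ.2 q xV
    obtain ⟨U, A, B, qU, -, UV, bx, ad, hA, hB⟩ := w.shr α q l V hl univ univ_mem
    have hA' : ∀ y ∈ A, y ∈ U ∧ y ∉ E.Sg := fun y hy => by
      have : y ∈ U \ E.Sg := bx.un ▸ Or.inl hy
      exact this
    have hB' : ∀ y ∈ B, y ∈ U ∧ y ∉ E.Sg := fun y hy => by
      have : y ∈ U \ E.Sg := bx.un ▸ Or.inr hy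
      exact this
    have aA : ∀ y ∈ A, y 2 ≠ 0 → a y = l := fun y hy h2 => by
      rw [hα y (UV (hA' y hy).1) (hA' y hy).2 h2, hA y hy]
    have aB : ∀ y ∈ B, y 2 ≠ 0 → a y = l + 1 := fun y hy h2 => by
      rw [hα y (UV (hB' y hy).1) (hB' y hy).2 h2, hB y hy]
    have AB : ∀ y ∈ U, y ∉ E.Sg → y ∈ A ∨ y ∈ B := fun y h1 h2 => by
      have : y ∈ A ∪ B := bx.un ▸ ⟨h1, h2⟩
      exact this
    have l0 : 0 ≤ l := by
      obtain ⟨y, hy⟩ := closure_nonempty_iff.1 ⟨_, (w.cl U A B bx q qU).1⟩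
      rw [← aA y hy.1 hy.2]
      exact g.nn y
    rcases l0.eq_or_lt with h0 | h0
    · have sub : ∀ q', E.f q' ∈ U → E.f q' ∈ closure (E.Z a) := fun q' hq' =>
        closure_mono (t := E.Z a)
          (fun y hy => And.intro (hA' y hy.1).2 ⟨hy.2, (aA y hy.1 hy.2).trans h0.symm⟩)
          (w.cl U A B bx q' hq').1
      refine ⟨U, bx.oU, qU, fun X hX hs => ?_, Or.inl sub⟩
      rw [congr_Flux mΩ bx.oB.measurableSet (dz U X hX hs), ad X hX hs False.elim,
        setIntegral_eq_integral_of_forall_compl_eq_zero (s := E.f ⁻¹' closure (E.Z a))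
          fun q' hq' => xz U X hs q' fun h => hq' (sub q' h)]
      filter_upwards [ae] with y hy hyU
      constructor
      · intro h1
        rcases AB y hyU hy.1 with h2 | h2
        · have h3 := aA y h2 hy.2
          have h4 : 1 ≤ a y := h1
          omega
        · exact h2
      · intro h1
        have h3 := aB y h1 hy.2
        show 1 ≤ a y
        omega
    · have big : ∀ y ∈ U, y ∉ E.Sg → y 2 ≠ 0 → 1 ≤ a y := fun y h1 h2 h3 => by
        rcases AB y h1 h2 with h4 | h4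
        · have := aA y h4 h3
          omega
        · have := aB y h4 h3
          omega
      have out : ∀ q', E.f q' ∈ U → E.f q' ∉ closure (E.Z a) := fun q' hq' h => by
        obtain ⟨y, h1, h2⟩ := mem_closure_iff.1 h U bx.oU hq'
        have h3 := big y h1 h2.1 h2.2.1
        have h4 := h2.2.2
        omega
      refine ⟨U, bx.oU, qU, fun X hX hs => ?_, Or.inr out⟩
      rw [full U big X hX hs, miss U out X hs, neg_zero]
  · have cS : IsClosed E.Sg := (isCompact_range w.ok.o0.cf).isClosed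
    obtain ⟨U, hU, oU, xU⟩ := _root_.mem_nhds_iff.1
      (inter_mem (hJ.1 x xV hS) (inter_mem (oV.mem_nhds xV) (cS.isOpen_compl.mem_nhds hS)))
    have val : ∀ y ∈ U, y 2 ≠ 0 → a y = α x := fun y hy h2 => by
      rw [hα y (hU hy).2.1 (hU hy).2.2 h2]
      exact (hU hy).1
    have out : ∀ q', E.f q' ∈ U → E.f q' ∉ closure (E.Z a) := fun q' hq' _ =>
      (hU hq').2.2 ⟨q', rfl⟩
    refine ⟨U, oU, xU, fun X hX hs => ?_, Or.inr out⟩
    rw [miss U out X hs, neg_zero]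
    by_cases h1 : 1 ≤ α x
    · exact full U (fun y hy _ h2 => (val y hy h2).symm ▸ h1) X hX hs
    · rw [congr_Flux mΩ MeasurableSet.empty (dz U X hX hs), setIntegral_empty]
      filter_upwards [ae] with y hy hyU
      refine ⟨fun h2 => h1 ?_, False.elim⟩
      rw [← val y hyU hy.2]
      exact h2

omit [T2Space M] [CompactSpace M] [ConnectedSpace M] [MeasurableSpace M] [BorelSpace M] in
theorem fvI_zero_Flux (E : Dat M) (d : SDiv) (c : ℝ) {X : E3 → E3} (hX : C1c X) {q : M}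
    (hq : E.f q ∉ tsupport X) : E.fvI c X q = 0 := by
  have h1 : fderiv ℝ X (E.f q) = 0 := by
    by_contra h
    exact hq (support_fderiv_subset ℝ (Function.mem_support.2 h))
  rw [Dat.fvI, (d.cont X hX).2.2 _ hq, h1, image_eq_zero_of_notMem_tsupport hq]
  simp

omit [T2Space M] [CompactSpace M] [ConnectedSpace M] [MeasurableSpace M] [BorelSpace M] in
theorem fvI_cont_Flux (E : Dat M) (o : E.Ok0) (d : SDiv) (c : ℝ) {X : E3 → E3} (hX : C1c X) :
    Continuous (E.fvI c X) := by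
  have h1 : Continuous fun q => dv X (E.f q) := (d.cont X hX).1.comp o.cf
  have h2 : Continuous fun q => fderiv ℝ X (E.f q) :=
    (hX.1.continuous_fderiv one_ne_zero).comp o.cf
  have h3 : Continuous fun q => X (E.f q) := hX.1.continuous.comp o.cf
  have h4 := o.cN
  have h5 : Continuous fun q => E.N q 2 := by fun_prop
  exact ((h1.sub ((h2.clm_apply h4).inner h4)).add (continuous_const.mul (h3.inner h4))).add
    (continuous_const.mul ((h1.mul h5).sub ((h2.clm_apply continuous_const).inner h4)))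

omit [T2Space M] [CompactSpace M] [ConnectedSpace M] [MeasurableSpace M] [BorelSpace M] in
theorem fvI_add_Flux (E : Dat M) (d : SDiv) (c : ℝ) {X Y : E3 → E3} (hX : C1c X) (hY : C1c Y)
    (q : M) : E.fvI c (X + Y) q = E.fvI c X q + E.fvI c Y q := by
  have h1 : fderiv ℝ (X + Y) (E.f q) = fderiv ℝ X (E.f q) + fderiv ℝ Y (E.f q) :=
    fderiv_add (hX.1.differentiable one_ne_zero _) (hY.1.differentiable one_ne_zero _)
  simp only [Dat.fvI, d.add X Y hX hY, h1, Pi.add_apply, add_apply,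
    inner_add_left]
  ring

theorem Flux_pf (E : Dat M) (μ : Measure M) (c : ℝ) : SFlux E μ c := by
  intro w a k m g K σ hK
  have := w.mu.fin
  have o := w.ok.o0
  have itg : ∀ u : M → ℝ, Continuous u → ∀ s : Set M, IntegrableOn u s μ := fun u hu s =>
    (hu.integrable_of_hasCompactSupport (HasCompactSupport.of_compactSpace u)).integrableOn
  have oK : IsOpen Kᶜ := hK.cp.isClosed.isOpen_compl
  refine ⟨fun X hX hs => ?_, fun X hX hs => ?_, fun q hq hZ => ?_⟩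
  · have := w.glue Kᶜ C1c (fun X => (∫ y in {y | 1 ≤ a y}, dv X y) +
      ∫ q in E.f ⁻¹' closure (E.Z a), ⟪X (E.f q), E.N q⟫ ∂μ) w.div.smul ?_ ?_ X hX hX.2 hs
    · exact eq_neg_of_add_eq_zero_left this
    · intro X Y hX hY
      have i1 := itg _ ((hX.1.continuous.comp o.cf).inner (𝕜 := ℝ) o.cN)
        (E.f ⁻¹' closure (E.Z a))
      have i2 := itg _ ((hY.1.continuous.comp o.cf).inner (𝕜 := ℝ) o.cN)
        (E.f ⁻¹' closure (E.Z a))
      have e1 := integral_add i1 i2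
      have e2 := integral_add ((w.div.cont X hX).2.1.integrableOn (s := {y | 1 ≤ a y}))
        ((w.div.cont Y hY).2.1.integrableOn (s := {y | 1 ≤ a y}))
      simp only [Function.comp_apply] at e1
      simp only [w.div.add X Y hX hY, Pi.add_apply, inner_add_left]
      rw [e1, e2]
      ring
    · intro x hx
      obtain ⟨U, oU, xU, h1, -⟩ := form_Flux w g hK hx
      exact ⟨U, oU.mem_nhds xU, fun X hX hs => by simp only [h1 X hX hs, neg_add_cancel]⟩
  · refine w.glue Kᶜ C1c (fun X => ∫ q in E.f ⁻¹' closure (E.Z a), E.fvI c X q ∂μ) w.div.smul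
      ?_ ?_ X hX hX.2 hs
    · intro X Y hX hY
      simp only [fvI_add_Flux E w.div c hX hY]
      exact integral_add (itg _ (fvI_cont_Flux E o w.div c hX) _)
        (itg _ (fvI_cont_Flux E o w.div c hY) _)
    · intro x hx
      obtain ⟨U, oU, xU, -, h2⟩ := form_Flux w g hK hx
      by_cases hS : x ∈ E.Sg
      · obtain ⟨p, rfl⟩ := hS
        rcases h2 with h2 | h2
        · obtain ⟨U', hU', h3⟩ := w.fv p
          refine ⟨U ∩ (U' ∩ Kᶜ), inter_mem (oU.mem_nhds xU) (inter_mem hU' (oK.mem_nhds hx)),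
            fun X hX hs => ?_⟩
          show ∫ q in E.f ⁻¹' closure (E.Z a), E.fvI c X q ∂μ = 0
          rw [setIntegral_eq_integral_of_forall_compl_eq_zero (s := E.f ⁻¹' closure (E.Z a))
            fun q hq => fvI_zero_Flux E w.div c hX fun h => hq (h2 q (hs h).1)]
          refine h3 X hX (fun y hy => (hs hy).2.1) fun y hy => ?_
          rw [image_eq_zero_of_notMem_tsupport fun h => (hs h).2.2 (hK.sub hy)]
          rfl
        · exact ⟨U, oU.mem_nhds xU, fun X hX hs => setIntegral_eq_zero_of_forall_eq_zero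
            fun q hq => fvI_zero_Flux E w.div c hX fun h => h2 q (hs h) hq⟩
      · have cS : IsClosed E.Sg := (isCompact_range o.cf).isClosed
        exact ⟨E.Sgᶜ, cS.isOpen_compl.mem_nhds hS, fun X hX hs =>
          setIntegral_eq_zero_of_forall_eq_zero
            fun q _ => fvI_zero_Flux E w.div c hX fun h => hs h ⟨q, rfl⟩⟩
  · obtain ⟨U, oU, xU, -, h2⟩ := form_Flux w g hK hq
    rcases h2 with h2 | h2
    · filter_upwards [o.cf.continuousAt.preimage_mem_nhds (oU.mem_nhds xU)] with q' hq'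
      exact h2 q' hq'
    · exact absurd hZ (h2 q xU)

end Pool.Agent.MP_efb2da_gt.Emb

end

end

section

/-! The zero set stays away from the compact set in the plane. -/

open scoped Manifold ContDiff RealInnerProductSpace Topology ENNReal
open Set MeasureTheory Filter Metric

noncomputable section

namespace Pool.Agent.MP_efb2da_gt.Emb

lemma e3_FluxEnd : e3 0 = 0 ∧ e3 1 = 0 ∧ e3 2 = 1 := by simp [e3]

lemma single_FluxEnd : (EuclideanSpace.single 2 1 : E3) = e3 := by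
  ext i; fin_cases i <;> simp [e3]

lemma inner_FluxEnd (t : ℝ) (n : E3) : ⟪t • e3, n⟫ = t * n 2 := by
  rw [inner3]; simp [e3]

lemma bump_FluxEnd {K Z V : Set E3} {σ : ℝ} (hK : IsCompact K) (hpl : ∀ y ∈ K, y 2 = 0)
    (hside : ∀ y ∈ K, ∀ᶠ x in 𝓝 y, x ∈ Z → 0 < σ * x 2) (hV : IsOpen V) (hKV : K ⊆ V)
    (hcol : ∀ y ∈ V, y 2 = 0 → y ∉ K → y ∉ closure Z) (hZ : ∀ x ∈ Z, x 2 ≠ 0) {y : E3}
    (hy : y ∈ closure Z) (hyK : y ∈ K) :
    ∃ β : E3 → ℝ, ContDiff ℝ 1 β ∧ HasCompactSupport β ∧ (∀ y ∈ K, ∀ᶠ x in 𝓝 y, β x = 1) ∧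
      (∀ x ∈ closure Z, (∀ w, fderiv ℝ β x w = fderiv ℝ β x e3 * w 2) ∧
        σ * fderiv ℝ β x e3 ≤ 0) ∧ ∃ x ∈ Z, fderiv ℝ β x e3 ≠ 0 := by
  obtain ⟨L, hL, hKL, hLV⟩ := exists_compact_between hK hV hKV
  obtain ⟨θ, hθ1, hθ0, -⟩ :=
    exists_contMDiffMap_one_nhds_of_subset_interior (n := 1) 𝓘(ℝ, E3) hK.isClosed hKL
  have hθ : ContDiff ℝ 1 θ := θ.contMDiff.contDiff
  have c2 : ContDiff ℝ 1 fun x : E3 => x 2 := (EuclideanSpace.proj (𝕜 := ℝ) (2 : Fin 3)).contDiff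
  have cc2 : Continuous fun x : E3 => x 2 := c2.continuous
  obtain ⟨P, hP⟩ : ∃ P : E3 → E3, P = fun x => x - x 2 • e3 := ⟨_, rfl⟩
  have hPd : ContDiff ℝ 1 P := hP ▸ contDiff_id.sub (c2.smul contDiff_const)
  have hP2 : ∀ x, P x 2 = 0 := fun x => by simp [hP, e3]
  have hPd' : ∀ x, dist x (P x) = |x 2| := fun x => by
    have : ‖e3‖ = 1 := by rw [← single_FluxEnd]; simp
    simp [hP, norm_smul, this]
  have h1 : ∀ y ∈ K, ∀ᶠ x in 𝓝 y, θ (P x) = 1 := fun y hy => by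
    have e : P y = y := by simp [hP, hpl y hy]
    have := hPd.continuous.tendsto y
    rw [e] at this
    exact this.eventually (hθ1.filter_mono (nhds_le_nhdsSet hy))
  have h0 : ∀ x, P x ∉ L → ∀ᶠ x' in 𝓝 x, θ (P x') = 0 := fun x hx =>
    (hPd.continuous.tendsto x).eventually
      (Filter.mem_of_superset (hL.isClosed.isOpen_compl.mem_nhds hx) fun z hz => hθ0 z hz)
  obtain ⟨δ, hδ, hG⟩ := (hL.inter_right (isClosed_eq cc2 continuous_const :
    IsClosed {x : E3 | x 2 = 0})).exists_cthickening_subset_open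
    (isOpen_interior (s := {x | x ∈ closure Z → (∀ᶠ x' in 𝓝 x, θ (P x') = 1) ∧ 0 ≤ σ * x 2})) (by
      rintro t ⟨htL, ht2⟩
      rw [mem_interior_iff_mem_nhds]
      by_cases htK : t ∈ K
      · filter_upwards [(h1 t htK).eventually_nhds, (hside t htK).eventually_nhds] with x hx hx' hc
        refine ⟨hx, ?_⟩
        have hcl : IsClosed {z : E3 | 0 ≤ σ * z 2} :=
          isClosed_le continuous_const (continuous_const.mul cc2)
        exact hcl.mem_of_frequently_of_tendsto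
          (((mem_closure_iff_frequently.1 hc).and_eventually hx').mono fun z hz => (hz.2 hz.1).le)
          tendsto_id
      · filter_upwards [isClosed_closure.isOpen_compl.mem_nhds (hcol t (hLV htL) ht2 htK)] with
          x hx hc using absurd hc hx)
  have sT : Differentiable ℝ Real.smoothTransition :=
    (Real.smoothTransition.contDiff (n := 1)).differentiable (by simp)
  obtain ⟨u, hu, hu'⟩ := exists_deriv_eq_slope Real.smoothTransition one_pos
    sT.continuous.continuousOn sT.differentiableOn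
  rw [Real.smoothTransition.one, Real.smoothTransition.zero] at hu'
  have hsm : ∀ᶠ x in 𝓝 y, 2 * x 2 ^ 2 < δ ^ 2 :=
    (continuous_const.mul (cc2.pow 2)).continuousAt.eventually_lt continuousAt_const
      (by simpa [hpl y hyK] using pow_pos hδ 2)
  obtain ⟨x0, hx0, hx1, hx2⟩ := ((mem_closure_iff_frequently.1 hy).and_eventually
    ((h1 y hyK).eventually_nhds.and hsm)).exists
  have hx3 : 0 < x0 2 ^ 2 := by have := hZ x0 hx0; positivity
  obtain ⟨l, hl⟩ : ∃ l : ℝ, l = (2 - u) / x0 2 ^ 2 := ⟨_, rfl⟩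
  have hl1 : l * x0 2 ^ 2 = 2 - u := by rw [hl]; exact div_mul_cancel₀ _ hx3.ne'
  have hl0 : 0 < l := by rw [hl]; exact div_pos (by linarith [hu.2]) hx3
  have hl2 : 2 ≤ l * δ ^ 2 := by nlinarith [hu.2]
  obtain ⟨β, hβ⟩ : ∃ β : E3 → ℝ,
    β = fun x => θ (P x) * Real.smoothTransition (2 - l * x 2 ^ 2) := ⟨_, rfl⟩
  have hz : ∀ x : E3, δ < |x 2| → β x = 0 := fun x hx => by
    have h3 : δ ^ 2 < x 2 ^ 2 := by rw [← sq_abs (x 2)]; gcongr
    rw [hβ]
    simp only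
    rw [Real.smoothTransition.zero_of_nonpos (by nlinarith), mul_zero]
  have hd : ∀ x : E3, (∀ᶠ x' in 𝓝 x, θ (P x') = 1) → ∀ w, fderiv ℝ β x w =
      deriv Real.smoothTransition (2 - l * x 2 ^ 2) * (-(l * (2 * x 2))) * w 2 := by
    intro x hx w
    have e : β =ᶠ[𝓝 x] fun x => Real.smoothTransition (2 - l * x 2 ^ 2) :=
      hx.mono fun z hz => by rw [hβ]; simp only [hz, one_mul]
    have d1 : HasDerivAt (fun s : ℝ => 2 - l * s ^ 2) (-(l * (2 * x 2))) (x 2) := by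
      simpa using ((hasDerivAt_pow 2 (x 2)).const_mul l).const_sub 2
    have d2 := (sT (2 - l * x 2 ^ 2)).hasDerivAt.comp (x 2) d1
    have d3 := d2.comp_hasFDerivAt x (EuclideanSpace.proj (𝕜 := ℝ) (2 : Fin 3)).hasFDerivAt
    rw [e.fderiv_eq]
    exact (congrArg (fun A : E3 →L[ℝ] ℝ => A w) d3.fderiv).trans (by simp)
  have hz' : ∀ x : E3, (∀ᶠ x' in 𝓝 x, β x' = 0) → fderiv ℝ β x = 0 := fun x hx => by
    rw [Filter.EventuallyEq.fderiv_eq (f := fun _ => 0) hx]; simp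
  refine ⟨β, ?_, ?_, fun y hy => ?_, fun x hx => ?_, x0, hx0, ?_⟩
  · rw [hβ]
    exact (hθ.comp hPd).mul ((Real.smoothTransition.contDiff (n := 1)).comp
      (contDiff_const.sub (contDiff_const.mul (c2.pow 2))))
  · refine HasCompactSupport.intro (hL.cthickening (r := δ)) fun x hx => ?_
    by_cases h : δ < |x 2|
    · exact hz x h
    · have : P x ∉ L := fun h' =>
        hx (mem_cthickening_of_dist_le x _ δ L h' ((hPd' x).trans_le (not_lt.1 h)))
      rw [hβ]; simp only [hθ0 _ this, zero_mul]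
  · have h3 : ∀ᶠ x in 𝓝 y, l * x 2 ^ 2 < 1 :=
      (continuous_const.mul (cc2.pow 2)).continuousAt.eventually_lt continuousAt_const
        (by simp [hpl y hy])
    filter_upwards [h1 y hy, h3] with x h4 h5
    rw [hβ]
    simp only [h4, one_mul]
    exact Real.smoothTransition.one_of_one_le (by linarith)
  · by_cases h : δ < |x 2|
    · rw [hz' x ((continuousAt_const.eventually_lt cc2.abs.continuousAt h).mono hz)]; simp
    by_cases h' : P x ∈ L
    · obtain ⟨h3, h4⟩ := interior_subset (hG (mem_cthickening_of_dist_le x _ δ _ ⟨h', hP2 x⟩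
        ((hPd' x).trans_le (not_lt.1 h)))) hx
      refine ⟨fun w => by rw [hd x h3, hd x h3, e3_FluxEnd.2.2, mul_one], ?_⟩
      rw [hd x h3, e3_FluxEnd.2.2]
      have h5 : 0 ≤ deriv Real.smoothTransition (2 - l * x 2 ^ 2) :=
        Real.smoothTransition.monotone.deriv_nonneg
      have h6 := mul_nonneg (mul_nonneg h5 hl0.le) h4
      linarith
    · rw [hz' x ((h0 x h').mono fun z hz => by rw [hβ]; simp only [hz, zero_mul])]; simp
  · rw [hd x0 hx1, hl1, sub_sub_cancel, hu', e3_FluxEnd.2.2]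
    simp [hZ x0 hx0, hl0.ne']

lemma fd_FluxEnd {φ : E3 → ℝ} {x : E3} (h : DifferentiableAt ℝ φ x) (w : E3) :
    fderiv ℝ (fun z => φ z • e3) x w = fderiv ℝ φ x w • e3 := by
  rw [fderiv_smul_const h]; rfl

lemma dv_FluxEnd {φ : E3 → ℝ} {x : E3} (h : DifferentiableAt ℝ φ x) :
    dv (fun z => φ z • e3) x = fderiv ℝ φ x e3 := by
  simp only [dv, pD, fd_FluxEnd h, single_FluxEnd, PiLp.smul_apply, e3_FluxEnd.1, e3_FluxEnd.2.1,
    e3_FluxEnd.2.2, smul_eq_mul]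
  ring

variable {M : Type} [TopologicalSpace M] [T2Space M] [CompactSpace M] [ConnectedSpace M]
  [MeasurableSpace M] [BorelSpace M]

theorem FluxEnd_pf (E : Dat M) (μ : Measure M) (c : ℝ) : SFluxEnd E μ c := by
  intro hW a k m hG K σ hK hF
  rw [Set.disjoint_left]
  intro y hy hyK
  obtain ⟨V, hV, hKV, hcol⟩ := hK.col
  obtain ⟨β, hβ, hβc, hβ1, hβd, x0, hx0, hx0'⟩ :=
    bump_FluxEnd hK.cp hK.pl hK.side hV hKV hcol (fun x hx => hx.2.1) hy hyK
  have hfin := hW.mu.fin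
  have cf := hW.ok.o0.cf
  have cN := hW.ok.o0.cN
  have cc2 : Continuous fun x : E3 => x 2 := (EuclideanSpace.proj (𝕜 := ℝ) (2 : Fin 3)).continuous
  have hSg : IsCompact E.Sg := isCompact_range cf
  obtain ⟨R1, hR1⟩ := hG.g0.far
  obtain ⟨R, hR, hR2⟩ := hSg.isBounded.subset_ball_lt R1 0
  obtain ⟨g, hg, hgc, hg1⟩ := hW.div.cut R
  have hg' : ContDiff ℝ 1 g := hg.of_le (by simp)
  have hφ : ContDiff ℝ 1 fun x => g x * (1 - β x) := hg'.mul (contDiff_const.sub hβ)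
  have hX : C1c fun x => (g x * (1 - β x)) • e3 :=
    ⟨hφ.smul contDiff_const, hgc.mul_right.smul_right⟩
  have hB : C1c fun x => β x • e3 := ⟨hβ.smul contDiff_const, hβc.smul_right⟩
  have hXs : tsupport (fun x => (g x * (1 - β x)) • e3) ⊆ Kᶜ := by
    intro x hx hxK
    refine notMem_tsupport_iff_eventuallyEq.2 ((hβ1 x hxK).mono fun z hz => ?_) hx
    simp [hz]
  have dβ : Differentiable ℝ β := hβ.differentiable (by simp)
  obtain ⟨ρ, hρ⟩ : ∃ ρ : E3 → ℝ, ρ = fun x => fderiv ℝ β x e3 := ⟨_, rfl⟩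
  have hρ' : ∀ x, fderiv ℝ β x e3 = ρ x := fun x => by rw [hρ]
  have hdv : dv (fun x => β x • e3) = ρ := funext fun x => (dv_FluxEnd (dβ x)).trans (hρ' x)
  obtain ⟨cρ, iρ, -⟩ := hW.div.cont _ hB
  have zρ := hW.div.all _ hB
  rw [hdv] at cρ iρ zρ
  have hfd : ∀ x ∈ ball (0 : E3) R, fderiv ℝ (fun x => g x * (1 - β x)) x = -fderiv ℝ β x := by
    intro x hx
    have e : (fun x => g x * (1 - β x)) =ᶠ[𝓝 x] fun x => 1 - β x :=
      Filter.mem_of_superset (isOpen_ball.mem_nhds hx) fun z hz => by simp [hg1 z hz]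
    rw [e.fderiv_eq, fderiv_const_sub]
  have dφ := hφ.differentiable (by simp)
  have hdX : ∀ x ∈ ball (0 : E3) R, dv (fun x => (g x * (1 - β x)) • e3) x = -ρ x := by
    intro x hx
    rw [dv_FluxEnd (dφ x), hfd x hx, ← hρ']; rfl
  have oZ : IsOpen (E.Z a) := by
    rw [isOpen_iff_mem_nhds]
    rintro x ⟨h1, h2, h3⟩
    have h4 : ∀ᶠ z in 𝓝 x, a z = a x := by
      rcases lt_or_gt_of_ne h2 with h | h
      · exact hG.g0.dn.1 x h h1
      · exact hG.g0.up.1 x h h1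
    filter_upwards [h4, hSg.isClosed.isOpen_compl.mem_nhds h1, cc2.continuousAt.eventually_ne h2]
      with z h5 h6 h7 using ⟨h6, h7, h5.trans h3⟩
  have mA : MeasurableSet {x | 1 ≤ a x} := hG.ms measurableSet_Ici
  have eZ : ({x | 1 ≤ a x}ᶜ : Set E3) =ᵐ[volume] E.Z a := by
    have n1 : ∀ᵐ x, x ∉ E.Sg := measure_eq_zero_iff_ae_notMem.1 hW.null
    have n2 := measure_eq_zero_iff_ae_notMem.1 hW.div.plane
    filter_upwards [n1, n2] with x h1 h2
    have h3 := hG.nn x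
    refine propext ⟨fun h => ⟨h1, h2, ?_⟩, fun h h' => ?_⟩
    · have : ¬ 1 ≤ a x := h
      omega
    · have h4 : 1 ≤ a x := h'
      have h5 := h.2.2
      omega
  have i1 : ∫ x in {x | 1 ≤ a x}, dv (fun x => (g x * (1 - β x)) • e3) x = ∫ x in E.Z a, ρ x := by
    rw [setIntegral_congr_fun mA (g := fun x => -ρ x) fun x hx => hdX x (by
      by_contra h
      have h1 : 1 ≤ a x := hx
      rw [hR1 x (hR.le.trans (by simpa using h))] at h1
      omega), integral_neg, ← setIntegral_congr_set eZ]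
    have := integral_add_compl mA iρ
    linarith
  have mS : MeasurableSet (E.f ⁻¹' closure (E.Z a)) :=
    (isClosed_closure.preimage cf).measurableSet
  have hb : ∀ q, E.f q ∈ ball (0 : E3) R := fun q => hR2 ⟨q, rfl⟩
  have i2 := hF.amb _ hX hXs
  have i3 := hF.fv _ hX hXs
  have cN2 : Continuous fun q => E.N q 2 := cc2.comp cN
  have c1 : Continuous fun q => (1 - β (E.f q)) * E.N q 2 :=
    (continuous_const.sub (hβ.continuous.comp cf)).mul cN2
  have c2 : Continuous fun q => ρ (E.f q) * (1 - E.N q 2 ^ 2) :=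
    (cρ.comp cf).mul (continuous_const.sub (cN2.pow 2))
  have j1 := (c1.integrable_of_hasCompactSupport (μ := μ)
    (HasCompactSupport.of_compactSpace _)).integrableOn (s := E.f ⁻¹' closure (E.Z a))
  have j2 := (c2.integrable_of_hasCompactSupport (μ := μ)
    (HasCompactSupport.of_compactSpace _)).integrableOn (s := E.f ⁻¹' closure (E.Z a))
  simp only [inner_FluxEnd, hg1 _ (hb _), one_mul] at i2
  rw [setIntegral_congr_fun mS (g := fun q => 2 * E.H * ((1 - β (E.f q)) * E.N q 2) -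
    ρ (E.f q) * (1 - E.N q 2 ^ 2)) fun q hq => by
      simp only [Dat.fvI, hdX _ (hb q), fd_FluxEnd (dφ _), hfd _ (hb q), inner_FluxEnd,
        hg1 _ (hb q), neg_apply]
      rw [(hβd _ hq).1 (E.N q), hρ']
      ring, integral_sub (j1.const_mul _) j2, integral_const_mul] at i3
  have s1 : σ * ∫ q in E.f ⁻¹' closure (E.Z a), ρ (E.f q) * (1 - E.N q 2 ^ 2) ∂μ ≤ 0 := by
    rw [← integral_const_mul]
    refine setIntegral_nonpos mS fun q hq => ?_
    have h1 := (hβd _ hq).2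
    have h2 : E.N q 2 ^ 2 ≤ 1 := by
      have h3 := PiLp.norm_apply_le (E.N q) 2
      rw [hW.ok.o0.un q, Real.norm_eq_abs] at h3
      exact (sq_le_one_iff_abs_le_one _).2 h3
    rw [hρ'] at h1
    rw [← mul_assoc]
    exact mul_nonpos_of_nonpos_of_nonneg h1 (by linarith)
  have hn : ∀ x ∈ E.Z a, 0 ≤ -σ * ρ x := fun x hx => by
    have h1 := (hβd _ (subset_closure hx)).2
    rw [hρ'] at h1
    linarith
  have s2 : ∫ x in E.Z a, -σ * ρ x = 0 := by
    refine le_antisymm ?_ (setIntegral_nonneg oZ.measurableSet hn)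
    rw [integral_const_mul, ← i1, i2]
    have hH := hW.em.pos
    rw [← sub_eq_zero.1 i3] at s1
    nlinarith
  have s3 := (setIntegral_eq_zero_iff_of_nonneg_ae
    ((ae_restrict_iff' oZ.measurableSet).2 (Eventually.of_forall hn))
    (iρ.const_mul _).integrableOn).1 s2
  have s4 := Measure.eqOn_open_of_ae_eq s3 oZ (continuous_const.mul cρ).continuousOn
    continuousOn_const hx0
  rw [hρ'] at hx0'
  rcases hK.sg with h | h <;> simp [h, hx0'] at s4

end Pool.Agent.MP_efb2da_gt.Emb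

end

end

section

open scoped Manifold ContDiff RealInnerProductSpace Topology ENNReal
open Set MeasureTheory Filter Metric

noncomputable section

namespace Pool.Agent.MP_efb2da_gt.Emb

theorem e3_M0 (x : E3) (s : ℝ) : (x + s • e3) 2 = x 2 + s := by simp [e3]

theorem tend_M0 (x w : E3) : Tendsto (fun s : ℝ => x + s • w) (𝓝[>] 0) (𝓝 x) := by
  have h : Continuous fun s : ℝ => x + s • w := by fun_prop
  have := h.tendsto 0
  rw [zero_smul, add_zero] at this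
  exact this.mono_left nhdsWithin_le_nhds

theorem coord_M0 (x : E3) (i : Fin 3) : x i ≤ ‖x‖ :=
  (le_abs_self _).trans (by simpa using PiLp.norm_apply_le x i)

theorem out_M0 {X : E3 → E3} {x : E3} (h : x ∉ tsupport X) :
    X x = 0 ∧ fderiv ℝ X x = 0 ∧ dv X x = 0 := by
  have h1 : fderiv ℝ X x = 0 := fderiv_of_notMem_tsupport ℝ h
  exact ⟨image_eq_zero_of_notMem_tsupport h, h1, by simp [dv, pD, h1]⟩

variable {M : Type} [TopologicalSpace M] [T2Space M] [CompactSpace M] [ConnectedSpace M]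
  [MeasurableSpace M] [BorelSpace M]

theorem M0_pf (E : Dat M) (μ : Measure M) (c : ℝ) : SM0 E μ c := by
  intro hW a k m hG
  obtain ⟨p, hp⟩ := hW.em.e0.ne
  obtain ⟨U, A, B, hpU, -, hB, -, hA, -, hL⟩ := hG.edge p hp univ univ_mem
  obtain ⟨q0, hq0, hq0U⟩ := hB.ex
  have cf := hW.ok.o0.cf
  refine ⟨fun K σ hK hF hd => ?_, fun hm => ?_⟩
  · have c2 : Continuous fun q => E.f q 2 := by fun_prop
    obtain ⟨q, -, hq⟩ := isCompact_univ.exists_isMaxOn ⟨p, mem_univ p⟩ c2.continuousOn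
    have hq' : ∀ q', E.f q' 2 ≤ E.f q 2 := fun q' => hq (mem_univ q')
    have h0 : 0 < E.f q 2 := lt_of_lt_of_le
      (lt_of_le_of_ne (hB.sg q0 hq0U).1 fun h => hq0 ((hB.sg q0 hq0U).2 h.symm)) (hq' q0)
    have hS : ∀ x : E3, E.f q 2 < x 2 → x ∉ E.Sg := by
      rintro _ h ⟨q', rfl⟩
      exact absurd (hq' q') (not_le.2 h)
    have hcv : Convex ℝ {x : E3 | E.f q 2 < x 2} :=
      convex_halfSpace_gt ⟨fun _ _ => rfl, fun _ _ => rfl⟩ _
    have hca : ContinuousOn a {x : E3 | E.f q 2 < x 2} := fun x hx =>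
      (continuousAt_const.congr (EventuallyEq.symm
        (hG.g0.up.1 x (h0.trans hx) (hS x hx)))).continuousWithinAt
    obtain ⟨R, hR⟩ := hG.g0.far
    have hz : ∀ x : E3, E.f q 2 < x 2 → a x = 0 := fun x hx => by
      have h1 : E.f q 2 < (E.f q + (|R| + 1) • e3) 2 := by
        rw [e3_M0]
        linarith [abs_nonneg R]
      rw [hcv.isPreconnected.constant hca hx h1]
      refine hR _ (le_trans ?_ (coord_M0 _ 2))
      rw [e3_M0]
      linarith [le_abs_self R]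
    have hqS : E.f q ∈ closure (E.Z a) := by
      refine mem_closure_of_tendsto (tend_M0 (E.f q) e3) ?_
      filter_upwards [self_mem_nhdsWithin] with s hs
      have h1 : E.f q 2 < (E.f q + s • e3) 2 := by
        rw [e3_M0]
        exact lt_add_of_pos_right _ hs
      exact ⟨hS _ h1, (h0.trans h1).ne', hz _ h1⟩
    have hcl : IsClopen (E.f ⁻¹' closure (E.Z a)) :=
      ⟨isClosed_closure.preimage cf, isOpen_iff_mem_nhds.2 fun q' hq' =>
        hF.opn q' (disjoint_left.1 hd hq') hq'⟩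
    have hu := hcl.eq_univ ⟨q, hqS⟩
    have hp' : p ∈ E.f ⁻¹' closure (E.Z a) := hu ▸ mem_univ p
    exact disjoint_left.1 hd hp' (hK.sub ⟨p, hp, rfl⟩)
  · have hm0 : 0 ≤ m := by
      obtain ⟨s, h1, h2⟩ := (((tend_M0 (E.f p) (-e3)).eventually (hB.oU.mem_nhds hpU)).and
        self_mem_nhdsWithin).exists
      rw [← hL _ h1 ?_]
      · exact hG.nn _
      · rw [smul_neg, ← neg_smul, e3_M0, hW.em.e0.bdP p hp]
        simpa using h2
    have hk0 : 0 ≤ k := by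
      obtain ⟨s, h1⟩ := ((hB.dir q0 hq0U (-E.N q0) (fun h => (hq0 h).elim)).2 (by
        rw [inner_neg_left, real_inner_self_eq_norm_sq, hW.ok.o0.un]
        norm_num)).exists
      rw [← hA _ h1]
      exact hG.nn _
    obtain ⟨R, hR⟩ := hG.rel.far
    have h1 : (!₂[R, 0, 0] : E3) 2 = 0 := by simp
    have h2 := hR _ h1 (by simpa using coord_M0 !₂[R, 0, 0] 0)
    have h3 : (!₂[R, 0, 0] : E3) ∉ E.C := by
      obtain ⟨r, hr, -, hd, -⟩ := h2
      exact disjoint_left.1 hd (mem_ball_self hr)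
    rcases hG.rel.two _ h1 h3 with h | h
    · have := hG.rel.un _ _ _ h1 h2 h
      omega
    · have := hG.rel.un _ _ _ h1 h2 h
      omega

theorem Mink_pf (E : Dat M) (μ : Measure M) (c : ℝ) : SMink E μ c := by
  intro hW
  have cf := hW.ok.o0.cf
  have cN := hW.ok.o0.cN
  have := hW.mu.fin
  have hint : ∀ X, C1c X → Integrable (E.fvI c X) μ := fun X hX => by
    have c1 := (hW.div.cont X hX).1
    have c2 : Continuous (fderiv ℝ X) := hX.1.continuous_fderiv one_ne_zero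
    have c3 := hX.1.continuous
    have c4 : Continuous (E.fvI c X) := by
      unfold Dat.fvI
      fun_prop
    exact c4.integrable_of_hasCompactSupport (HasCompactSupport.of_compactSpace _)
  have hcS : IsCompact E.Sg := isCompact_range cf
  have key := hW.glue univ (fun X => C1c X ∧ Tg X) (fun X => ∫ q, E.fvI c X q ∂μ)
    (fun X hX g hg => ⟨hW.div.smul X hX.1 g hg, fun x hx => by simp [hX.2 x hx]⟩)
    (fun X Y hX hY => by
      rw [← integral_add (hint X hX.1) (hint Y hY.1)]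
      refine integral_congr_ae (Eventually.of_forall fun q => ?_)
      have e := fderiv_add (hX.1.1.differentiable one_ne_zero (E.f q))
        (hY.1.1.differentiable one_ne_zero (E.f q))
      simp only [Dat.fvI, hW.div.add X Y hX.1 hY.1, e, Pi.add_apply,
        ContinuousLinearMap.add_apply, inner_add_left]
      ring)
    (fun x _ => by
      by_cases hx : x ∈ E.Sg
      · obtain ⟨p, rfl⟩ := hx
        obtain ⟨U, hU, h⟩ := hW.fv p
        refine ⟨U, hU, fun X hX hs => h X hX.1 hs ?_⟩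
        rintro _ ⟨p', hp', rfl⟩
        exact hX.2 _ (hW.em.e0.bdP p' hp')
      · refine ⟨E.Sgᶜ, hcS.isClosed.isOpen_compl.mem_nhds hx, fun X _ hs => ?_⟩
        have h0 : ∀ q, E.fvI c X q = 0 := fun q => by
          obtain ⟨h1, h2, h3⟩ := out_M0 (X := X) (x := E.f q) fun h => hs h ⟨q, rfl⟩
          simp [Dat.fvI, h1, h2, h3]
        simp [h0])
  obtain ⟨R, hR⟩ := hcS.isBounded.subset_ball (0 : E3)
  obtain ⟨g, g1, g2, g3⟩ := hW.div.cut R
  have hs : HasCompactSupport fun x : E3 => g x • x := g2.smul_right (f' := fun x : E3 => x)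
  have h := key (fun x => g x • x) ⟨⟨(g1.of_le (by norm_num)).smul contDiff_id, hs⟩,
    fun x hx => by simp [hx]⟩ hs (subset_univ _)
  have e : ∀ q, E.fvI c (fun x => g x • x) q =
      2 * (1 + E.H * ⟪E.f q, E.N q⟫ + c * E.N q 2) := fun q => by
    have hq : E.f q ∈ ball (0 : E3) R := hR ⟨q, rfl⟩
    have e1 : (fun x : E3 => g x • x) =ᶠ[𝓝 (E.f q)] id := by
      filter_upwards [isOpen_ball.mem_nhds hq] with x hx
      rw [g3 x hx, one_smul, id]
    have e2 : fderiv ℝ (fun x : E3 => g x • x) (E.f q) = ContinuousLinearMap.id ℝ E3 := by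
      rw [e1.fderiv_eq, fderiv_id]
    have e4 : dv (fun x : E3 => g x • x) (E.f q) = 3 := by
      simp [dv, pD, e2]
      norm_num
    have e5 : ⟪e3, E.N q⟫ = E.N q 2 := by simp [inner3, e3]
    simp only [Dat.fvI, e2, e4, ContinuousLinearMap.id_apply, g3 _ hq, one_smul, e5,
      real_inner_self_eq_norm_sq, hW.ok.o0.un]
    ring
  simp only [e] at h
  rw [integral_const_mul] at h
  linarith

end Pool.Agent.MP_efb2da_gt.Emb

end

end

section

/-! The divergence theorem for the function `a`. -/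

open scoped Manifold ContDiff RealInnerProductSpace Topology ENNReal
open Set MeasureTheory Filter Metric

noncomputable section

namespace Pool.Agent.MP_efb2da_gt.Emb

variable {M : Type} [TopologicalSpace M] [T2Space M] [CompactSpace M] [ConnectedSpace M] [MeasurableSpace M] [BorelSpace M]

omit [T2Space M] [ConnectedSpace M] [BorelSpace M] in
theorem jmp_Vol (E : Dat M) (μ : Measure M) (c : ℝ) (hW : E.W μ c) (α : E3 → ℤ) (V : Set E3)
    (hJ : E.IsJ α V) (hV : IsOpen V) (x : E3) (hx : x ∈ V) :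
    ∃ U ∈ 𝓝 x, U ⊆ V ∧ ∃ B : Set E3, IsOpen B ∧ E.AD μ U B True ∧ ∃ l : ℤ,
      ∀ y ∈ U, y ∉ E.Sg → (y ∈ B → α y = l + 1) ∧ (y ∉ B → α y = l) := by
  by_cases hs : x ∈ E.Sg
  · obtain ⟨q, rfl⟩ := hs
    obtain ⟨l, hl⟩ := hJ.2 q hx
    obtain ⟨U, A, B, h1, -, h3, h4, h5, h6, h7⟩ := hW.shr α q l V hl univ univ_mem
    refine ⟨U, h4.oU.mem_nhds h1, h3, B, h4.oB, fun X hX hU _ => h5 X hX hU False.elim, l,
      fun y hy hy' => ⟨h7 y, fun hB => h6 y ?_⟩⟩
    have : y ∈ A ∪ B := h4.un ▸ ⟨hy, hy'⟩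
    exact this.resolve_right hB
  · have hc : IsClosed E.Sg := (isCompact_range hW.ok.o0.cf).isClosed
    refine ⟨{y | α y = α x} ∩ (V ∩ E.Sgᶜ), inter_mem (hJ.1 x hx hs)
      ((hV.inter hc.isOpen_compl).mem_nhds ⟨hx, hs⟩), fun y hy => hy.2.1, ∅, isOpen_empty,
      fun X _ hU _ => ?_, α x, fun y hy _ => ⟨False.elim, fun _ => hy.1⟩⟩
    have : ∀ q, X (E.f q) = 0 := fun q =>
      image_eq_zero_of_notMem_tsupport fun h => (hU h).2.2 ⟨q, rfl⟩
    simp [this]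

omit [T2Space M] [ConnectedSpace M] [BorelSpace M] in
theorem loc_Vol (E : Dat M) (μ : Measure M) (c : ℝ) (hW : E.W μ c) (a : E3 → ℤ)
    (hG : E.Good1 μ a 0 0) (x : E3) :
    ∃ U ∈ 𝓝 x, ∃ B : Set E3, IsOpen B ∧ E.AD μ U B True ∧ ∃ l d : ℤ,
      ∀ y ∈ U, y ∉ E.Sg → (0 < y 2 → (y ∈ B → a y = l + 1 + d) ∧ (y ∉ B → a y = l + d)) ∧
        (y 2 < 0 → (y ∈ B → a y = l + 1) ∧ (y ∉ B → a y = l)) := by
  have c2 : Continuous fun y : E3 => y 2 := by fun_prop
  rcases lt_trichotomy (x 2) 0 with h | h | h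
  · obtain ⟨U, h1, -, B, h3, h4, l, h5⟩ :=
      jmp_Vol E μ c hW a _ hG.g0.dn (isOpen_lt c2 continuous_const) x h
    exact ⟨U, h1, B, h3, h4, l, 0, fun y hy hy' =>
      ⟨fun _ => by simpa using h5 y hy hy', fun _ => h5 y hy hy'⟩⟩
  · by_cases hC : x ∈ E.C
    · obtain ⟨p, hp, rfl⟩ := hC
      obtain ⟨U, A, B, h1, -, h3, h4, h5, h6, h7⟩ := hG.edge p hp univ univ_mem
      refine ⟨U, h3.oU.mem_nhds h1, B, h3.oB, h4, 0, 0, fun y hy hy' =>
        ⟨fun hz => ⟨fun hB => by simpa using h6 y hB, fun hB => ?_⟩,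
          fun hz => ⟨fun hB => ?_, fun _ => h7 y hy hz⟩⟩⟩
      · have : y ∈ A ∪ B := h3.un ▸ ⟨⟨hy, hz⟩, hy'⟩
        simpa using h5 y (this.resolve_right hB)
      · have : y ∈ (U ∩ {x | 0 < x 2}) \ E.Sg := h3.un ▸ Or.inr hB
        exact absurd hz (not_lt.2 (le_of_lt this.1.2))
    · obtain ⟨d, r, hr, α, -, hα, hd⟩ : ∃ d, E.Rel a x d :=
        (hG.rel.two x h hC).elim (fun h => ⟨_, h⟩) fun h => ⟨_, h⟩
      obtain ⟨U, h1, h2, B, h3, h4, l, h5⟩ :=
        jmp_Vol E μ c hW α _ hα isOpen_ball x (mem_ball_self hr)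
      refine ⟨U, h1, B, h3, h4, l, d, fun y hy hy' => ⟨fun hz => ?_, fun hz => ?_⟩⟩
      · rw [(hd y (h2 hy) hy').1 hz]
        exact ⟨fun hB => by rw [(h5 y hy hy').1 hB], fun hB => by rw [(h5 y hy hy').2 hB]⟩
      · rw [(hd y (h2 hy) hy').2 hz]
        exact h5 y hy hy'
  · obtain ⟨U, h1, -, B, h3, h4, l, h5⟩ :=
      jmp_Vol E μ c hW a _ hG.g0.up (isOpen_lt continuous_const c2) x h
    exact ⟨U, h1, B, h3, h4, l, 0, fun y hy hy' =>
      ⟨fun _ => by simpa using h5 y hy hy', fun _ => h5 y hy hy'⟩⟩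

omit [T2Space M] [ConnectedSpace M] [BorelSpace M] in
theorem zero_Vol (E : Dat M) (μ : Measure M) (c : ℝ) (hW : E.W μ c) (a : E3 → ℤ)
    (hG : E.Good1 μ a 0 0) (x : E3) : ∃ U ∈ 𝓝 x, ∀ X, C1c X ∧ Tg X → tsupport X ⊆ U →
      (∫ y, (a y : ℝ) * dv X y) + ∫ q, ⟪X (E.f q), E.N q⟫ ∂μ = 0 := by
  obtain ⟨U, hU, B, hB, hAD, l, d, h⟩ := loc_Vol E μ c hW a hG x
  refine ⟨U, hU, fun X hX hs => ?_⟩
  have c2 : Continuous fun y : E3 => y 2 := by fun_prop
  have mH : MeasurableSet {y : E3 | 0 < y 2} := (isOpen_lt continuous_const c2).measurableSet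
  obtain ⟨-, hi, h0⟩ := hW.div.cont X hX.1
  have e : (fun y => (a y : ℝ) * dv X y) =ᵐ[volume] fun y => (l * dv X y + B.indicator (dv X) y) +
      d * {y : E3 | 0 < y 2}.indicator (dv X) y := by
    filter_upwards [measure_eq_zero_iff_ae_notMem.1 hW.null,
      measure_eq_zero_iff_ae_notMem.1 hW.div.plane] with y h1 h2
    by_cases hy : y ∈ U
    · rcases lt_or_gt_of_ne (show y 2 ≠ 0 from h2) with hz | hz
      · rw [indicator_of_notMem (show y ∉ {y : E3 | 0 < y 2} from not_lt.2 hz.le)]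
        by_cases hb : y ∈ B
        · rw [indicator_of_mem hb, ((h y hy h1).2 hz).1 hb]; push_cast; ring
        · rw [indicator_of_notMem hb, ((h y hy h1).2 hz).2 hb]; ring
      · rw [indicator_of_mem (show y ∈ {y : E3 | 0 < y 2} from hz)]
        by_cases hb : y ∈ B
        · rw [indicator_of_mem hb, ((h y hy h1).1 hz).1 hb]; push_cast; ring
        · rw [indicator_of_notMem hb, ((h y hy h1).1 hz).2 hb]; push_cast; ring
    · have := h0 y fun h => hy (hs h)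
      simp [indicator, this]
  have j : Integrable fun y => l * dv X y + B.indicator (dv X) y :=
    (hi.const_mul _).add (hi.indicator hB.measurableSet)
  rw [integral_congr_ae e, integral_add j ((hi.indicator mH).const_mul _),
    integral_add (hi.const_mul _) (hi.indicator hB.measurableSet),
    integral_const_mul, integral_const_mul, integral_indicator hB.measurableSet,
    integral_indicator mH, hW.div.all X hX.1, hW.div.half X hX.1 hX.2,
    hAD X hX.1 hs fun _ => hX.2]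
  ring

theorem Vol_pf (E : Dat M) (μ : Measure M) (c : ℝ) : SVol E μ c := by
  intro hW a hG
  have := hW.mu.fin
  obtain ⟨b, hb⟩ := hG.bdd
  have i1 : ∀ X, C1c X → Integrable fun y => (a y : ℝ) * dv X y := fun X hX =>
    (hW.div.cont X hX).2.1.bdd_mul (c := b)
      ((measurable_of_countable (fun n : ℤ => (n : ℝ))).comp hG.ms).aestronglyMeasurable
      (Eventually.of_forall fun y => by rw [Real.norm_eq_abs]; exact_mod_cast hb y)
  have i2 : ∀ X, C1c X → Integrable (fun q => ⟪X (E.f q), E.N q⟫) μ := fun X hX =>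
    ((hX.1.continuous.comp hW.ok.o0.cf).inner hW.ok.o0.cN).integrable_of_hasCompactSupport
      (HasCompactSupport.of_compactSpace _)
  have key := hW.glue univ (fun X => C1c X ∧ Tg X)
    (fun X => (∫ y, (a y : ℝ) * dv X y) + ∫ q, ⟪X (E.f q), E.N q⟫ ∂μ)
    (fun X hX g hg => ⟨hW.div.smul X hX.1 g hg, fun x hx => by simp [hX.2 x hx]⟩)
    (fun X Y hX hY => by
      simp only [hW.div.add X Y hX.1 hY.1, Pi.add_apply, mul_add, inner_add_left]
      rw [integral_add (i1 X hX.1) (i1 Y hY.1), integral_add (i2 X hX.1) (i2 Y hY.1)]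
      ring)
    (fun x _ => zero_Vol E μ c hW a hG x)
  obtain ⟨R₁, h₁⟩ := hG.g0.far
  obtain ⟨R₂, h₂⟩ := (isCompact_range hW.ok.o0.cf).isBounded.subset_ball (0 : E3)
  obtain ⟨g, g1, g2, g3⟩ := hW.div.cut (max R₁ R₂)
  have hX : C1c fun x => g x • x :=
    ⟨(g1.of_le (by exact_mod_cast le_top)).smul contDiff_id, g2.smul_right⟩
  have e1 : (fun y => (a y : ℝ) * dv (fun x => g x • x) y) = fun y => 3 * (a y : ℝ) := by
    funext y
    by_cases hy : y ∈ ball (0 : E3) (max R₁ R₂)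
    · have : (fun x => g x • x) =ᶠ[𝓝 y] id := by
        filter_upwards [isOpen_ball.mem_nhds hy] with x hx
        rw [g3 x hx, one_smul, id]
      simp only [dv, pD, this.fderiv_eq, fderiv_id, ContinuousLinearMap.id_apply]
      simp
      ring
    · rw [h₁ y ((le_max_left _ _).trans (not_lt.1 fun h => hy (mem_ball_zero_iff.2 h)))]
      simp
  have e2 : ∀ q, g (E.f q) • E.f q = E.f q := fun q => by
    rw [g3 _ (ball_subset_ball (le_max_right _ _) (h₂ ⟨q, rfl⟩)), one_smul]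
  have k := key _ ⟨hX, fun x hx => by simp [hx]⟩ hX.2 (subset_univ _)
  have i3 := i1 _ hX
  simp only [e2] at k
  rw [e1] at k i3
  refine ⟨?_, ?_⟩
  · simpa using i3.const_mul (1 / 3)
  · rw [integral_const_mul] at k
    linarith

end Pool.Agent.MP_efb2da_gt.Emb

end

end

section

open scoped Manifold ContDiff RealInnerProductSpace Topology ENNReal
open Set MeasureTheory Filter Metric

noncomputable section

namespace Pool.Agent.MP_efb2da_gt.Emb

theorem nsq_Count (x y : E3) (t : ℝ) :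
    ‖y - (x - t • e3)‖ ^ 2 = ‖y - x‖ ^ 2 + 2 * t * (y 2 - x 2) + t ^ 2 := by
  rw [← real_inner_self_eq_norm_sq, ← real_inner_self_eq_norm_sq, inner3, inner3]
  simp [e3]
  ring

theorem gauge_Count (x : E3) (c : ℝ) (hc : |c| < 1) : ∃ ρ : E3 → ℝ, Continuous ρ ∧ ρ x = 0 ∧
    (∀ y, y ≠ x → 0 < ρ y) ∧ (∀ y r, 0 < r → (ρ y < r ↔ y ∈ ball (x - (r * c) • e3) r)) ∧
    ∀ y, ‖y - (x - (ρ y * c) • e3)‖ = ρ y := by
  have hk : 0 < 1 - c ^ 2 := by
    have := abs_lt.1 hc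
    nlinarith
  have key : ∀ y : E3, ∃ s, s = √((c * (y 2 - x 2)) ^ 2 + (1 - c ^ 2) * ‖y - x‖ ^ 2) ∧
      |c * (y 2 - x 2)| ≤ s ∧ s ^ 2 = (c * (y 2 - x 2)) ^ 2 + (1 - c ^ 2) * ‖y - x‖ ^ 2 := by
    intro y
    refine ⟨_, rfl, Real.abs_le_sqrt (by
      have : 0 ≤ (1 - c ^ 2) * ‖y - x‖ ^ 2 := by positivity
      linarith), Real.sq_sqrt (by positivity)⟩
  refine ⟨fun y => (c * (y 2 - x 2) +
    √((c * (y 2 - x 2)) ^ 2 + (1 - c ^ 2) * ‖y - x‖ ^ 2)) / (1 - c ^ 2), by fun_prop, by simp,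
    fun y hy => ?_, fun y r hr => ?_, fun y => ?_⟩
  · obtain ⟨s, hs, h1, h2⟩ := key y
    dsimp only
    rw [← hs]
    refine div_pos ?_ hk
    have h3 : 0 < (1 - c ^ 2) * ‖y - x‖ ^ 2 := by
      have := norm_pos_iff.2 (sub_ne_zero.2 hy)
      positivity
    have h4 := abs_le.1 h1
    by_contra h
    have h5 : s = -(c * (y 2 - x 2)) := by linarith
    rw [h5] at h2
    nlinarith
  · obtain ⟨s, hs, h1, h2⟩ := key y
    have h4 := abs_le.1 h1
    dsimp only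
    rw [← hs, div_lt_iff₀ hk, mem_ball_iff_norm, ← sq_lt_sq₀ (norm_nonneg _) hr.le, nsq_Count]
    have h5 : (1 - c ^ 2) * (‖y - x‖ ^ 2 + 2 * (r * c) * (y 2 - x 2) + (r * c) ^ 2 - r ^ 2) =
        (c * (y 2 - x 2) + s - r * (1 - c ^ 2)) * (s - c * (y 2 - x 2) + r * (1 - c ^ 2)) := by
      linear_combination -h2
    have h6 : 0 < s - c * (y 2 - x 2) + r * (1 - c ^ 2) := by
      have : 0 < r * (1 - c ^ 2) := by positivity
      linarith
    constructor
    · intro h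
      have h7 := mul_neg_of_neg_of_pos (sub_neg.2 h) h6
      rw [← h5] at h7
      have := neg_of_mul_neg_right h7 hk.le
      linarith
    · intro h
      have h7 := mul_neg_of_pos_of_neg hk (sub_neg.2 h)
      rw [h5] at h7
      have := neg_of_mul_neg_left h7 h6.le
      linarith
  · obtain ⟨s, hs, h1, h2⟩ := key y
    have h4 := abs_le.1 h1
    dsimp only
    rw [← hs]
    obtain ⟨r, hr⟩ : ∃ r, r = (c * (y 2 - x 2) + s) / (1 - c ^ 2) := ⟨_, rfl⟩
    rw [← hr]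
    have hr0 : 0 ≤ r := by rw [hr]; exact div_nonneg (by linarith) hk.le
    have hr1 : r * (1 - c ^ 2) = c * (y 2 - x 2) + s := by rw [hr]; field_simp
    rw [← sq_eq_sq₀ (norm_nonneg _) hr0, nsq_Count]
    refine mul_left_cancel₀ hk.ne' ?_
    linear_combination -h2 - (s - c * (y 2 - x 2) + r * (1 - c ^ 2)) * hr1

theorem into_Count {z o w : E3} {R : ℝ} (hR : 0 < R) (hz : ‖z - o‖ = R) (hw : 0 < ⟪w, o - z⟫) :
    ∀ᶠ s in 𝓝[>] (0:ℝ), z + s • w ∈ ball o R := by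
  have h1 : ∀ᶠ s in 𝓝 (0:ℝ), s * ‖w‖ ^ 2 < 2 * ⟪w, o - z⟫ :=
    (by fun_prop : Continuous fun s : ℝ => s * ‖w‖ ^ 2).continuousAt.eventually_lt
      continuousAt_const (by simpa using hw)
  filter_upwards [mem_nhdsWithin_of_mem_nhds h1, self_mem_nhdsWithin] with s hs hs0
  have hs0' : 0 < s := hs0
  rw [mem_ball_iff_norm, ← sq_lt_sq₀ (norm_nonneg _) hR.le,
    show z + s • w - o = s • w - (o - z) by abel, norm_sub_sq_real, norm_sub_rev o z, hz,
    real_inner_smul_left, norm_smul, mul_pow, Real.norm_eq_abs, sq_abs]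
  nlinarith [mul_lt_mul_of_pos_left hs hs0']

theorem near_Count {z w : E3} {U : Set E3} (hU : U ∈ 𝓝 z) :
    ∀ᶠ s in 𝓝[>] (0:ℝ), z + s • w ∈ U := by
  refine mem_nhdsWithin_of_mem_nhds
    ((by fun_prop : Continuous fun s : ℝ => z + s • w).continuousAt.preimage_mem_nhds ?_)
  simpa using hU

variable {M : Type} [TopologicalSpace M]

theorem shift_Count {E : Dat M} {α : E3 → ℤ} {V : Set E3} (h : E.IsJ α V) (d : ℤ) :
    E.IsJ (fun y => α y + d) V := by
  refine ⟨fun x hx hs => (h.1 x hx hs).mono fun y hy => congrArg (· + d) hy, fun q hq => ?_⟩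
  obtain ⟨l, U, A, B, h1, h2, h3, h4, h5⟩ := h.2 q hq
  exact ⟨l + d, U, A, B, h1, h2, h3, fun y hy => by dsimp only; rw [h4 y hy],
    fun y hy => by dsimp only; rw [h5 y hy]; ring⟩

theorem level_Count [CompactSpace M] {E : Dat M} (ok : E.Ok0) (so : E.SOf) {x : E3} {c R : ℝ}
    {ρ : E3 → ℝ} (g1 : Continuous ρ) (g3 : ∀ y, y ≠ x → 0 < ρ y)
    (g4 : ∀ y r, 0 < r → (ρ y < r ↔ y ∈ ball (x - (r * c) • e3) r))
    (g5 : ∀ y, ‖y - (x - (ρ y * c) • e3)‖ = ρ y) (hR : 0 < R)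
    (hC : Disjoint (ball (x - (R * c) • e3) R) E.C) {α : E3 → ℤ}
    (hα : E.IsJ α (ball (x - (R * c) • e3) R)) (hx : x ∉ E.Sg) (hxV : x ∈ ball (x - (R * c) • e3) R)
    {y0 : E3} (h0 : y0 ∈ ball (x - (R * c) • e3) R) (h0' : y0 ∉ E.Sg) {j : ℤ} (hj : α y0 < j)
    (hjx : j ≤ α x) :
    ∃ z : M × ℝ, (z.1 ∉ E.bd ∧ 0 < z.2 ∧ z.2 * E.H ≤ 1 ∧
      0 ≤ 1 - 2 * E.H * z.2 + E.K z.1 * z.2 ^ 2 ∧ x = E.f z.1 + z.2 • (E.N z.1 + c • e3)) ∧
      ∀ᶠ s in 𝓝[>] (0:ℝ), α (E.f z.1 + s • E.N z.1) = j := by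
  obtain ⟨S, hS⟩ : ∃ S : Set E3, S = {y | y ∈ ball (x - (R * c) • e3) R ∧ y ∉ E.Sg ∧ α y < j} :=
    ⟨_, rfl⟩
  have hy0 : ρ y0 < R := (g4 _ _ hR).2 h0
  have hK : IsCompact (closure S ∩ {y | ρ y ≤ ρ y0}) := by
    refine isCompact_of_isClosed_isBounded
      (isClosed_closure.inter (isClosed_le g1 continuous_const))
      ((isBounded_ball (x := x - (R * c) • e3) (r := R)).subset fun y hy => ?_)
    exact (g4 _ _ hR).1 (lt_of_le_of_lt hy.2 hy0)
  obtain ⟨y, ⟨hy1, hy2⟩, hmin⟩ := hK.exists_isMinOn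
    ⟨y0, subset_closure (by rw [hS]; exact ⟨h0, h0', hj⟩), le_refl (ρ y0)⟩ g1.continuousOn
  have hyR : ρ y < R := lt_of_le_of_lt hy2 hy0
  have hyV := (g4 _ _ hR).1 hyR
  have loc : ∀ u ∈ ball (x - (R * c) • e3) R, u ∉ E.Sg → u ∈ closure S → α u < j := by
    intro u h1 h2 h3
    obtain ⟨v, hv1, hv2⟩ := mem_closure_iff_nhds.1 h3 _ (hα.1 u h1 h2)
    rw [hS] at hv2
    exact (show α v = α u from hv1) ▸ hv2.2.2
  have hr : 0 < ρ y := g3 y (by
    rintro rfl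
    exact absurd (loc _ hxV hx hy1) (not_lt.2 hjx))
  obtain ⟨r, hre⟩ : ∃ r, r = ρ y := ⟨_, rfl⟩
  have g5y := g5 y
  rw [← hre] at hr hyR g5y
  obtain ⟨o, ho⟩ : ∃ o, o = x - (r * c) • e3 := ⟨_, rfl⟩
  rw [← ho] at g5y
  have big : ∀ u ∈ ball o r, u ∉ E.Sg → j ≤ α u := by
    intro u h1 h2
    have h3 : ρ u < r := (g4 _ _ hr).2 (ho ▸ h1)
    by_contra h
    have h4 : u ∈ S := by
      rw [hS]; exact ⟨(g4 _ _ hR).1 (h3.trans hyR), h2, not_le.1 h⟩
    have h5 : ρ y ≤ ρ u := hmin ⟨subset_closure h4, le_trans (hre ▸ h3.le) hy2⟩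
    linarith
  have hcl : IsClosed E.Sg := (isCompact_range ok.cf).isClosed
  have hySg : y ∈ E.Sg := by
    by_contra h
    have a1 := into_Count (w := o - y) hr g5y (by
      rw [real_inner_self_eq_norm_sq, norm_sub_rev, g5y]; positivity)
    have a2 := near_Count (w := o - y) (hα.1 y hyV h)
    have a3 := near_Count (w := o - y) (hcl.isOpen_compl.mem_nhds h)
    obtain ⟨s, b1, b2, b3⟩ := (a1.and (a2.and a3)).exists
    have := big _ b1 b3
    have := loc y hyV h hy1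
    have : α (y + s • (o - y)) = α y := b2
    omega
  obtain ⟨q, rfl⟩ := hySg
  have hq : q ∉ E.bd := fun h => disjoint_left.1 hC hyV ⟨q, h, rfl⟩
  obtain ⟨l, U, A, B, u1, u2, bx, hA, hB⟩ := hα.2 q hyV
  have hAs : ∀ u ∈ A, u ∉ E.Sg := fun u hu =>
    (show u ∈ U \ E.Sg by rw [bx.un]; exact Or.inl hu).2
  have hBs : ∀ u ∈ B, u ∉ E.Sg := fun u hu =>
    (show u ∈ U \ E.Sg by rw [bx.un]; exact Or.inr hu).2
  have hl : l < j := by
    obtain ⟨v, hv1, hv2⟩ := mem_closure_iff_nhds.1 hy1 _ (bx.oU.mem_nhds u1)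
    rw [hS] at hv2
    have h1 : v ∈ A ∪ B := by rw [← bx.un]; exact ⟨hv1, hv2.2.1⟩
    have h2 := hv2.2.2
    rcases h1 with h1 | h1
    · rwa [hA v h1] at h2
    · rw [hB v h1] at h2; omega
  have nA : ∀ u ∈ A, u ∉ ball o r := fun u hu h => by
    have := big u h (hAs u hu)
    rw [hA u hu] at this
    omega
  have NN : ∀ p, ⟪E.N p, E.N p⟫ = 1 := fun p => by
    rw [real_inner_self_eq_norm_sq, ok.un, one_pow]
  have hev : ∀ᶠ q' in 𝓝 q, r ≤ ‖E.f q' - o‖ := by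
    filter_upwards [ok.cf.continuousAt.preimage_mem_nhds (bx.oU.mem_nhds u1)] with q' hq'
    by_contra h
    have a1 := (bx.dir q' hq' (-E.N q')).2 (by rw [inner_neg_left, NN]; norm_num)
    have a2 := near_Count (w := -E.N q')
      (isOpen_ball.mem_nhds (mem_ball_iff_norm.2 (not_le.1 h)))
    obtain ⟨s, b1, b2⟩ := (a1.and a2).exists
    exact nA _ b1 b2
  rcases so q hq o r hr g5y hev with h | ⟨h, h1, h2⟩
  · exfalso
    have a1 := (bx.dir q u1 (-E.N q)).2 (by rw [inner_neg_left, NN]; norm_num)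
    have a2 := into_Count (w := -E.N q) hr g5y (by
      rw [h, sub_sub_cancel_left, inner_neg_neg, real_inner_smul_right, NN]; linarith)
    obtain ⟨s, b1, b2⟩ := (a1.and a2).exists
    exact nA _ b1 b2
  · refine ⟨(q, r), ⟨hq, hr, h1, h2, ?_⟩, ?_⟩
    · dsimp only
      rw [smul_add, ← add_assoc, ← h, ho, smul_smul, sub_add_cancel]
    · have a1 := (bx.dir q u1 (E.N q)).1 (by rw [NN]; norm_num)
      have a2 := into_Count (w := E.N q) hr g5y (by
        rw [h, add_sub_cancel_left, real_inner_smul_right, NN]; linarith)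
      filter_upwards [a1, a2] with s b1 b2
      have := big _ b2 (hBs _ b1)
      rw [hB _ b1] at this ⊢
      omega

variable [T2Space M] [CompactSpace M] [ConnectedSpace M] [MeasurableSpace M] [BorelSpace M]

theorem Count_pf (E : Dat M) (μ : Measure M) (c : ℝ) : SCount E μ c := by
  classical
  intro W a G x
  by_cases h0 : a x ≤ 0
  · exact ⟨∅, by simpa using h0, by simp⟩
  have hx : x ∉ E.Sg := fun h => h0 (G.g0.zero x (Or.inl h)).le
  have hx2 : x 2 ≠ 0 := fun h => h0 (G.g0.zero x (Or.inr h)).le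
  have ok := W.ok.o0
  obtain ⟨ρ, g1, g2, g3, g4, g5⟩ := gauge_Count x c W.em.lt
  have hC : IsCompact E.C := (ok.clb.isCompact).image ok.cf
  obtain ⟨z, ⟨p, hp, rfl⟩, hmin⟩ := hC.exists_isMinOn (W.em.e0.ne.image _) g1.continuousOn
  have hR : 0 < ρ (E.f p) := g3 _ fun h => hx ⟨p, h⟩
  have g5p := g5 (E.f p)
  obtain ⟨R, hRe⟩ : ∃ R, R = ρ (E.f p) := ⟨_, rfl⟩
  rw [← hRe] at hR g5p
  have hdj : Disjoint (ball (x - (R * c) • e3) R) E.C := disjoint_left.2 fun y h1 h2 => by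
    have a1 := (g4 _ _ hR).2 h1
    have a2 : ρ (E.f p) ≤ ρ y := hmin h2
    linarith
  have hxV : x ∈ ball (x - (R * c) • e3) R := (g4 _ _ hR).1 (g2 ▸ hR)
  obtain ⟨α, hα⟩ := W.jump _ isOpen_ball (convex_ball _ _) hdj
  obtain ⟨U, A, B, u1, -, bx, -, hA, -, hL⟩ := G.edge p hp univ univ_mem
  have hp2 := W.em.e0.bdP p hp
  have c2 : Continuous fun y : E3 => y 2 := by fun_prop
  have lin : IsLinearMap ℝ fun y : E3 => y 2 := ⟨fun _ _ => rfl, fun _ _ => rfl⟩
  obtain ⟨Hs, s1, s2, s3, s4, y0, s5, s6, s7, s8⟩ : ∃ Hs : Set E3, IsOpen Hs ∧ Convex ℝ Hs ∧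
      E.IsJ a Hs ∧ x ∈ Hs ∧ ∃ y0 ∈ ball (x - (R * c) • e3) R, y0 ∈ Hs ∧ y0 ∉ E.Sg ∧ a y0 = 0 := by
    obtain ⟨o, ho⟩ : ∃ o, o = x - (R * c) • e3 := ⟨_, rfl⟩
    rw [← ho] at g5p hxV ⊢
    rcases lt_or_gt_of_ne hx2 with h | h
    · refine ⟨{y | y 2 < 0}, isOpen_lt c2 continuous_const, convex_halfSpace_lt lin 0,
        G.g0.dn, h, ?_⟩
      have a1 := into_Count (w := x - E.f p) hR g5p (by
        have b1 := norm_sub_sq_real (x - E.f p) (o - E.f p)
        rw [sub_sub_sub_cancel_right, norm_sub_rev o, g5p] at b1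
        have b2 := (sq_lt_sq₀ (norm_nonneg _) hR.le).2 (mem_ball_iff_norm.1 hxV)
        have := sq_nonneg ‖x - E.f p‖
        linarith)
      have a2 := near_Count (w := x - E.f p) (bx.oU.mem_nhds u1)
      obtain ⟨s, b1, b2, b3⟩ := (a1.and (a2.and self_mem_nhdsWithin)).exists
      have b4 : (E.f p + s • (x - E.f p)) 2 < 0 := by
        have : (E.f p + s • (x - E.f p)) 2 = E.f p 2 + s * (x 2 - E.f p 2) := rfl
        rw [this, hp2, zero_add, sub_zero]
        exact mul_neg_of_pos_of_neg b3 h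
      refine ⟨_, b1, b4, ?_, hL _ b2 b4⟩
      rintro ⟨q, hq⟩
      have := (bx.sg q (hq ▸ b2)).1
      rw [hq] at this
      linarith
    · refine ⟨{y | 0 < y 2}, isOpen_lt continuous_const c2, convex_halfSpace_gt lin 0,
        G.g0.up, h, ?_⟩
      obtain ⟨w, hw⟩ : ∃ w, w = o - E.f p - R • E.N p := ⟨_, rfl⟩
      have w2 : w 2 = x 2 := by
        have : w 2 = x 2 - R * c * 1 - E.f p 2 - R * E.N p 2 := by rw [hw, ho]; rfl
        rw [this, hp2, W.em.ang p hp]; ring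
      have w0 : 0 < ‖w‖ ^ 2 := by
        have : w ≠ 0 := fun h' => hx2 (by rw [← w2, h']; rfl)
        have := norm_pos_iff.2 this
        positivity
      have n1 : ‖o - E.f p‖ = R := by rw [norm_sub_rev, g5p]
      rw [hw, norm_sub_sq_real, n1, real_inner_smul_right, norm_smul, ok.un, Real.norm_eq_abs,
        mul_one, sq_abs] at w0
      have w1 : ⟪o - E.f p, E.N p⟫ < R := by
        by_contra h'
        nlinarith [mul_le_mul_of_nonneg_left (not_lt.1 h') hR.le]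
      have a1 := into_Count (w := w) hR g5p (by
        rw [hw, inner_sub_left, real_inner_self_eq_norm_sq, n1, real_inner_smul_left,
          real_inner_comm]
        nlinarith [mul_lt_mul_of_pos_left w1 hR])
      have a2 := (bx.dir p u1 w fun _ => by rw [w2]; exact h).2 (by
        rw [hw, inner_sub_left, real_inner_smul_left, real_inner_self_eq_norm_sq, ok.un]
        linarith)
      obtain ⟨s, b1, b2⟩ := (a1.and a2).exists
      have b3 : E.f p + s • w ∈ (U ∩ {x | 0 < x 2}) \ E.Sg := by rw [bx.un]; exact Or.inl b2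
      exact ⟨_, b1, b3.1.2, b3.2, hA _ b2⟩
  have oV := (isOpen_ball (x := x - (R * c) • e3) (ε := R)).inter s1
  obtain ⟨d, hd⟩ := W.uniq _ a α oV ((convex_ball _ _).inter s2).isPreconnected
    (W.mono _ _ _ s3 oV inter_subset_right) (W.mono _ _ _ hα oV inter_subset_left)
  have e1 := hd x ⟨hxV, s4⟩ hx
  have e2 := hd y0 ⟨s5, s6⟩ s7
  have key : ∀ j : ℤ, ∃ z : M × ℝ, j ∈ Finset.Icc 1 (a x) → (z.1 ∉ E.bd ∧ 0 < z.2 ∧
      z.2 * E.H ≤ 1 ∧ 0 ≤ 1 - 2 * E.H * z.2 + E.K z.1 * z.2 ^ 2 ∧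
      x = E.f z.1 + z.2 • (E.N z.1 + c • e3)) ∧
      ∀ᶠ s in 𝓝[>] (0:ℝ), α (E.f z.1 + s • E.N z.1) + d = j := by
    intro j
    by_cases hj : j ∈ Finset.Icc 1 (a x)
    · rw [Finset.mem_Icc] at hj
      obtain ⟨z, hz⟩ := level_Count ok W.so g1 g3 g4 g5 hR hdj (shift_Count hα d) hx hxV s5 s7
        (j := j) (by omega) (by omega)
      exact ⟨z, fun _ => hz⟩
    · exact ⟨(p, 0), fun h => absurd h hj⟩
  choose z hz using key
  refine ⟨(Finset.Icc 1 (a x)).image z, ?_, fun u hu => ?_⟩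
  · rw [Finset.card_image_of_injOn, Int.card_Icc]
    · omega
    · intro i hi j hj hij
      have a1 := (hz i hi).2
      rw [hij] at a1
      obtain ⟨s, b1, b2⟩ := (a1.and (hz j hj).2).exists
      exact b1.symm.trans b2
  · obtain ⟨j, hj, rfl⟩ := Finset.mem_image.1 hu
    exact (hz j hj).1

end Pool.Agent.MP_efb2da_gt.Emb

end

end

section

/-! A surface inside a sphere whose boundary is the whole circle is the upper cap. -/

open scoped Manifold ContDiff RealInnerProductSpace Topology ENNReal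
open Set MeasureTheory Filter Metric

noncomputable section

namespace Pool.Agent.MP_efb2da_gt.Emb

/-- second intersection of the line through `y0` in the direction `v` with the sphere -/
def sec_Cap (o y0 v : E3) : E3 := y0 + (2 * ⟪v, o - y0⟫ / ‖v‖ ^ 2) • v

theorem sec_cont_Cap (o y0 v : E3) (hv : v ≠ 0) : ContinuousAt (sec_Cap o y0) v := by
  unfold sec_Cap
  have h : ‖v‖ ^ 2 ≠ 0 := pow_ne_zero _ (norm_ne_zero_iff.2 hv)
  fun_prop (disch := exact h)

theorem sec_mem_Cap (o y0 v : E3) (R σ : ℝ) (h0 : y0 ∈ sphere o R) (hz : y0 2 = 0)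
    (h1 : 0 < ⟪v, o - y0⟫) (h2 : 0 < σ * v 2) :
    sec_Cap o y0 v ∈ sphere o R ∩ {x : E3 | 0 < σ * x 2} := by
  have hv : v ≠ 0 := by
    rintro rfl
    simp at h1
  have hn : 0 < ‖v‖ ^ 2 := pow_pos (norm_pos_iff.2 hv) _
  set t := 2 * ⟪v, o - y0⟫ / ‖v‖ ^ 2 with ht
  have tp : 0 < t := div_pos (by linarith) hn
  have ht' : t * ‖v‖ ^ 2 = 2 * ⟪v, o - y0⟫ := div_mul_cancel₀ _ hn.ne'
  rw [mem_sphere_iff_norm] at h0
  constructor
  · rw [mem_sphere_iff_norm, ← h0]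
    have e : sec_Cap o y0 v - o = t • v - (o - y0) := by
      unfold sec_Cap
      rw [← ht]
      abel
    rw [e, norm_sub_rev y0 o, ← sq_eq_sq₀ (norm_nonneg _) (norm_nonneg _), norm_sub_sq_real,
      norm_smul, real_inner_smul_left, Real.norm_eq_abs, mul_pow, sq_abs]
    linear_combination t * ht'
  · show 0 < σ * (y0 2 + t * v 2)
    rw [hz, zero_add, mul_left_comm]
    exact mul_pos tp h2

theorem sec_sur_Cap (o y0 y : E3) (R σ : ℝ) (h0 : y0 ∈ sphere o R) (hz : y0 2 = 0)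
    (hy : y ∈ sphere o R ∩ {x : E3 | 0 < σ * x 2}) :
    0 < ⟪y - y0, o - y0⟫ ∧ 0 < σ * (y - y0) 2 ∧ sec_Cap o y0 (y - y0) = y := by
  have h2 : 0 < σ * (y - y0) 2 := by
    show 0 < σ * (y 2 - y0 2)
    rw [hz, sub_zero]
    exact hy.2
  have hv : y - y0 ≠ 0 := by
    intro h
    rw [h] at h2
    simp at h2
  have hn : 0 < ‖y - y0‖ ^ 2 := pow_pos (norm_pos_iff.2 hv) _
  have h1 := hy.1
  rw [mem_sphere_iff_norm] at h0 h1
  have e : y - o = (y - y0) - (o - y0) := by abel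
  have h3 : ‖(y - y0) - (o - y0)‖ ^ 2 = ‖o - y0‖ ^ 2 := by
    rw [← e, h1, norm_sub_rev o y0, h0]
  rw [norm_sub_sq_real] at h3
  have h4 : 2 * ⟪y - y0, o - y0⟫ = ‖y - y0‖ ^ 2 := by linarith
  refine ⟨by linarith, h2, ?_⟩
  unfold sec_Cap
  rw [h4, div_self hn.ne', one_smul]
  abel

theorem cap_pc_Cap (o y0 : E3) (R σ : ℝ) (h0 : y0 ∈ sphere o R) (hz : y0 2 = 0) :
    IsPreconnected (sphere o R ∩ {x : E3 | 0 < σ * x 2}) := by
  have hc : Convex ℝ {v : E3 | 0 < ⟪v, o - y0⟫ ∧ 0 < σ * v 2} := by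
    refine Convex.inter (convex_halfSpace_gt (f := fun v : E3 => ⟪v, o - y0⟫) ⟨?_, ?_⟩ 0)
      (convex_halfSpace_gt (f := fun v : E3 => σ * v 2) ⟨?_, ?_⟩ 0)
    · intro x y
      exact inner_add_left _ _ _
    · intro a x
      exact real_inner_smul_left _ _ _
    · intro x y
      exact mul_add _ _ _
    · intro a x
      exact mul_left_comm _ _ _
  have e : sphere o R ∩ {x : E3 | 0 < σ * x 2} =
      sec_Cap o y0 '' {v : E3 | 0 < ⟪v, o - y0⟫ ∧ 0 < σ * v 2} := by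
    apply Subset.antisymm
    · intro y hy
      obtain ⟨a, b, d⟩ := sec_sur_Cap o y0 y R σ h0 hz hy
      exact ⟨_, ⟨a, b⟩, d⟩
    · rintro _ ⟨v, hv, rfl⟩
      exact sec_mem_Cap o y0 v R σ h0 hz hv.1 hv.2
  rw [e]
  refine hc.isPreconnected.image _ fun v hv => (sec_cont_Cap o y0 v ?_).continuousWithinAt
  rintro rfl
  simp at hv

theorem cap_acc_Cap (o y0 y : E3) (R σ : ℝ) (h0 : y0 ∈ sphere o R) (hz : y0 2 = 0)
    (hy : y ∈ sphere o R ∩ {x : E3 | 0 < σ * x 2}) (U : Set E3) (hU : U ∈ 𝓝 y0) :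
    ∃ x ∈ U, x ∈ sphere o R ∩ {x : E3 | 0 < σ * x 2} := by
  obtain ⟨a, b, -⟩ := sec_sur_Cap o y0 y R σ h0 hz hy
  obtain ⟨w, w0, w1, w2⟩ : ∃ w : E3, w ≠ 0 ∧ ⟪w, o - y0⟫ = 0 ∧ w 2 = 0 := by
    by_cases h : (o - y0) 0 = 0
    · refine ⟨!₂[1, 0, 0], fun e => ?_, ?_, rfl⟩
      · simpa using congrArg (fun x : E3 => x 0) e
      · rw [inner3, h]
        simp
    · refine ⟨!₂[-(o - y0) 1, (o - y0) 0, 0], fun e => h ?_, ?_, rfl⟩
      · exact congrArg (fun x : E3 => x 1) e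
      · rw [inner3]
        simp
        ring
  have c1 : ContinuousAt (fun t : ℝ => sec_Cap o y0 (w + t • (y - y0))) 0 := by
    refine ContinuousAt.comp (g := sec_Cap o y0) (sec_cont_Cap o y0 _ ?_) (by fun_prop)
    simpa using w0
  have c2 : ∀ᶠ t : ℝ in 𝓝 0, sec_Cap o y0 (w + t • (y - y0)) ∈ U := by
    apply c1.eventually_mem
    simpa [sec_Cap, w1] using hU
  obtain ⟨t, t1, t2⟩ := ((c2.filter_mono nhdsWithin_le_nhds).and
    (self_mem_nhdsWithin (s := Ioi (0 : ℝ)))).exists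
  refine ⟨_, t1, sec_mem_Cap o y0 _ R σ h0 hz ?_ ?_⟩
  · rw [inner_add_left, w1, zero_add, real_inner_smul_left]
    exact mul_pos t2 a
  · show 0 < σ * (w 2 + t * (y - y0) 2)
    rw [w2, zero_add, mul_left_comm]
    exact mul_pos t2 b

theorem side_Cap (o y0 : E3) (R : ℝ) (hR : 0 < R) (h0 : y0 ∈ sphere o R) (U : Set E3)
    (hU : U ∈ 𝓝 y0) (σ : ℝ) (hσ : σ ≠ 0) : ∃ P, IsPreconnected P ∧ P ⊆ U ∧
      Disjoint P (sphere o R) ∧ ∃ ε > 0, ∀ y ∈ sphere o R, y ∈ ball y0 ε →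
        ∀ᶠ s in 𝓝[>] (0 : ℝ), y + s • (σ • (o - y)) ∈ P := by
  let Ψ : ℝ × E3 → E3 := fun z => o + (R * (1 - z.1 * σ) / ‖z.2 - o‖) • (z.2 - o)
  have hΨ : ∀ z : ℝ × E3, z.2 ≠ o → ContinuousAt Ψ z := fun z hz => by
    have h : ‖z.2 - o‖ ≠ 0 := norm_ne_zero_iff.2 (sub_ne_zero.2 hz)
    unfold Ψ
    fun_prop (disch := exact h)
  have hv : ∀ y ∈ sphere o R, ∀ s, Ψ (s, y) = y + s • (σ • (o - y)) := by
    intro y hy s
    rw [mem_sphere_iff_norm] at hy
    show o + (R * (1 - s * σ) / ‖y - o‖) • (y - o) = _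
    rw [hy, mul_div_cancel_left₀ _ hR.ne']
    module
  have n0 : y0 ≠ o := by
    rintro rfl
    simp at h0
    exact hR.ne h0
  have h1 : ∀ᶠ z in 𝓝 ((0 : ℝ), y0), Ψ z ∈ U := by
    apply (hΨ _ n0).eventually_mem
    simpa [hv y0 h0] using hU
  have h2 : ∀ᶠ z : ℝ × E3 in 𝓝 ((0 : ℝ), y0), z.2 ≠ o :=
    continuous_snd.continuousAt.eventually_ne n0
  have h3 : ∀ᶠ z : ℝ × E3 in 𝓝 ((0 : ℝ), y0), z.1 * σ < 1 :=
    ContinuousAt.eventually_lt (by fun_prop) continuousAt_const (by simp)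
  obtain ⟨ε, εp, hε⟩ := Metric.eventually_nhds_iff_ball.1 (h1.and (h2.and h3))
  have hm : ∀ z ∈ Ioo (0 : ℝ) ε ×ˢ ball y0 ε, z ∈ ball ((0 : ℝ), y0) ε := by
    intro z hz
    rw [← ball_prod_same]
    refine ⟨?_, hz.2⟩
    rw [mem_ball_zero_iff, Real.norm_eq_abs, abs_of_pos hz.1.1]
    exact hz.1.2
  refine ⟨Ψ '' (Ioo (0 : ℝ) ε ×ˢ ball y0 ε), ?_, ?_, ?_, ε, εp, fun y hy hb => ?_⟩
  · exact ((convex_Ioo _ _).prod (convex_ball _ _)).isPreconnected.image _ fun z hz =>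
      (hΨ z (hε z (hm z hz)).2.1).continuousWithinAt
  · rintro _ ⟨z, hz, rfl⟩
    exact (hε z (hm z hz)).1
  · rw [Set.disjoint_left]
    rintro _ ⟨z, hz, rfl⟩ hs
    obtain ⟨-, a, b⟩ := hε z (hm z hz)
    have hn : 0 < ‖z.2 - o‖ := norm_pos_iff.2 (sub_ne_zero.2 a)
    have hp : 0 < R * (1 - z.1 * σ) := mul_pos hR (by linarith)
    rw [mem_sphere_iff_norm] at hs
    simp only [Ψ, add_sub_cancel_left, norm_smul, Real.norm_eq_abs] at hs
    rw [abs_of_pos (div_pos hp hn), div_mul_cancel₀ _ hn.ne'] at hs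
    have : R * (z.1 * σ) = 0 := by linarith
    exact mul_ne_zero hR.ne' (mul_ne_zero hz.1.1.ne' hσ) this
  · filter_upwards [Ioo_mem_nhdsGT εp] with s hs
    exact ⟨(s, y), ⟨hs, hb⟩, hv y hy s⟩

variable {M : Type} [TopologicalSpace M] [T2Space M] [CompactSpace M] [ConnectedSpace M]
  [MeasurableSpace M] [BorelSpace M]

theorem Cap_pf (E : Dat M) (μ : Measure M) (c : ℝ) : SCap E μ c := by
  intro hW o ho hC
  have hR : 0 < E.H⁻¹ := inv_pos.2 hW.em.pos
  set R := E.H⁻¹ with hRdef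
  have hN : ∀ q, o - E.f q = R • E.N q := fun q => by rw [← ho q]; abel
  have hS : ∀ q, E.f q ∈ sphere o R := fun q => by
    rw [mem_sphere_iff_norm, norm_sub_rev, hN, norm_smul, hW.ok.o0.un, mul_one, Real.norm_eq_abs,
      abs_of_pos hR]
  have hop : ∀ q ∉ E.bd, ∀ᶠ y in 𝓝 (E.f q), y ∈ sphere o R → y ∈ E.Sg := by
    intro q hq
    obtain ⟨U, A, B, hU, -, hb, -⟩ := hW.boxI q hq univ univ_mem
    have key : ∀ σ : ℝ, σ ≠ 0 → ∀ A' B' : Set E3, IsOpen A' → IsOpen B' → Disjoint A' B' →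
        U \ E.Sg ⊆ A' ∪ B' → (∀ᶠ s in 𝓝[>] (0 : ℝ), E.f q + s • (σ • (o - E.f q)) ∈ A') →
        ∀ᶠ y in 𝓝 (E.f q), y ∈ sphere o R → y ∉ B' := by
      intro σ hσ A' B' oA oB dj un ev
      obtain ⟨P, pc, PU, dP, ε, εp, hε⟩ :=
        side_Cap o (E.f q) R hR (hS q) U (hb.oU.mem_nhds hU) σ hσ
      have hPA : P ⊆ A' := by
        refine pc.subset_left_of_subset_union oA oB dj (fun x hx => un ⟨PU hx, ?_⟩) ?_
        · rintro ⟨q', rfl⟩
          exact Set.disjoint_left.1 dP hx (hS q')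
        · obtain ⟨s, s1, s2⟩ := (ev.and (hε _ (hS q) (mem_ball_self εp))).exists
          exact ⟨_, s2, s1⟩
      filter_upwards [ball_mem_nhds _ εp] with y hy hs hB
      have c1 : ContinuousAt (fun s : ℝ => y + s • (σ • (o - y))) 0 := by fun_prop
      have c2 : ∀ᶠ s : ℝ in 𝓝 0, y + s • (σ • (o - y)) ∈ B' := by
        apply c1.eventually_mem
        simpa using oB.mem_nhds hB
      obtain ⟨s, s1, s2⟩ := ((c2.filter_mono nhdsWithin_le_nhds).and (hε y hs hy)).exists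
      exact Set.disjoint_left.1 dj (hPA s2) s1
    have hi : ∀ σ : ℝ, ⟪σ • (o - E.f q), E.N q⟫ = σ * R := fun σ => by
      rw [hN, real_inner_smul_left, real_inner_smul_left, real_inner_self_eq_norm_sq,
        hW.ok.o0.un]
      ring
    have k1 := key 1 one_ne_zero B A hb.oB hb.oA hb.dj.symm (by rw [hb.un, union_comm])
      ((hb.dir q hU _).1 (by rw [hi]; linarith))
    have k2 := key (-1) (by norm_num) A B hb.oA hb.oB hb.dj hb.un.subset
      ((hb.dir q hU _).2 (by rw [hi]; linarith))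
    filter_upwards [k1, k2, hb.oU.mem_nhds hU] with y a b d hs
    by_contra hn
    exact (hb.un.subset ⟨d, hn⟩).elim (a hs) (b hs)
  obtain ⟨p, hp⟩ := hW.em.e0.ne
  have hp2 := hW.em.e0.bdP p hp
  have hcl : IsClosed E.Sg := (isCompact_range hW.ok.o0.cf).isClosed
  have dich : ∀ σ : ℝ, ∀ q, 0 < σ * E.f q 2 → sphere o R ∩ {x : E3 | 0 < σ * x 2} ⊆ E.Sg := by
    intro σ q hq x hx
    by_contra hn
    have nb : ∀ q', 0 < σ * E.f q' 2 → q' ∉ E.bd := fun q' h h' => by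
      rw [hW.em.e0.bdP q' h'] at h
      simp at h
    obtain ⟨z, z1, z2, z3⟩ := cap_pc_Cap o (E.f p) R σ (hS p) hp2
      {x | ∀ᶠ y in 𝓝 x, y ∈ sphere o R → y ∈ E.Sg} E.Sgᶜ isOpen_setOf_eventually_nhds
      hcl.isOpen_compl (fun y hy => by
        by_cases h : y ∈ E.Sg
        · obtain ⟨q', rfl⟩ := h
          exact Or.inl (hop q' (nb q' hy.2))
        · exact Or.inr h) ⟨_, ⟨hS q, hq⟩, hop q (nb q hq)⟩ ⟨x, hx, hn⟩
    exact z3 (Eventually.self_of_nhds z2 z1.1)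
  obtain ⟨U, A, B, hU, -, hb, -⟩ := hW.boxB p hp univ univ_mem
  apply Subset.antisymm
  · rintro _ ⟨q, rfl⟩
    refine ⟨hS q, ?_⟩
    by_contra hn
    have hq : 0 < -1 * E.f q 2 := by
      have : ¬ 0 ≤ E.f q 2 := hn
      linarith [not_le.1 this]
    obtain ⟨x, x1, x2⟩ := cap_acc_Cap o (E.f p) (E.f q) R (-1) (hS p) hp2 ⟨hS q, hq⟩ U
      (hb.oU.mem_nhds hU)
    obtain ⟨q', rfl⟩ := dich (-1) q hq x2
    have h1 := (hb.sg q' x1).1
    have h2 : 0 < -1 * E.f q' 2 := x2.2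
    linarith
  · rintro x ⟨x1, x2⟩
    obtain ⟨q, q1, q2⟩ := hb.ex
    have hq : 0 < 1 * E.f q 2 := by
      rw [one_mul]
      exact lt_of_le_of_ne (hb.sg q q2).1 fun h => q1 ((hb.sg q q2).2 h.symm)
    rcases eq_or_lt_of_le (show 0 ≤ x 2 from x2) with h | h
    · have : x ∈ E.C := by
        rw [hC]
        exact ⟨x1, h.symm⟩
      exact image_subset_range _ _ this
    · exact dich 1 q hq ⟨x1, by simpa using h⟩

end Pool.Agent.MP_efb2da_gt.Emb

end

end

section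

/-! The equality case of the flux bound forces the surface to meet the plane orthogonally. -/

open scoped Manifold ContDiff RealInnerProductSpace Topology ENNReal
open Set MeasureTheory Filter Metric

noncomputable section

namespace Pool.Agent.MP_efb2da_gt.Emb

theorem cut_fderiv_Orth {g : E3 → ℝ} {R : ℝ} (hg : ∀ x ∈ ball (0 : E3) R, g x = 1)
    (X : E3 → E3) {x : E3} (hx : x ∈ ball (0 : E3) R) :
    fderiv ℝ (fun y => g y • X y) x = fderiv ℝ X x := by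
  apply Filter.EventuallyEq.fderiv_eq
  filter_upwards [isOpen_ball.mem_nhds hx] with y hy
  rw [hg y hy, one_smul]

theorem cut_C1c_Orth {g : E3 → ℝ} (hg : ContDiff ℝ ∞ g) (hc : HasCompactSupport g)
    {X : E3 → E3} (hX : ContDiff ℝ 1 X) : C1c (fun y => g y • X y) := by
  refine ⟨(hg.of_le (by exact_mod_cast le_top)).smul hX, ?_⟩
  exact hc.smul_right (f' := X)

theorem zero_C1c_Orth : C1c (fun _ : E3 => (0 : E3)) :=
  ⟨contDiff_const, HasCompactSupport.zero⟩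

/-- the linear field `x ↦ x₀ e₁` -/
def lin_Orth : E3 →L[ℝ] E3 :=
  (EuclideanSpace.proj (0 : Fin 3) : E3 →L[ℝ] ℝ).smulRight (EuclideanSpace.single 1 (1:ℝ))

theorem lin_apply_Orth (x : E3) (j : Fin 3) :
    lin_Orth x j = x 0 * (EuclideanSpace.single (1 : Fin 3) (1:ℝ) : E3) j := by
  simp [lin_Orth]

theorem normsq3_Orth (a : E3) : ‖a‖ ^ 2 = a 0 ^ 2 + a 1 ^ 2 + a 2 ^ 2 := by
  rw [← real_inner_self_eq_norm_sq, inner3]; ring

theorem normsq2_Orth (a : E2) : ‖a‖ ^ 2 = a 0 ^ 2 + a 1 ^ 2 := by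
  rw [EuclideanSpace.norm_sq_eq]; simp [Fin.sum_univ_two]

theorem sq_le_Orth (n : E3) (hn : ‖n‖ = 1) (a : E2) :
    (n 0 * a 1 - n 1 * a 0) ^ 2 + n 2 ^ 2 * ‖a‖ ^ 2 ≤ ‖a‖ ^ 2 := by
  have h1 := normsq3_Orth n
  rw [hn] at h1
  rw [normsq2_Orth a]
  have h2 : n 2 ^ 2 = 1 - n 0 ^ 2 - n 1 ^ 2 := by linarith
  rw [h2]
  nlinarith [sq_nonneg (n 0 * a 0 + n 1 * a 1)]

theorem abs_le_Orth (n : E3) (hn : ‖n‖ = 1) (a : E2) : |n 0 * a 1 - n 1 * a 0| ≤ ‖a‖ := by
  apply abs_le_of_sq_le_sq' _ (norm_nonneg a) |> fun h => abs_le.mpr h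
  have := sq_le_Orth n hn a
  nlinarith [mul_nonneg (sq_nonneg (n 2)) (sq_nonneg ‖a‖)]

theorem abs_lt_Orth (n : E3) (hn : ‖n‖ = 1) (a : E2) (ha : a ≠ 0) (h2 : n 2 ≠ 0) :
    |n 0 * a 1 - n 1 * a 0| < ‖a‖ := by
  apply abs_lt_of_sq_lt_sq _ (norm_nonneg a)
  have := sq_le_Orth n hn a
  have h3 : 0 < n 2 ^ 2 * ‖a‖ ^ 2 := by
    have := norm_pos_iff.mpr ha
    positivity
  linarith

variable {M : Type} [TopologicalSpace M]

theorem stX_Orth (E : Dat M) {g : E3 → ℝ} {R : ℝ} (hg : ∀ x ∈ ball (0 : E3) R, g x = 1)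
    {q : M} (hq : E.f q ∈ ball (0 : E3) R) :
    E.stI (fun y => g y • e3) (fun _ => 0) q = -(2 * E.H) * E.N q 2 := by
  have h1 : fderiv ℝ (fun y => g y • e3) (E.f q) = 0 := by
    rw [cut_fderiv_Orth hg (fun _ => e3) hq]; simp
  simp only [Dat.stI, dv, pD, curl, h1, hg _ hq, inner3]
  simp [e3]

theorem stY_Orth (E : Dat M) {g : E3 → ℝ} {R : ℝ} (hg : ∀ x ∈ ball (0 : E3) R, g x = 1)
    {q : M} (hq : E.f q ∈ ball (0 : E3) R) :
    E.stI (fun _ => 0) (fun y => g y • lin_Orth y) q = E.N q 2 := by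
  have h1 : fderiv ℝ (fun y => g y • lin_Orth y) (E.f q) = lin_Orth := by
    rw [cut_fderiv_Orth hg lin_Orth hq]; exact lin_Orth.fderiv
  simp only [Dat.stI, dv, pD, curl, h1, inner3, lin_apply_Orth]
  simp

variable [T2Space M] [CompactSpace M] [ConnectedSpace M] [MeasurableSpace M] [BorelSpace M]

theorem Orth_pf (E : Dat M) (μ : Measure M) : SOrth E μ := by
  intro hG hD hok _ hem γ β hP hS hiso
  have hdc : Continuous (deriv γ) := hP.sm.continuous_deriv le_rfl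
  have hlen : 0 < len γ := by
    unfold len
    exact intervalIntegral.intervalIntegral_pos_of_pos (hdc.norm.intervalIntegrable 0 1)
      (fun s => norm_pos_iff.mpr (hP.reg s)) one_pos
  refine ⟨fun h0 => ?_, ?_⟩
  · rw [h0] at hiso
    simp at hiso
    linarith
  obtain ⟨R, hR⟩ := (isCompact_range hok.o0.cf).isBounded.subset_ball (0 : E3)
  obtain ⟨g, hgs, hgc, hg⟩ := hD.cut R
  have hq : ∀ q, E.f q ∈ ball (0 : E3) R := fun q => hR ⟨q, rfl⟩
  have hγ : ∀ s, g (incl (γ s)) = 1 := fun s => hg _ (hP.eq s ▸ hq (β s))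
  obtain ⟨ς, hς, hS⟩ := hS
  have hX := hS (fun y => g y • e3) (fun _ => 0) (cut_C1c_Orth hgs hgc contDiff_const)
    zero_C1c_Orth
  have hY := hS (fun _ => 0) (fun y => g y • lin_Orth y) zero_C1c_Orth
    (cut_C1c_Orth hgs hgc lin_Orth.contDiff)
  simp only [stX_Orth E hg (hq _), stY_Orth E hg (hq _), hγ, one_smul] at hX hY
  set u : ℝ → ℝ := fun s => E.N (β s) 0 * deriv γ s 1 - E.N (β s) 1 * deriv γ s 0 with hu
  have eX : ∀ s, ⟪crs e3 (E.N (β s)) + 0, incl (deriv γ s)⟫ = u s := by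
    intro s
    rw [add_zero, inner_crs]
    simp [dt, e3, incl, hu]
  have eY : ∀ s, ⟪crs 0 (E.N (β s)) + lin_Orth (incl (γ s)), incl (deriv γ s)⟫ =
      γ s 0 * deriv γ s 1 := by
    intro s
    rw [inner3]
    simp [crs, incl, lin_apply_Orth]
  simp only [eX, eY] at hX hY
  rw [integral_const_mul, hY] at hX
  have hςa : |ς| = 1 := by rcases hς with h | h <;> simp [h]
  have hab : 2 * |E.H| * |∫ s in (0:ℝ)..1, γ s 0 * deriv γ s 1| = |∫ s in (0:ℝ)..1, u s| := by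
    have h := congrArg abs hX
    simp only [abs_mul, abs_neg, hςa, one_mul, abs_two] at h
    exact h
  have hgr := hG γ hP.sm hP.per hP.inj
  have hle : len γ ≤ ∫ s in (0:ℝ)..1, |u s| := by
    calc len γ = 2 * |E.H| * area (inside (range γ)) := hiso.symm
      _ ≤ 2 * |E.H| * |∫ s in (0:ℝ)..1, γ s 0 * deriv γ s 1| :=
        mul_le_mul_of_nonneg_left hgr (by positivity)
      _ = |∫ s in (0:ℝ)..1, u s| := hab
      _ ≤ ∫ s in (0:ℝ)..1, |u s| := intervalIntegral.abs_integral_le_integral_abs zero_le_one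
  have hNc : Continuous (fun s => E.N (β s)) := hok.o0.cN.comp hP.cβ
  have huc : Continuous u := by
    have a0 : Continuous (fun s => E.N (β s) 0) := (EuclideanSpace.proj (0 : Fin 3)).continuous.comp hNc
    have a1 : Continuous (fun s => E.N (β s) 1) := (EuclideanSpace.proj (1 : Fin 3)).continuous.comp hNc
    have b0 : Continuous (fun s => deriv γ s 0) := (EuclideanSpace.proj (0 : Fin 2)).continuous.comp hdc
    have b1 : Continuous (fun s => deriv γ s 1) := (EuclideanSpace.proj (1 : Fin 2)).continuous.comp hdc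
    exact (a0.mul b1).sub (a1.mul b0)
  have key : ∀ s ∈ Icc (0:ℝ) 1, E.N (β s) 2 = 0 := by
    intro s hs
    by_contra hne
    have hlt : ∫ s in (0:ℝ)..1, |u s| < ∫ s in (0:ℝ)..1, ‖deriv γ s‖ :=
      intervalIntegral.integral_lt_integral_of_continuousOn_of_le_of_exists_lt one_pos
        huc.abs.continuousOn hdc.norm.continuousOn
        (fun t _ => abs_le_Orth _ (hok.o0.un _) _)
        ⟨s, hs, abs_lt_Orth _ (hok.o0.un _) _ (hP.reg s) hne⟩
    unfold len at hle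
    linarith
  intro p hp
  obtain ⟨s, rfl⟩ := hP.sur p hp
  have hfr : γ (Int.fract s) = γ s := by
    have h := hP.per.sub_int_mul_eq (x := s) ⌊s⌋
    rw [mul_one] at h
    exact h
  have hβ : β s = β (Int.fract s) := hem.inj (by rw [hP.eq, hP.eq, hfr])
  rw [hβ]
  exact key _ ⟨Int.fract_nonneg s, (Int.fract_lt_one s).le⟩

end Pool.Agent.MP_efb2da_gt.Emb

end

end

section

/-! A surface of non-zero mean curvature is not tangent to the plane along its whole boundary. -/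

open scoped Manifold ContDiff RealInnerProductSpace Topology ENNReal
open Set MeasureTheory Filter Metric

noncomputable section

namespace Pool.Agent.MP_efb2da_gt.Emb

variable {M : Type} [TopologicalSpace M] [CompactSpace M] [MeasurableSpace M]

theorem Tang_pf (E : Dat M) (μ : Measure M) (hG : SGreen) (hD : SDiv) (hok : E.Ok)
    (γ : ℝ → E2) (β : ℝ → M) (hP : E.Par γ β) (hS : E.StkG μ γ β)
    (hA : 0 < area (inside (range γ))) (hH : E.H ≠ 0) {c : ℝ} (hc : ∀ p ∈ E.bd, E.N p 2 = c) :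
    |c| < 1 := by
  have hn : ∀ s, E.N (β s) 0 ^ 2 + E.N (β s) 1 ^ 2 + c ^ 2 = 1 := fun s => by
    have h := normsq3_Orth (E.N (β s))
    rw [hok.o0.un, hc _ (hP.mem s)] at h
    linarith
  by_contra h1
  have h2 : 1 ≤ c ^ 2 := by
    have := not_lt.1 h1
    nlinarith [sq_abs c, abs_nonneg c]
  have h0 : ∀ s, E.N (β s) 0 = 0 ∧ E.N (β s) 1 = 0 := fun s => by
    have := hn s
    constructor <;> nlinarith [sq_nonneg (E.N (β s) 0), sq_nonneg (E.N (β s) 1)]
  obtain ⟨R, hR⟩ := (isCompact_range hok.o0.cf).isBounded.subset_ball (0 : E3)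
  obtain ⟨g, hgs, hgc, hg⟩ := hD.cut R
  have hq : ∀ q, E.f q ∈ ball (0 : E3) R := fun q => hR ⟨q, rfl⟩
  have hγ : ∀ s, g (incl (γ s)) = 1 := fun s => hg _ (hP.eq s ▸ hq (β s))
  obtain ⟨ς, hς, hS⟩ := hS
  have hX := hS (fun y => g y • e3) (fun _ => 0) (cut_C1c_Orth hgs hgc contDiff_const)
    zero_C1c_Orth
  have hY := hS (fun _ => 0) (fun y => g y • lin_Orth y) zero_C1c_Orth
    (cut_C1c_Orth hgs hgc lin_Orth.contDiff)
  simp only [stX_Orth E hg (hq _), stY_Orth E hg (hq _), hγ, one_smul] at hX hY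
  have eX : ∀ s, ⟪crs e3 (E.N (β s)) + 0, incl (deriv γ s)⟫ = 0 := by
    intro s
    rw [add_zero, inner_crs]
    simp [dt, e3, incl, (h0 s).1, (h0 s).2]
  have eY : ∀ s, ⟪crs 0 (E.N (β s)) + lin_Orth (incl (γ s)), incl (deriv γ s)⟫ =
      γ s 0 * deriv γ s 1 := by
    intro s
    rw [inner3]
    simp [crs, incl, lin_apply_Orth]
  simp only [eX, eY] at hX hY
  rw [integral_const_mul, hY] at hX
  have hς0 : ς ≠ 0 := by rcases hς with h | h <;> simp [h]
  have hz : ∫ s in (0:ℝ)..1, γ s 0 * deriv γ s 1 = 0 := by simpa [hH, hς0] using hX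
  have := hG γ hP.sm hP.per hP.inj
  rw [hz, abs_zero] at this
  linarith

end Pool.Agent.MP_efb2da_gt.Emb

end

end

section

/-! Assembly of the embedded case from the statements of `St`. -/

open scoped Manifold ContDiff RealInnerProductSpace Topology ENNReal
open Set MeasureTheory Filter Metric

noncomputable section

namespace Pool.Agent.MP_efb2da_gt.Emb

section

variable {M : Type} [TopologicalSpace M] [MeasurableSpace M]

/-- all statements about one space -/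
structure All (M : Type) [TopologicalSpace M] [MeasurableSpace M] : Prop where
  ext : SExt
  glue : SGlue
  div : SDiv
  mult : SMult
  circ : SCirc
  green : SGreen
  sym : ∀ E : Dat M, SSym E
  inv : ∀ E : Dat M, SInv E
  wein : ∀ E : Dat M, SWein E
  up : ∀ E : Dat M, SUp E
  flat : ∀ E : Dat M, SFlat E
  box : ∀ E : Dat M, SBox E
  so : ∀ E : Dat M, SSO E
  null : ∀ E : Dat M, SNull E
  jump : ∀ E : Dat M, SJump E
  sph : ∀ E : Dat M, SSph E
  beta : ∀ E : Dat M, SBeta E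
  bdLoc : ∀ E : Dat M, SBdLoc E
  mu : ∀ E : Dat M, SMu E
  ad : ∀ (E : Dat M) μ c, SAD E μ c
  stk : ∀ (E : Dat M) μ, SStk E μ
  fv : ∀ (E : Dat M) μ c, SFV E μ c
  bas : ∀ (E : Dat M) μ c, SBas E μ c
  a0 : ∀ (E : Dat M) μ c, SA0 E μ c
  edge : ∀ (E : Dat M) μ c, SEdge E μ c
  rel : ∀ (E : Dat M) μ c, SRel E μ c
  bdd : ∀ (E : Dat M) μ c, SBdd E μ c
  kz : ∀ (E : Dat M) μ c, SKz E μ c
  flux : ∀ (E : Dat M) μ c, SFlux E μ c
  fluxEnd : ∀ (E : Dat M) μ c, SFluxEnd E μ c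
  m0 : ∀ (E : Dat M) μ c, SM0 E μ c
  vol : ∀ (E : Dat M) μ c, SVol E μ c
  mink : ∀ (E : Dat M) μ c, SMink E μ c
  count : ∀ (E : Dat M) μ c, SCount E μ c
  hk : ∀ (E : Dat M) μ c, SHK E μ c
  umb : ∀ (E : Dat M) μ c, SUmb E μ c
  cap : ∀ (E : Dat M) μ c, SCap E μ c
  stkG : ∀ (E : Dat M) μ, SStkG E μ
  orth : ∀ (E : Dat M) μ, SOrth E μ

theorem All.world (h : All M) (E : Dat M) (c : ℝ) (ok : E.Ok) (em : E.Em c) :
    ∃ μ : Measure M, E.W μ c := by
  obtain ⟨μ, mu⟩ := h.mu E ok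
  have bI : E.BoxI μ := by
    intro p hp V hV
    obtain ⟨e, n0, ε, hF, hs⟩ := h.flat E h.ext ok c em p V hV
    obtain ⟨h1, h2, -⟩ := h.box E ok c em p e n0 ε hF
    refine ⟨_, _, _, h1, hs, h2 hp, fun X hX hs _ => ?_⟩
    exact h.ad E μ c ok mu em p e n0 ε hF X hX hs (fun hb => (hp hb).elim)
  have bB : E.BoxB μ := by
    intro p hp V hV
    obtain ⟨e, n0, ε, hF, hs⟩ := h.flat E h.ext ok c em p V hV
    obtain ⟨h1, -, h3⟩ := h.box E ok c em p e n0 ε hF
    refine ⟨_, _, _, h1, hs, h3 hp, fun X hX hs ht => ?_⟩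
    exact h.ad E μ c ok mu em p e n0 ε hF X hX hs (fun _ => ht trivial)
  obtain ⟨so, mp0⟩ := h.so E ok
  obtain ⟨cl, bsub, shr, mono, uniq, mp⟩ := h.bas E μ c ok.o0 em bI mp0
  have bT : E.BoxT := fun p hp V hV => by
    obtain ⟨U, A, B, h1, h2, h3, -⟩ := bI p hp V hV
    exact ⟨U, A, B, h1, h2, h3⟩
  exact ⟨μ, ok, mu, em, bI, bB, h.null E ok.o0, so, mp,
    h.fv E μ c ok em (h.stk E μ ok mu em.e0.inj), cl, bsub, shr, mono,
    h.jump E ok.o0 bT bsub, uniq, h.glue, h.div⟩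

theorem All.sphere (h : All M) (E : Dat M) (μ : Measure M) (c : ℝ) (w : E.W μ c) :
    ∃ o, ∀ q, E.f q + E.H⁻¹ • E.N q = o := by
  obtain ⟨a, g0⟩ := h.a0 E μ c w
  obtain ⟨k, m, ed⟩ := h.edge E μ c w a g0
  have rl := h.rel E μ c w a k m g0 ed
  obtain ⟨b1, b2, b3⟩ := h.bdd E μ c w a k m g0 ed rl
  have g1 : E.Good1 μ a k m := ⟨g0, ed, rl, b1, b2, b3⟩
  obtain ⟨m1, m2⟩ := h.m0 E μ c w a k m g1
  have hm : m ≤ 0 := by
    by_contra hm
    obtain ⟨K, σ, hK⟩ := h.kz E μ c w a k m g1 (by omega)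
    have fl := h.flux E μ c w a k m g1 K σ hK
    exact m1 K σ hK fl (h.fluxEnd E μ c w a k m g1 K σ hK fl)
  obtain ⟨rfl, rfl⟩ := m2 hm
  obtain ⟨v1, v2⟩ := h.vol E μ c w a g1
  refine h.sph E w.ok w.em.pos.ne' ?_
  exact h.umb E μ c w.ok w.mu w.em a g1.nn v1 v2 (h.mink E μ c w)
    (h.hk E μ c h.mult w.ok w.mu w.em a (h.count E μ c w a g1))

theorem norm_sq3 (a : E3) : ‖a‖ ^ 2 = a 0 ^ 2 + a 1 ^ 2 + a 2 ^ 2 := by
  rw [EuclideanSpace.norm_sq_eq]; simp [Fin.sum_univ_three]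

theorem norm_sq2 (a : E2) : ‖a‖ ^ 2 = a 0 ^ 2 + a 1 ^ 2 := by
  rw [EuclideanSpace.norm_sq_eq]; simp [Fin.sum_univ_two]

theorem mem_sphere3 {x o : E3} {R : ℝ} (hR : 0 ≤ R) :
    x ∈ Metric.sphere o R ↔ (x 0 - o 0) ^ 2 + (x 1 - o 1) ^ 2 + (x 2 - o 2) ^ 2 = R ^ 2 := by
  rw [mem_sphere_iff_norm, ← pow_left_inj₀ (norm_nonneg _) hR two_ne_zero, norm_sq3]
  simp

theorem mem_sphere2 {x o : E2} {R : ℝ} (hR : 0 ≤ R) :
    x ∈ Metric.sphere o R ↔ (x 0 - o 0) ^ 2 + (x 1 - o 1) ^ 2 = R ^ 2 := by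
  rw [mem_sphere_iff_norm, ← pow_left_inj₀ (norm_nonneg _) hR two_ne_zero, norm_sq2]
  simp

/-- the normalised case -/
theorem All.norm (h : All M) (E : Dat M) (c : ℝ) (ok : E.Ok) (em : E.Em c) (γ : ℝ → E2)
    (hc : Continuous γ) (hp : Function.Periodic γ 1) (hi : InjOn γ (Ico 0 1))
    (hC : E.C = incl '' range γ) :
    ∃ o : E3, o 2 = -c * E.H⁻¹ ∧ range γ = Metric.sphere (pr o) (√(E.H⁻¹ ^ 2 - o 2 ^ 2)) ∧
      E.Sg = Metric.sphere o E.H⁻¹ ∩ {x | 0 ≤ x 2} := by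
  obtain ⟨μ, w⟩ := h.world E c ok em
  obtain ⟨o, ho⟩ := h.sphere E μ c w
  have hH : 0 < E.H⁻¹ := inv_pos.2 em.pos
  have hs : ∀ q, E.f q ∈ Metric.sphere o E.H⁻¹ := fun q => by
    rw [mem_sphere_iff_norm, ← ho q]
    simp [norm_smul, ok.o0.un q, abs_of_pos em.pos]
  obtain ⟨p0, hp0⟩ := em.e0.ne
  have o2 : o 2 = -c * E.H⁻¹ := by
    rw [← ho p0]; simp [em.e0.bdP p0 hp0, em.ang p0 hp0, mul_comm]
  have hle : 0 ≤ E.H⁻¹ ^ 2 - o 2 ^ 2 := by
    have h1 := (mem_sphere3 hH.le).1 (hs p0)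
    rw [em.e0.bdP p0 hp0] at h1
    nlinarith [sq_nonneg (E.f p0 0 - o 0), sq_nonneg (E.f p0 1 - o 1)]
  have key : ∀ x : E2, x ∈ Metric.sphere (pr o) (√(E.H⁻¹ ^ 2 - o 2 ^ 2)) ↔
      incl x ∈ Metric.sphere o E.H⁻¹ := fun x => by
    rw [mem_sphere2 (Real.sqrt_nonneg _), mem_sphere3 hH.le, Real.sq_sqrt hle]
    simp only [pr, incl, Matrix.cons_val_zero, Matrix.cons_val_one, Matrix.cons_val]
    constructor <;> intro h1 <;> linarith
  have hr : range γ = Metric.sphere (pr o) (√(E.H⁻¹ ^ 2 - o 2 ^ 2)) := by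
    refine h.circ γ _ _ hc hp hi fun x hx => (key x).2 ?_
    have : incl x ∈ E.C := hC ▸ mem_image_of_mem _ hx
    obtain ⟨q, -, hq⟩ := this
    exact hq ▸ hs q
  refine ⟨o, o2, hr, h.cap E μ c w o ho ?_⟩
  rw [hC, hr]
  ext x
  constructor
  · rintro ⟨y, hy, rfl⟩
    exact ⟨(key y).1 hy, by simp [incl]⟩
  · rintro ⟨h1, h2⟩
    have e : incl (pr x) = x := by
      ext i; fin_cases i <;> simp [incl, pr]
      exact (show x 2 = 0 from h2).symm
    exact ⟨pr x, (key _).2 (e.symm ▸ h1), e⟩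

theorem rf_rf {σ : ℝ} (hσ : σ = 1 ∨ σ = -1) (x : E3) : rf σ (rf σ x) = x := by
  ext i; fin_cases i <;> simp [rf]
  rcases hσ with rfl | rfl <;> simp

theorem rf_incl (σ : ℝ) (x : E2) : rf σ (incl x) = incl x := by
  ext i; fin_cases i <;> simp [rf, incl]

theorem All.main [CompactSpace M] (h : All M) (E : Dat M) (o0 : E.Ok0) (ct : E.Ctr)
    (inj : Function.Injective E.f) (γ : ℝ → E2) (hγ : ContDiff ℝ 1 γ)
    (hp : Function.Periodic γ 1) (hi : InjOn γ (Ico 0 1)) (hr : ∀ s, deriv γ s ≠ 0)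
    (hb : BijOn E.f E.bd (incl '' range γ)) (hA : 0 < area (inside (range γ)))
    (hH : 2 * |E.H| * area (inside (range γ)) = len γ ∨
      (E.H ≠ 0 ∧ ∃ c, ∀ p ∈ E.bd, E.N p 2 = c)) :
    E.H ≠ 0 ∧ ∃ o : E3, range γ = Metric.sphere (pr o) (√(E.H⁻¹ ^ 2 - o 2 ^ 2)) ∧
      (range E.f = Metric.sphere o |E.H|⁻¹ ∩ {x | 0 ≤ x 2} ∨
        range E.f = Metric.sphere o |E.H|⁻¹ ∩ {x | x 2 ≤ 0}) ∧
      (2 * |E.H| * area (inside (range γ)) = len γ → o 2 = 0) := by
  have o1 := h.inv E o0 ct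
  have ok : E.Ok := ⟨o0, o1, h.wein E o0 o1⟩
  obtain ⟨β, b1, b2, b3, b4, b5, b6, b7⟩ := h.beta E o0 γ hγ.continuous hb
  have e0 : E.Em0 := ⟨inj, b7, b5, b6⟩
  have par : E.Par γ β := ⟨hγ, hp, hi, hr, b1, b2, b3, b4⟩
  obtain ⟨μ, mu⟩ := h.mu E ok
  have sg := h.stkG E μ h.glue h.div ok mu e0 γ β par (h.stk E μ ok mu inj)
    (h.bdLoc E ok e0 γ β par)
  have hO : 2 * |E.H| * area (inside (range γ)) = len γ → E.H ≠ 0 ∧ ∀ p ∈ E.bd, E.N p 2 = 0 :=
    h.orth E μ h.green h.div ok mu e0 γ β par sg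
  obtain ⟨H0, c, hc, hN⟩ : E.H ≠ 0 ∧ ∃ c, |c| < 1 ∧ ∀ p ∈ E.bd, E.N p 2 = c := by
    rcases hH with h1 | h1
    · exact ⟨(hO h1).1, 0, by simp, (hO h1).2⟩
    · obtain ⟨h2, c, h3⟩ := h1
      exact ⟨h2, c, Tang_pf E μ h.green h.div ok γ β par sg hA h2 h3, h3⟩
  refine ⟨H0, ?_⟩
  obtain ⟨σ, hσ, hup⟩ : ∃ σ : ℝ, (σ = 1 ∨ σ = -1) ∧
      ∀ p ∈ E.bd, ∀ᶠ q in 𝓝 p, 0 ≤ σ * E.f q 2 := by
    rcases h.up E ok e0 (fun p hp => by rw [hN p hp]; exact hc) with h1 | h1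
    · exact ⟨1, Or.inl rfl, by simpa using h1⟩
    · exact ⟨-1, Or.inr rfl, by simpa using h1⟩
  obtain ⟨τ, hτ, hpos⟩ : ∃ τ : ℝ, (τ = 1 ∨ τ = -1) ∧ τ * E.H = |E.H| := by
    rcases lt_or_gt_of_ne H0 with h1 | h1
    · exact ⟨-1, Or.inr rfl, by rw [abs_of_neg h1]; ring⟩
    · exact ⟨1, Or.inl rfl, by rw [abs_of_pos h1]; ring⟩
  obtain ⟨o0', ct'⟩ := h.sym E σ τ hσ hτ o0 ct
  have o1' := h.inv _ o0' ct'
  have ok' : (E.sym σ τ).Ok := ⟨o0', o1', h.wein _ o0' o1'⟩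
  have hHs : (E.sym σ τ).H = |E.H| := hpos
  have em' : (E.sym σ τ).Em (-(τ * σ * c)) := by
    refine ⟨⟨fun p q hpq => inj ?_, fun p hp => ?_, b5, b6⟩, fun p hp => ?_, ?_, ?_, fun p hp => ?_⟩
    · have := congrArg (rf σ) hpq
      simpa only [Dat.sym, rf_rf hσ] using this
    · simp [Dat.sym, rf, b7 p hp]
    · simp [Dat.sym, rf, hN p hp, mul_assoc]
    · rcases hσ with rfl | rfl <;> rcases hτ with rfl | rfl <;> simpa using hc
    · rw [hHs]; exact abs_pos.2 H0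
    · simpa [Dat.sym, rf] using hup p hp
  have hC : (E.sym σ τ).C = incl '' range γ := by
    rw [← hb.image_eq]
    refine image_congr fun p hp => ?_
    obtain ⟨x, -, hx⟩ := hb.mapsTo hp
    change rf σ (E.f p) = _
    rw [← hx, rf_incl]
  obtain ⟨o, h1, h2, h3⟩ := h.norm _ _ ok' em' γ hγ.continuous hp hi hC
  rw [hHs] at h1 h2 h3
  have hσ2 : σ ^ 2 = 1 := by rcases hσ with rfl | rfl <;> norm_num
  have hin : 0 ≤ |E.H|⁻¹ := by positivity
  have hmem : ∀ x : E3, x ∈ range E.f ↔ x ∈ Metric.sphere (rf σ o) |E.H|⁻¹ ∧ 0 ≤ σ * x 2 := by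
    intro x
    have e1 : x ∈ range E.f ↔ rf σ x ∈ (E.sym σ τ).Sg := by
      constructor
      · rintro ⟨q, rfl⟩; exact ⟨q, rfl⟩
      · rintro ⟨q, hq⟩
        refine ⟨q, ?_⟩
        have := congrArg (rf σ) hq
        simpa only [Dat.sym, rf_rf hσ] using this
    rw [e1, h3, mem_inter_iff, mem_sphere3 hin, mem_sphere3 hin]
    simp only [rf, mem_ofPred_eq, Matrix.cons_val_zero, Matrix.cons_val_one, Matrix.cons_val]
    have e2 : (σ * x 2 - o 2) ^ 2 = (x 2 - σ * o 2) ^ 2 := by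
      rcases hσ with rfl | rfl <;> ring
    rw [e2]
  refine ⟨rf σ o, ?_, ?_, fun h4 => ?_⟩
  · have e1 : pr (rf σ o) = pr o := by ext i; fin_cases i <;> simp [pr, rf]
    have e2 : (rf σ o 2) ^ 2 = o 2 ^ 2 := by simp [rf, mul_pow, hσ2]
    rw [e1, e2, h2, inv_pow, inv_pow, sq_abs]
  · rcases hσ with rfl | rfl
    · left; ext x; simpa using hmem x
    · right; ext x; simpa using hmem x
  · obtain ⟨p0, hp0⟩ := b6
    have : c = 0 := by rw [← hN p0 hp0, (hO h4).2 p0 hp0]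
    simp [rf, h1, this]

end

theorem final_of (M : Type) [TopologicalSpace M] [ChartedSpace (EuclideanHalfSpace 2) M]
    [CompactSpace M] [MeasurableSpace M] (h : All M) (hc : SChart M)
    (f N : M → E3) (H : ℝ) (γ : ℝ → E2) (hγ : ContDiff ℝ 1 γ) (hp : Function.Periodic γ 1)
    (hi : InjOn γ (Ico 0 1)) (hr : ∀ s, deriv γ s ≠ 0) (hS : IsHSurface f N H)
    (hf : Function.Injective f) (hb : BijOn f ((𝓡∂ 2).boundary M) (incl '' range γ))
    (hA : 0 < area (inside (range γ)))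
    (hH : |H| = len γ / (2 * area (inside (range γ))) ∨
      (H ≠ 0 ∧ ∃ c : ℝ, ∀ p ∈ (𝓡∂ 2).boundary M, N p 2 = c)) :
    H ≠ 0 ∧ (∃ (c : E2) (R : ℝ), 0 < R ∧ range γ = Metric.sphere c R) ∧
      ∃ o : E3, (range f = Metric.sphere o |H|⁻¹ ∩ {x | 0 ≤ x 2} ∨
        range f = Metric.sphere o |H|⁻¹ ∩ {x | x 2 ≤ 0}) ∧
        (|H| = len γ / (2 * area (inside (range γ))) → o 2 = 0) := by
  obtain ⟨E, rfl, rfl, rfl, hbd, o0, ct⟩ := hc f N H hS
  rw [← hbd] at hb hH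
  have conv : |E.H| = len γ / (2 * area (inside (range γ))) →
      2 * |E.H| * area (inside (range γ)) = len γ := fun h2 => by
    rw [h2]; field_simp
  obtain ⟨H0, o, h1, h2, h3⟩ := h.main E o0 ct hf γ hγ hp hi hr hb hA (hH.imp_left conv)
  refine ⟨H0, ⟨_, _, ?_, h1⟩, o, h2, fun h4 => h3 (conv h4)⟩
  by_contra hR
  have hR0 : √(E.H⁻¹ ^ 2 - o 2 ^ 2) = 0 := le_antisymm (not_lt.1 hR) (Real.sqrt_nonneg _)
  rw [hR0, Metric.sphere_zero] at h1
  have a1 : γ 0 ∈ ({pr o} : Set E2) := h1 ▸ mem_range_self _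
  have a2 : γ (1 / 2) ∈ ({pr o} : Set E2) := h1 ▸ mem_range_self _
  have := hi (x₁ := 0) (x₂ := 1 / 2) ⟨le_rfl, one_pos⟩ ⟨by norm_num, by norm_num⟩
    (a1.trans a2.symm)
  norm_num at this

end Pool.Agent.MP_efb2da_gt.Emb

end

end
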