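import Pool.Agent.MP_efb2da_gt.Emb.P1
import Pool.Agent.MP_efb2da_gt.Emb.P2
import Pool.Agent.MP_efb2da_gt.Emb.P3

/-! The embedded case. -/

open scoped Manifold ContDiff RealInnerProductSpace Topology ENNReal
open Set MeasureTheory Filter Metric

noncomputable section

namespace Pool.Agent.MP_efb2da_gt.Emb

theorem all_pf (M : Type) [TopologicalSpace M] [T2Space M] [CompactSpace M] [ConnectedSpace M]
    [MeasurableSpace M] [BorelSpace M] : All M where
  ext := Ext_pf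
  glue := Glue_pf
  div := Div_pf
  mult := Mult_pf
  circ := Circ_pf
  green := Green_pf Ker_pf
  sym := Sym_pf
  inv := Inv_pf
  wein := Wein_pf
  up := Up_pf
  flat := Flat_pf
  box := Box_pf
  so := SO_pf
  null := Null_pf
  jump := Jump_pf
  sph := Sph_pf
  beta := Beta_pf
  bdLoc := BdLoc_pf
  mu := Mu_pf
  ad := AD_pf
  stk := Stk_pf
  fv := FV_pf
  bas := Bas_pf
  a0 := A0_pf
  edge := Edge_pf
  rel := Rel_pf
  bdd := Bdd_pf
  kz := Kz_pf
  flux := Flux_pf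
  fluxEnd := FluxEnd_pf
  m0 := M0_pf
  vol := Vol_pf
  mink := Mink_pf
  count := Count_pf
  hk := HK_pf
  umb := Umb_pf
  cap := Cap_pf
  stkG := StkG_pf
  orth := Orth_pf

theorem final (M : Type) [TopologicalSpace M] [ChartedSpace (EuclideanHalfSpace 2) M]
    [IsManifold (𝓡∂ 2) ∞ M] [T2Space M] [CompactSpace M] [ConnectedSpace M]
    (f N : M → E3) (H : ℝ) (γ : ℝ → E2) (hγ : ContDiff ℝ 1 γ) (hp : Function.Periodic γ 1)
    (hi : InjOn γ (Ico 0 1)) (hr : ∀ s, deriv γ s ≠ 0) (hS : IsHSurface f N H)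
    (hf : Function.Injective f) (hb : BijOn f ((𝓡∂ 2).boundary M) (incl '' range γ))
    (hH : |H| = len γ / (2 * area (inside (range γ))) ∨
      (H ≠ 0 ∧ ∃ c : ℝ, ∀ p ∈ (𝓡∂ 2).boundary M, N p 2 = c)) :
    H ≠ 0 ∧ (∃ (c : E2) (R : ℝ), 0 < R ∧ range γ = Metric.sphere c R) ∧
      ∃ o : E3, (range f = Metric.sphere o |H|⁻¹ ∩ {x | 0 ≤ x 2} ∨
        range f = Metric.sphere o |H|⁻¹ ∩ {x | x 2 ≤ 0}) ∧
        (|H| = len γ / (2 * area (inside (range γ))) → o 2 = 0) := by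
  letI : MeasurableSpace M := borel M
  haveI : BorelSpace M := ⟨rfl⟩
  exact final_of M (all_pf M) Chart_pf f N H γ hγ hp hi hr hS hf hb (Pos_pf γ hγ hp hi hr) hH

end Pool.Agent.MP_efb2da_gt.Emb
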