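import Pool.Agent.MP_efb2da_gt.Emb.St
import Pool.Agent.MP_920d98_co.Jordan

section

/-! Extension of `C¹` maps across the boundary of the half plane. -/

open scoped Manifold ContDiff RealInnerProductSpace Topology ENNReal
open Set MeasureTheory Filter Metric

noncomputable section

namespace Pool.Agent.MP_efb2da_gt.Emb

/-- the first coordinate is multiplied by `a` -/
def sc_Ext (a : ℝ) : E2 →L[ℝ] E2 :=
  ContinuousLinearMap.id ℝ E2 +
    (a - 1) • (EuclideanSpace.proj (0 : Fin 2) : E2 →L[ℝ] ℝ).smulRight (EuclideanSpace.single 0 1)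

lemma sc0_Ext (a : ℝ) (x : E2) : sc_Ext a x 0 = a * x 0 := by
  simp [sc_Ext]
  ring

lemma sc1_Ext (a : ℝ) (x : E2) : sc_Ext a x 1 = x 1 := by
  simp [sc_Ext]

lemma scl_Ext (a : ℝ) {x : E2} (h : x 0 = 0) : sc_Ext a x = x := by
  ext i
  fin_cases i
  · simp [sc0_Ext, h]
  · simp [sc1_Ext]

lemma two_Ext (x : E2) : (2 : ℝ) • sc_Ext 0 x - sc_Ext (-1) x = x := by
  ext i
  fin_cases i
  · simp [sc0_Ext]
  · simp [sc1_Ext]
    ring

lemma ball_Ext {a : ℝ} (ha : a ^ 2 ≤ 1) {x0 x : E2} {r : ℝ} (h0 : x0 0 = 0) (hx : x ∈ ball x0 r) :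
    sc_Ext a x ∈ ball x0 r := by
  rw [mem_ball] at hx ⊢
  refine lt_of_le_of_lt ?_ hx
  rw [EuclideanSpace.dist_eq, EuclideanSpace.dist_eq]
  refine Real.sqrt_le_sqrt ?_
  simp only [Fin.sum_univ_two, sc0_Ext, sc1_Ext, h0, Real.dist_eq, sq_abs, sub_zero, mul_pow]
  nlinarith [sq_nonneg (x 0)]

lemma uniq_Ext : UniqueDiffOn ℝ halfPlane := by
  have e : range (𝓡∂ 2) = halfPlane := range_modelWithCornersEuclideanHalfSpace 2
  rw [← e]
  exact (𝓡∂ 2).uniqueDiffOn

theorem Ext_pf : SExt := by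
  classical
  intro F O x0 hO hF hx0
  have c : Continuous fun x : E2 => x 0 := by fun_prop
  obtain ⟨r, r0, r1, r2⟩ : ∃ r > 0, ball x0 r ⊆ O ∧ ∀ x ∈ ball x0 r, x 0 ≤ 0 →
      sc_Ext 0 x ∈ ball x0 r ∧ sc_Ext (-1) x ∈ ball x0 r := by
    rcases (show 0 ≤ x0 0 from hx0.2).eq_or_lt with h | h
    · obtain ⟨r, r0, r1⟩ := Metric.isOpen_iff.1 hO x0 hx0.1
      exact ⟨r, r0, r1, fun x hx _ =>
        ⟨ball_Ext (by norm_num) h.symm hx, ball_Ext (by norm_num) h.symm hx⟩⟩
    · obtain ⟨r, r0, r1⟩ := Metric.isOpen_iff.1 (hO.inter (isOpen_lt continuous_const c)) x0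
        ⟨hx0.1, h⟩
      exact ⟨r, r0, fun x hx => (r1 hx).1, fun x hx h' => absurd (r1 hx).2 (not_lt.2 h')⟩
  obtain ⟨D, hD⟩ : ∃ D, D = fderivWithin ℝ F halfPlane := ⟨_, rfl⟩
  have e0 : ∀ x ∈ O ∩ halfPlane, fderivWithin ℝ F (O ∩ halfPlane) x = D x := fun x hx => by
    rw [inter_comm, fderivWithin_inter (hO.mem_nhds hx.1), hD]
  have cD : ContinuousOn D (O ∩ halfPlane) :=
    (hF.continuousOn_fderivWithin (inter_comm _ _ ▸ uniq_Ext.inter hO) le_rfl).congr
      fun x hx => (e0 x hx).symm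
  have dF : ∀ x ∈ O ∩ halfPlane, HasFDerivWithinAt F (D x) halfPlane x := fun x hx => by
    have := (hF.differentiableOn one_ne_zero x hx).hasFDerivWithinAt
    rwa [e0 x hx, inter_comm, hasFDerivWithinAt_inter (hO.mem_nhds hx.1)] at this
  obtain ⟨N, hN⟩ : ∃ N : Set E2, N = {x | x 0 ≤ 0} := ⟨_, rfl⟩
  have mN : ∀ x, x ∈ N ↔ x 0 ≤ 0 := fun x => by rw [hN]; rfl
  have cN : IsClosed N := hN ▸ isClosed_le c continuous_const
  have cP : IsClosed halfPlane := isClosed_le continuous_const c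
  have un : halfPlane ∪ N = univ := eq_univ_of_forall fun x =>
    (le_total 0 (x 0)).imp id (mN x).2
  have m0 : MapsTo (sc_Ext 0) N halfPlane := fun x _ => by
    show 0 ≤ sc_Ext 0 x 0
    simp [sc0_Ext]
  have m1 : MapsTo (sc_Ext (-1)) N halfPlane := fun x hx => by
    show 0 ≤ sc_Ext (-1) x 0
    simpa [sc0_Ext] using (mN x).1 hx
  have n0 : MapsTo (sc_Ext 0) (ball x0 r ∩ N) (O ∩ halfPlane) := fun x hx =>
    ⟨r1 (r2 x hx.1 ((mN x).1 hx.2)).1, m0 hx.2⟩
  have n1 : MapsTo (sc_Ext (-1)) (ball x0 r ∩ N) (O ∩ halfPlane) := fun x hx =>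
    ⟨r1 (r2 x hx.1 ((mN x).1 hx.2)).2, m1 hx.2⟩
  obtain ⟨G, g1, g2⟩ : ∃ G : E2 → E3, (∀ x ∈ halfPlane, G x = F x) ∧
      ∀ x ∈ N, G x = (2 : ℝ) • F (sc_Ext 0 x) - F (sc_Ext (-1) x) := by
    refine ⟨fun x => if 0 ≤ x 0 then F x else (2 : ℝ) • F (sc_Ext 0 x) - F (sc_Ext (-1) x),
      fun x hx => if_pos hx, fun x hx => ?_⟩
    dsimp only
    split_ifs with h
    · have h' : x 0 = 0 := le_antisymm ((mN x).1 hx) h
      rw [scl_Ext _ h', scl_Ext _ h', two_smul, add_sub_cancel_right]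
    · rfl
  obtain ⟨G', d1, d2⟩ : ∃ G' : E2 → E2 →L[ℝ] E3, (∀ x ∈ halfPlane, G' x = D x) ∧
      ∀ x ∈ N, G' x = (2 : ℝ) • (D (sc_Ext 0 x)).comp (sc_Ext 0) -
        (D (sc_Ext (-1) x)).comp (sc_Ext (-1)) := by
    refine ⟨fun x => if 0 ≤ x 0 then D x else (2 : ℝ) • (D (sc_Ext 0 x)).comp (sc_Ext 0) -
      (D (sc_Ext (-1) x)).comp (sc_Ext (-1)), fun x hx => if_pos hx, fun x hx => ?_⟩
    dsimp only
    split_ifs with h
    · have h' : x 0 = 0 := le_antisymm ((mN x).1 hx) h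
      rw [scl_Ext _ h', scl_Ext _ h']
      refine ContinuousLinearMap.ext fun v => ?_
      rw [sub_apply, smul_apply,
        ContinuousLinearMap.comp_apply, ContinuousLinearMap.comp_apply, ← map_smul, ← map_sub,
        two_Ext]
    · rfl
  have dG : ∀ x ∈ ball x0 r, HasFDerivAt G (G' x) x := fun x hx => by
    rw [← hasFDerivWithinAt_univ, ← un]
    refine HasFDerivWithinAt.union ?_ ?_
    · by_cases h : x ∈ halfPlane
      · rw [d1 x h]
        exact (dF x ⟨r1 hx, h⟩).congr g1 (g1 x h)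
      · exact .of_notMem_closure (by rwa [cP.closure_eq])
    · by_cases h : x ∈ N
      · rw [d2 x h]
        exact ((((dF _ (n0 ⟨hx, h⟩)).comp x (sc_Ext 0).hasFDerivWithinAt m0).const_smul
          (2 : ℝ)).sub ((dF _ (n1 ⟨hx, h⟩)).comp x (sc_Ext (-1)).hasFDerivWithinAt m1)).congr g2
          (g2 x h)
      · exact .of_notMem_closure (by rwa [cN.closure_eq])
  have cG : ContinuousOn G' (ball x0 r) := fun x hx => by
    rw [← inter_univ (ball x0 r), ← un, inter_union_distrib_left]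
    refine ContinuousWithinAt.union ?_ ?_
    · by_cases h : x ∈ halfPlane
      · exact ((cD.mono (inter_subset_inter_left _ r1)).congr fun y hy => d1 y hy.2) x ⟨hx, h⟩
      · exact continuousWithinAt_of_notMem_closure fun h' =>
          h (cP.closure_subset_iff.2 inter_subset_right h')
    · by_cases h : x ∈ N
      · exact (((((cD.comp (sc_Ext 0).continuous.continuousOn n0).clm_comp
          continuousOn_const).const_smul (2 : ℝ)).sub
          ((cD.comp (sc_Ext (-1)).continuous.continuousOn n1).clm_comp continuousOn_const)).congr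
          fun y hy => d2 y hy.2) x ⟨hx, h⟩
      · exact continuousWithinAt_of_notMem_closure fun h' =>
          h (cN.closure_subset_iff.2 inter_subset_right h')
  refine ⟨r, r0, G, r1, fun x hx => ?_, fun x hx => ⟨g1 x hx.2, ?_⟩⟩
  · exact (contDiffAt_one_iff.2 ⟨G', _, isOpen_ball.mem_nhds hx, cG, dG⟩).contDiffWithinAt
  · rw [(dG x hx.1).fderiv, d1 x hx.2, hD]

end Pool.Agent.MP_efb2da_gt.Emb

end

end

section

/-! Partition of unity and elementary facts on the divergence. -/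

open scoped Manifold ContDiff RealInnerProductSpace Topology ENNReal
open Set MeasureTheory Filter Metric

noncomputable section

namespace Pool.Agent.MP_efb2da_gt.Emb

theorem Glue_pf : SGlue := by
  intro V Cl L hs ha hl X hX hc hV
  suffices h : ∃ U, IsOpen U ∧ tsupport X ⊆ U ∧ ∀ Y, Cl Y → tsupport Y ⊆ U → L Y = 0 by
    obtain ⟨U, -, h1, h2⟩ := h
    exact h2 X hX h1
  refine hc.isCompact.induction_on
    (p := fun s => ∃ U, IsOpen U ∧ s ⊆ U ∧ ∀ Y, Cl Y → tsupport Y ⊆ U → L Y = 0) ?_ ?_ ?_ ?_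
  · refine ⟨∅, isOpen_empty, Subset.rfl, fun Y hY h => ?_⟩
    obtain rfl : Y = 0 := tsupport_eq_empty_iff.1 (subset_empty_iff.1 h)
    have := ha 0 0 hY hY
    rw [add_zero] at this
    linarith
  · rintro s t hst ⟨U, h1, h2, h3⟩
    exact ⟨U, h1, hst.trans h2, h3⟩
  · rintro s t ⟨U, h1, h2, h3⟩ ⟨U', h1', h2', h3'⟩
    refine ⟨U ∪ U', h1.union h1', union_subset_union h2 h2', fun Y hY h => ?_⟩
    obtain ⟨g, g0, g1, -⟩ := exists_contMDiffMap_zero_one_nhds_of_isClosed (n := ⊤) 𝓘(ℝ, E3)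
      ((isClosed_tsupport Y).sdiff h1) ((isClosed_tsupport Y).sdiff h1')
      (disjoint_left.2 fun x a b => (h a.1).elim a.2 b.2)
    have hg : ContDiff ℝ ∞ g := g.contMDiff.contDiff
    have key : ∀ (k : E3 → ℝ) (W : Set E3), (∀ᶠ x in 𝓝ˢ (tsupport Y \ W), k x = 0) →
        tsupport (fun x => k x • Y x) ⊆ W := fun k W hk x hx => by
      by_contra c
      have := eventually_nhdsSet_iff_forall.1 hk x ⟨tsupport_smul_subset_right k Y hx, c⟩
      exact notMem_tsupport_iff_eventuallyEq.2 (this.mono fun y hy => by simp [hy]) hx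
    have e : Y = (fun x => g x • Y x) + fun x => (1 - g x) • Y x := by
      ext1 x
      simp [sub_smul]
    have c2 := hs Y hY (fun x => 1 - g x) (contDiff_const.sub hg)
    rw [e, ha _ _ (hs Y hY g hg) c2, h3 _ (hs Y hY g hg) (key _ _ g0),
      h3' _ c2 (key _ _ (g1.mono fun x hx => by rw [hx, sub_self])), add_zero]
  · intro x hx
    obtain ⟨U, hU, h⟩ := hl x (hV hx)
    exact ⟨interior U, mem_nhdsWithin_of_mem_nhds (interior_mem_nhds.2 hU), interior U,
      isOpen_interior, Subset.rfl, fun Y hY h' => h Y hY (h'.trans interior_subset)⟩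

theorem comp_Glue {X : E3 → E3} (h : C1c X) (j : Fin 3) :
    ContDiff ℝ 1 (fun x => X x j) ∧ HasCompactSupport (fun x => X x j) ∧
      ∀ x v, HasLineDerivAt ℝ (fun x => X x j) (fderiv ℝ X x v j) x v :=
  ⟨(EuclideanSpace.proj j : E3 →L[ℝ] ℝ).contDiff.comp h.1,
    h.2.comp_left (g := fun y : E3 => y j) rfl, fun x v =>
    ((EuclideanSpace.proj j : E3 →L[ℝ] ℝ).hasFDerivAt.comp x
      (h.1.differentiable one_ne_zero x).hasFDerivAt).hasLineDerivAt v⟩

theorem pD_Glue {X : E3 → E3} (h : C1c X) (i j : Fin 3) :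
    Continuous (fun x => pD X x i j) ∧ Integrable (fun x => pD X x i j) ∧
      ∀ x ∉ tsupport X, pD X x i j = 0 := by
  have c : Continuous fun x => pD X x i j := (EuclideanSpace.proj j : E3 →L[ℝ] ℝ).continuous.comp
    ((h.1.continuous_fderiv one_ne_zero).clm_apply continuous_const)
  have z : ∀ x ∉ tsupport X, pD X x i j = 0 := fun x hx => by
    simp [pD, fderiv_of_notMem_tsupport ℝ hx]
  exact ⟨c, c.integrable_of_hasCompactSupport (HasCompactSupport.intro h.2.isCompact z), z⟩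

theorem tan_Glue {X : E3 → E3} (h : C1c X) {s : Set E3} (hs : MeasurableSet s) (i j : Fin 3)
    (hi : ∀ (x : E3) (t : ℝ), x + t • EuclideanSpace.single i (1 : ℝ) ∈ s ↔ x ∈ s) :
    ∫ x in s, pD X x i j = 0 := by
  obtain ⟨c1, c2, c3⟩ := comp_Glue h j
  have e : ∀ u : E3 → ℝ, (fun x => s.indicator (fun _ => (1 : ℝ)) x * u x) = s.indicator u :=
    fun u => funext fun x => by by_cases hx : x ∈ s <;> simp [hx]
  have := integral_bilinear_hasLineDerivAt_right_eq_neg_left_of_integrable (μ := volume)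
    (f := s.indicator fun _ => (1 : ℝ)) (f' := fun _ => 0) (g := fun x => X x j)
    (g' := fun x => pD X x i j) (v := EuclideanSpace.single i 1) (B := ContinuousLinearMap.mul ℝ ℝ)
    (by simp) (by
      simp only [ContinuousLinearMap.mul_apply', e]
      exact (pD_Glue h i j).2.1.indicator hs) (by
      simp only [ContinuousLinearMap.mul_apply', e]
      exact (c1.continuous.integrable_of_hasCompactSupport c2).indicator hs)
    (fun x _ => by
      have : (fun t : ℝ => s.indicator (fun _ => (1 : ℝ)) (x + t • EuclideanSpace.single i 1)) =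
          fun _ => s.indicator (fun _ => (1 : ℝ)) x := funext fun t => by
        by_cases hx : x ∈ s
        · simp [hx, (hi x t).2 hx]
        · simp [hx, mt (hi x t).1 hx]
      rw [HasLineDerivAt, this]
      exact hasDerivAt_const _ _)
    fun x _ => c3 x _
  simpa only [ContinuousLinearMap.mul_apply', e, integral_indicator hs, zero_mul, integral_zero,
    neg_zero] using this

theorem plane_Glue : volume {x : E3 | x 2 = 0} = 0 := by
  refine Measure.addHaar_submodule volume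
    (LinearMap.ker (EuclideanSpace.proj (2 : Fin 3) : E3 →L[ℝ] ℝ).toLinearMap) fun h => ?_
  have : EuclideanSpace.single (2 : Fin 3) (1 : ℝ) ∈
    LinearMap.ker (EuclideanSpace.proj (2 : Fin 3) : E3 →L[ℝ] ℝ).toLinearMap := h ▸ trivial
  simp at this

theorem nor_Glue {X : E3 → E3} (h : C1c X) (ht : Tg X) :
    ∫ x in {x : E3 | 0 < x 2}, pD X x 2 2 = 0 := by
  obtain ⟨c1, c2, c3⟩ := comp_Glue h 2
  obtain ⟨C, hC⟩ := c1.lipschitzWith_of_hasCompactSupport c2 one_ne_zero
  have c0 : Continuous fun x : E3 => x 2 := (EuclideanSpace.proj 2 : E3 →L[ℝ] ℝ).continuous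
  set v : E3 := EuclideanSpace.single 2 1 with hv
  set g : E3 → ℝ := fun x => X (x + max (-x 2) 0 • v) 2 with hg
  have l1 := LipschitzWith.id.add ((ContinuousLinearMap.toSpanSingleton ℝ v).lipschitz.comp
    ((EuclideanSpace.proj (2 : Fin 3) : E3 →L[ℝ] ℝ).lipschitz.neg.max_const 0))
  have l2 : LipschitzWith _ g := hC.comp l1
  have g0 : ∀ x : E3, x 2 ≤ 0 → g x = 0 := fun x hx => ht _ (by
    simp [hv, max_eq_left (neg_nonneg.2 hx)])
  have g1 : ∀ x : E3, 0 < x 2 → g x = X x 2 := fun x hx => by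
    simp [hg, max_eq_right (neg_nonpos.2 hx.le)]
  have := (LipschitzWith.const (1 : ℝ)).integral_lineDeriv_mul_eq (μ := volume) l2
    (HasCompactSupport.intro h.2.isCompact fun x hx => by
      rcases le_or_gt (x 2) 0 with c | c
      · exact g0 x c
      · rw [g1 x c, image_eq_zero_of_notMem_tsupport hx]
        rfl) (-v)
  have o1 : IsOpen {x : E3 | 0 < x 2} := isOpen_lt continuous_const c0
  have o2 : IsOpen {x : E3 | x 2 < 0} := isOpen_lt c0 continuous_const
  rw [← integral_indicator o1.measurableSet]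
  simp only [lineDeriv, deriv_const, zero_mul, integral_zero, neg_neg, mul_one] at this
  refine (integral_congr_ae ((measure_eq_zero_iff_ae_notMem.1 plane_Glue).mono
    fun x hx => ?_)).trans this.symm
  rcases lt_or_gt_of_ne (show x 2 ≠ 0 from hx) with c | c
  · have e : g =ᶠ[𝓝 x] fun _ => 0 := (o2.eventually_mem c).mono fun y hy => g0 y (le_of_lt hy)
    rw [indicator_of_notMem (show x ∉ {x : E3 | 0 < x 2} from c.not_gt)]
    exact (e.lineDeriv_eq.trans (by simp [lineDeriv])).symm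
  · have e : g =ᶠ[𝓝 x] fun x => X x 2 := (o1.eventually_mem c).mono g1
    rw [indicator_of_mem (show x ∈ {x : E3 | 0 < x 2} from c)]
    exact (e.lineDeriv_eq.trans (c3 x v).lineDeriv).symm

theorem int_Glue {X : E3 → E3} (h : C1c X) (s : Set E3) : ∫ x in s, dv X x =
    (∫ x in s, pD X x 0 0) + (∫ x in s, pD X x 1 1) + ∫ x in s, pD X x 2 2 := by
  have i0 := (pD_Glue h 0 0).2.1.integrableOn (s := s)
  have i1 := (pD_Glue h 1 1).2.1.integrableOn (s := s)
  have i2 := (pD_Glue h 2 2).2.1.integrableOn (s := s)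
  rw [← integral_add i0 i1]
  exact integral_add (i0.add i1) i2

theorem cont_Glue {X : E3 → E3} (h : C1c X) :
    Continuous (dv X) ∧ Integrable (dv X) ∧ ∀ x ∉ tsupport X, dv X x = 0 := by
  have e : dv X = (fun x => pD X x 0 0) + (fun x => pD X x 1 1) + fun x => pD X x 2 2 := rfl
  refine ⟨?_, ?_, fun x hx => ?_⟩
  · rw [e]
    exact ((pD_Glue h 0 0).1.add (pD_Glue h 1 1).1).add (pD_Glue h 2 2).1
  · rw [e]
    exact ((pD_Glue h 0 0).2.1.add (pD_Glue h 1 1).2.1).add (pD_Glue h 2 2).2.1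
  · rw [dv, (pD_Glue h 0 0).2.2 x hx, (pD_Glue h 1 1).2.2 x hx, (pD_Glue h 2 2).2.2 x hx]
    simp

theorem add_Glue {X Y : E3 → E3} (hX : C1c X) (hY : C1c Y) : dv (X + Y) = dv X + dv Y := by
  ext x
  have e := fderiv_add (hX.1.differentiable one_ne_zero x) (hY.1.differentiable one_ne_zero x)
  simp only [dv, pD, Pi.add_apply, e, add_apply, PiLp.add_apply]
  ring

theorem cut_Glue (R : ℝ) :
    ∃ g : E3 → ℝ, ContDiff ℝ ∞ g ∧ HasCompactSupport g ∧ ∀ x ∈ ball (0 : E3) R, g x = 1 := by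
  let b : ContDiffBump (0 : E3) := ⟨|R| + 1, |R| + 2, by positivity, by linarith⟩
  exact ⟨b, b.contDiff, b.hasCompactSupport, fun x hx => b.one_of_mem_closedBall
    (ball_subset_closedBall (ball_subset_ball (by
      have := le_abs_self R
      change R ≤ |R| + 1
      linarith) hx))⟩

theorem Div_pf : SDiv := by
  refine ⟨fun X h => ?_, fun X h ht => ?_, fun X h => cont_Glue h, fun X Y => add_Glue,
    fun X h g hg => ?_, plane_Glue, cut_Glue⟩
  · have t := fun i => tan_Glue h MeasurableSet.univ i i fun _ _ => Iff.rfl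
    rw [← setIntegral_univ, int_Glue h, t, t, t]
    simp
  · have m : MeasurableSet {x : E3 | 0 < x 2} := (isOpen_lt continuous_const
      (EuclideanSpace.proj 2 : E3 →L[ℝ] ℝ).continuous).measurableSet
    rw [int_Glue h, tan_Glue h m 0 0 (by simp), tan_Glue h m 1 1 (by simp), nor_Glue h ht]
    simp
  · have c : ContDiff ℝ 1 g := hg.of_le (by simp)
    refine ⟨c.smul h.1, HasCompactSupport.intro h.2.isCompact fun x hx => ?_⟩
    rw [image_eq_zero_of_notMem_tsupport hx, smul_zero]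

end Pool.Agent.MP_efb2da_gt.Emb

end

end

section

/-! The area inequality with multiplicity. -/

open scoped Manifold ContDiff RealInnerProductSpace Topology ENNReal
open Set MeasureTheory Filter Metric

noncomputable section

namespace Pool.Agent.MP_efb2da_gt.Emb

/-- the cube of the grid of mesh `1 / n` that holds `y` -/
def cube_Mult (n : ℕ) (y : E3) : Fin 3 → ℤ := fun i => ⌊(n : ℝ) * y i⌋

theorem meas_Mult (n : ℕ) : Measurable (cube_Mult n) :=
  measurable_pi_lambda _ fun i => Int.measurable_floor.comp (by fun_prop)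

theorem sep_Mult {y y' : E3} (h : y ≠ y') : ∀ᶠ n in atTop, cube_Mult n y ≠ cube_Mult n y' := by
  obtain ⟨i, hi⟩ : ∃ i, y i ≠ y' i := by
    by_contra! h'
    exact h (by ext i; exact h' i)
  have h1 : 0 < |y i - y' i| := abs_pos.2 (sub_ne_zero.2 hi)
  filter_upwards [(tendsto_natCast_atTop_atTop.atTop_mul_const h1).eventually_ge_atTop 1]
    with n hn e
  have h2 := Int.abs_sub_lt_one_of_floor_eq_floor (congrFun e i)
  rw [← mul_sub, abs_mul, Nat.abs_cast] at h2
  linarith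

theorem Mult_pf : SMult := by
  classical
  intro s Φ Φ' hs hΦ
  obtain ⟨P, hP⟩ : ∃ P : ℕ → (Fin 3 → ℤ) → Set E3, ∀ n z, P n z = s ∩ cube_Mult n ⁻¹' {z} :=
    ⟨_, fun _ _ => rfl⟩
  have hm : ∀ n z, MeasurableSet (P n z) := fun n z =>
    hP n z ▸ hs.inter (meas_Mult n (measurableSet_singleton z))
  obtain ⟨k, hk⟩ : ∃ k : ℕ → E3 → ℝ≥0∞, ∀ n, k n = fun x =>
      ∑' z, (toMeasurable volume (Φ '' P n z)).indicator 1 x := ⟨_, fun _ => rfl⟩
  have h1 : ∀ n z, Measurable ((toMeasurable volume (Φ '' P n z)).indicator (1 : E3 → ℝ≥0∞)) :=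
    fun n z => measurable_one.indicator (measurableSet_toMeasurable _ _)
  have h2 : ∀ n, Measurable (k n) := fun n => hk n ▸ Measurable.tsum (h1 n)
  have h3 : ∀ n, ∫⁻ x, k n x ≤ ∫⁻ y in s, ENNReal.ofReal |(Φ' y).det| := fun n => by
    have e : s = ⋃ z, P n z := by
      ext y
      simp [hP]
    rw [hk, lintegral_tsum fun z => (h1 n z).aemeasurable]
    conv_rhs => rw [e]
    rw [lintegral_iUnion (hm n) fun z z' h => ?_]
    · refine ENNReal.tsum_le_tsum fun z => ?_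
      rw [lintegral_indicator_one (measurableSet_toMeasurable _ _), measure_toMeasurable]
      exact addHaar_image_le_lintegral_abs_det_fderiv volume (hm n z) fun y hy =>
        (hΦ y (hP n z ▸ hy).1).mono (hP n z ▸ inter_subset_left)
    · rw [Function.onFun, hP, hP, Set.disjoint_left]
      exact fun y a b => h (a.2.symm.trans b.2)
  refine ⟨fun x => liminf (fun n => k n x) atTop, Measurable.liminf h2,
    (lintegral_liminf_le h2).trans (liminf_le_of_frequently_le' (.of_forall h3)), fun x T hT => ?_⟩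
  have h4 : ∀ᶠ n in atTop, ∀ y ∈ T, ∀ y' ∈ T, y ≠ y' → cube_Mult n y ≠ cube_Mult n y' :=
    (eventually_all_finset T).2 fun y _ => (eventually_all_finset T).2 fun y' _ => by
      by_cases h : y = y'
      · exact .of_forall fun n h' => absurd h h'
      · exact (sep_Mult h).mono fun n h' _ => h'
  refine le_liminf_of_le (h := h4.mono fun n hn => ?_)
  rw [hk, ← Finset.card_image_of_injOn (f := cube_Mult n) fun y a y' b e =>
    by_contra fun h => hn y a y' b h e]
  refine le_trans ?_ (ENNReal.sum_le_tsum (T.image (cube_Mult n)))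
  rw [Finset.card_eq_sum_ones, Nat.cast_sum]
  refine Finset.sum_le_sum fun z hz => ?_
  obtain ⟨y, hy, rfl⟩ := Finset.mem_image.1 hz
  have h5 : x ∈ Φ '' P n (cube_Mult n y) := ⟨y, hP n _ ▸ ⟨(hT y hy).1, rfl⟩, (hT y hy).2⟩
  rw [indicator_of_mem (subset_toMeasurable _ _ h5)]
  simp

end Pool.Agent.MP_efb2da_gt.Emb

end

end

section

/-! The surface is a null set; a simple closed curve inside a circle is the circle. -/

open scoped Manifold ContDiff RealInnerProductSpace Topology ENNReal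
open Set MeasureTheory Filter Metric

noncomputable section

namespace Pool.Agent.MP_efb2da_gt.Emb

theorem plane_Null : volume {y : E3 | y 2 = 0} = 0 := by
  refine Measure.addHaar_submodule volume
    (LinearMap.ker (EuclideanSpace.proj (2 : Fin 3) : E3 →L[ℝ] ℝ).toLinearMap) fun h => ?_
  have h1 : e3 ∈ LinearMap.ker (EuclideanSpace.proj (2 : Fin 3) : E3 →L[ℝ] ℝ).toLinearMap := by
    rw [h]
    trivial
  simp [e3] at h1

theorem pr_Null : Differentiable ℝ pr := by
  refine differentiable_euclidean.2 fun i => ?_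
  fin_cases i <;> simp [pr] <;> fun_prop

theorem loop_Null {g : ℝ → ℝ} (hg : Continuous g) (h1 : g 1 = g 0) (hi : InjOn g (Ico 0 1)) :
    False := by
  have hc : Continuous fun t => g (t + 1 / 2) - g t := by fun_prop
  have e : (1 / 2 + 1 / 2 : ℝ) = 1 := by norm_num
  obtain ⟨t, ht, h2⟩ := intermediate_value_uIcc (a := 0) (b := 1 / 2) hc.continuousOn
    (show (0 : ℝ) ∈ _ by
      simp only [zero_add, e, h1, mem_uIcc]
      rcases le_total (g (1 / 2)) (g 0) with h | h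
      · exact Or.inl ⟨by linarith, by linarith⟩
      · exact Or.inr ⟨by linarith, by linarith⟩)
  rw [uIcc_of_le (by norm_num)] at ht
  have h3 := sub_eq_zero.1 h2
  rcases ht.2.eq_or_lt with h | h
  · rw [h, e, h1] at h3
    have := hi ⟨le_rfl, one_pos⟩ ⟨by norm_num, by norm_num⟩ h3
    norm_num at this
  · have := hi ⟨by linarith [ht.1], by linarith⟩ ⟨ht.1, by linarith⟩ h3
    linarith

theorem alg_Null {y0 y1 u0 u1 w0 w1 : ℝ} (hn : 0 < y0 ^ 2 + y1 ^ 2) (hm : 0 < u0 ^ 2 + u1 ^ 2)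
    (h1 : y0 ^ 2 + y1 ^ 2 = 2 * (y0 * w0 + y1 * w1))
    (h2 : u0 ^ 2 + u1 ^ 2 = 2 * (u0 * w0 + u1 * w1))
    (h : (y0 * w1 - y1 * w0) / (y0 ^ 2 + y1 ^ 2) = (u0 * w1 - u1 * w0) / (u0 ^ 2 + u1 ^ 2)) :
    y0 = u0 ∧ y1 = u1 := by
  have key : ∀ {a b t : ℝ}, 0 < a ^ 2 + b ^ 2 → a ^ 2 + b ^ 2 = 2 * (a * w0 + b * w1) →
      a * w1 - b * w0 = t * (a ^ 2 + b ^ 2) →
      (a ^ 2 + b ^ 2) * (1 / 4 + t ^ 2) = w0 ^ 2 + w1 ^ 2 := by
    intro a b t k0 k1 k2
    refine mul_left_cancel₀ k0.ne' ?_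
    linear_combination (a ^ 2 + b ^ 2 + 2 * (a * w0 + b * w1)) / 4 * k1 -
      (a * w1 - b * w0 + t * (a ^ 2 + b ^ 2)) * k2
  obtain ⟨t, ht⟩ : ∃ t, (u0 * w1 - u1 * w0) / (u0 ^ 2 + u1 ^ 2) = t := ⟨_, rfl⟩
  rw [ht, div_eq_iff hn.ne'] at h
  rw [div_eq_iff hm.ne'] at ht
  have k1 := key hn h1 h
  have k2 := key hm h2 ht
  have k3 : (0 : ℝ) < 1 / 4 + t ^ 2 := by positivity
  have k4 := mul_right_cancel₀ k3.ne' (k1.trans k2.symm)
  have k5 : w0 ^ 2 + w1 ^ 2 ≠ 0 := k1 ▸ (mul_pos hn k3).ne'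
  refine ⟨mul_left_cancel₀ k5 ?_, mul_left_cancel₀ k5 ?_⟩
  · linear_combination w0 / 2 * (k4 - h1 + h2) + w1 * (h - ht + t * k4)
  · linear_combination w1 / 2 * (k4 - h1 + h2) - w0 * (h - ht + t * k4)

theorem sph_Null {x c : E2} {R : ℝ} (h : x ∈ sphere c R) :
    (x 0 - c 0) ^ 2 + (x 1 - c 1) ^ 2 = R ^ 2 := by
  rw [← mem_sphere.1 h, EuclideanSpace.dist_sq_eq]
  simp [Real.dist_eq]

theorem Circ_pf : SCirc := by
  intro γ c R hc hp hi hs
  refine hs.antisymm fun z hz => by_contra fun hn => ?_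
  have h0 : ∀ t, 0 < (γ t 0 - z 0) ^ 2 + (γ t 1 - z 1) ^ 2 := fun t => by
    have h1 := sph_Null (mem_sphere.2 (rfl : dist (γ t) z = _))
    rw [h1]
    exact pow_pos (dist_pos.2 fun e => hn ⟨t, e⟩) 2
  have h1 : ∀ t, (γ t 0 - z 0) ^ 2 + (γ t 1 - z 1) ^ 2 =
      2 * ((γ t 0 - z 0) * (c 0 - z 0) + (γ t 1 - z 1) * (c 1 - z 1)) := fun t => by
    linear_combination sph_Null (hs ⟨t, rfl⟩) - sph_Null hz
  refine loop_Null (g := fun t => ((γ t 0 - z 0) * (c 1 - z 1) - (γ t 1 - z 1) * (c 0 - z 0)) /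
    ((γ t 0 - z 0) ^ 2 + (γ t 1 - z 1) ^ 2))
    (Continuous.div (by fun_prop) (by fun_prop) fun t => (h0 t).ne') ?_ fun s hs' t ht h => ?_
  · have e : γ 1 = γ 0 := by simpa using hp 0
    simp only [e]
  · obtain ⟨e0, e1⟩ := alg_Null (h0 s) (h0 t) (h1 s) (h1 t) h
    refine hi hs' ht (PiLp.ext fun i => ?_)
    fin_cases i
    exacts [sub_left_injective e0, sub_left_injective e1]

variable {M : Type} [TopologicalSpace M] [T2Space M] [CompactSpace M] [ConnectedSpace M]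
  [MeasurableSpace M] [BorelSpace M]

theorem Null_pf (E : Dat M) : SNull E := by
  intro h
  obtain ⟨t, ht⟩ := isCompact_univ.elim_finite_subcover (fun p => (E.c p).S)
    (fun p => (E.c p).oS) fun p _ => mem_iUnion.2 ⟨p, h.mem p⟩
  refine measure_mono_null (t := ⋃ p ∈ t, (fun y => E.F p (pr y)) ''
    {y : E3 | pr y ∈ E.T p ∧ y 2 = 0}) ?_ ((measure_biUnion_null_iff t.countable_toSet).2
      fun p _ => addHaar_image_eq_zero_of_differentiableOn_of_addHaar_eq_zero volume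
        (((h.sF p).differentiableOn (by simp)).comp pr_Null.differentiableOn fun y hy => hy.1)
        (measure_mono_null (fun y hy => hy.2) plane_Null))
  rintro _ ⟨q, rfl⟩
  obtain ⟨p, hp, hq⟩ := mem_iUnion₂.1 (ht (mem_univ q))
  have e : pr (incl ((E.c p).φ q)) = (E.c p).φ q := PiLp.ext fun i => by fin_cases i <;> rfl
  refine mem_iUnion₂.2 ⟨p, hp, incl ((E.c p).φ q), ⟨?_, rfl⟩, ?_⟩
  · rw [e]
    exact (E.c p).mφ hq
  · simp only [e, Dat.F, Function.comp_apply, (E.c p).li q hq]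

end Pool.Agent.MP_efb2da_gt.Emb

end

end

section

/-! The Cauchy kernel on a disc. -/

open scoped Manifold ContDiff RealInnerProductSpace Topology ENNReal
open Set MeasureTheory Filter Metric

noncomputable section

namespace Pool.Agent.MP_efb2da_gt.Emb

open Real in
theorem lint_Ker (ρ : ℝ) (hρ : 0 ≤ ρ) :
    ∫⁻ a in ball (0 : ℂ) ρ, ‖a⁻¹‖ₑ ≤ ENNReal.ofReal (2 * π * ρ) := by
  rw [← lintegral_indicator measurableSet_ball, ← Complex.lintegral_comp_polarCoord_symm]
  have hm : MeasurableSet (Ioo (0 : ℝ) ρ ×ˢ Ioo (-π) π) := measurableSet_Ioo.prod measurableSet_Ioo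
  refine ((setLIntegral_mono' (g := (Ioo 0 ρ ×ˢ Ioo (-π) π).indicator 1)
    polarCoord.open_target.measurableSet fun p hp => ?_).trans
      (setLIntegral_le_lintegral _ _)).trans_eq ?_
  · have h0 : 0 < p.1 := hp.1
    by_cases h : Complex.polarCoord.symm p ∈ ball (0 : ℂ) ρ
    · rw [indicator_of_mem h, ← ofReal_norm, norm_inv]
      rw [mem_ball_zero_iff] at h
      rw [Complex.norm_polarCoord_symm, abs_of_pos h0] at h ⊢
      rw [indicator_of_mem (show p ∈ Ioo 0 ρ ×ˢ Ioo (-π) π from ⟨⟨h0, h⟩, hp.2⟩), smul_eq_mul,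
        ← ENNReal.ofReal_mul h0.le, mul_inv_cancel₀ h0.ne', ENNReal.ofReal_one]
      rfl
    · rw [indicator_of_notMem h, smul_zero]
      exact zero_le
  · rw [lintegral_indicator_one hm, Measure.volume_eq_prod, Measure.prod_prod, volume_Ioo,
      volume_Ioo, ← ENNReal.ofReal_mul (by linarith)]
    congr 1
    ring

theorem lint2_Ker {R : ℝ} {z : ℂ} (h : ‖z‖ < R) :
    ∫⁻ a in ball (0 : ℂ) R, ‖(z - a)⁻¹‖ₑ ≤ ENNReal.ofReal (4 * Real.pi * R) := by
  have h1 := lint_Ker (2 * R) (by linarith [norm_nonneg z])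
  rw [← lintegral_indicator measurableSet_ball, ← lintegral_sub_left_eq_self _ z] at h1
  rw [← lintegral_indicator measurableSet_ball]
  refine (lintegral_mono fun a => ?_).trans (h1.trans_eq (by ring_nf))
  by_cases ha : a ∈ ball (0 : ℂ) R
  · have h2 : z - a ∈ ball (0 : ℂ) (2 * R) := mem_ball_zero_iff.2
      ((norm_sub_le _ _).trans_lt (by linarith [mem_ball_zero_iff.1 ha]))
    simp only [indicator_of_mem ha, indicator_of_mem h2, le_refl]
  · simp only [indicator_of_notMem ha, zero_le]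

open Real in
theorem avg_Ker {g : ℂ → ℂ} {ρ : ℝ} (hρ : 0 < ρ) (hg : DifferentiableOn ℂ g (closedBall 0 ρ)) :
    ∫ θ in Ioo (-π) π, g (Complex.polarCoord.symm (ρ, θ)) = 2 * π * g 0 := by
  have h1 : DiffContOnCl ℂ g (ball 0 |ρ|) := by
    rw [abs_of_pos hρ]
    exact (hg.mono closure_ball_subset_closedBall).diffContOnCl
  have h2 := h1.circleAverage
  rw [circleAverage_eq_integral_add (-π),
    intervalIntegral.integral_comp_add_right (fun θ => g (circleMap 0 ρ θ)), zero_add,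
    show 2 * π + -π = π by ring, intervalIntegral.integral_of_le (by linarith [pi_pos]),
    integral_Ioc_eq_integral_Ioo] at h2
  have h3 : (π : ℂ) ≠ 0 := Complex.ofReal_ne_zero.2 pi_ne_zero
  rw [← h2, Complex.real_smul]
  simp only [Complex.polarCoord_symm_apply, circleMap, zero_add, Complex.exp_mul_I,
    Complex.ofReal_cos, Complex.ofReal_sin]
  push_cast
  rw [mul_inv_cancel_left₀ (mul_ne_zero two_ne_zero h3)]

open Real in
theorem in_Ker {z : ℂ} {ρ : ℝ} (hρ : 0 < ρ) (h : ρ < ‖z‖) :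
    ∫ θ in Ioo (-π) π, (z - Complex.polarCoord.symm (ρ, θ))⁻¹ = 2 * π * z⁻¹ := by
  have h1 := avg_Ker (g := fun w => (z - w)⁻¹) hρ (DifferentiableOn.inv (by fun_prop)
    fun w hw e => by
      rw [sub_eq_zero.1 e] at h
      exact h.not_ge (mem_closedBall_zero_iff.1 hw))
  simpa only [sub_zero] using h1

open Real in
theorem out_Ker {z : ℂ} {ρ : ℝ} (h : ‖z‖ < ρ) :
    ∫ θ in Ioo (-π) π, (z - Complex.polarCoord.symm (ρ, θ))⁻¹ = 0 := by
  have hρ := (norm_nonneg z).trans_lt h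
  have h1 := avg_Ker (g := fun w => w / ((starRingEnd ℂ) z * w - (ρ : ℂ) ^ 2)) hρ
    (DifferentiableOn.div (by fun_prop) (by fun_prop) fun w hw e => by
      have h2 := congrArg norm (sub_eq_zero.1 e)
      rw [norm_mul, norm_pow, Complex.norm_conj, Complex.norm_real, norm_of_nonneg hρ.le] at h2
      have h3 := mem_closedBall_zero_iff.1 hw
      nlinarith [norm_nonneg z, norm_nonneg w])
  have h2 := congrArg (starRingEnd ℂ) h1
  rw [zero_div, mul_zero, map_zero, ← integral_conj] at h2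
  rw [← h2]
  refine integral_congr_ae (Eventually.of_forall fun θ => ?_)
  obtain ⟨w, hw⟩ : ∃ w, w = Complex.polarCoord.symm (ρ, θ) := ⟨_, rfl⟩
  have h3 : ‖w‖ = ρ := by rw [hw, Complex.norm_polarCoord_symm, abs_of_pos hρ]
  have h4 : (starRingEnd ℂ) w ≠ 0 := by
    rw [map_ne_zero, ← norm_pos_iff, h3]
    exact hρ
  simp only [← hw]
  rw [← h3, ← Complex.conj_mul', map_div₀, map_sub, map_mul, map_mul, Complex.conj_conj,
    Complex.conj_conj, ← sub_mul, div_mul_cancel_right₀ h4]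

open Real in
theorem Ker_pf : SKer := by
  intro R z h
  have hl := lint2_Ker h
  have hm : Measurable fun a : ℂ => (z - a)⁻¹ := by fun_prop
  have hi : IntegrableOn (fun a : ℂ => (z - a)⁻¹) (ball 0 R) :=
    ⟨hm.aestronglyMeasurable, hl.trans_lt ENNReal.ofReal_lt_top⟩
  refine ⟨hi, ?_, ?_⟩
  swap
  · rw [integral_norm_eq_lintegral_enorm hm.aestronglyMeasurable]
    exact ENNReal.toReal_le_of_le_ofReal
      (mul_nonneg (by positivity) ((norm_nonneg z).trans h.le)) hl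
  have hF := (integrable_indicator_iff measurableSet_ball).2 hi
  rw [← integral_indicator measurableSet_ball, ← Complex.integral_comp_polarCoord_symm]
  have hc : Measurable fun p : ℝ × ℝ => Complex.polarCoord.symm p := by
    simp only [Complex.polarCoord_symm_apply]
    fun_prop
  have hI : IntegrableOn (fun p : ℝ × ℝ => p.1 • (ball 0 R).indicator (fun a : ℂ => (z - a)⁻¹)
      (Complex.polarCoord.symm p)) (Ioi 0 ×ˢ Ioo (-π) π) (volume.prod volume) := by
    refine ⟨(measurable_fst.smul ((hm.indicator measurableSet_ball).comp hc)).aestronglyMeasurable,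
      ?_⟩
    have h1 := hF.2
    rw [HasFiniteIntegral, ← Complex.lintegral_comp_polarCoord_symm] at h1
    refine lt_of_eq_of_lt (setLIntegral_congr_fun polarCoord.open_target.measurableSet
      fun p hp => ?_) h1
    simp only [enorm_smul, smul_eq_mul]
    rw [enorm_eq_ofReal (le_of_lt hp.1)]
  refine (setIntegral_prod _ hI).trans ?_
  have h1 : ∀ᵐ ρ : ℝ, ρ ∈ Ioi 0 → ∫ θ in Ioo (-π) π, ρ • (ball 0 R).indicator
      (fun a : ℂ => (z - a)⁻¹) (Complex.polarCoord.symm (ρ, θ)) =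
      (Iio ‖z‖).indicator (fun ρ : ℝ => ρ • (2 * π * z⁻¹ : ℂ)) ρ := by
    filter_upwards [Measure.ae_ne volume ‖z‖] with ρ hne hρ
    have h2 : ∀ θ, Complex.polarCoord.symm (ρ, θ) ∈ ball (0 : ℂ) R ↔ ρ < R := fun θ => by
      rw [mem_ball_zero_iff, Complex.norm_polarCoord_symm, abs_of_pos hρ]
    have h5 : ρ < R → ∫ θ in Ioo (-π) π, (ball 0 R).indicator (fun a : ℂ => (z - a)⁻¹)
        (Complex.polarCoord.symm (ρ, θ)) =
        ∫ θ in Ioo (-π) π, (z - Complex.polarCoord.symm (ρ, θ))⁻¹ := fun h4 =>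
      integral_congr_ae (Eventually.of_forall fun θ => indicator_of_mem ((h2 θ).2 h4) _)
    rw [integral_smul]
    rcases hne.lt_or_gt with h3 | h3
    · rw [h5 (h3.trans h), in_Ker hρ h3, indicator_of_mem (mem_Iio.2 h3)]
    · rw [indicator_of_notMem (notMem_Iio.2 h3.le)]
      by_cases h4 : ρ < R
      · rw [h5 h4, out_Ker h3, smul_zero]
      · rw [integral_congr_ae (g := fun _ => 0) (Eventually.of_forall fun θ =>
          indicator_of_notMem (mt (h2 θ).1 h4) _), integral_zero, smul_zero]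
  rw [setIntegral_congr_ae measurableSet_Ioi h1, setIntegral_indicator measurableSet_Iio,
    Ioi_inter_Iio, ← integral_Ioc_eq_integral_Ioo,
    ← intervalIntegral.integral_of_le (norm_nonneg z), intervalIntegral.integral_smul_const,
    integral_id, Complex.real_smul]
  push_cast
  rw [← Complex.conj_mul']
  by_cases hz : z = 0
  · simp [hz]
  · field_simp
    ring

end Pool.Agent.MP_efb2da_gt.Emb

end

end

section

/-! The area enclosed by a simple closed curve is at most the modulus of the Green integral. -/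

open scoped Manifold ContDiff RealInnerProductSpace Topology ENNReal
open Set MeasureTheory Filter Metric

noncomputable section

namespace Pool.Agent.MP_efb2da_gt.Emb

open Pool.Agent.MP_920d98_co

theorem exp_int_Green {p p' : ℝ → ℂ} (hp : ∀ t, HasDerivAt p (p' t) t)
    (hc : Continuous p') (h0 : ∀ t, p t ≠ 0) (b : ℝ) :
    Complex.exp (∫ t in (0:ℝ)..b, p' t * (p t)⁻¹) * p 0 = p b := by
  have hpc : Continuous p := continuous_iff_continuousAt.2 fun t => (hp t).continuousAt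
  have hq : Continuous fun t => p' t * (p t)⁻¹ := hc.mul (hpc.inv₀ h0)
  have hM : ∀ t, HasDerivAt (fun s => ∫ x in (0:ℝ)..s, p' x * (p x)⁻¹) (p' t * (p t)⁻¹) t :=
    fun t => (hq.integral_hasStrictDerivAt 0 t).hasDerivAt
  have hφ : ∀ t,
      HasDerivAt (fun s => Complex.exp (-(∫ x in (0:ℝ)..s, p' x * (p x)⁻¹)) * p s) 0 t := by
    intro t
    have h1 := ((hM t).fun_neg.cexp).fun_mul (hp t)
    refine h1.congr_deriv ?_
    have := h0 t
    field_simp
    ring
  have hconst := is_const_of_deriv_eq_zero (fun t => (hφ t).differentiableAt)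
    (fun t => (hφ t).deriv) b 0
  simp only [intervalIntegral.integral_same, neg_zero, Complex.exp_zero, one_mul] at hconst
  rw [← hconst, ← mul_assoc, ← Complex.exp_add]
  simp

theorem wn_eq_Green (C : Curve) {Γ' : ℝ → ℂ} (hp : ∀ t, HasDerivAt C.Γ (Γ' t) t)
    (hc : Continuous Γ') {a : ℂ} (ha : a ∉ C.J) :
    C.wn a = ∫ t in (0:ℝ)..1, Γ' t * (C.Γ t - a)⁻¹ := by
  have h0 : ∀ t, C.Γ t - a ≠ 0 := fun t h => ha ⟨t, sub_eq_zero.1 h⟩
  have hq : Continuous fun t => Γ' t * (C.Γ t - a)⁻¹ :=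
    hc.mul ((C.cont.sub continuous_const).inv₀ h0)
  have hM : Continuous fun s => ∫ x in (0:ℝ)..s, Γ' x * (C.Γ x - a)⁻¹ :=
    continuous_iff_continuousAt.2 fun t =>
      (hq.integral_hasStrictDerivAt 0 t).hasDerivAt.continuousAt
  have hl : IsLift C.Γ 0 1 a
      fun s => (∫ x in (0:ℝ)..s, Γ' x * (C.Γ x - a)⁻¹) + Complex.log (C.Γ 0 - a) :=
    ⟨(hM.add continuous_const).continuousOn, fun s _ => by
      rw [Complex.exp_add, Complex.exp_log (h0 0)]
      exact exp_int_Green (p := fun t => C.Γ t - a) (fun t => (hp t).sub_const a) hc h0 s⟩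
  have := hl.inc_eq zero_le_one
  simpa [Curve.wn] using this

theorem null_Green {Γ : ℝ → ℂ} (h : Differentiable ℝ Γ) : volume (range Γ) = 0 := by
  have h1 : volume ((LinearMap.ker Complex.imLm : Submodule ℝ ℂ) : Set ℂ) = 0 :=
    Measure.addHaar_submodule _ _ fun h => by
      have : Complex.I ∈ LinearMap.ker Complex.imLm := h ▸ Submodule.mem_top
      simp at this
  have h2 := addHaar_image_eq_zero_of_differentiableOn_of_addHaar_eq_zero volume
    (f := fun z : ℂ => Γ z.re) ((h.comp Complex.reCLM.differentiable).differentiableOn) h1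
  refine measure_mono_null ?_ h2
  rintro _ ⟨t, rfl⟩
  exact ⟨t, by simp, by simp⟩

theorem vol_Green (hK : SKer) (C : Curve) {Γ' : ℝ → ℂ} (hp : ∀ t, HasDerivAt C.Γ (Γ' t) t)
    (hc : Continuous Γ') : MeasurableSet C.In ∧ volume C.In ≠ ⊤ ∧
      2 * volume.real C.In ≤ ‖∫ t in (0:ℝ)..1, Γ' t * (starRingEnd ℂ) (C.Γ t)‖ := by
  rcases C.In.eq_empty_or_nonempty with h | ⟨a0, ha0⟩
  · rw [h]; simp
  have hO : IsOpen C.In := by
    rw [← C.cc_In ha0]
    exact C.compact.isClosed.isOpen_compl.connectedComponentIn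
  obtain ⟨R, hR0, hR⟩ := C.compact.isBounded.exists_pos_norm_le
  have hΓ : ∀ t, ‖C.Γ t‖ < R + 1 := fun t => (hR _ (C.mem_J t)).trans_lt (lt_add_one R)
  have hsub : C.In ⊆ ball 0 (R + 1) := by
    intro a ha
    by_contra hn
    rw [mem_ball_zero_iff, not_lt] at hn
    obtain ⟨b0, hb0⟩ := C.Out_nonempty
    obtain ⟨b, hb, hb'⟩ := exists_far (C.Out_unbounded hb0) R
    exact C.not_In_of_Out (C.Out_const (isPreconnected_far R)
      (fun z hz h => (hR z h).not_gt hz) hb' (show R < ‖a‖ by linarith) hb) ha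
  have hfin : volume C.In ≠ ⊤ := ((measure_mono hsub).trans_lt measure_ball_lt_top).ne
  refine ⟨hO.measurableSet, hfin, ?_⟩
  obtain ⟨m, hm⟩ := C.wn_int ha0.1
  have hm0 : m ≠ 0 := by
    rintro rfl
    exact ha0.2 (by simpa using hm)
  have hmeas : AEStronglyMeasurable (Function.uncurry fun t a => Γ' t * (C.Γ t - a)⁻¹)
      ((volume.restrict (uIoc (0:ℝ) 1)).prod (volume.restrict (ball (0:ℂ) (R + 1)))) := by
    refine Measurable.aestronglyMeasurable ?_
    exact (hc.measurable.comp measurable_fst).mul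
      ((C.cont.measurable.comp measurable_fst).sub measurable_snd).inv
  have hint : Integrable (Function.uncurry fun t a => Γ' t * (C.Γ t - a)⁻¹)
      ((volume.restrict (uIoc (0:ℝ) 1)).prod (volume.restrict (ball (0:ℂ) (R + 1)))) := by
    rw [integrable_prod_iff hmeas]
    refine ⟨Eventually.of_forall fun t => (hK _ _ (hΓ t)).1.const_mul (Γ' t), ?_⟩
    refine Integrable.mono' (g := fun t => ‖Γ' t‖ * (4 * Real.pi * (R + 1)))
      (intervalIntegrable_iff.1 ((hc.norm.mul continuous_const).intervalIntegrable 0 1))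
      hmeas.norm.integral_prod_right' (Eventually.of_forall fun t => ?_)
    simp only [Function.uncurry_apply_pair, norm_mul]
    rw [integral_const_mul, Real.norm_of_nonneg
      (mul_nonneg (norm_nonneg _) (integral_nonneg fun _ => norm_nonneg _))]
    exact mul_le_mul_of_nonneg_left (hK _ _ (hΓ t)).2.2 (norm_nonneg _)
  have h1 := intervalIntegral_integral_swap hint
  have h2 : ∫ a in ball (0:ℂ) (R + 1), ∫ t in (0:ℝ)..1, Γ' t * (C.Γ t - a)⁻¹ =
      volume.real C.In • C.wn a0 := by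
    have hn : ∀ᵐ a ∂(volume.restrict (ball (0:ℂ) (R + 1))), a ∉ C.J :=
      ae_restrict_of_ae (measure_eq_zero_iff_ae_notMem.1
        (null_Green fun t => (hp t).differentiableAt))
    rw [integral_congr_ae (g := C.In.indicator fun _ => C.wn a0) (hn.mono fun a ha => ?_),
      integral_indicator hO.measurableSet, Measure.restrict_restrict hO.measurableSet,
      inter_eq_left.2 hsub, setIntegral_const]
    rw [← wn_eq_Green C hp hc ha]
    rcases C.mem_In_or_Out ha with h | h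
    · rw [indicator_of_mem h]
      exact C.wn_const C.In_preconnected (fun z hz => hz.1) h ha0
    · rw [indicator_of_notMem (C.not_In_of_Out h)]
      exact h.2
  have h3 : ∫ t in (0:ℝ)..1, ∫ a in ball (0:ℂ) (R + 1), Γ' t * (C.Γ t - a)⁻¹ =
      Real.pi * ∫ t in (0:ℝ)..1, Γ' t * (starRingEnd ℂ) (C.Γ t) := by
    rw [← intervalIntegral.integral_const_mul]
    refine intervalIntegral.integral_congr fun t _ => ?_
    rw [integral_const_mul, (hK _ _ (hΓ t)).2.1]
    ring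
  have h4 := congrArg norm (h3.symm.trans (h1.trans h2))
  have h5 : (1 : ℝ) ≤ |(m : ℝ)| := by exact_mod_cast Int.one_le_abs hm0
  simp only [hm, norm_mul, norm_smul, Complex.norm_real, Complex.norm_I, Complex.norm_intCast,
    Complex.norm_ofNat, Real.norm_eq_abs, abs_of_pos Real.pi_pos,
    abs_of_nonneg measureReal_nonneg, mul_one] at h4
  refine le_of_mul_le_mul_left ?_ Real.pi_pos
  rw [h4]
  nlinarith [mul_nonneg (measureReal_nonneg (μ := volume) (s := C.In)) Real.pi_pos.le]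

theorem Green_pf : SKer → SGreen := by
  intro hK γ hγ hper hinj
  let e := Complex.orthonormalBasisOneI.repr.symm
  have he : ∀ x : E2, e x = x 0 + x 1 * Complex.I :=
    Complex.orthonormalBasisOneI_repr_symm_apply
  have hd : ∀ t, HasDerivAt γ (deriv γ t) t := fun t =>
    (hγ.differentiable one_ne_zero t).hasDerivAt
  have hd' : Continuous (deriv γ) := hγ.continuous_deriv_one
  let C : Curve := ⟨fun s => e (γ s), e.continuous.comp hγ.continuous, fun s => by
    simp only [hper s], fun x y h => by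
      have hf : ∀ x, γ (Int.fract x) = γ x := fun x => by
        have := hper.sub_int_mul_eq (x := x) ⌊x⌋
        rwa [mul_one] at this
      have h1 := hinj ⟨Int.fract_nonneg x, Int.fract_lt_one x⟩
        ⟨Int.fract_nonneg y, Int.fract_lt_one y⟩ (by rw [hf, hf]; exact e.injective h)
      refine ⟨⌊y⌋ - ⌊x⌋, ?_⟩
      push_cast
      linarith [Int.floor_add_fract x, Int.floor_add_fract y]⟩
  have hp : ∀ t, HasDerivAt C.Γ (e (deriv γ t)) t := fun t =>
    e.toContinuousLinearEquiv.hasFDerivAt.comp_hasDerivAt t (hd t)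
  obtain ⟨hm, hfin, hv⟩ := vol_Green hK C hp (e.continuous.comp hd')
  have hsub : inside (range γ) ⊆ e ⁻¹' C.In := by
    rintro x ⟨hx, hb⟩
    have hJ : e '' (range γ)ᶜ = C.Jᶜ := by
      rw [image_compl_eq e.bijective, ← range_comp]
      rfl
    have hxJ : e x ∉ C.J := by
      rw [← mem_compl_iff, ← hJ]
      exact mem_image_of_mem _ hx
    refine (C.mem_In_or_Out hxJ).resolve_right fun h => C.cc_unbounded h ?_
    have h1 : e '' connectedComponentIn (range γ)ᶜ x =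
        connectedComponentIn (e '' (range γ)ᶜ) (e x) :=
      e.toHomeomorph.image_connectedComponentIn hx
    rw [← hJ, ← h1]
    exact e.lipschitz.isBounded_image hb
  have h1 : area (inside (range γ)) ≤ volume.real C.In := by
    refine ENNReal.toReal_mono hfin ((measure_mono hsub).trans_eq ?_)
    exact e.measurePreserving.measure_preimage hm.nullMeasurableSet
  have hx : ∀ (i : Fin 2) t, HasDerivAt (fun s => ((γ s i : ℝ) : ℂ)) (deriv γ t i : ℝ) t :=
    fun i t => ((EuclideanSpace.proj i : E2 →L[ℝ] ℝ).hasFDerivAt.comp_hasDerivAt t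
      (hd t)).ofReal_comp
  have hγc := hγ.continuous
  have h2 := intervalIntegral.integral_eq_sub_of_hasDerivAt (a := 0) (b := 1)
    (f := fun s => (((γ s 0 : ℝ) : ℂ) * (γ s 0 : ℝ) + ((γ s 1 : ℝ) : ℂ) * (γ s 1 : ℝ)) / 2 -
      Complex.I * (((γ s 0 : ℝ) : ℂ) * (γ s 1 : ℝ)))
    (f' := fun t => e (deriv γ t) * (starRingEnd ℂ) (e (γ t)) -
      2 * Complex.I * ((γ t 0 * deriv γ t 1 : ℝ) : ℂ))
    (fun t _ => by
      refine (((((hx 0 t).fun_mul (hx 0 t)).fun_add ((hx 1 t).fun_mul (hx 1 t))).div_const 2).fun_sub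
        (((hx 0 t).fun_mul (hx 1 t)).const_mul Complex.I)).congr_deriv ?_
      simp only [he, map_add, map_mul, Complex.conj_ofReal, Complex.conj_I]
      push_cast
      linear_combination ((γ t 1 : ℝ) : ℂ) * (deriv γ t 1 : ℝ) * Complex.I_sq)
    (Continuous.intervalIntegrable (by fun_prop) 0 1)
  have h01 : γ 1 = γ 0 := by simpa using hper 0
  rw [intervalIntegral.integral_sub (Continuous.intervalIntegrable (by fun_prop) 0 1)
    (Continuous.intervalIntegrable (by fun_prop) 0 1), h01, sub_self, sub_eq_zero,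
    intervalIntegral.integral_const_mul, intervalIntegral.integral_ofReal] at h2
  have h3 := congrArg norm h2
  simp only [norm_mul, Complex.norm_real, Complex.norm_I, Complex.norm_ofNat, Real.norm_eq_abs,
    mul_one] at h3
  have h4 : ‖∫ t in (0:ℝ)..1, e (deriv γ t) * (starRingEnd ℂ) (e (γ t))‖ = _ := h3
  have h5 : 2 * volume.real C.In ≤
    ‖∫ t in (0:ℝ)..1, e (deriv γ t) * (starRingEnd ℂ) (e (γ t))‖ := hv
  linarith

end Pool.Agent.MP_efb2da_gt.Emb

end

end

section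

/-! A regular simple closed curve encloses positive area. -/

open scoped Manifold ContDiff RealInnerProductSpace Topology ENNReal
open Set MeasureTheory Filter Metric

noncomputable section

namespace Pool.Agent.MP_efb2da_gt.Emb

open Pool.Agent.MP_920d98_co

theorem im_Pos (u : ℂ) (ε : ℝ) : ((u + ε * Complex.I) / (u - ε * Complex.I)).im =
    2 * ε * u.re / Complex.normSq (u - ε * Complex.I) := by
  rw [Complex.div_im]
  simp only [Complex.add_im, Complex.add_re, Complex.sub_re, Complex.sub_im, Complex.mul_re,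
    Complex.mul_im, Complex.ofReal_re, Complex.ofReal_im, Complex.I_re, Complex.I_im]
  ring

theorem re_Pos (u : ℂ) (ε : ℝ) : ((u + ε * Complex.I) / (u - ε * Complex.I)).re =
    (‖u‖ ^ 2 - ε ^ 2) / Complex.normSq (u - ε * Complex.I) := by
  rw [Complex.div_re, Complex.sq_norm, Complex.normSq_apply u]
  simp only [Complex.add_im, Complex.add_re, Complex.sub_re, Complex.sub_im, Complex.mul_re,
    Complex.mul_im, Complex.ofReal_re, Complex.ofReal_im, Complex.I_re, Complex.I_im]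
  ring

theorem key_Pos (C : Curve) {z0 τ : ℂ} (hτ : τ ≠ 0) {δ ε : ℝ} (h1 : -δ ≤ δ) (h2 : δ ≤ -δ + 1)
    (hε : 0 < ε)
    (hA : ∀ s ∈ Icc (-δ) δ, ((C.Γ s - z0) / τ).re = 0 → (C.Γ s - z0) / τ = 0)
    (hp : ((C.Γ (-δ) - z0) / τ).re < 0) (hq : 0 < ((C.Γ δ - z0) / τ).re)
    (hB : ∀ s ∈ Icc δ (-δ + 1), ε < ‖(C.Γ s - z0) / τ‖) : C.In.Nonempty := by
  have hA' : ∀ z ∈ (C.arc (-δ) δ h1).im, ((z - z0) / τ).re = 0 → (z - z0) / τ = 0 := by
    rintro _ ⟨s, hs, rfl⟩
    exact hA s hs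
  have hB' : ∀ z ∈ (C.arc δ (-δ + 1) h2).im, ε < ‖(z - z0) / τ‖ := by
    rintro _ ⟨s, hs, rfl⟩
    exact hB s hs
  have hJ : ∀ η : ℝ, |η| = ε → ∀ z ∈ C.J, (z - z0) / τ - η * Complex.I ≠ 0 := by
    intro η hη z hz h
    rw [sub_eq_zero] at h
    rw [← C.split_im h1 h2] at hz
    rcases hz with hz | hz
    · have h3 := hA' z hz (by rw [h]; simp)
      rw [h] at h3
      have h4 : η = 0 := by simpa using h3
      rw [h4, abs_zero] at hη
      exact hε.ne hη
    · have h3 := hB' z hz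
      rw [h] at h3
      simp only [norm_mul, Complex.norm_real, Complex.norm_I, mul_one, Real.norm_eq_abs] at h3
      exact h3.ne hη.symm
  have hn : ∀ η : ℝ, |η| = ε → z0 + η * Complex.I * τ ∉ C.J := fun η hη h =>
    hJ η hη _ h (by field_simp; ring)
  have ha := hn ε (abs_of_pos hε)
  have hb := hn (-ε) (by rw [abs_neg, abs_of_pos hε])
  set a : ℂ := z0 + ε * Complex.I * τ with ha'
  set b : ℂ := z0 + (-ε : ℝ) * Complex.I * τ with hb'
  have hJ1 := hJ ε (abs_of_pos hε)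
  have hr : ∀ z ∈ C.J, (z - b) / (z - a) =
      ((z - z0) / τ + ε * Complex.I) / ((z - z0) / τ - ε * Complex.I) := by
    intro z hz
    have e1 : z - b = τ * ((z - z0) / τ + ε * Complex.I) := by
      rw [hb']; push_cast; field_simp; ring
    have e2 : z - a = τ * ((z - z0) / τ - ε * Complex.I) := by
      rw [ha']; field_simp; ring
    rw [e1, e2, mul_div_mul_left _ _ hτ]
  have hpos : ∀ z ∈ C.J, 0 < Complex.normSq ((z - z0) / τ - ε * Complex.I) := fun z hz =>
    Complex.normSq_pos.2 (hJ1 z hz)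
  have hcont : ContinuousOn (fun z => (z - b) / (z - a)) C.J :=
    ContinuousOn.div (by fun_prop) (by fun_prop) fun z hz h => ha (sub_eq_zero.1 h ▸ hz)
  have sA : ∀ z ∈ (C.arc (-δ) δ h1).im, -((z - b) / (z - a)) ∈ Complex.slitPlane := by
    intro z hz
    have hz' := C.im_subset h1 hz
    rw [hr z hz', Complex.mem_slitPlane_iff, Complex.neg_re, Complex.neg_im, im_Pos, re_Pos]
    by_cases h : ((z - z0) / τ).re = 0
    · left
      have h3 := hpos z hz'
      rw [hA' z hz h] at h3 ⊢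
      rw [← neg_div]
      refine div_pos ?_ h3
      have := pow_pos hε 2
      simpa using this
    · right
      exact neg_ne_zero.2 (div_ne_zero (mul_ne_zero (mul_ne_zero two_ne_zero hε.ne') h)
        (hpos z hz').ne')
  have sB : ∀ z ∈ (C.arc δ (-δ + 1) h2).im, (z - b) / (z - a) ∈ Complex.slitPlane := by
    intro z hz
    have hz' := C.im_subset h2 hz
    rw [hr z hz', Complex.mem_slitPlane_iff, re_Pos]
    left
    refine div_pos ?_ (hpos z hz')
    have := hB' z hz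
    nlinarith
  have iA := (C.arc (-δ) δ h1).inc_sub_of_log (b := b) (fun h => ha (C.im_subset h1 h))
    (L := fun z => Complex.log (-((z - b) / (z - a))) + Real.pi * Complex.I)
    (((hcont.mono (C.im_subset h1)).neg.clog sA).add continuousOn_const) fun z hz => by
      rw [Complex.exp_add, Complex.exp_log (Complex.slitPlane_ne_zero (sA z hz)),
        Complex.exp_pi_mul_I]
      ring
  have iB := (C.arc δ (-δ + 1) h2).inc_sub_of_log (b := b) (fun h => ha (C.im_subset h2 h))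
    (L := fun z => Complex.log ((z - b) / (z - a)))
    ((hcont.mono (C.im_subset h2)).clog sB) fun z hz =>
      Complex.exp_log (Complex.slitPlane_ne_zero (sB z hz))
  have f1 : (C.arc (-δ) δ h1).fin = C.Γ δ := rfl
  have f2 : (C.arc (-δ) δ h1).ini = C.Γ (-δ) := rfl
  have f3 : (C.arc δ (-δ + 1) h2).fin = C.Γ (-δ) := C.per (-δ)
  have f4 : (C.arc δ (-δ + 1) h2).ini = C.Γ δ := rfl
  rw [f1, f2] at iA
  rw [f3, f4] at iB
  have g1 : 0 < ((C.Γ δ - b) / (C.Γ δ - a)).im := by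
    rw [hr _ (C.mem_J _), im_Pos]
    exact div_pos (mul_pos (mul_pos two_pos hε) hq) (hpos _ (C.mem_J _))
  have g2 : ((C.Γ (-δ) - b) / (C.Γ (-δ) - a)).im < 0 := by
    rw [hr _ (C.mem_J _), im_Pos]
    exact div_neg_of_neg_of_pos (mul_neg_of_pos_of_neg (mul_pos two_pos hε) hp)
      (hpos _ (C.mem_J _))
  have hne : C.wn a ≠ C.wn b := by
    intro h
    rw [← C.split ha h1 h2, ← C.split hb h1 h2, iA, iB] at h
    have h3 := congrArg Complex.im h
    simp only [Complex.add_im, Complex.sub_im, Complex.log_im,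
      Complex.arg_neg_eq_arg_sub_pi_of_im_pos g1,
      Complex.arg_neg_eq_arg_add_pi_of_im_neg g2] at h3
    linarith [Real.pi_pos]
  by_cases h : C.wn a = 0
  · exact ⟨b, hb, fun h' => hne (h.trans h'.symm)⟩
  · exact ⟨a, ha, h⟩

theorem nonempty_Pos (C : Curve) {Γ' : ℝ → ℂ} (hp : ∀ t, HasDerivAt C.Γ (Γ' t) t)
    (hc : Continuous Γ') (h0 : Γ' 0 ≠ 0) : C.In.Nonempty := by
  have hd : ∀ t, HasDerivAt (fun s => ((C.Γ s - C.Γ 0) / Γ' 0).re) ((Γ' t / Γ' 0).re) t :=
    fun t => Complex.reCLM.hasFDerivAt.comp_hasDerivAt t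
      (((hp t).sub_const (C.Γ 0)).div_const (Γ' 0))
  have hev : ∀ᶠ t in 𝓝 (0:ℝ), 0 < (Γ' t / Γ' 0).re := by
    have h1 : Continuous fun t => (Γ' t / Γ' 0).re := by fun_prop
    refine h1.continuousAt.eventually (lt_mem_nhds ?_)
    simp [div_self h0]
  obtain ⟨ρ, hρ, hρ'⟩ := Metric.eventually_nhds_iff.1 hev
  obtain ⟨δ, hδ0, hδ1, hδ2⟩ : ∃ δ : ℝ, 0 < δ ∧ δ < ρ ∧ δ ≤ 1 / 2 :=
    ⟨min (ρ / 2) (1 / 2), lt_min (by linarith) (by norm_num),
      (min_le_left _ _).trans_lt (by linarith), min_le_right _ _⟩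
  have hm : StrictMonoOn (fun s => ((C.Γ s - C.Γ 0) / Γ' 0).re) (Icc (-δ) δ) := by
    refine strictMonoOn_of_deriv_pos (convex_Icc _ _)
      (fun t _ => (hd t).continuousAt.continuousWithinAt) fun t ht => ?_
    rw [(hd t).deriv]
    have ht' := interior_subset ht
    refine hρ' ?_
    rw [Real.dist_eq, sub_zero, abs_lt]
    constructor <;> linarith [ht'.1, ht'.2]
  have hz : (0:ℝ) ∈ Icc (-δ) δ := ⟨by linarith, hδ0.le⟩
  have h00 : ((C.Γ 0 - C.Γ 0) / Γ' 0).re = 0 := by simp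
  have hcw : Continuous fun s => ‖(C.Γ s - C.Γ 0) / Γ' 0‖ := by
    have := C.cont
    fun_prop
  obtain ⟨s0, hs0, hmin⟩ := isCompact_Icc.exists_isMinOn
    (nonempty_Icc.2 (show δ ≤ -δ + 1 by linarith)) hcw.continuousOn
  have hs : 0 < ‖(C.Γ s0 - C.Γ 0) / Γ' 0‖ := by
    refine norm_pos_iff.2 (div_ne_zero (sub_ne_zero.2 fun h => ?_) h0)
    have := C.eq_of_close h (by linarith [hs0.2]) (by linarith [hs0.1])
    linarith [hs0.1]
  refine key_Pos C (z0 := C.Γ 0) h0 (δ := δ) (by linarith) (by linarith) (half_pos hs)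
    (fun s hs h => ?_) ?_ ?_ fun s hs' => (half_lt_self hs).trans_le (hmin hs')
  · have := hm.injOn hs hz (h.trans h00.symm)
    rw [this]; simp
  · exact (hm (left_mem_Icc.2 (by linarith)) hz (by linarith)).trans_eq h00
  · exact h00.symm.trans_lt (hm hz (right_mem_Icc.2 (by linarith)) hδ0)

theorem bdd_Pos (C : Curve) : Bornology.IsBounded C.In := by
  obtain ⟨R, hR0, hR⟩ := C.compact.isBounded.exists_pos_norm_le
  refine (isBounded_ball (x := (0:ℂ)) (r := R + 1)).subset fun a ha => ?_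
  by_contra hn
  rw [mem_ball_zero_iff, not_lt] at hn
  obtain ⟨b0, hb0⟩ := C.Out_nonempty
  obtain ⟨b, hb, hb'⟩ := exists_far (C.Out_unbounded hb0) R
  exact C.not_In_of_Out (C.Out_const (isPreconnected_far R)
    (fun z hz h => (hR z h).not_gt hz) hb' (show R < ‖a‖ by linarith) hb) ha

theorem Pos_pf (γ : ℝ → E2) (h1 : ContDiff ℝ 1 γ) (h2 : Function.Periodic γ 1)
    (h3 : InjOn γ (Ico 0 1)) (h4 : ∀ s, deriv γ s ≠ 0) : 0 < area (inside (range γ)) := by
  let e := Complex.orthonormalBasisOneI.repr.symm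
  have hd : ∀ t, HasDerivAt γ (deriv γ t) t := fun t =>
    (h1.differentiable one_ne_zero t).hasDerivAt
  have hd' : Continuous (deriv γ) := h1.continuous_deriv_one
  let C : Curve := ⟨fun s => e (γ s), e.continuous.comp h1.continuous, fun s => by
    simp only [h2 s], fun x y h => by
      have hf : ∀ x, γ (Int.fract x) = γ x := fun x => by
        have := h2.sub_int_mul_eq (x := x) ⌊x⌋
        rwa [mul_one] at this
      have h1 := h3 ⟨Int.fract_nonneg x, Int.fract_lt_one x⟩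
        ⟨Int.fract_nonneg y, Int.fract_lt_one y⟩ (by rw [hf, hf]; exact e.injective h)
      refine ⟨⌊y⌋ - ⌊x⌋, ?_⟩
      push_cast
      linarith [Int.floor_add_fract x, Int.floor_add_fract y]⟩
  have hp : ∀ t, HasDerivAt C.Γ (e (deriv γ t)) t := fun t =>
    e.toContinuousLinearEquiv.hasFDerivAt.comp_hasDerivAt t (hd t)
  obtain ⟨a0, ha0⟩ := nonempty_Pos C hp (e.continuous.comp hd')
    fun h => h4 0 (e.injective (h.trans (map_zero e).symm))
  have hO : IsOpen C.In := by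
    rw [← C.cc_In ha0]
    exact C.compact.isClosed.isOpen_compl.connectedComponentIn
  have hJ : e '' (range γ)ᶜ = C.Jᶜ := by
    rw [image_compl_eq e.bijective, ← range_comp]
    rfl
  have hJ' : ∀ x, x ∉ range γ ↔ e x ∉ C.J := fun x => by
    rw [← mem_compl_iff, ← mem_compl_iff, ← hJ, e.injective.mem_set_image]
  have hcc : ∀ x, x ∉ range γ → e '' connectedComponentIn (range γ)ᶜ x =
      connectedComponentIn C.Jᶜ (e x) := fun x hx => by
    rw [← hJ]
    exact e.toHomeomorph.image_connectedComponentIn hx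
  have heq : inside (range γ) = e ⁻¹' C.In := by
    ext x
    constructor
    · rintro ⟨hx, hb⟩
      refine (C.mem_In_or_Out ((hJ' x).1 hx)).resolve_right fun h => C.cc_unbounded h ?_
      rw [← hcc x hx]
      exact e.lipschitz.isBounded_image hb
    · intro hx
      have hx' := (hJ' x).2 hx.1
      refine ⟨hx', (e.antilipschitz.isBounded_preimage (bdd_Pos C)).subset fun y hy => ?_⟩
      rw [mem_preimage, ← C.cc_In hx, ← hcc x hx']
      exact mem_image_of_mem _ hy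
  rw [area, heq, e.measurePreserving.measure_preimage hO.measurableSet.nullMeasurableSet]
  exact ENNReal.toReal_pos (hO.measure_pos volume ⟨a0, ha0⟩).ne'
    (bdd_Pos C).measure_lt_top.ne

end Pool.Agent.MP_efb2da_gt.Emb

end

end

section

/-! From the manifold to the data. -/

open scoped Manifold ContDiff RealInnerProductSpace Topology ENNReal
open Set MeasureTheory Filter Metric

noncomputable section

namespace Pool.Agent.MP_efb2da_gt.Emb

theorem gram_Chart {v : Fin 2 → E3} (h : LinearIndependent ℝ v) :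
    ⟪v 0, v 0⟫ * ⟪v 1, v 1⟫ - ⟪v 0, v 1⟫ ^ 2 ≠ 0 := by
  intro h0
  have h1 : ⟪v 0, v 0⟫ ≠ 0 := inner_self_ne_zero.2 (h.ne_zero 0)
  have h2 : (-⟪v 0, v 1⟫) • v 0 + ⟪v 0, v 0⟫ • v 1 = 0 := by
    rw [← inner_self_eq_zero (𝕜 := ℝ)]
    simp only [inner_add_left, inner_add_right, real_inner_smul_left, real_inner_smul_right,
      real_inner_comm (v 0) (v 1)]
    linear_combination ⟪v 0, v 0⟫ * h0
  have h3 := Fintype.linearIndependent_iff.1 h ![-⟪v 0, v 1⟫, ⟪v 0, v 0⟫]
    (by rw [Fin.sum_univ_two]; exact h2) 1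
  exact h1 h3

variable {M : Type} [TopologicalSpace M] [ChartedSpace (EuclideanHalfSpace 2) M]

theorem tgt_Chart (p : M) : (extChartAt (𝓡∂ 2) p).target =
    (𝓡∂ 2).symm ⁻¹' (chartAt (EuclideanHalfSpace 2) p).target ∩ halfPlane := by
  rw [extChartAt_target, range_modelWithCornersEuclideanHalfSpace]
  rfl

/-- the preferred chart -/
def ch_Chart (p : M) : Chart M where
  φ := extChartAt (𝓡∂ 2) p
  ψ := (extChartAt (𝓡∂ 2) p).symm
  S := (extChartAt (𝓡∂ 2) p).source
  O := (𝓡∂ 2).symm ⁻¹' (chartAt (EuclideanHalfSpace 2) p).target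
  oS := isOpen_extChartAt_source p
  oO := (chartAt _ p).open_target.preimage (𝓡∂ 2).continuous_symm
  mφ := tgt_Chart p ▸ (extChartAt (𝓡∂ 2) p).mapsTo
  mψ := tgt_Chart p ▸ (extChartAt (𝓡∂ 2) p).mapsTo_symm
  li := fun _ hq => (extChartAt (𝓡∂ 2) p).left_inv hq
  ri := tgt_Chart p ▸ fun _ hx => (extChartAt (𝓡∂ 2) p).right_inv hx
  cφ := continuousOn_extChartAt p
  cψ := tgt_Chart p ▸ continuousOn_extChartAt_symm p

variable [IsManifold (𝓡∂ 2) ∞ M]

theorem bdi_Chart (p q : M) (hq : q ∈ (extChartAt (𝓡∂ 2) p).source) :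
    q ∈ (𝓡∂ 2).boundary M ↔ extChartAt (𝓡∂ 2) p q 0 = 0 := by
  have h1 := (extChartAt (𝓡∂ 2) p).map_source hq
  have h2 : (𝓡∂ 2).IsInteriorPoint q ↔
      extChartAt (𝓡∂ 2) p q ∈ interior (extChartAt (𝓡∂ 2) p).target :=
    (𝓡∂ 2).isInteriorPoint_iff_of_mem_atlas (n := ∞) (by simp) (chart_mem_atlas _ p)
      (by rwa [extChartAt_source] at hq)
  rw [extChartAt_target, interior_inter, interior_range_modelWithCornersEuclideanHalfSpace,
    ((chartAt _ p).open_target.preimage (𝓡∂ 2).continuous_symm).interior_eq] at h2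
  rw [tgt_Chart] at h1
  have h3 : 0 ≤ extChartAt (𝓡∂ 2) p q 0 := h1.2
  refine ((𝓡∂ 2).isBoundaryPoint_iff_not_isInteriorPoint q).trans (h2.not.trans ⟨fun h => ?_,
    fun h e => ?_⟩)
  · exact le_antisymm (not_lt.1 fun e => h ⟨h1.1, e⟩) h3
  · exact (show 0 < extChartAt (𝓡∂ 2) p q 0 from e.2).ne' h

theorem Chart_pf : SChart M := by
  intro f N H h
  refine ⟨⟨f, N, H, fun p => (sff f N p 0 0 * sff f N p 1 1 - sff f N p 0 1 ^ 2) /
      (fff f p 0 0 * fff f p 1 1 - fff f p 0 1 ^ 2), (𝓡∂ 2).boundary M, ch_Chart⟩, rfl, rfl, rfl,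
    rfl, ⟨fun p => mem_extChartAt_source p, h.smooth.continuous, h.continuous_normal,
      h.unit_normal, (𝓡∂ 2).isClosed_boundary (n := ∞) (by simp), bdi_Chart, fun p => ?_,
      fun p p' => ?_⟩, fun p => ?_⟩
  · have h1 := contMDiffOn_iff_contDiffOn.1
      (h.smooth.comp_contMDiffOn (contMDiffOn_extChartAt_symm p))
    rw [tgt_Chart] at h1
    exact h1
  · have h1 := contDiffOn_ext_coord_change (I := 𝓡∂ 2) (n := ∞) p' p
    rw [PartialEquiv.trans_source, PartialEquiv.symm_source, tgt_Chart] at h1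
    exact h1
  · have e : (extChartAt (𝓡∂ 2) p).symm (extChartAt (𝓡∂ 2) p p) = p := extChartAt_to_inv p
    have hg : fff f p 0 0 * fff f p 1 1 - fff f p 0 1 ^ 2 ≠ 0 := gram_Chart (h.immersion p)
    have hb : ∀ i j, ⟪d2 f p i j, N ((extChartAt (𝓡∂ 2) p).symm (extChartAt (𝓡∂ 2) p p))⟫ =
        sff f N p i j := fun i j => by rw [e]; rfl
    refine ⟨h.immersion p, fun i => ?_, ?_, ?_⟩
    · show ⟪d1 f p i, N ((extChartAt (𝓡∂ 2) p).symm (extChartAt (𝓡∂ 2) p p))⟫ = 0
      rw [e]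
      exact h.orthogonal p i
    · have h1 := h.mean p
      rw [meanCurv, div_eq_iff (mul_ne_zero two_ne_zero hg), ← hb, ← hb, ← hb, ← mul_assoc,
        mul_comm H] at h1
      exact h1
    · have h1 := (div_mul_cancel₀ (sff f N p 0 0 * sff f N p 1 1 - sff f N p 0 1 ^ 2) hg).symm
      refine Eq.trans ?_ (h1.trans ?_)
      · rw [← hb, ← hb, ← hb]
        rfl
      · exact congrArg (fun q => (sff f N q 0 0 * sff f N q 1 1 - sff f N q 0 1 ^ 2) /
          (fff f q 0 0 * fff f q 1 1 - fff f q 0 1 ^ 2) *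
          (fff f p 0 0 * fff f p 1 1 - fff f p 0 1 ^ 2)) e.symm

end Pool.Agent.MP_efb2da_gt.Emb

end

end

section

/-! Reflected data, and the parametrisation of the boundary. -/

open scoped Manifold ContDiff RealInnerProductSpace Topology ENNReal
open Set MeasureTheory Filter Metric

noncomputable section

namespace Pool.Agent.MP_efb2da_gt.Emb

theorem rf_Sym {σ : ℝ} (h : σ * σ = 1) : ∃ L : E3 ≃L[ℝ] E3, rf σ = L ∧
    ∀ a b, ⟪L a, L b⟫ = ⟪a, b⟫ := by
  have i1 : ∀ x, rf σ (rf σ x) = x := fun x => by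
    ext i
    fin_cases i <;> simp [rf, ← mul_assoc, h]
  refine ⟨LinearEquiv.toContinuousLinearEquiv
    { toFun := rf σ
      invFun := rf σ
      map_add' := fun x y => by
        ext i
        fin_cases i <;> simp [rf, mul_add]
      map_smul' := fun c x => by
        ext i
        fin_cases i <;> simp [rf, mul_left_comm]
      left_inv := i1
      right_inv := i1 }, rfl, fun a b => ?_⟩
  change ⟪rf σ a, rf σ b⟫ = _
  rw [inner3, inner3]
  change a 0 * b 0 + a 1 * b 1 + σ * a 2 * (σ * b 2) = _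
  linear_combination (a 2 * b 2) * h

theorem ud_Sym : UniqueDiffOn ℝ halfPlane := by
  have c0 : Continuous fun x : E2 => x 0 := by fun_prop
  refine uniqueDiffOn_convex (fun x hx y hy a b ha hb _ => ?_) ⟨!₂[1, 0], ?_⟩
  · have h1 : 0 ≤ x 0 := hx
    have h2 : 0 ≤ y 0 := hy
    change 0 ≤ a * x 0 + b * y 0
    positivity
  · refine interior_maximal (t := {x : E2 | 0 < x 0}) (fun x hx => le_of_lt (a := (0 : ℝ)) (b := x 0) hx)
      (isOpen_lt continuous_const c0) ?_
    change (0 : ℝ) < 1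
    exact one_pos

theorem pd1_Sym (L : E3 ≃L[ℝ] E3) (G : E2 → E3) (i : Fin 2) {x : E2} (hx : x ∈ halfPlane) :
    pd (L ∘ G) i x = L (pd G i x) := by
  unfold pd
  rw [L.comp_fderivWithin (ud_Sym x hx)]
  rfl

theorem pd2_Sym (L : E3 ≃L[ℝ] E3) (G : E2 → E3) (i j : Fin 2) {x : E2} (hx : x ∈ halfPlane) :
    pd (pd (L ∘ G) i) j x = L (pd (pd G i) j x) := by
  rw [← pd1_Sym L (pd G i) j hx]
  have e : fderivWithin ℝ (pd (L ∘ G) i) halfPlane x = fderivWithin ℝ (L ∘ pd G i) halfPlane x :=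
    fderivWithin_congr' (fun y hy => pd1_Sym L G i hy) hx
  exact congrArg (fun A : E2 →L[ℝ] E3 => A (EuclideanSpace.single j 1)) e

variable {M : Type} [TopologicalSpace M] [T2Space M] [CompactSpace M] [ConnectedSpace M]
  [MeasurableSpace M] [BorelSpace M]

theorem Sym_pf (E : Dat M) : SSym E := by
  intro σ τ hσ hτ h0 hc
  obtain ⟨L, hL, hi⟩ := rf_Sym (σ := σ) (by rcases hσ with h | h <;> simp [h])
  have t2 : τ * τ = 1 := by rcases hτ with h | h <;> simp [h]
  have ta : |τ| = 1 := by rcases hτ with h | h <;> simp [h]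
  have nL : ∀ a, ‖L a‖ = ‖a‖ := fun a => by
    rw [norm_eq_sqrt_real_inner, hi, ← norm_eq_sqrt_real_inner]
  have eF : ∀ p, (E.sym σ τ).F p = L ∘ E.F p := fun p => by
    rw [← hL]
    rfl
  have en : ∀ p x, (E.sym σ τ).n p x = τ • L (E.n p x) := fun p x => by
    rw [← hL]
    rfl
  refine ⟨⟨h0.mem, ?_, ?_, fun p => ?_, h0.clb, h0.bdi, fun p => ?_, h0.tr⟩, fun p => ?_⟩
  · change Continuous fun q => rf σ (E.f q)
    rw [hL]
    exact L.continuous.comp h0.cf
  · change Continuous fun q => τ • rf σ (E.N q)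
    rw [hL]
    exact (L.continuous.comp h0.cN).const_smul τ
  · change ‖τ • rf σ (E.N p)‖ = 1
    rw [hL, norm_smul, nL, h0.un, Real.norm_eq_abs, ta, one_mul]
  · rw [eF]
    exact L.contDiff.comp_contDiffOn (h0.sF p)
  · have hx : (E.c p).φ p ∈ halfPlane := ((E.c p).mφ (h0.mem p)).2
    have hp := hc p
    change (E.sym σ τ).Pt p ((E.c p).φ p)
    generalize (E.c p).φ p = x at hx hp
    have eg : ∀ i j, (E.sym σ τ).g p x i j = E.g p x i j := fun i j => by
      unfold Dat.g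
      rw [eF, pd1_Sym L _ i hx, pd1_Sym L _ j hx, hi]
    have eb : ∀ i j, (E.sym σ τ).b p x i j = τ * E.b p x i j := fun i j => by
      unfold Dat.b
      rw [eF, en, pd2_Sym L _ i j hx, real_inner_smul_right, hi]
    refine ⟨?_, fun i => ?_, ?_, ?_⟩
    · rw [eF, show (fun i : Fin 2 => pd (L ∘ E.F p) i x) =
        (L : E3 →ₗ[ℝ] E3) ∘ fun i : Fin 2 => pd (E.F p) i x from
          funext fun i => pd1_Sym L _ i hx]
      exact hp.imm.map' _ L.toLinearEquiv.ker
    · rw [eF, en, pd1_Sym L _ i hx, real_inner_smul_right, hi, hp.orth, mul_zero]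
    · simp only [eg, eb]
      change _ = 2 * (τ * E.H) * _
      linear_combination τ * hp.mean
    · simp only [eg, eb]
      change _ = E.K ((E.c p).ψ x) * _
      linear_combination hp.gauss + (E.b p x 0 0 * E.b p x 1 1 - E.b p x 0 1 ^ 2) * t2

theorem Beta_pf (E : Dat M) : SBeta E := by
  intro h0 γ hγ hb
  have : CompactSpace E.bd := isCompact_iff_compactSpace.1 h0.clb.isCompact
  have he : Topology.IsClosedEmbedding fun q : E.bd => E.f q :=
    (h0.cf.comp continuous_subtype_val).isClosedEmbedding fun a b h =>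
      Subtype.ext (hb.injOn a.2 b.2 h)
  have ex : ∀ s, ∃ q : E.bd, E.f q = incl (γ s) := fun s => by
    obtain ⟨q, hq, e⟩ := hb.surjOn ⟨γ s, mem_range_self s, rfl⟩
    exact ⟨⟨q, hq⟩, e⟩
  choose β hβ using ex
  have ci : Continuous incl := by
    unfold incl
    fun_prop
  have cβ : Continuous β := by
    rw [he.isEmbedding.continuous_iff]
    exact (ci.comp hγ).congr fun s => (hβ s).symm
  have su : ∀ p ∈ E.bd, ∃ s, (β s : M) = p := fun p hp => by
    obtain ⟨_, ⟨s, rfl⟩, e⟩ := hb.mapsTo hp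
    exact ⟨s, hb.injOn (β s).2 hp ((hβ s).trans e)⟩
  have cv : Continuous fun s => (β s : M) := continuous_subtype_val.comp cβ
  refine ⟨fun s => β s, cv, fun s => (β s).2, hβ, su, ?_, ⟨β 0, (β 0).2⟩, fun p hp => ?_⟩
  · have : E.bd = range fun s => (β s : M) :=
      Subset.antisymm su (range_subset_iff.2 fun s => (β s).2)
    rw [this]
    exact isPreconnected_range cv
  · obtain ⟨y, -, e⟩ := hb.mapsTo hp
    rw [← e]
    rfl

end Pool.Agent.MP_efb2da_gt.Emb

end

end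

section

/-! The curvature identities do not depend on the chart. -/

open scoped Manifold ContDiff RealInnerProductSpace Topology ENNReal
open Set MeasureTheory Filter Metric

noncomputable section

namespace Pool.Agent.MP_efb2da_gt.Emb

lemma conv_Inv : Convex ℝ halfPlane := fun x hx y hy a b ha hb _ => by
  simp only [halfPlane, mem_ofPred_eq, PiLp.add_apply, PiLp.smul_apply, smul_eq_mul] at *
  positivity

lemma int_Inv : (interior halfPlane).Nonempty := by
  have h : IsOpen {x : E2 | 0 < x 0} := isOpen_lt continuous_const (by fun_prop)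
  have h1 : {x : E2 | 0 < x 0} ⊆ halfPlane := fun x (hx : 0 < x 0) => hx.le
  have h2 : (0 : ℝ) < (EuclideanSpace.single 0 1 : E2) 0 := by simp
  exact ⟨EuclideanSpace.single 0 1, interior_maximal h1 h h2⟩

lemma ud_Inv : UniqueDiffOn ℝ halfPlane := uniqueDiffOn_convex conv_Inv int_Inv

lemma cl_Inv {x : E2} (hx : x ∈ halfPlane) : x ∈ closure (interior halfPlane) := by
  rw [conv_Inv.closure_interior_eq_closure_of_nonempty_interior int_Inv]
  exact subset_closure hx

/-- relatively open subsets of the half plane -/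
def RO_Inv (V : Set E2) : Prop := V ⊆ halfPlane ∧ ∀ z ∈ V, V ∈ 𝓝[halfPlane] z

section chain

variable {Y : Type} [NormedAddCommGroup Y] [NormedSpace ℝ Y] {V W : Set E2} {τ : E2 → E2}
  {F G : E2 → Y}

lemma at_Inv (hW : RO_Inv W) (hG : ContDiffOn ℝ ∞ G W) {y : E2} (hy : y ∈ W) :
    ContDiffWithinAt ℝ ∞ G halfPlane y := (hG y hy).mono_of_mem_nhdsWithin (hW.2 y hy)

lemma d1_Inv (hW : RO_Inv W) (hG : ContDiffOn ℝ ∞ G W) {y : E2} (hy : y ∈ W) :
    HasFDerivWithinAt G (fderivWithin ℝ G halfPlane y) halfPlane y :=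
  ((at_Inv hW hG hy).differentiableWithinAt (by simp)).hasFDerivWithinAt

lemma d2_Inv (hW : RO_Inv W) (hG : ContDiffOn ℝ ∞ G W) {y : E2} (hy : y ∈ W) :
    HasFDerivWithinAt (fderivWithin ℝ G halfPlane)
      (fderivWithin ℝ (fderivWithin ℝ G halfPlane) halfPlane y) halfPlane y :=
  (((at_Inv hW hG hy).fderivWithin_right (m := 1) ud_Inv (by decide)
    (hW.1 hy)).differentiableWithinAt one_ne_zero).hasFDerivWithinAt

lemma ch1_Inv (hV : RO_Inv V) (hW : RO_Inv W) (hτ : ContDiffOn ℝ ∞ τ V) (hG : ContDiffOn ℝ ∞ G W)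
    (hm : MapsTo τ V W) (hF : ∀ z ∈ V, F z = G (τ z)) {z : E2} (hz : z ∈ V) :
    fderivWithin ℝ F halfPlane z =
      (fderivWithin ℝ G halfPlane (τ z)).comp (fderivWithin ℝ τ halfPlane z) := by
  have h1 := (d1_Inv hW hG (hm hz)).comp z ((d1_Inv hV hτ hz).mono hV.1)
    fun w hw => hW.1 (hm hw)
  exact ((h1.congr hF (hF z hz)).mono_of_mem_nhdsWithin (hV.2 z hz)).fderivWithin
    (ud_Inv z (hV.1 hz))

lemma ch2_Inv (hV : RO_Inv V) (hW : RO_Inv W) (hτ : ContDiffOn ℝ ∞ τ V) (hG : ContDiffOn ℝ ∞ G W)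
    (hm : MapsTo τ V W) (hF : ∀ z ∈ V, F z = G (τ z)) {x : E2} (hx : x ∈ V) (u v : E2) :
    ∃ w, fderivWithin ℝ (fun z => fderivWithin ℝ F halfPlane z u) halfPlane x v =
      fderivWithin ℝ (fderivWithin ℝ G halfPlane) halfPlane (τ x) (fderivWithin ℝ τ halfPlane x v)
        (fderivWithin ℝ τ halfPlane x u) + fderivWithin ℝ G halfPlane (τ x) w := by
  have h1 := (d2_Inv hW hG (hm hx)).comp x ((d1_Inv hV hτ hx).mono hV.1)
    fun w hw => hW.1 (hm hw)
  have h2 := ((d2_Inv hV hτ hx).mono hV.1).clm_apply (hasFDerivWithinAt_const u x V)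
  have h3 := h1.clm_apply h2
  have h4 : ∀ z ∈ V, fderivWithin ℝ F halfPlane z u =
      (fderivWithin ℝ G halfPlane ∘ τ) z (fderivWithin ℝ τ halfPlane z u) := fun z hz => by
    rw [ch1_Inv hV hW hτ hG hm hF hz]
    rfl
  rw [((h3.congr h4 (h4 x hx)).mono_of_mem_nhdsWithin (hV.2 x hx)).fderivWithin
    (ud_Inv x (hV.1 hx))]
  exact ⟨_, add_comm _ _⟩

lemma ch3_Inv (hW : RO_Inv W) (hG : ContDiffOn ℝ ∞ G W) {y : E2} (hy : y ∈ W) (u v : E2) :
    fderivWithin ℝ (fun z => fderivWithin ℝ G halfPlane z u) halfPlane y v =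
      fderivWithin ℝ (fderivWithin ℝ G halfPlane) halfPlane y v u := by
  rw [((d2_Inv hW hG hy).clm_apply (hasFDerivWithinAt_const u y halfPlane)).fderivWithin
    (ud_Inv y (hW.1 hy))]
  simp

lemma sy_Inv (hW : RO_Inv W) (hG : ContDiffOn ℝ ∞ G W) {y : E2} (hy : y ∈ W) (u v : E2) :
    fderivWithin ℝ (fderivWithin ℝ G halfPlane) halfPlane y u v =
      fderivWithin ℝ (fderivWithin ℝ G halfPlane) halfPlane y v u :=
  ((at_Inv hW hG hy).isSymmSndFDerivWithinAt (by simp; decide) ud_Inv (cl_Inv (hW.1 hy))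
    (hW.1 hy)).eq u v

end chain

lemma dec_Inv (v : E2) :
    v = v 0 • EuclideanSpace.single 0 1 + v 1 • EuclideanSpace.single (1 : Fin 2) (1 : ℝ) := by
  ext i
  fin_cases i <;> simp

lemma lin_Inv {Y : Type} [NormedAddCommGroup Y] [NormedSpace ℝ Y] (L : E2 →L[ℝ] Y) (v : E2) :
    L v = v 0 • L (EuclideanSpace.single 0 1) + v 1 • L (EuclideanSpace.single 1 1) := by
  conv_lhs => rw [dec_Inv v]
  rw [map_add, map_smul, map_smul]

lemma li_Inv (L : E2 →L[ℝ] E3) :
    LinearIndependent ℝ (fun i : Fin 2 => L (EuclideanSpace.single i 1)) ↔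
      ∀ v, L v = 0 → v = 0 := by
  rw [Fintype.linearIndependent_iff]
  refine ⟨fun h v hv => ?_, fun h c hc i => ?_⟩
  · ext i
    exact h (fun i => v i) (by rw [Fin.sum_univ_two, ← lin_Inv, hv]) i
  · have := h !₂[c 0, c 1] (by rw [lin_Inv]; simpa [Fin.sum_univ_two] using hc)
    have h2 := congrArg (fun v : E2 => v i) this
    fin_cases i <;> simpa using h2

section

variable {M : Type} [TopologicalSpace M] (E : Dat M)

lemma roT_Inv (p : M) : RO_Inv (E.T p) :=
  ⟨inter_subset_right, fun _ hz => inter_mem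
    (mem_nhdsWithin_of_mem_nhds ((E.c p).oO.mem_nhds hz.1)) self_mem_nhdsWithin⟩

lemma roV_Inv (p q : M) : RO_Inv (E.T p ∩ (E.c p).ψ ⁻¹' (E.c q).S) :=
  ⟨fun _ hz => hz.1.2, fun z hz => inter_mem ((roT_Inv E p).2 z hz.1)
    (nhdsWithin_le_of_mem ((roT_Inv E p).2 z hz.1)
      (((E.c p).cψ z hz.1).preimage_mem_nhdsWithin ((E.c q).oS.mem_nhds hz.2)))⟩

end

variable {M : Type} [TopologicalSpace M] [T2Space M] [CompactSpace M] [ConnectedSpace M]
  [MeasurableSpace M] [BorelSpace M]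

theorem Inv_pf (E : Dat M) : SInv E := by
  intro h0 hc p x hx
  obtain ⟨q, hq⟩ : ∃ q, q = (E.c p).ψ x := ⟨_, rfl⟩
  have hxV : x ∈ E.T p ∩ (E.c p).ψ ⁻¹' (E.c q).S := ⟨hx, by rw [mem_preimage, ← hq]; exact h0.mem q⟩
  have hV := roV_Inv E p q
  have hW := roT_Inv E q
  have hτ := h0.tr p q
  have hm : MapsTo ((E.c q).φ ∘ (E.c p).ψ) (E.T p ∩ (E.c p).ψ ⁻¹' (E.c q).S) (E.T q) :=
    fun z hz => (E.c q).mφ hz.2
  have hF : ∀ z ∈ E.T p ∩ (E.c p).ψ ⁻¹' (E.c q).S,
      E.F p z = E.F q (((E.c q).φ ∘ (E.c p).ψ) z) := fun z hz =>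
    congrArg E.f ((E.c q).li _ hz.2).symm
  have hy : ((E.c q).φ ∘ (E.c p).ψ) x = (E.c q).φ q := congrArg (E.c q).φ hq.symm
  have hyW : (E.c q).φ q ∈ E.T q := (E.c q).mφ (h0.mem q)
  have hl : (E.c q).ψ ((E.c q).φ q) = q := (E.c q).li q (h0.mem q)
  have hn : E.n q ((E.c q).φ q) = E.n p x := congrArg E.N (hl.trans hq)
  have hid := ch1_Inv (F := id) hV (roV_Inv E q p) hτ (h0.tr q p)
    (fun z hz => ⟨hm hz, by
      show (E.c q).ψ ((E.c q).φ ((E.c p).ψ z)) ∈ (E.c p).S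
      rw [(E.c q).li _ hz.2]
      exact (E.c p).mψ hz.1⟩)
    (fun z hz => by
      show z = (E.c p).φ ((E.c q).ψ ((E.c q).φ ((E.c p).ψ z)))
      rw [(E.c q).li _ hz.2, (E.c p).ri z hz.1]) hxV
  rw [fderivWithin_id (ud_Inv x hx.2)] at hid
  have c1 := ch1_Inv hV hW hτ (h0.sF q) hm hF hxV
  have c2 := ch2_Inv hV hW hτ (h0.sF q) hm hF hxV
  have c3 := ch3_Inv hW (h0.sF q) hyW
  have c4 := sy_Inv hW (h0.sF q) hyW
  obtain ⟨i1, i2, i3, i4⟩ := hc q
  rw [hy] at c1 c2
  rw [hl, hq] at i4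
  rw [← hq] at i4
  generalize fderivWithin ℝ ((E.c q).φ ∘ (E.c p).ψ) halfPlane x = A at hid c1 c2
  have hA : ∀ v, A v = 0 → v = 0 := fun v hv => by
    have := congrArg (fun L : E2 →L[ℝ] E2 => L v) hid
    simpa [hv] using this
  have e1 : ∀ i, pd (E.F p) i x = fderivWithin ℝ (E.F q) halfPlane ((E.c q).φ q)
      (A (EuclideanSpace.single i 1)) := fun i => by
    rw [pd, c1]
    rfl
  have o1 : ∀ w, ⟪fderivWithin ℝ (E.F q) halfPlane ((E.c q).φ q) w, E.n p x⟫ = 0 := fun w => by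
    have a := i2 0
    have b := i2 1
    rw [hn, pd] at a b
    rw [lin_Inv, inner_add_left, real_inner_smul_left, real_inner_smul_left, a, b]
    ring
  have e2 : ∀ i j, E.b p x i j =
      ⟪fderivWithin ℝ (fderivWithin ℝ (E.F q) halfPlane) halfPlane ((E.c q).φ q)
        (A (EuclideanSpace.single j 1)) (A (EuclideanSpace.single i 1)), E.n p x⟫ := fun i j => by
    obtain ⟨w, hw⟩ := c2 (EuclideanSpace.single i 1) (EuclideanSpace.single j 1)
    have : pd (pd (E.F p) i) j x = _ := hw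
    rw [Dat.b, this, inner_add_left, o1, add_zero]
  have e3 : ∀ i j, E.b q ((E.c q).φ q) i j =
      ⟪fderivWithin ℝ (fderivWithin ℝ (E.F q) halfPlane) halfPlane ((E.c q).φ q)
        (EuclideanSpace.single j 1) (EuclideanSpace.single i 1), E.n p x⟫ := fun i j => by
    have : pd (pd (E.F q) i) j ((E.c q).φ q) = _ :=
      c3 (EuclideanSpace.single i 1) (EuclideanSpace.single j 1)
    rw [Dat.b, this, hn]
  have s3 : E.b q ((E.c q).φ q) 1 0 = E.b q ((E.c q).φ q) 0 1 := by rw [e3, e3, c4]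
  have s4 : E.g q ((E.c q).φ q) 1 0 = E.g q ((E.c q).φ q) 0 1 := real_inner_comm _ _
  obtain ⟨a, ha⟩ : ∃ a : Fin 2 → E2, ∀ i, a i = A (EuclideanSpace.single i 1) := ⟨_, fun _ => rfl⟩
  have g1 : ∀ i j, E.g p x i j = a i 0 * a j 0 * E.g q ((E.c q).φ q) 0 0 +
      (a i 0 * a j 1 + a i 1 * a j 0) * E.g q ((E.c q).φ q) 0 1 +
      a i 1 * a j 1 * E.g q ((E.c q).φ q) 1 1 := fun i j => by
    rw [Dat.g, e1, e1, ← ha, ← ha, lin_Inv _ (a i), lin_Inv _ (a j)]
    simp only [inner_add_left, inner_add_right, real_inner_smul_left, real_inner_smul_right]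
    simp only [Dat.g, pd] at s4 ⊢
    rw [s4]
    ring
  have b1 : ∀ i j, E.b p x i j = a i 0 * a j 0 * E.b q ((E.c q).φ q) 0 0 +
      (a i 0 * a j 1 + a i 1 * a j 0) * E.b q ((E.c q).φ q) 0 1 +
      a i 1 * a j 1 * E.b q ((E.c q).φ q) 1 1 := fun i j => by
    rw [e2, ← ha, ← ha, lin_Inv _ (a i), lin_Inv _ (a j)]
    simp only [add_apply, smul_apply, smul_add,
      inner_add_left, real_inner_smul_left, ← e3, s3]
    ring
  refine ⟨?_, fun i => by rw [e1, o1], ?_, ?_⟩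
  · refine (li_Inv _).2 fun v hv => hA v ((li_Inv _).1 i1 _ ?_)
    rw [c1] at hv
    exact hv
  · simp only [g1, b1]
    linear_combination (a 0 0 * a 1 1 - a 0 1 * a 1 0) ^ 2 * i3
  · simp only [g1, b1, ← hq]
    linear_combination (a 0 0 * a 1 1 - a 0 1 * a 1 0) ^ 2 * i4

end Pool.Agent.MP_efb2da_gt.Emb

end

end

section

/-! Smoothness of the normal and the Weingarten equations. -/

open scoped Manifold ContDiff RealInnerProductSpace Topology ENNReal
open Set MeasureTheory Filter Metric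

noncomputable section

namespace Pool.Agent.MP_efb2da_gt.Emb

theorem hp_Wein : halfPlane = range (𝓡∂ 2) := (range_modelWithCornersEuclideanHalfSpace 2).symm

theorem ud_Wein : UniqueDiffOn ℝ halfPlane := hp_Wein ▸ (𝓡∂ 2).uniqueDiffOn

theorem fd_Wein {O : Set E2} (hO : IsOpen O) {G : Type} [NormedAddCommGroup G] [NormedSpace ℝ G]
    (g : E2 → G) {x : E2} (hx : x ∈ O ∩ halfPlane) :
    fderivWithin ℝ g (O ∩ halfPlane) x = fderivWithin ℝ g halfPlane x := by
  rw [inter_comm, fderivWithin_inter (hO.mem_nhds hx.1)]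

theorem udT_Wein {O : Set E2} (hO : IsOpen O) : UniqueDiffOn ℝ (O ∩ halfPlane) :=
  inter_comm O halfPlane ▸ ud_Wein.inter hO

theorem sfd_Wein {O : Set E2} (hO : IsOpen O) {g : E2 → E3} (h : ContDiffOn ℝ ∞ g (O ∩ halfPlane)) :
    ContDiffOn ℝ ∞ (fderivWithin ℝ g halfPlane) (O ∩ halfPlane) :=
  (h.fderivWithin (udT_Wein hO) (by simp)).congr fun _ hx => (fd_Wein hO g hx).symm

theorem spd_Wein {O : Set E2} (hO : IsOpen O) {g : E2 → E3} (h : ContDiffOn ℝ ∞ g (O ∩ halfPlane))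
    (i : Fin 2) : ContDiffOn ℝ ∞ (pd g i) (O ∩ halfPlane) :=
  (sfd_Wein hO h).clm_apply contDiffOn_const

theorem inn_Wein {O : Set E2} (hO : IsOpen O) {u v : E2 → E3} {c : ℝ}
    (hu : ContDiffOn ℝ ∞ u (O ∩ halfPlane)) (hv : ContDiffOn ℝ ∞ v (O ∩ halfPlane))
    (h : ∀ y ∈ O ∩ halfPlane, ⟪u y, v y⟫ = c) {x : E2} (hx : x ∈ O ∩ halfPlane) (j : Fin 2) :
    ⟪u x, pd v j x⟫ + ⟪pd u j x, v x⟫ = 0 := by
  have h1 := ((hu x hx).differentiableWithinAt (by simp)).hasFDerivWithinAt.inner ℝ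
    ((hv x hx).differentiableWithinAt (by simp)).hasFDerivWithinAt
  have h2 := (udT_Wein hO x hx).eq h1 ((hasFDerivWithinAt_const c x _).congr h (h x hx))
  rw [fd_Wein hO u hx, fd_Wein hO v hx] at h2
  simpa [pd] using congrArg (fun L => L (EuclideanSpace.single j 1)) h2

theorem sym_Wein {O : Set E2} (hO : IsOpen O) {g : E2 → E3} (h : ContDiffOn ℝ ∞ g (O ∩ halfPlane))
    {x : E2} (hx : x ∈ O ∩ halfPlane) : pd (pd g 0) 1 x = pd (pd g 1) 0 x := by
  have m : O ∩ halfPlane ∈ 𝓝[halfPlane] x :=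
    inter_comm O halfPlane ▸ inter_mem_nhdsWithin _ (hO.mem_nhds hx.1)
  have h1 := ((h x hx).mono_of_mem_nhdsWithin m).isSymmSndFDerivWithinAt
    (by rw [minSmoothness_of_isRCLikeNormedField]; exact ENat.LEInfty.out) ud_Wein
    (by rw [hp_Wein]; exact (𝓡∂ 2).range_subset_closure_interior (hp_Wein ▸ hx.2)) hx.2
  have h2 := ((sfd_Wein hO h x hx).mono_of_mem_nhdsWithin m).differentiableWithinAt (by simp)
  have h3 : ∀ i j, pd (pd g i) j x = fderivWithin ℝ (fderivWithin ℝ g halfPlane) halfPlane x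
      (EuclideanSpace.single j 1) (EuclideanSpace.single i 1) := by
    intro i j
    change fderivWithin ℝ (fun y => fderivWithin ℝ g halfPlane y (EuclideanSpace.single i 1))
      halfPlane x _ = _
    rw [fderivWithin_clm_apply (ud_Wein x hx.2) h2 (differentiableWithinAt_const _)]
    simp
  rw [h3, h3, h1.eq]

theorem scrs_Wein : ContDiff ℝ ∞ fun p : E3 × E3 => crs p.1 p.2 := by
  refine contDiff_euclidean.2 fun i => ?_
  fin_cases i <;> simp [crs] <;> fun_prop

theorem crsJ_Wein {a b n : E3} (ha : ⟪a, n⟫ = 0) (hb : ⟪b, n⟫ = 0) (hn : ⟪n, n⟫ = 1) :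
    crs a b = dt a b n • n := by
  rw [inner3] at ha hb hn
  ext i
  fin_cases i <;> simp [crs, dt]
  · linear_combination (-(a 1 * b 2 - a 2 * b 1)) * hn - (n 1 * a 2 - n 2 * a 1) * hb
      + (n 1 * b 2 - n 2 * b 1) * ha
  · linear_combination (-(a 2 * b 0 - a 0 * b 2)) * hn - (n 2 * a 0 - n 0 * a 2) * hb
      + (n 2 * b 0 - n 0 * b 2) * ha
  · linear_combination (-(a 0 * b 1 - a 1 * b 0)) * hn - (n 0 * a 1 - n 1 * a 0) * hb
      + (n 0 * b 1 - n 1 * b 0) * ha

theorem bc_Wein {a b n : E3} {J : ℝ} (h : crs a b = J • n) (u v : E3) :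
    J * dt u v n = ⟪u, a⟫ * ⟪v, b⟫ - ⟪u, b⟫ * ⟪v, a⟫ := by
  rw [← inner_crs, ← real_inner_smul_right, ← h]
  simp only [inner3]
  simp [crs]
  ring

theorem det_Wein {v : Fin 2 → E3} (h : LinearIndependent ℝ v) :
    ⟪v 0, v 0⟫ * ⟪v 1, v 1⟫ - ⟪v 0, v 1⟫ ^ 2 ≠ 0 := by
  intro e
  have h1 : ⟪v 1, v 1⟫ • v 0 + (-⟪v 0, v 1⟫) • v 1 = 0 := by
    rw [← inner_self_eq_zero (𝕜 := ℝ)]
    simp only [inner_add_left, inner_add_right, real_inner_smul_left, real_inner_smul_right,
      real_inner_comm (v 0) (v 1)]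
    linear_combination ⟪v 1, v 1⟫ * e
  have h2 := Fintype.linearIndependent_iff.1 h ![⟪v 1, v 1⟫, -⟪v 0, v 1⟫]
    (by rw [Fin.sum_univ_two]; exact h1) 0
  exact h.ne_zero 1 (inner_self_eq_zero.1 h2)

theorem kh_Wein {A B C e f g H K J : ℝ} (hA : 0 ≤ A) (hJ : J ≠ 0) (h : J ^ 2 = A * C - B ^ 2)
    (h1 : e * C - 2 * f * B + g * A = 2 * H * (A * C - B ^ 2))
    (h2 : e * g - f ^ 2 = K * (A * C - B ^ 2)) : K ≤ H ^ 2 := by
  have hD : 0 < A * C - B ^ 2 := h ▸ by positivity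
  have hA' : 0 < A := hA.lt_of_ne fun e => by
    rw [← e] at hD
    nlinarith [sq_nonneg B]
  have k : 4 * A ^ 2 * (A * C - B ^ 2) ^ 2 * (H ^ 2 - K) = 4 * (A * C - B ^ 2) * (A * f - B * e) ^ 2
      + (A * (A * g - C * e) - 2 * B * (A * f - B * e)) ^ 2 := by
    linear_combination (-A ^ 2 * (e * C - 2 * f * B + g * A + 2 * H * (A * C - B ^ 2))) * h1
      + 4 * A ^ 2 * (A * C - B ^ 2) * h2
  have k' : 0 ≤ 4 * A ^ 2 * (A * C - B ^ 2) ^ 2 * (H ^ 2 - K) := by
    rw [k]
    positivity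
  exact sub_nonneg.1 (nonneg_of_mul_nonneg_right k' (by positivity))

variable {M : Type} [TopologicalSpace M] [T2Space M] [CompactSpace M] [ConnectedSpace M]
  [MeasurableSpace M] [BorelSpace M]

theorem Wein_pf (E : Dat M) : SWein E := by
  intro h0 h1
  have nn : ∀ p x, ⟪E.n p x, E.n p x⟫ = 1 := fun p x => by
    rw [real_inner_self_eq_norm_sq]
    change ‖E.N _‖ ^ 2 = 1
    rw [h0.un, one_pow]
  have sF : ∀ p i, ContDiffOn ℝ ∞ (pd (E.F p) i) (E.T p) := fun p => spd_Wein (E.c p).oO (h0.sF p)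
  have su : ∀ p, ContDiffOn ℝ ∞ (fun x => crs (pd (E.F p) 0 x) (pd (E.F p) 1 x)) (E.T p) :=
    fun p => scrs_Wein.comp_contDiffOn ((sF p 0).prodMk (sF p 1))
  have a1 : ∀ p, ∀ x ∈ E.T p, crs (pd (E.F p) 0 x) (pd (E.F p) 1 x) = E.J p x • E.n p x :=
    fun p x hx => crsJ_Wein ((h1 p x hx).orth 0) ((h1 p x hx).orth 1) (nn p x)
  have gs : ∀ p x, ⟪pd (E.F p) 1 x, pd (E.F p) 0 x⟫ = E.g p x 0 1 := fun p x => real_inner_comm _ _
  have a2 : ∀ p, ∀ x ∈ E.T p, E.J p x ^ 2 = E.g p x 0 0 * E.g p x 1 1 - E.g p x 0 1 ^ 2 :=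
    fun p x hx => by
      rw [sq, sq]
      exact (bc_Wein (a1 p x hx) _ _).trans (by rw [gs]; rfl)
  have a3 : ∀ p, ∀ x ∈ E.T p, E.J p x ≠ 0 := fun p x hx e =>
    det_Wein (h1 p x hx).imm ((a2 p x hx).symm.trans (by rw [e]; simp))
  have a4 : ∀ p, ContinuousOn (E.J p) (E.T p) := fun p =>
    ((su p).continuousOn.inner (𝕜 := ℝ) (h0.cN.comp_continuousOn (E.c p).cψ)).congr
      fun x _ => (inner_crs _ _ _).symm
  have a5 : ∀ p, ContDiffOn ℝ ∞ (E.J p) (E.T p) := by
    intro p x hx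
    have s1 : ContDiffWithinAt ℝ ∞ (fun x => √(E.g p x 0 0 * E.g p x 1 1 - E.g p x 0 1 ^ 2))
        (E.T p) x :=
      (((((sF p 0).inner ℝ (sF p 0)).mul ((sF p 1).inner ℝ (sF p 1))).sub
        (((sF p 0).inner ℝ (sF p 1)).pow 2)) x hx).sqrt (det_Wein (h1 p x hx).imm)
    rcases (a3 p x hx).lt_or_gt with h | h
    · refine s1.neg.congr_of_eventuallyEq_of_mem ?_ hx
      filter_upwards [(a4 p x hx).eventually (gt_mem_nhds h), self_mem_nhdsWithin] with y h hy
      rw [← a2 p y hy, Real.sqrt_sq_eq_abs, abs_of_neg h, neg_neg]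
    · refine s1.congr_of_eventuallyEq_of_mem ?_ hx
      filter_upwards [(a4 p x hx).eventually (lt_mem_nhds h), self_mem_nhdsWithin] with y h hy
      rw [← a2 p y hy, Real.sqrt_sq h.le]
  have sn : ∀ p, ContDiffOn ℝ ∞ (E.n p) (E.T p) := fun p =>
    (((a5 p).inv (a3 p)).smul (su p)).congr fun x hx => by
      change _ = (E.J p x)⁻¹ • crs _ _
      rw [a1 p x hx, inv_smul_smul₀ (a3 p x hx)]
  have sy : ∀ p, ∀ x ∈ E.T p, pd (pd (E.F p) 0) 1 x = pd (pd (E.F p) 1) 0 x :=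
    fun p x hx => sym_Wein (E.c p).oO (h0.sF p) hx
  have bs : ∀ p, ∀ x ∈ E.T p, E.b p x 1 0 = E.b p x 0 1 := fun p x hx => by
    rw [Dat.b, Dat.b, sy p x hx]
  have wg : ∀ p, ∀ x ∈ E.T p, ∀ i j, ⟪pd (E.n p) j x, pd (E.F p) i x⟫ = -E.b p x i j :=
    fun p x hx i j => by
      rw [real_inner_comm]
      exact eq_neg_of_add_eq_zero_left (inn_Wein (E.c p).oO (sF p i) (sn p)
        (fun y hy => (h1 p y hy).orth i) hx j)
  have wK : ∀ p, ∀ x ∈ E.T p,
      dt (pd (E.n p) 0 x) (pd (E.n p) 1 x) (E.n p x) = E.K ((E.c p).ψ x) * E.J p x := by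
    intro p x hx
    refine mul_left_cancel₀ (a3 p x hx) ?_
    rw [bc_Wein (a1 p x hx), wg p x hx, wg p x hx, wg p x hx, wg p x hx, bs p x hx]
    linear_combination (h1 p x hx).gauss - E.K ((E.c p).ψ x) * a2 p x hx
  refine ⟨sn, a3, a4, a1, a2, fun p x hx i => ?_, sy, wg, fun p x hx => ?_, wK,
    continuous_iff_continuousAt.2 fun q => ?_, fun q => ?_⟩
  · have := inn_Wein (E.c p).oO (sn p) (sn p) (fun y _ => nn p y) hx i
    rw [real_inner_comm] at this
    linarith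
  · refine mul_left_cancel₀ (a3 p x hx) ?_
    rw [mul_add, bc_Wein (a1 p x hx), bc_Wein (a1 p x hx), wg p x hx, wg p x hx, wg p x hx,
      wg p x hx, bs p x hx, gs]
    have := (h1 p x hx).mean
    have e := a2 p x hx
    simp only [Dat.g] at this e ⊢
    linear_combination 2 * E.H * e - this
  · have c1 : ContinuousOn (fun x => ⟪crs (pd (E.n q) 0 x) (pd (E.n q) 1 x), E.n q x⟫ / E.J q x)
        (E.T q) := ((scrs_Wein.comp_contDiffOn ((spd_Wein (E.c q).oO (sn q) 0).prodMk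
      (spd_Wein (E.c q).oO (sn q) 1))).continuousOn.inner (𝕜 := ℝ) (sn q).continuousOn).div
        (a4 q) (a3 q)
    refine ((c1.comp (E.c q).cφ (E.c q).mφ).congr fun y hy => ?_).continuousAt
      ((E.c q).oS.mem_nhds (h0.mem q))
    have m := (E.c q).mφ hy
    rw [Function.comp_apply, inner_crs, wK q _ m, (E.c q).li y hy, mul_div_cancel_right₀ _ (a3 q _ m)]
  · have m := (E.c q).mφ (h0.mem q)
    rw [← (E.c q).li q (h0.mem q)]
    exact kh_Wein real_inner_self_nonneg (a3 q _ m) (a2 q _ m) (h1 q _ m).mean (h1 q _ m).gauss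

end Pool.Agent.MP_efb2da_gt.Emb

end

end

section

/-! The surface leaves the plane on the same side along the whole boundary. -/

open scoped Manifold ContDiff RealInnerProductSpace Topology ENNReal
open Set MeasureTheory Filter Metric

noncomputable section

namespace Pool.Agent.MP_efb2da_gt.Emb

theorem convex_Up : Convex ℝ halfPlane := by
  intro x hx y hy a b ha hb _
  simp only [halfPlane, mem_ofPred_eq, PiLp.add_apply, PiLp.smul_apply, smul_eq_mul] at hx hy ⊢
  positivity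

theorem uniq_Up : UniqueDiffOn ℝ halfPlane := by
  apply uniqueDiffOn_convex convex_Up
  have ho : IsOpen {x : E2 | 0 < x 0} := isOpen_lt continuous_const (by fun_prop)
  have hs : {x : E2 | 0 < x 0} ⊆ halfPlane := fun x hx => show (0 : ℝ) ≤ x 0 from le_of_lt hx
  refine ⟨EuclideanSpace.single 0 1, interior_maximal hs ho ?_⟩
  simp

theorem line_Up {F : E2 → E3} {O : Set E2} (hO : IsOpen O)
    (hF : ContDiffOn ℝ ∞ F (O ∩ halfPlane)) (a w : E2) (s : Set ℝ)
    (hs : ∀ t ∈ s, a + t • w ∈ O ∩ halfPlane) (t : ℝ) (ht : t ∈ s) :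
    HasDerivWithinAt (fun t : ℝ => F (a + t • w) 2)
      (fderivWithin ℝ F halfPlane (a + t • w) w 2) s t := by
  have h1 : DifferentiableWithinAt ℝ F (O ∩ halfPlane) (a + t • w) :=
    hF.differentiableOn (by simp) _ (hs t ht)
  have h2 := h1.hasFDerivWithinAt
  have h3 : fderivWithin ℝ F (O ∩ halfPlane) (a + t • w) = fderivWithin ℝ F halfPlane (a + t • w) := by
    rw [inter_comm]
    exact fderivWithin_inter (hO.mem_nhds (hs t ht).1)
  rw [h3] at h2
  have h4 : HasDerivWithinAt (fun t : ℝ => a + t • w) w s t := by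
    have := ((hasDerivAt_id t).smul_const w).const_add a
    simpa using this.hasDerivWithinAt
  have h5 := h2.comp_hasDerivWithinAt t h4 (fun t ht => hs t ht)
  have h6 := (EuclideanSpace.proj (𝕜 := ℝ) (2 : Fin 3)).hasFDerivAt.comp_hasDerivWithinAt t h5
  exact h6

theorem tang_Up {F : E2 → E3} {O : Set E2} (hO : IsOpen O)
    (hF : ContDiffOn ℝ ∞ F (O ∩ halfPlane)) (x0 : E2) (hx : x0 ∈ O) (h0 : x0 0 = 0)
    (hz : ∀ x ∈ O, x 0 = 0 → F x 2 = 0) : pd F 1 x0 2 = 0 := by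
  have hc : Continuous (fun t : ℝ => x0 + t • (EuclideanSpace.single (1 : Fin 2) (1 : ℝ) : E2)) := by
    fun_prop
  have hs : IsOpen ((fun t : ℝ => x0 + t • (EuclideanSpace.single (1 : Fin 2) (1 : ℝ) : E2)) ⁻¹' O) :=
    hO.preimage hc
  have h00 : (0 : ℝ) ∈
      ((fun t : ℝ => x0 + t • (EuclideanSpace.single (1 : Fin 2) (1 : ℝ) : E2)) ⁻¹' O) := by
    simpa using hx
  have hl : ∀ t : ℝ, (x0 + t • (EuclideanSpace.single (1 : Fin 2) (1 : ℝ) : E2)) 0 = 0 := by
    intro t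
    simp [h0]
  have h1 := (line_Up hO hF x0 (EuclideanSpace.single (1 : Fin 2) (1 : ℝ)) _
    (fun t ht => ⟨ht, le_of_eq (hl t).symm⟩) 0 h00).hasDerivAt (hs.mem_nhds h00)
  have h2 : HasDerivAt
      (fun t : ℝ => F (x0 + t • (EuclideanSpace.single (1 : Fin 2) (1 : ℝ) : E2)) 2) 0 0 := by
    apply (hasDerivAt_const (0 : ℝ) (0 : ℝ)).congr_of_eventuallyEq
    filter_upwards [hs.mem_nhds h00] with t ht
    exact hz _ ht (hl t)
  have h3 := h1.unique h2
  simpa [pd] using h3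

theorem side_Up {F : E2 → E3} {O : Set E2} (hO : IsOpen O)
    (hF : ContDiffOn ℝ ∞ F (O ∩ halfPlane)) (x0 : E2) (hx : x0 ∈ O) (h0 : x0 0 = 0)
    (hz : ∀ x ∈ O, x 0 = 0 → F x 2 = 0) (σ : ℝ) (hσ : 0 < σ * pd F 0 x0 2) :
    ∀ᶠ x in 𝓝 x0, x ∈ halfPlane → 0 ≤ σ * F x 2 ∧ (0 < x 0 → 0 < σ * F x 2) := by
  have hx' : x0 ∈ O ∩ halfPlane := ⟨hx, le_of_eq h0.symm⟩
  have hu : UniqueDiffOn ℝ (O ∩ halfPlane) := by
    rw [inter_comm]; exact uniq_Up.inter hO
  have hc : ContinuousOn (fderivWithin ℝ F (O ∩ halfPlane)) (O ∩ halfPlane) :=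
    hF.continuousOn_fderivWithin hu (by simp)
  have he : ∀ x ∈ O, fderivWithin ℝ F (O ∩ halfPlane) x = fderivWithin ℝ F halfPlane x := by
    intro x hx
    rw [inter_comm]
    exact fderivWithin_inter (hO.mem_nhds hx)
  have hc2 : ContinuousOn (fun x => σ * pd F 0 x 2) (O ∩ halfPlane) := by
    have h1 : ContinuousOn (fun x => σ * (fderivWithin ℝ F (O ∩ halfPlane) x
        (EuclideanSpace.single (0 : Fin 2) (1 : ℝ))) 2) (O ∩ halfPlane) := by
      apply continuousOn_const.mul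
      exact (EuclideanSpace.proj (𝕜 := ℝ) (2 : Fin 3)).continuous.comp_continuousOn
        (hc.clm_apply continuousOn_const)
    apply h1.congr
    intro x hx
    simp only [pd]
    rw [he x hx.1]
  have h1 : ∀ᶠ x in 𝓝[O ∩ halfPlane] x0, 0 < σ * pd F 0 x 2 :=
    (hc2 x0 hx').eventually (lt_mem_nhds hσ)
  rw [eventually_nhdsWithin_iff] at h1
  obtain ⟨r, hr, hb⟩ := Metric.eventually_nhds_iff_ball.mp (h1.and (hO.mem_nhds hx))
  filter_upwards [ball_mem_nhds x0 hr] with x hxb hxh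
  have key : 0 < x 0 → 0 < σ * F x 2 := by
    intro hpos
    have ha : ln (x 1) ∈ ball x0 r := by
      rw [mem_ball] at hxb ⊢
      refine lt_of_le_of_lt ?_ hxb
      rw [EuclideanSpace.dist_eq, EuclideanSpace.dist_eq]
      apply Real.sqrt_le_sqrt
      simp only [Fin.sum_univ_two, ln]
      simp [h0]
      positivity
    have hend : ln (x 1) + x 0 • (EuclideanSpace.single (0 : Fin 2) (1 : ℝ) : E2) = x := by
      ext i
      fin_cases i <;> simp [ln]
    have hin : ∀ t ∈ Icc (0 : ℝ) (x 0),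
        ln (x 1) + t • (EuclideanSpace.single (0 : Fin 2) (1 : ℝ) : E2) ∈ ball x0 r ∩ halfPlane := by
      intro t ht
      constructor
      · have h2 := (convex_ball x0 r) ha hxb (a := 1 - t / x 0) (b := t / x 0)
          (by have := (div_le_one hpos).mpr ht.2; linarith) (div_nonneg ht.1 hpos.le) (by ring)
        have h3 : (1 - t / x 0) • ln (x 1) + (t / x 0) • x
            = ln (x 1) + t • (EuclideanSpace.single (0 : Fin 2) (1 : ℝ) : E2) := by
          ext i
          fin_cases i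
          · simp [ln]; field_simp
          · simp [ln]; ring
        rw [← h3]; exact h2
      · simpa [halfPlane, ln] using ht.1
    have hd : ∀ t ∈ Icc (0 : ℝ) (x 0), HasDerivWithinAt
        (fun t : ℝ => σ * F (ln (x 1) + t • (EuclideanSpace.single (0 : Fin 2) (1 : ℝ) : E2)) 2)
        (σ * pd F 0 (ln (x 1) + t • (EuclideanSpace.single (0 : Fin 2) (1 : ℝ) : E2)) 2)
        (Icc (0 : ℝ) (x 0)) t := by
      intro t ht
      exact (line_Up hO hF (ln (x 1)) (EuclideanSpace.single (0 : Fin 2) (1 : ℝ)) _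
        (fun t ht => ⟨(hb _ (hin t ht).1).2, (hin t ht).2⟩) t ht).const_mul σ
    have hm := strictMonoOn_of_hasDerivWithinAt_pos (convex_Icc (0 : ℝ) (x 0))
      (fun t ht => (hd t ht).continuousWithinAt)
      (fun t ht => (hd t (interior_subset ht)).mono interior_subset)
      (fun t ht => (hb _ (hin t (interior_subset ht)).1).1
        ⟨(hb _ (hin t (interior_subset ht)).1).2, (hin t (interior_subset ht)).2⟩)
    have h4 := hm (left_mem_Icc.mpr hpos.le) (right_mem_Icc.mpr hpos.le) hpos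
    simp only [zero_smul, add_zero] at h4
    rw [hend, hz _ (hb _ ha).2 (by simp [ln]), mul_zero] at h4
    exact h4
  refine ⟨?_, key⟩
  rcases (show (0 : ℝ) ≤ x 0 from hxh).eq_or_lt with h | h
  · rw [hz x (hb x hxb).2 h.symm, mul_zero]
  · exact (key h).le

variable {M : Type} [TopologicalSpace M] [T2Space M] [CompactSpace M] [ConnectedSpace M]
  [MeasurableSpace M] [BorelSpace M]

omit [T2Space M] [CompactSpace M] [ConnectedSpace M] [MeasurableSpace M] [BorelSpace M] in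
theorem loc_Up (E : Dat M) (h : E.Ok) (h0 : E.Em0) (p : M) (hp : p ∈ E.bd) (σ : ℝ)
    (hσ : 0 < σ * pd (E.F p) 0 ((E.c p).φ p) 2) :
    (∀ᶠ q in 𝓝 p, 0 ≤ σ * E.f q 2) ∧ ¬ ∀ᶠ q in 𝓝 p, σ * E.f q 2 ≤ 0 := by
  have hmem := h.o0.mem p
  have hx := (E.c p).mφ hmem
  have hx0 : (E.c p).φ p 0 = 0 := (h.o0.bdi p p hmem).mp hp
  have hz : ∀ x ∈ (E.c p).O, x 0 = 0 → E.F p x 2 = 0 := by
    intro x hxO hx0
    have hxT : x ∈ (E.c p).O ∩ halfPlane := ⟨hxO, le_of_eq hx0.symm⟩
    apply h0.bdP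
    rw [h.o0.bdi p _ ((E.c p).mψ hxT), (E.c p).ri x hxT]
    exact hx0
  have hs := side_Up (E.c p).oO (h.o0.sF p) _ hx.1 hx0 hz σ hσ
  have hS := (E.c p).oS.mem_nhds hmem
  constructor
  · have hc : ContinuousAt (E.c p).φ p := (E.c p).cφ.continuousAt hS
    filter_upwards [hc.eventually hs, hS] with q hq hqS
    have h1 := (hq ((E.c p).mφ hqS).2).1
    simp only [Dat.F, Function.comp] at h1
    rw [(E.c p).li q hqS] at h1
    exact h1
  · intro hdn
    have hc : Tendsto (E.c p).ψ (𝓝[(E.c p).O ∩ halfPlane] ((E.c p).φ p)) (𝓝 p) := by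
      have h1 := (E.c p).cψ _ hx
      unfold ContinuousWithinAt at h1
      rw [(E.c p).li p hmem] at h1
      exact h1
    have hl : Tendsto (fun t : ℝ => (E.c p).φ p + t • (EuclideanSpace.single (0 : Fin 2) (1 : ℝ) : E2))
        (𝓝[>] 0) (𝓝 ((E.c p).φ p)) := by
      have h1 : Continuous
          (fun t : ℝ => (E.c p).φ p + t • (EuclideanSpace.single (0 : Fin 2) (1 : ℝ) : E2)) := by
        fun_prop
      have h2 := h1.tendsto 0
      simp only [zero_smul, add_zero] at h2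
      exact h2.mono_left nhdsWithin_le_nhds
    have hpos : ∀ᶠ t in 𝓝[>] (0 : ℝ),
        0 < ((E.c p).φ p + t • (EuclideanSpace.single (0 : Fin 2) (1 : ℝ) : E2)) 0 := by
      filter_upwards [self_mem_nhdsWithin] with t ht
      simpa [hx0] using ht
    have hl2 : Tendsto
        (fun t : ℝ => (E.c p).φ p + t • (EuclideanSpace.single (0 : Fin 2) (1 : ℝ) : E2))
        (𝓝[>] 0) (𝓝[(E.c p).O ∩ halfPlane] ((E.c p).φ p)) := by
      apply tendsto_nhdsWithin_iff.mpr ⟨hl, ?_⟩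
      filter_upwards [hl.eventually ((E.c p).oO.mem_nhds hx.1), hpos] with t h1 h2
      exact ⟨h1, h2.le⟩
    obtain ⟨t, h1, h2, h3⟩ :=
      (((hc.comp hl2).eventually hdn).and ((hl.eventually hs).and hpos)).exists
    have h4 := (h2 h3.le).2 h3
    simp only [Dat.F, Function.comp] at h1 h4
    linarith

omit [T2Space M] [CompactSpace M] [ConnectedSpace M] [MeasurableSpace M] [BorelSpace M] in
theorem ne_Up (E : Dat M) (h : E.Ok) (h0 : E.Em0) (p : M) (hp : p ∈ E.bd)
    (hN : |E.N p 2| < 1) : pd (E.F p) 0 ((E.c p).φ p) 2 ≠ 0 := by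
  intro ha
  have hmem := h.o0.mem p
  have hx := (E.c p).mφ hmem
  have hx0 : (E.c p).φ p 0 = 0 := (h.o0.bdi p p hmem).mp hp
  have hz : ∀ x ∈ (E.c p).O, x 0 = 0 → E.F p x 2 = 0 := by
    intro x hxO hx0
    have hxT : x ∈ (E.c p).O ∩ halfPlane := ⟨hxO, le_of_eq hx0.symm⟩
    apply h0.bdP
    rw [h.o0.bdi p _ ((E.c p).mψ hxT), (E.c p).ri x hxT]
    exact hx0
  have hb := tang_Up (E.c p).oO (h.o0.sF p) _ hx.1 hx0 hz
  have hJ := h.o2.Jne p _ hx
  have hc := h.o2.crsJ p _ hx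
  have hn : E.n p ((E.c p).φ p) = E.N p := by
    simp only [Dat.n, Function.comp]
    rw [(E.c p).li p hmem]
  rw [hn] at hc
  have c0 := congrArg (fun v : E3 => v 0) hc
  have c1 := congrArg (fun v : E3 => v 1) hc
  simp [crs, ha, hb, hJ] at c0 c1
  have hu := h.o0.un p
  have h2 : ⟪E.N p, E.N p⟫ = 1 := by rw [real_inner_self_eq_norm_sq, hu]; norm_num
  rw [inner3, c0, c1] at h2
  have h3 := abs_lt.mp hN
  nlinarith [h3.1, h3.2]

theorem Up_pf (E : Dat M) : SUp E := by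
  intro h h0 hN
  have key : ∀ p ∈ E.bd, ((∀ᶠ q in 𝓝 p, 0 ≤ E.f q 2) ∧ ¬ ∀ᶠ q in 𝓝 p, E.f q 2 ≤ 0) ∨
      ((∀ᶠ q in 𝓝 p, E.f q 2 ≤ 0) ∧ ¬ ∀ᶠ q in 𝓝 p, 0 ≤ E.f q 2) := by
    intro p hp
    rcases lt_or_gt_of_ne (ne_Up E h h0 p hp (hN p hp)) with h1 | h1
    · right
      have h2 := loc_Up E h h0 p hp (-1) (by linarith)
      simpa using h2
    · left
      have h2 := loc_Up E h h0 p hp 1 (by linarith)
      simpa using h2
  by_contra hcon
  rw [not_or] at hcon
  obtain ⟨c1, c2⟩ := hcon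
  obtain ⟨p1, c1⟩ := not_forall.mp c1
  obtain ⟨hp1, n1⟩ := Classical.not_imp.mp c1
  obtain ⟨p2, c2⟩ := not_forall.mp c2
  obtain ⟨hp2, n2⟩ := Classical.not_imp.mp c2
  have oU : IsOpen {p : M | ∀ᶠ q in 𝓝 p, 0 ≤ E.f q 2} := isOpen_setOfPred_eventually_nhds
  have oD : IsOpen {p : M | ∀ᶠ q in 𝓝 p, E.f q 2 ≤ 0} := isOpen_setOfPred_eventually_nhds
  obtain ⟨p, hp, hu, hd⟩ := h0.pc _ _ oU oD
    (fun p hp => (key p hp).elim (fun h => Or.inl h.1) (fun h => Or.inr h.1))
    ⟨p2, hp2, (key p2 hp2).elim (fun h => h.1) (fun h => absurd h.1 n2)⟩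
    ⟨p1, hp1, (key p1 hp1).elim (fun h => absurd h.1 n1) (fun h => h.1)⟩
  exact (key p hp).elim (fun h => h.2 hd) (fun h => h.2 hu)

end Pool.Agent.MP_efb2da_gt.Emb

end

end

section

/-! Second order conditions at nearest and highest points. -/

open scoped Manifold ContDiff RealInnerProductSpace Topology ENNReal
open Set MeasureTheory Filter Metric

noncomputable section

namespace Pool.Agent.MP_efb2da_gt.Emb

theorem one_SO {h h' : ℝ → ℝ} {c : ℝ} (hm : IsLocalMin h 0)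
    (h1 : ∀ᶠ s in 𝓝 (0:ℝ), HasDerivAt h (h' s) s) (h2 : HasDerivAt h' c 0) : h' 0 = 0 ∧ 0 ≤ c := by
  have h0 := h1.self_of_nhds
  have e0 := hm.hasDerivAt_eq_zero h0
  refine ⟨e0, le_of_not_gt fun hc => ?_⟩
  have e1 : deriv h =ᶠ[𝓝 0] h' := h1.mono fun s hs => hs.deriv
  have e2 : deriv (deriv h) 0 = c := by rw [e1.deriv_eq, h2.deriv]
  have hM := isLocalMax_of_deriv_deriv_neg (e2 ▸ hc) (h0.deriv.trans e0) h0.continuousAt
  have e3 : h =ᶠ[𝓝 0] fun _ => h 0 := (hM.and hm).mono fun s hs => le_antisymm hs.1 hs.2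
  rw [e3.deriv.deriv_eq, deriv_const', deriv_const] at e2
  exact hc.ne' e2

theorem par_SO {a b n z : E3} {J : ℝ} (hc : crs a b = J • n) (hJ : J ≠ 0) (hn : ‖n‖ = 1)
    (ha : ⟪a, z⟫ = 0) (hb : ⟪b, z⟫ = 0) : z = ⟪n, z⟫ • n := by
  have h1 : ⟪n, n⟫ = 1 := by rw [real_inner_self_eq_norm_sq, hn, one_pow]
  have c0 : a 1 * b 2 - a 2 * b 1 = J * n 0 := by simpa [crs] using congrArg (· 0) hc
  have c1 : a 2 * b 0 - a 0 * b 2 = J * n 1 := by simpa [crs] using congrArg (· 1) hc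
  have c2 : a 0 * b 1 - a 1 * b 0 = J * n 2 := by simpa [crs] using congrArg (· 2) hc
  rw [inner3] at *
  have d0 : z 1 * n 2 - z 2 * n 1 = 0 := (mul_eq_zero.1 (show J * _ = 0 by
    linear_combination a 0 * hb - b 0 * ha - z 1 * c2 + z 2 * c1)).resolve_left hJ
  have d1 : z 2 * n 0 - z 0 * n 2 = 0 := (mul_eq_zero.1 (show J * _ = 0 by
    linear_combination a 1 * hb - b 1 * ha - z 2 * c0 + z 0 * c2)).resolve_left hJ
  have d2 : z 0 * n 1 - z 1 * n 0 = 0 := (mul_eq_zero.1 (show J * _ = 0 by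
    linear_combination a 2 * hb - b 2 * ha - z 0 * c1 + z 1 * c0)).resolve_left hJ
  ext i
  rw [PiLp.smul_apply, smul_eq_mul]
  fin_cases i
  · change z 0 = _ * n 0
    linear_combination n 1 * d2 - n 2 * d1 - z 0 * h1
  · change z 1 = _ * n 1
    linear_combination n 2 * d0 - n 0 * d2 - z 1 * h1
  · change z 2 = _ * n 2
    linear_combination n 0 * d1 - n 1 * d0 - z 2 * h1

theorem line_SO {G : E2 → E3} (x0 : E2) (a b s : ℝ) {w : E2}
    (hw : w = a • EuclideanSpace.single 0 1 + b • EuclideanSpace.single 1 1)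
    (hG : DifferentiableAt ℝ G (x0 + s • w)) (hh : halfPlane ∈ 𝓝 (x0 + s • w)) :
    HasDerivAt (fun t : ℝ => G (x0 + t • w))
      (a • pd G 0 (x0 + s • w) + b • pd G 1 (x0 + s • w)) s := by
  have h1 : HasDerivAt (fun t : ℝ => x0 + t • w) w s := by
    simpa using ((hasDerivAt_id s).smul_const w).const_add x0
  have h2 := hG.hasFDerivAt.comp_hasDerivAt s h1
  rw [pd, pd, fderivWithin_of_mem_nhds hh, ← map_smul, ← map_smul, ← map_add, ← hw]
  exact h2

theorem alg_SO {t l H K b0 b1 b2 g0 g1 g2 J : ℝ} (hJ : J ≠ 0) (h0 : 0 ≤ g0)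
    (hD : J ^ 2 = g0 * g2 - g1 ^ 2)
    (hH : b0 * g2 - 2 * b1 * g1 + b2 * g0 = 2 * H * (g0 * g2 - g1 ^ 2))
    (hK : b0 * b2 - b1 ^ 2 = K * (g0 * g2 - g1 ^ 2))
    (hQ : ∀ x y : ℝ, 0 ≤ t * (b0 * x ^ 2 + 2 * b1 * x * y + b2 * y ^ 2) +
      l * (g0 * x ^ 2 + 2 * g1 * x * y + g2 * y ^ 2)) :
    0 ≤ t * H + l ∧ 0 ≤ t ^ 2 * K + 2 * l * t * H + l ^ 2 := by
  have hp : 0 < J ^ 2 := by positivity
  have hg : 0 < g0 := h0.lt_of_ne fun h => by
    rw [← h] at hD
    nlinarith [sq_nonneg g1]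
  constructor
  · have h1 := add_nonneg (hQ g1 (-g0)) (mul_nonneg hp.le (hQ 1 0))
    refine nonneg_of_mul_nonneg_right (a := 2 * g0 * J ^ 2) (h1.trans_eq ?_) (by positivity)
    rw [hD]
    linear_combination t * g0 * hH
  · have h1 := discrim_le_zero (a := t * b0 + l * g0) (b := 2 * (t * b1 + l * g1))
      (c := t * b2 + l * g2) fun x => (hQ x 1).trans_eq (by ring)
    rw [discrim] at h1
    refine nonneg_of_mul_nonneg_right (a := 4 * J ^ 2) ((neg_nonneg.2 h1).trans_eq ?_)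
      (by positivity)
    rw [hD]
    linear_combination 4 * t ^ 2 * hK + 4 * t * l * hH

theorem key_SO {M : Type} [TopologicalSpace M] {E : Dat M} (ok : E.Ok) {q : M} (hq : q ∉ E.bd)
    (l : ℝ) (v : E3) (hm : IsLocalMin (fun p => l * ⟪E.f p, E.f p⟫ + ⟪E.f p, v⟫) q) :
    ∃ t : ℝ, (2 * l) • E.f q + v = t • E.N q ∧ 0 ≤ t * E.H + 2 * l ∧
      0 ≤ t ^ 2 * E.K q + 2 * (2 * l) * t * E.H + (2 * l) ^ 2 := by
  obtain ⟨x0, hx⟩ : ∃ x0, x0 = (E.c q).φ q := ⟨_, rfl⟩
  have hT : x0 ∈ E.T q := hx ▸ (E.c q).mφ (ok.o0.mem q)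
  have hψ : (E.c q).ψ x0 = q := hx ▸ (E.c q).li q (ok.o0.mem q)
  have hpos : 0 < x0 0 := lt_of_le_of_ne hT.2 fun h =>
    hq ((ok.o0.bdi q q (ok.o0.mem q)).2 (hx ▸ h.symm))
  have hU : IsOpen ((E.c q).O ∩ {x : E2 | 0 < x 0}) :=
    (E.c q).oO.inter (isOpen_lt continuous_const (by fun_prop))
  have hN : ∀ᶠ x in 𝓝 x0, E.T q ∈ 𝓝 x :=
    (hU.eventually_mem ⟨hT.1, hpos⟩).mono fun x h =>
      mem_of_superset (hU.mem_nhds h) fun y hy => ⟨hy.1, show 0 ≤ y 0 from le_of_lt hy.2⟩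
  have hH : ∀ x, E.T q ∈ 𝓝 x → halfPlane ∈ 𝓝 x := fun x h =>
    mem_of_superset h inter_subset_right
  have n0 := hN.self_of_nhds
  have dF : ∀ x, E.T q ∈ 𝓝 x → DifferentiableAt ℝ (E.F q) x := fun x h =>
    ((ok.o0.sF q).contDiffAt h).differentiableAt (by simp)
  have dP : ∀ i, DifferentiableAt ℝ (pd (E.F q) i) x0 := fun i => by
    have h1 : DifferentiableAt ℝ (fderiv ℝ (E.F q)) x0 :=
      (((ok.o0.sF q).contDiffAt n0).fderiv_right (m := ∞)
        (by simp)).differentiableAt (by simp)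
    refine (h1.clm_apply (differentiableAt_const (EuclideanSpace.single i 1))).congr_of_eventuallyEq
      (hN.mono fun x h => ?_)
    rw [pd, fderivWithin_of_mem_nhds (hH x h)]
  have hF : E.F q x0 = E.f q := congrArg E.f hψ
  have hn : E.n q x0 = E.N q := congrArg E.N hψ
  have main : ∀ a b : ℝ,
      ⟪a • pd (E.F q) 0 x0 + b • pd (E.F q) 1 x0, (2 * l) • E.f q + v⟫ = 0 ∧
      0 ≤ ⟪a • pd (E.F q) 0 x0 + b • pd (E.F q) 1 x0,
          (2 * l) • (a • pd (E.F q) 0 x0 + b • pd (E.F q) 1 x0)⟫ +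
        ⟪a • (a • pd (pd (E.F q) 0) 0 x0 + b • pd (pd (E.F q) 0) 1 x0) +
          b • (a • pd (pd (E.F q) 1) 0 x0 + b • pd (pd (E.F q) 1) 1 x0),
          (2 * l) • E.f q + v⟫ := fun a b => by
    obtain ⟨w, hw⟩ : ∃ w : E2, w = a • EuclideanSpace.single 0 1 + b • EuclideanSpace.single 1 1 :=
      ⟨_, rfl⟩
    have e0 : x0 + (0:ℝ) • w = x0 := by rw [zero_smul, add_zero]
    have tl : Tendsto (fun s : ℝ => x0 + s • w) (𝓝 0) (𝓝 x0) :=
      (by fun_prop : Continuous fun s : ℝ => x0 + s • w).tendsto' 0 x0 e0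
    have c1 : ∀ᶠ s in 𝓝 (0:ℝ), HasDerivAt (fun t : ℝ => E.F q (x0 + t • w))
        (a • pd (E.F q) 0 (x0 + s • w) + b • pd (E.F q) 1 (x0 + s • w)) s :=
      (tl.eventually hN).mono fun s h => line_SO x0 a b s hw (dF _ h) (hH _ h)
    have c2 := fun i => line_SO x0 a b 0 hw (e0.symm ▸ dP i) (e0.symm ▸ hH x0 n0)
    have tq : Tendsto (fun s : ℝ => (E.c q).ψ (x0 + s • w)) (𝓝 0) (𝓝 q) := by
      have h := ((E.c q).cψ.continuousAt n0).tendsto.comp tl
      rwa [hψ] at h
    have lm : IsLocalMin (fun s : ℝ => l * ⟪E.F q (x0 + s • w), E.F q (x0 + s • w)⟫ +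
        ⟪E.F q (x0 + s • w), v⟫) 0 := by
      refine (tq.eventually hm).mono fun s hs => ?_
      simp only [e0, hF]
      exact hs
    have h := one_SO lm (h' := fun s => ⟪a • pd (E.F q) 0 (x0 + s • w) +
      b • pd (E.F q) 1 (x0 + s • w), (2 * l) • E.F q (x0 + s • w) + v⟫)
      (c1.mono fun s hs => by
        refine (((hs.inner ℝ hs).const_mul l).add (hs.inner ℝ (hasDerivAt_const s v))).congr_deriv ?_
        generalize a • pd (E.F q) 0 (x0 + s • w) + b • pd (E.F q) 1 (x0 + s • w) = y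
        rw [inner_zero_right, inner_add_right, real_inner_smul_right,
          real_inner_comm (E.F q (x0 + s • w))]
        ring)
      ((((c2 0).const_smul a).add ((c2 1).const_smul b)).inner ℝ
        ((c1.self_of_nhds.const_smul (2 * l)).add_const v))
    simpa only [Pi.add_apply, Pi.smul_apply, e0, hF] using h
  have o0 := (main 1 0).1
  have o1 := (main 0 1).1
  simp only [one_smul, zero_smul, add_zero, zero_add] at o0 o1
  have hz := par_SO (ok.o2.crsJ q x0 hT) (ok.o2.Jne q x0 hT) (hn ▸ ok.o0.un q) o0 o1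
  obtain ⟨t, ht⟩ : ∃ t, t = ⟪E.n q x0, (2 * l) • E.f q + v⟫ := ⟨_, rfl⟩
  rw [← ht] at hz
  have hK := (ok.o1 q x0 hT).gauss
  rw [hψ] at hK
  refine ⟨t, hn ▸ hz, alg_SO (ok.o2.Jne q x0 hT) real_inner_self_nonneg (ok.o2.Jsq q x0 hT)
    (ok.o1 q x0 hT).mean hK fun a b => (main a b).2.trans_eq ?_⟩
  rw [hz, ← ok.o2.sy q x0 hT]
  simp only [Dat.g, Dat.b, inner_add_left, inner_add_right, real_inner_smul_left,
    real_inner_smul_right, real_inner_comm (pd (E.F q) 0 x0) (pd (E.F q) 1 x0)]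
  ring

variable {M : Type} [TopologicalSpace M] [T2Space M] [CompactSpace M] [ConnectedSpace M]
  [MeasurableSpace M] [BorelSpace M]

set_option linter.unusedSectionVars false in
theorem SO_pf (E : Dat M) : SSO E := by
  intro ok
  have nr : ∀ (q : M) (t : ℝ), ‖t • E.N q‖ = |t| := fun q t => by
    rw [norm_smul, ok.o0.un, mul_one, Real.norm_eq_abs]
  refine ⟨fun q hq o r hr h1 h2 => ?_, fun q hq v hv h2 => ?_⟩
  · have e : ∀ y : E3, 1 * ⟪y, y⟫ + ⟪y, (-2 : ℝ) • o⟫ = ‖y - o‖ ^ 2 - ‖o‖ ^ 2 := fun y => by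
      rw [norm_sub_sq_real, real_inner_smul_right, real_inner_self_eq_norm_sq]
      ring
    obtain ⟨t, k1, k2, k3⟩ := key_SO ok hq 1 ((-2 : ℝ) • o) (h2.mono fun p hp => by
      simp only [e, h1]
      gcongr)
    have k4 : (2 : ℝ) • (E.f q - o) = t • E.N q := by
      rw [← k1, mul_one, smul_sub, neg_smul, sub_eq_add_neg]
    have k5 := nr q t
    rw [← k4, norm_smul, h1, Real.norm_two] at k5
    have k6 : o = E.f q - (t / 2) • E.N q := by
      rw [div_eq_inv_mul, mul_smul, ← k4, smul_smul]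
      norm_num
    rcases (abs_eq (by positivity)).1 k5.symm with rfl | rfl
    · left
      rw [k6, mul_div_cancel_left₀ _ two_ne_zero]
    · refine Or.inr ⟨?_, by linarith, by linarith⟩
      rw [k6, neg_div, mul_div_cancel_left₀ _ two_ne_zero, neg_smul, sub_neg_eq_add]
  · obtain ⟨t, k1, k2, -⟩ := key_SO ok hq 0 (-v) (h2.mono fun p hp => by
      simp only [zero_mul, zero_add, inner_neg_right]
      exact neg_le_neg hp)
    rw [mul_zero, zero_smul, zero_add] at k1
    have k5 := nr q t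
    rw [← k1, norm_neg, hv] at k5
    rcases (abs_eq zero_le_one).1 k5.symm with rfl | rfl
    · left
      rw [← neg_neg v, k1, one_smul]
    · refine Or.inr ⟨?_, by linarith⟩
      rw [← neg_neg v, k1, neg_smul, neg_neg, one_smul]

end Pool.Agent.MP_efb2da_gt.Emb

end

end

section

/-! A connected umbilical surface lies on a sphere. -/

open scoped Manifold ContDiff RealInnerProductSpace Topology ENNReal
open Set MeasureTheory Filter Metric

noncomputable section

namespace Pool.Agent.MP_efb2da_gt.Emb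

theorem alg_Sph {g0 g1 g2 b0 b1 b2 H : ℝ} (hD : 0 < g0 * g2 - g1 ^ 2)
    (hm : b0 * g2 - 2 * b1 * g1 + b2 * g0 = 2 * H * (g0 * g2 - g1 ^ 2))
    (hg : b0 * b2 - b1 ^ 2 = H ^ 2 * (g0 * g2 - g1 ^ 2)) :
    b0 = H * g0 ∧ b1 = H * g1 ∧ b2 = H * g2 := by
  have p0 : g0 ≠ 0 := fun e => by rw [e] at hD; nlinarith [sq_nonneg g1]
  have t : (b0 - H * g0) * g2 - 2 * (b1 - H * g1) * g1 + (b2 - H * g2) * g0 = 0 := by
    linear_combination hm
  have d : (b0 - H * g0) * (b2 - H * g2) = (b1 - H * g1) ^ 2 := by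
    linear_combination hg - H * hm
  have key : ∀ p q r : ℝ, p * g2 - 2 * q * g1 + r * g0 = 0 → p * r = q ^ 2 →
      p = 0 ∧ q = 0 ∧ r = 0 := by
    intro p q r t d
    have e : (q * g0 - p * g1) ^ 2 + p ^ 2 * (g0 * g2 - g1 ^ 2) = 0 := by
      linear_combination g0 * p * t - g0 ^ 2 * d
    have hp : p = 0 := by
      have := (add_eq_zero_iff_of_nonneg (sq_nonneg _) (mul_nonneg (sq_nonneg p) hD.le)).1 e
      exact pow_eq_zero_iff two_ne_zero |>.1 ((mul_eq_zero.1 this.2).resolve_right hD.ne')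
    have hq : q = 0 := pow_eq_zero_iff two_ne_zero |>.1 (by rw [← d, hp, zero_mul])
    rw [hp, hq] at t
    exact ⟨hp, hq, (mul_eq_zero.1 (by linear_combination t)).resolve_right p0⟩
  obtain ⟨k0, k1, k2⟩ := key _ _ _ t d
  exact ⟨sub_eq_zero.1 k0, sub_eq_zero.1 k1, sub_eq_zero.1 k2⟩

theorem perp_Sph {a b c v : E3} (h : dt a b c ≠ 0) (h1 : ⟪v, a⟫ = 0) (h2 : ⟪v, b⟫ = 0)
    (h3 : ⟪v, c⟫ = 0) : v = 0 := by
  rw [inner3] at h1 h2 h3
  ext i
  refine (mul_eq_zero.1 (?_ : dt a b c * v i = 0)).resolve_left h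
  unfold dt
  fin_cases i
  · change _ * v 0 = 0
    linear_combination (b 1 * c 2 - b 2 * c 1) * h1 + (c 1 * a 2 - c 2 * a 1) * h2 +
      (a 1 * b 2 - a 2 * b 1) * h3
  · change _ * v 1 = 0
    linear_combination (b 2 * c 0 - b 0 * c 2) * h1 + (c 2 * a 0 - c 0 * a 2) * h2 +
      (a 2 * b 0 - a 0 * b 2) * h3
  · change _ * v 2 = 0
    linear_combination (b 0 * c 1 - b 1 * c 0) * h1 + (c 0 * a 1 - c 1 * a 0) * h2 +
      (a 0 * b 1 - a 1 * b 0) * h3

theorem lin_Sph {L : E2 →L[ℝ] E3} (h : ∀ i, L (EuclideanSpace.single i 1) = 0) : L = 0 := by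
  refine ContinuousLinearMap.ext fun v => ?_
  have e : v = v 0 • EuclideanSpace.single 0 (1 : ℝ) + v 1 • EuclideanSpace.single 1 (1 : ℝ) := by
    ext i
    fin_cases i <;> simp
  rw [e, map_add, map_smul, map_smul, h, h]
  simp

theorem conv_Sph : Convex ℝ halfPlane := by
  intro x hx y hy a b ha hb _
  change 0 ≤ a * x 0 + b * y 0
  exact add_nonneg (mul_nonneg ha hx) (mul_nonneg hb hy)

variable {M : Type} [TopologicalSpace M] [T2Space M] [CompactSpace M] [ConnectedSpace M]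
  [MeasurableSpace M] [BorelSpace M]

omit [T2Space M] [CompactSpace M] [ConnectedSpace M] [MeasurableSpace M] [BorelSpace M] in
theorem der_Sph (E : Dat M) (h : E.Ok) (hH : E.H ≠ 0) (hK : ∀ q, E.K q = E.H ^ 2) (p : M) {x : E2}
    (hx : x ∈ E.T p) : HasFDerivWithinAt (fun y => E.F p y + E.H⁻¹ • E.n p y)
      (0 : E2 →L[ℝ] E3) halfPlane x := by
  have hT : E.T p ∈ 𝓝[halfPlane] x :=
    inter_mem (mem_nhdsWithin_of_mem_nhds ((E.c p).oO.mem_nhds hx.1)) self_mem_nhdsWithin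
  have d1 := (((h.o0.sF p).differentiableOn (by simp) x hx).mono_of_mem_nhdsWithin
    hT).hasFDerivWithinAt
  have d2 := (((h.o2.sn p).differentiableOn (by simp) x hx).mono_of_mem_nhdsWithin
    hT).hasFDerivWithinAt
  have hg := (h.o1 p x hx).gauss
  rw [hK] at hg
  obtain ⟨b0, b1, b2⟩ := alg_Sph
    (by
      rw [← h.o2.Jsq p x hx]
      exact sq_pos_of_ne_zero (h.o2.Jne p x hx)) (h.o1 p x hx).mean hg
  have sb : E.b p x 1 0 = E.b p x 0 1 := by simp only [Dat.b, h.o2.sy p x hx]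
  have sg : E.g p x 1 0 = E.g p x 0 1 := real_inner_comm _ _
  have hb : ∀ i j, E.b p x i j = E.H * E.g p x i j := fun i j => by
    fin_cases i <;> fin_cases j
    exacts [b0, b1, sb.trans (b1.trans (congrArg _ sg.symm)), b2]
  have e : fderivWithin ℝ (E.F p) halfPlane x + E.H⁻¹ • fderivWithin ℝ (E.n p) halfPlane x = 0 := by
    refine lin_Sph fun j => ?_
    change pd (E.F p) j x + E.H⁻¹ • pd (E.n p) j x = 0
    have k : ∀ i, ⟪pd (E.F p) j x + E.H⁻¹ • pd (E.n p) j x, pd (E.F p) i x⟫ = 0 := fun i => by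
      rw [inner_add_left, real_inner_smul_left, h.o2.wg p x hx, hb, mul_neg,
        inv_mul_cancel_left₀ hH, real_inner_comm]
      exact add_neg_cancel _
    refine perp_Sph (h.o2.Jne p x hx) (k 0) (k 1) ?_
    rw [inner_add_left, real_inner_smul_left, h.o2.tN p x hx, (h.o1 p x hx).orth, mul_zero,
      add_zero]
  rw [← e]
  exact d1.add (d2.const_smul E.H⁻¹)

omit [T2Space M] [CompactSpace M] [MeasurableSpace M] [BorelSpace M] in
theorem main_Sph (E : Dat M) : SSph E := by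
  intro h hH hK
  have lc : IsLocallyConstant fun q => E.f q + E.H⁻¹ • E.N q := by
    refine (IsLocallyConstant.iff_eventually_eq _).2 fun p => ?_
    have hp := h.o0.mem p
    have h0 := (E.c p).mφ hp
    obtain ⟨r, hr, hb⟩ := Metric.isOpen_iff.1 (E.c p).oO _ h0.1
    have hS := (E.c p).oS.mem_nhds hp
    filter_upwards [hS, ((E.c p).cφ.continuousAt hS).preimage_mem_nhds (ball_mem_nhds _ hr)]
      with q hq hq'
    have := ((convex_ball ((E.c p).φ p) r).inter
      conv_Sph).norm_image_sub_le_of_norm_hasFDerivWithin_le (C := 0)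
      (f := fun y => E.F p y + E.H⁻¹ • E.n p y) (f' := fun _ => (0 : E2 →L[ℝ] E3))
      (fun y hy => (der_Sph E h hH hK p ⟨hb hy.1, hy.2⟩).mono inter_subset_right)
      (fun _ _ => norm_zero.le) ⟨mem_ball_self hr, h0.2⟩ ⟨hq', ((E.c p).mφ hq).2⟩
    rw [zero_mul, norm_le_zero_iff, sub_eq_zero] at this
    simpa only [Dat.F, Dat.n, Function.comp, (E.c p).li _ hp, (E.c p).li _ hq] using this
  obtain ⟨p⟩ := (inferInstance : Nonempty M)
  exact ⟨_, fun q => lc.apply_eq_of_preconnectedSpace q p⟩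

set_option linter.unusedSectionVars false in
theorem Sph_pf (E : Dat M) : SSph E := main_Sph E

end Pool.Agent.MP_efb2da_gt.Emb

end

end

section

/-! The area measure. -/

open scoped Manifold ContDiff RealInnerProductSpace Topology ENNReal
open Set MeasureTheory Filter Metric

noncomputable section

namespace Pool.Agent.MP_efb2da_gt.Emb

theorem det_Mu (A : E2 →L[ℝ] E2) (D : E2 →L[ℝ] E3) (n : E3) :
    dt (D (A (EuclideanSpace.single 0 1))) (D (A (EuclideanSpace.single 1 1))) n =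
      A.det * dt (D (EuclideanSpace.single 0 1)) (D (EuclideanSpace.single 1 1)) n := by
  have h : ∀ v : E2, D v =
      v 0 • D (EuclideanSpace.single 0 1) + v 1 • D (EuclideanSpace.single 1 1) := fun v => by
    rw [← map_smul, ← map_smul, ← map_add]
    congr 1
    ext i
    fin_cases i <;> simp
  have h2 : A.det = A (EuclideanSpace.single 0 1) 0 * A (EuclideanSpace.single 1 1) 1 -
      A (EuclideanSpace.single 1 1) 0 * A (EuclideanSpace.single 0 1) 1 := by
    rw [ContinuousLinearMap.det, ← LinearMap.det_toMatrix (EuclideanSpace.basisFun (Fin 2) ℝ).toBasis,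
      Matrix.det_fin_two]
    simp [LinearMap.toMatrix_apply]
  rw [h2, h (A _), h (A (EuclideanSpace.single 1 1))]
  simp only [dt, PiLp.add_apply, PiLp.smul_apply, smul_eq_mul]
  ring

theorem cl_Mu : IsClosed halfPlane := isClosed_le continuous_const (by fun_prop)

theorem ud_Mu : UniqueDiffOn ℝ halfPlane := by
  refine uniqueDiffOn_convex (fun x hx y hy a b ha hb _ => ?_) ⟨EuclideanSpace.single 0 1, ?_⟩
  · exact add_nonneg (mul_nonneg ha hx) (mul_nonneg hb hy)
  · refine mem_interior.2 ⟨{x | 0 < x 0}, fun x (hx : 0 < x 0) => hx.le,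
      isOpen_lt continuous_const (by fun_prop), ?_⟩
    simp

variable {M : Type} [TopologicalSpace M]

theorem mT_Mu (E : Dat M) (p : M) : MeasurableSet (E.T p) :=
  (E.c p).oO.measurableSet.inter cl_Mu.measurableSet

theorem op_Mu (E : Dat M) (p q : M) :
    ∃ u, IsOpen u ∧ E.T p ∩ (E.c p).ψ ⁻¹' (E.c q).S = u ∩ halfPlane := by
  obtain ⟨u, hu, e⟩ := continuousOn_iff'.1 (E.c p).cψ _ (E.c q).oS
  exact ⟨u ∩ (E.c p).O, hu.inter (E.c p).oO, by rw [inter_comm, inter_assoc]; exact e⟩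

theorem chg_Mu {E : Dat M} (h : E.Ok0) (p q : M) (u : M → ℝ≥0∞) :
    ∫⁻ x in E.T p ∩ (E.c p).ψ ⁻¹' (E.c q).S, ENNReal.ofReal |E.J p x| * u ((E.c p).ψ x) =
      ∫⁻ x in E.T q ∩ (E.c q).ψ ⁻¹' (E.c p).S, ENNReal.ofReal |E.J q x| * u ((E.c q).ψ x) := by
  obtain ⟨w, w1, w2⟩ := op_Mu E p q
  have ms : MeasurableSet (E.T p ∩ (E.c p).ψ ⁻¹' (E.c q).S) :=
    w2 ▸ w1.measurableSet.inter cl_Mu.measurableSet
  have hd := fun x hx => ((h.tr p q).differentiableOn (by simp) x hx).hasFDerivWithinAt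
  have im : ((E.c q).φ ∘ (E.c p).ψ) '' (E.T p ∩ (E.c p).ψ ⁻¹' (E.c q).S) =
      E.T q ∩ (E.c q).ψ ⁻¹' (E.c p).S := by
    refine Subset.antisymm ?_ fun y hy => ⟨(E.c p).φ ((E.c q).ψ y), ⟨(E.c p).mφ hy.2, ?_⟩, ?_⟩
    · rintro _ ⟨x, hx, rfl⟩
      refine ⟨(E.c q).mφ hx.2, ?_⟩
      rw [mem_preimage, Function.comp_apply, (E.c q).li _ hx.2]
      exact (E.c p).mψ hx.1
    · rw [mem_preimage, (E.c p).li _ hy.2]
      exact (E.c q).mψ hy.1
    · rw [Function.comp_apply, (E.c p).li _ hy.2, (E.c q).ri _ hy.1]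
  rw [← im, lintegral_image_eq_lintegral_abs_det_fderiv_mul volume ms hd fun x hx y hy e => ?_]
  · refine setLIntegral_congr_fun ms fun x hx => ?_
    have e1 : (E.c q).ψ (((E.c q).φ ∘ (E.c p).ψ) x) = (E.c p).ψ x := (E.c q).li _ hx.2
    have m1 : ((E.c q).φ ∘ (E.c p).ψ) x ∈ E.T q := (E.c q).mφ hx.2
    have d1 := (((h.sF q).differentiableOn (by simp) _ m1).mono_of_mem_nhdsWithin (t := halfPlane)
      (mem_nhdsWithin.2 ⟨_, (E.c q).oO, m1.1, Subset.rfl⟩)).hasFDerivWithinAt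
    have d2 := ((d1.comp x (hd x hx) fun y hy => ((E.c q).mφ hy.2).2).congr (f₁ := E.F p)
      (fun y hy => congrArg E.f ((E.c q).li _ hy.2).symm)
      (congrArg E.f e1.symm)).mono_of_mem_nhdsWithin
      (mem_nhdsWithin.2 ⟨w, w1, (w2 ▸ hx : x ∈ w ∩ halfPlane).1, w2.ge⟩)
    have e2 : E.J p x = (fderivWithin ℝ ((E.c q).φ ∘ (E.c p).ψ)
        (E.T p ∩ (E.c p).ψ ⁻¹' (E.c q).S) x).det * E.J q (((E.c q).φ ∘ (E.c p).ψ) x) := by
      rw [Dat.J, pd, pd, d2.fderivWithin (ud_Mu x hx.1.2),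
        show E.n p x = E.n q (((E.c q).φ ∘ (E.c p).ψ) x) from congrArg E.N e1.symm]
      exact det_Mu _ _ _
    rw [e1, e2, abs_mul, ENNReal.ofReal_mul (abs_nonneg _), mul_assoc]
  · have e' := congrArg (E.c q).ψ e
    rw [Function.comp_apply, Function.comp_apply, (E.c q).li _ hx.2, (E.c q).li _ hy.2] at e'
    rw [← (E.c p).ri x hx.1, e', (E.c p).ri y hy.1]

variable [MeasurableSpace M] [BorelSpace M]

/-- the measure in one chart -/
def nu_Mu (E : Dat M) (p : M) : Measure M := Measure.map (E.c p).ψ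
  ((volume.restrict (E.T p)).withDensity fun x => ENNReal.ofReal |E.J p x|)

theorem am_Mu (E : Dat M) (p : M) : AEMeasurable (E.c p).ψ (volume.restrict (E.T p)) :=
  (E.c p).cψ.aemeasurable (mT_Mu E p)

omit [MeasurableSpace M] [BorelSpace M] in
theorem aj_Mu {E : Dat M} (h : E.Ok2) (p : M) :
    AEMeasurable (fun x => ENNReal.ofReal |E.J p x|) (volume.restrict (E.T p)) :=
  ((h.cJ p).abs.aemeasurable (mT_Mu E p)).ennreal_ofReal

theorem li_Mu {E : Dat M} (h : E.Ok2) (p : M) {u : M → ℝ≥0∞} (hu : Measurable u) :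
    ∫⁻ q, u q ∂nu_Mu E p = ∫⁻ x in E.T p, ENNReal.ofReal |E.J p x| * u ((E.c p).ψ x) := by
  rw [nu_Mu, lintegral_map' hu.aemeasurable
    ((am_Mu E p).mono_ac (withDensity_absolutelyContinuous _ _))]
  exact lintegral_withDensity_eq_lintegral_mul₀ (aj_Mu h p) (hu.comp_aemeasurable (am_Mu E p))

theorem lr_Mu {E : Dat M} (h : E.Ok2) (p q : M) {u : M → ℝ≥0∞} (hu : Measurable u) :
    ∫⁻ z in (E.c q).S, u z ∂nu_Mu E p =
      ∫⁻ x in E.T p ∩ (E.c p).ψ ⁻¹' (E.c q).S, ENNReal.ofReal |E.J p x| * u ((E.c p).ψ x) := by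
  obtain ⟨w, w1, w2⟩ := op_Mu E p q
  have ms : MeasurableSet (E.T p ∩ (E.c p).ψ ⁻¹' (E.c q).S) :=
    w2 ▸ w1.measurableSet.inter cl_Mu.measurableSet
  rw [← lintegral_indicator (E.c q).oS.measurableSet,
    li_Mu h p (hu.indicator (E.c q).oS.measurableSet), ← lintegral_indicator ms,
    ← lintegral_indicator (mT_Mu E p), ← indicator_indicator]
  refine congrArg _ (congrArg (E.T p).indicator (funext fun x => ?_))
  by_cases e : (E.c p).ψ x ∈ (E.c q).S
  · rw [indicator_of_mem e, indicator_of_mem (mem_preimage.2 e)]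
  · rw [indicator_of_notMem e, indicator_of_notMem (fun g => e (mem_preimage.1 g)), mul_zero]

theorem cmp_Mu {E : Dat M} (h : E.Ok) (p q : M) :
    (nu_Mu E p).restrict (E.c q).S = (nu_Mu E q).restrict (E.c p).S :=
  Measure.ext_of_lintegral _ fun u hu => by rw [lr_Mu h.o2 p q hu, lr_Mu h.o2 q p hu, chg_Mu h.o0]

theorem slf_Mu {E : Dat M} (h : E.Ok2) (p : M) : (nu_Mu E p).restrict (E.c p).S = nu_Mu E p :=
  Measure.ext_of_lintegral _ fun u hu => by
    rw [lr_Mu h p p hu, li_Mu h p hu,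
      inter_eq_left.2 (show E.T p ⊆ (E.c p).ψ ⁻¹' (E.c p).S from (E.c p).mψ)]

theorem loc_Mu {E : Dat M} (h : E.Ok) (p : M) :
    ∃ U, IsOpen U ∧ p ∈ U ∧ U ⊆ (E.c p).S ∧ nu_Mu E p U < ⊤ := by
  obtain ⟨r, r0, hr⟩ := Metric.continuousWithinAt_iff.1
    ((h.o2.cJ p).abs _ ((E.c p).mφ (h.o0.mem p))) 1 one_pos
  have o1 := (E.c p).cφ.isOpen_inter_preimage (E.c p).oS (isOpen_ball (x := (E.c p).φ p) (ε := r))
  refine ⟨_, o1, ⟨h.o0.mem p, mem_ball_self r0⟩, inter_subset_left, ?_⟩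
  rw [← lintegral_indicator_one o1.measurableSet,
    li_Mu h.o2 p (measurable_one.indicator o1.measurableSet)]
  refine lt_of_le_of_lt (b := ∫⁻ x, (ball ((E.c p).φ p) r).indicator
    (fun _ => ENNReal.ofReal (|E.J p ((E.c p).φ p)| + 1)) x) ?_ ?_
  · refine le_trans (setLIntegral_mono' (mT_Mu E p) fun x hx => ?_) (setLIntegral_le_lintegral _ _)
    by_cases e : (E.c p).ψ x ∈ (E.c p).S ∩ (E.c p).φ ⁻¹' ball ((E.c p).φ p) r
    · have e1 : x ∈ ball ((E.c p).φ p) r := (E.c p).ri x hx ▸ e.2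
      rw [indicator_of_mem e, indicator_of_mem e1, Pi.one_apply, mul_one]
      have e2 := (abs_lt.1 ((Real.dist_eq _ _).symm.trans_lt (hr hx e1))).2
      exact ENNReal.ofReal_le_ofReal (by linarith)
    · rw [indicator_of_notMem e, mul_zero]
      exact zero_le
  · rw [lintegral_indicator_const measurableSet_ball]
    exact ENNReal.mul_lt_top ENNReal.ofReal_lt_top measure_ball_lt_top

variable [T2Space M] [CompactSpace M] [ConnectedSpace M]

set_option linter.unusedSectionVars false in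
theorem Mu_pf (E : Dat M) : SMu E := by
  intro h
  obtain ⟨t, ht⟩ := isCompact_univ.elim_finite_subcover (fun p => (E.c p).S) (fun p => (E.c p).oS)
    fun p _ => mem_iUnion.2 ⟨p, h.o0.mem p⟩
  obtain ⟨p₀⟩ : Nonempty M := inferInstance
  obtain ⟨e, he⟩ := (t.countable_toSet.insert p₀).exists_eq_range (insert_nonempty _ _)
  have hc : ⋃ i, disjointed (fun i => (E.c (e i)).S) i = univ := by
    rw [iUnion_disjointed]
    refine eq_univ_of_forall fun z => ?_
    obtain ⟨p, hp, hz⟩ := mem_iUnion₂.1 (ht (mem_univ z))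
    obtain ⟨i, rfl⟩ : p ∈ range e := he ▸ mem_insert_of_mem _ hp
    exact mem_iUnion.2 ⟨i, hz⟩
  have mA := MeasurableSet.disjointed fun i => (E.c (e i)).oS.measurableSet
  obtain ⟨μ, hμ⟩ : ∃ μ : Measure M, ∀ p, μ.restrict (E.c p).S = nu_Mu E p := by
    refine ⟨Measure.sum fun i => (nu_Mu E (e i)).restrict (disjointed (fun i => (E.c (e i)).S) i),
      fun p => ?_⟩
    rw [Measure.restrict_sum _ (E.c p).oS.measurableSet, ← Measure.restrict_univ (μ := nu_Mu E p),
      ← hc, Measure.restrict_iUnion (disjoint_disjointed _) mA]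
    congr 1
    funext i
    rw [Measure.restrict_comm (E.c p).oS.measurableSet, cmp_Mu h, Measure.restrict_restrict (mA i),
      inter_eq_left.2 (disjointed_subset _ i)]
  have : IsLocallyFiniteMeasure μ := ⟨fun p => by
    obtain ⟨U, u1, u2, u3, u4⟩ := loc_Mu h p
    rw [← hμ, Measure.restrict_apply u1.measurableSet, inter_eq_left.2 u3] at u4
    exact ⟨U, u1.mem_nhds u2, u4⟩⟩
  refine ⟨μ, inferInstance, fun p u hu => by rw [hμ, li_Mu h.o2 p hu], fun p u hu => ?_⟩
  rw [hμ, nu_Mu, integral_map ((am_Mu E p).mono_ac (withDensity_absolutelyContinuous _ _))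
    hu.aestronglyMeasurable, integral_withDensity_eq_integral_toReal_smul₀ (aj_Mu h.o2 p)
    (Eventually.of_forall fun _ => ENNReal.ofReal_lt_top)]
  simp only [ENNReal.toReal_ofReal (abs_nonneg _), smul_eq_mul]

end Pool.Agent.MP_efb2da_gt.Emb

end

end
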