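import Pool.Agent.MP_efb2da_gt.Defs

/-! Embedded surfaces of constant mean curvature with planar boundary: data and statements. -/

open scoped Manifold ContDiff RealInnerProductSpace Topology ENNReal
open Set MeasureTheory Filter Metric

noncomputable section

namespace Pool.Agent.MP_efb2da_gt.Emb

/-- determinant of three vectors -/
def dt (a b c : E3) : ℝ :=
  a 0 * (b 1 * c 2 - b 2 * c 1) - a 1 * (b 0 * c 2 - b 2 * c 0) + a 2 * (b 0 * c 1 - b 1 * c 0)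

/-- cross product -/
def crs (a b : E3) : E3 :=
  !₂[a 1 * b 2 - a 2 * b 1, a 2 * b 0 - a 0 * b 2, a 0 * b 1 - a 1 * b 0]

/-- the vertical unit vector -/
def e3 : E3 := !₂[0, 0, 1]

/-- horizontal projection -/
def pr (y : E3) : E2 := !₂[y 0, y 1]

/-- the boundary line of the half plane -/
def ln (v : ℝ) : E2 := !₂[0, v]

/-- the reflection in the plane (`σ = -1`) or the identity (`σ = 1`) -/
def rf (σ : ℝ) (x : E3) : E3 := !₂[x 0, x 1, σ * x 2]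

/-- open cube -/
def cube (y0 : E3) (ε : ℝ) : Set E3 := {y | ∀ i, |y i - y0 i| < ε}

/-- the derivative `∂ᵢ Xⱼ` -/
def pD (X : E3 → E3) (x : E3) (i j : Fin 3) : ℝ := fderiv ℝ X x (EuclideanSpace.single i 1) j

/-- divergence -/
def dv (X : E3 → E3) (x : E3) : ℝ := pD X x 0 0 + pD X x 1 1 + pD X x 2 2

/-- curl -/
def curl (X : E3 → E3) (x : E3) : E3 :=
  !₂[pD X x 1 2 - pD X x 2 1, pD X x 2 0 - pD X x 0 2, pD X x 0 1 - pD X x 1 0]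

/-- `C¹` fields with compact support -/
def C1c (X : E3 → E3) : Prop := ContDiff ℝ 1 X ∧ HasCompactSupport X

/-- fields tangent to the plane along the plane -/
def Tg (X : E3 → E3) : Prop := ∀ x : E3, x 2 = 0 → X x 2 = 0

/-- the Montiel-Ros integral -/
def Gf (H κ : ℝ) : ℝ := ∫ t in (0:ℝ)..(1 / H), max 0 (1 - 2 * H * t + κ * t ^ 2)

theorem inner3 (a b : E3) : ⟪a, b⟫ = a 0 * b 0 + a 1 * b 1 + a 2 * b 2 := by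
  simp [PiLp.inner_apply, Fin.sum_univ_three, mul_comm]

theorem inner_crs (a b c : E3) : ⟪crs a b, c⟫ = dt a b c := by
  rw [inner3]; simp [crs, dt]; ring

/-! ### General statements -/

/-- `C¹` extension across the boundary of the half plane -/
def SExt : Prop := ∀ (F : E2 → E3) (O : Set E2) (x0 : E2), IsOpen O →
  ContDiffOn ℝ 1 F (O ∩ halfPlane) → x0 ∈ O ∩ halfPlane →
  ∃ r > 0, ∃ G : E2 → E3, ball x0 r ⊆ O ∧ ContDiffOn ℝ 1 G (ball x0 r) ∧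
    ∀ x ∈ ball x0 r ∩ halfPlane, G x = F x ∧ fderiv ℝ G x = fderivWithin ℝ F halfPlane x

/-- from local to global by a partition of unity -/
def SGlue : Prop := ∀ (V : Set E3) (Cl : (E3 → E3) → Prop) (L : (E3 → E3) → ℝ),
  (∀ X, Cl X → ∀ g : E3 → ℝ, ContDiff ℝ ∞ g → Cl (fun x => g x • X x)) →
  (∀ X Y, Cl X → Cl Y → L (X + Y) = L X + L Y) →
  (∀ x ∈ V, ∃ U ∈ 𝓝 x, ∀ X, Cl X → tsupport X ⊆ U → L X = 0) →
  ∀ X, Cl X → HasCompactSupport X → tsupport X ⊆ V → L X = 0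

/-- elementary facts on the divergence -/
structure SDiv : Prop where
  all : ∀ X, C1c X → ∫ x, dv X x = 0
  half : ∀ X, C1c X → Tg X → ∫ x in {x : E3 | 0 < x 2}, dv X x = 0
  cont : ∀ X, C1c X → Continuous (dv X) ∧ Integrable (dv X) ∧ ∀ x ∉ tsupport X, dv X x = 0
  add : ∀ X Y, C1c X → C1c Y → dv (X + Y) = dv X + dv Y
  smul : ∀ X, C1c X → ∀ g : E3 → ℝ, ContDiff ℝ ∞ g → C1c (fun x => g x • X x)
  plane : volume {x : E3 | x 2 = 0} = 0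
  cut : ∀ R : ℝ, ∃ g : E3 → ℝ, ContDiff ℝ ∞ g ∧ HasCompactSupport g ∧ ∀ x ∈ ball (0 : E3) R, g x = 1

/-- area inequality with multiplicity -/
def SMult : Prop := ∀ (s : Set E3) (Φ : E3 → E3) (Φ' : E3 → E3 →L[ℝ] E3), MeasurableSet s →
  (∀ y ∈ s, HasFDerivWithinAt Φ (Φ' y) s y) →
  ∃ k : E3 → ℝ≥0∞, Measurable k ∧ ∫⁻ x, k x ≤ ∫⁻ y in s, ENNReal.ofReal |(Φ' y).det| ∧
    ∀ (x : E3) (T : Finset E3), (∀ y ∈ T, y ∈ s ∧ Φ y = x) → (T.card : ℝ≥0∞) ≤ k x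

/-- a simple closed curve inside a circle is the circle -/
def SCirc : Prop := ∀ (γ : ℝ → E2) (c : E2) (R : ℝ), Continuous γ → Function.Periodic γ 1 →
  InjOn γ (Ico 0 1) → range γ ⊆ sphere c R → range γ = sphere c R

/-- the Cauchy kernel on a disc -/
def SKer : Prop := ∀ (R : ℝ) (z : ℂ), ‖z‖ < R →
  IntegrableOn (fun a : ℂ => (z - a)⁻¹) (ball 0 R) ∧
  ∫ a in ball (0 : ℂ) R, (z - a)⁻¹ = Real.pi * (starRingEnd ℂ) z ∧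
  ∫ a in ball (0 : ℂ) R, ‖(z - a)⁻¹‖ ≤ 4 * Real.pi * R

/-- the half of Green's formula that is needed -/
def SGreen : Prop := ∀ γ : ℝ → E2, ContDiff ℝ 1 γ → Function.Periodic γ 1 → InjOn γ (Ico 0 1) →
  area (inside (range γ)) ≤ |∫ s in (0:ℝ)..1, γ s 0 * deriv γ s 1|

/-! ### Surfaces -/

/-- a chart onto a relatively open subset of the half plane -/
structure Chart (M : Type) [TopologicalSpace M] where
  φ : M → E2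
  ψ : E2 → M
  S : Set M
  O : Set E2
  oS : IsOpen S
  oO : IsOpen O
  mφ : MapsTo φ S (O ∩ halfPlane)
  mψ : MapsTo ψ (O ∩ halfPlane) S
  li : ∀ q ∈ S, ψ (φ q) = q
  ri : ∀ x ∈ O ∩ halfPlane, φ (ψ x) = x
  cφ : ContinuousOn φ S
  cψ : ContinuousOn ψ (O ∩ halfPlane)

/-- immersion, normal, mean and Gauss curvature, boundary, charts -/
structure Dat (M : Type) [TopologicalSpace M] where
  f : M → E3
  N : M → E3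
  H : ℝ
  K : M → ℝ
  bd : Set M
  c : M → Chart M

namespace Dat

variable {M : Type} [TopologicalSpace M] (E : Dat M)

def T (p : M) : Set E2 := (E.c p).O ∩ halfPlane
def F (p : M) : E2 → E3 := E.f ∘ (E.c p).ψ
def n (p : M) : E2 → E3 := E.N ∘ (E.c p).ψ
/-- signed area density -/
def J (p : M) (x : E2) : ℝ := dt (pd (E.F p) 0 x) (pd (E.F p) 1 x) (E.n p x)
/-- first fundamental form -/
def g (p : M) (x : E2) (i j : Fin 2) : ℝ := ⟪pd (E.F p) i x, pd (E.F p) j x⟫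
/-- second fundamental form -/
def b (p : M) (x : E2) (i j : Fin 2) : ℝ := ⟪pd (pd (E.F p) i) j x, E.n p x⟫
def Sg : Set E3 := range E.f
def C : Set E3 := E.f '' E.bd

/-- reflected data, reversed normal -/
def sym (σ τ : ℝ) : Dat M where
  f q := rf σ (E.f q)
  N q := τ • rf σ (E.N q)
  H := τ * E.H
  K := E.K
  bd := E.bd
  c := E.c

structure Ok0 : Prop where
  mem : ∀ p, p ∈ (E.c p).S
  cf : Continuous E.f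
  cN : Continuous E.N
  un : ∀ p, ‖E.N p‖ = 1
  clb : IsClosed E.bd
  bdi : ∀ p, ∀ q ∈ (E.c p).S, q ∈ E.bd ↔ (E.c p).φ q 0 = 0
  sF : ∀ p, ContDiffOn ℝ ∞ (E.F p) (E.T p)
  tr : ∀ p p', ContDiffOn ℝ ∞ ((E.c p').φ ∘ (E.c p).ψ) (E.T p ∩ (E.c p).ψ ⁻¹' (E.c p').S)

/-- immersion, normal, mean curvature and Gauss curvature at the point `x` of the chart at `p` -/
structure Pt (p : M) (x : E2) : Prop where
  imm : LinearIndependent ℝ (fun i : Fin 2 => pd (E.F p) i x)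
  orth : ∀ i, ⟪pd (E.F p) i x, E.n p x⟫ = 0
  mean : E.b p x 0 0 * E.g p x 1 1 - 2 * E.b p x 0 1 * E.g p x 0 1 + E.b p x 1 1 * E.g p x 0 0 =
    2 * E.H * (E.g p x 0 0 * E.g p x 1 1 - E.g p x 0 1 ^ 2)
  gauss : E.b p x 0 0 * E.b p x 1 1 - E.b p x 0 1 ^ 2 =
    E.K ((E.c p).ψ x) * (E.g p x 0 0 * E.g p x 1 1 - E.g p x 0 1 ^ 2)

def Ctr : Prop := ∀ p, E.Pt p ((E.c p).φ p)

def Ok1 : Prop := ∀ p, ∀ x ∈ E.T p, E.Pt p x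

structure Ok2 : Prop where
  sn : ∀ p, ContDiffOn ℝ ∞ (E.n p) (E.T p)
  Jne : ∀ p, ∀ x ∈ E.T p, E.J p x ≠ 0
  cJ : ∀ p, ContinuousOn (E.J p) (E.T p)
  crsJ : ∀ p, ∀ x ∈ E.T p, crs (pd (E.F p) 0 x) (pd (E.F p) 1 x) = E.J p x • E.n p x
  Jsq : ∀ p, ∀ x ∈ E.T p, E.J p x ^ 2 = E.g p x 0 0 * E.g p x 1 1 - E.g p x 0 1 ^ 2
  tN : ∀ p, ∀ x ∈ E.T p, ∀ i, ⟪pd (E.n p) i x, E.n p x⟫ = 0
  sy : ∀ p, ∀ x ∈ E.T p, pd (pd (E.F p) 0) 1 x = pd (pd (E.F p) 1) 0 x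
  wg : ∀ p, ∀ x ∈ E.T p, ∀ i j, ⟪pd (E.n p) j x, pd (E.F p) i x⟫ = -E.b p x i j
  wH : ∀ p, ∀ x ∈ E.T p, dt (pd (E.n p) 0 x) (pd (E.F p) 1 x) (E.n p x) +
    dt (pd (E.F p) 0 x) (pd (E.n p) 1 x) (E.n p x) = -(2 * E.H) * E.J p x
  wK : ∀ p, ∀ x ∈ E.T p,
    dt (pd (E.n p) 0 x) (pd (E.n p) 1 x) (E.n p x) = E.K ((E.c p).ψ x) * E.J p x
  cK : Continuous E.K
  KH : ∀ q, E.K q ≤ E.H ^ 2

structure Ok : Prop where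
  o0 : E.Ok0
  o1 : E.Ok1
  o2 : E.Ok2

/-- embedded, connected boundary in the plane -/
structure Em0 : Prop where
  inj : Function.Injective E.f
  bdP : ∀ p ∈ E.bd, E.f p 2 = 0
  pc : IsPreconnected E.bd
  ne : E.bd.Nonempty

/-- constant angle, positive mean curvature, the surface leaves the plane upwards -/
structure Em (c : ℝ) : Prop where
  e0 : E.Em0
  ang : ∀ p ∈ E.bd, E.N p 2 = -c
  lt : |c| < 1
  pos : 0 < E.H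
  up : ∀ p ∈ E.bd, ∀ᶠ q in 𝓝 p, 0 ≤ E.f q 2

/-- straightening of a neighbourhood of `f p` -/
structure Flat (p : M) (e : OpenPartialHomeomorph E3 E3) (n0 : E3) (ε : ℝ) : Prop where
  pos : 0 < ε
  src : e.source = cube (incl ((E.c p).φ p)) ε
  sub : ∀ y ∈ e.source, pr y ∈ (E.c p).O
  int : p ∉ E.bd → ∀ y ∈ e.source, 0 < y 0
  eq : ∀ y ∈ e.source, 0 ≤ y 0 → e y = E.F p (pr y) + y 2 • n0
  sg : ∀ q, E.f q ∈ e.target → q ∈ (E.c p).S ∧ incl ((E.c p).φ q) ∈ e.source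
  tv : ∀ y ∈ e.source, 0 ≤ y 0 → 0 < ⟪n0, E.n p (pr y)⟫
  hz : p ∈ E.bd → n0 2 = 0 ∧ ∀ y ∈ e.source, (0 < y 0 → 0 < e y 2) ∧ (y 0 < 0 → e y 2 < 0)
  dir : ∀ q, E.f q ∈ e.target → ∀ w : E3,
    (0 < ⟪w, E.N q⟫ → ∀ᶠ s in 𝓝[>] (0:ℝ), 0 < e.symm (E.f q + s • w) 2) ∧
    (⟪w, E.N q⟫ < 0 → ∀ᶠ s in 𝓝[>] (0:ℝ), e.symm (E.f q + s • w) 2 < 0)

/-- the two sides `A` (opposite to the normal) and `B` of the surface inside `U` -/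
structure Box (U A B : Set E3) : Prop where
  oU : IsOpen U
  oA : IsOpen A
  oB : IsOpen B
  cA : IsPreconnected A
  cB : IsPreconnected B
  dj : Disjoint A B
  un : U \ E.Sg = A ∪ B
  dC : Disjoint U E.C
  dir : ∀ q, E.f q ∈ U → ∀ w : E3,
    (0 < ⟪w, E.N q⟫ → ∀ᶠ s in 𝓝[>] (0:ℝ), E.f q + s • w ∈ B) ∧
    (⟪w, E.N q⟫ < 0 → ∀ᶠ s in 𝓝[>] (0:ℝ), E.f q + s • w ∈ A)

/-- the regions near a point of the boundary curve -/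
structure BBox (U A B : Set E3) : Prop where
  oU : IsOpen U
  oA : IsOpen A
  oB : IsOpen B
  cA : IsPreconnected A
  cB : IsPreconnected B
  cL : IsPreconnected (U ∩ {x | x 2 < 0})
  dj : Disjoint A B
  un : (U ∩ {x | 0 < x 2}) \ E.Sg = A ∪ B
  sg : ∀ q, E.f q ∈ U → 0 ≤ E.f q 2 ∧ (E.f q 2 = 0 → q ∈ E.bd)
  ex : ∃ q, q ∉ E.bd ∧ E.f q ∈ U
  dir : ∀ q, E.f q ∈ U → ∀ w : E3, (q ∈ E.bd → 0 < w 2) →
    (0 < ⟪w, E.N q⟫ → ∀ᶠ s in 𝓝[>] (0:ℝ), E.f q + s • w ∈ B) ∧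
    (⟪w, E.N q⟫ < 0 → ∀ᶠ s in 𝓝[>] (0:ℝ), E.f q + s • w ∈ A)

/-- `α` jumps from `l` to `l + 1` at `f q` -/
def Jmp (α : E3 → ℤ) (q : M) (l : ℤ) (V : Set E3) : Prop :=
  ∃ U A B, E.f q ∈ U ∧ U ⊆ V ∧ E.Box U A B ∧ (∀ y ∈ A, α y = l) ∧ ∀ y ∈ B, α y = l + 1

/-- jump function on `V` -/
def IsJ (α : E3 → ℤ) (V : Set E3) : Prop :=
  (∀ x ∈ V, x ∉ E.Sg → ∀ᶠ y in 𝓝 x, α y = α x) ∧ ∀ q, E.f q ∈ V → ∃ l, E.Jmp α q l V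

/-- second order condition at a nearest point -/
def SOf : Prop := ∀ q ∉ E.bd, ∀ (o : E3) (r : ℝ), 0 < r → ‖E.f q - o‖ = r →
  (∀ᶠ q' in 𝓝 q, r ≤ ‖E.f q' - o‖) →
  o = E.f q - r • E.N q ∨
    (o = E.f q + r • E.N q ∧ r * E.H ≤ 1 ∧ 0 ≤ 1 - 2 * E.H * r + E.K q * r ^ 2)

/-- second order condition at a highest point -/
def MP0 : Prop := ∀ q ∉ E.bd, ∀ v : E3, ‖v‖ = 1 →
  (∀ᶠ q' in 𝓝 q, ⟪E.f q', v⟫ ≤ ⟪E.f q, v⟫) → v = -E.N q ∨ (v = E.N q ∧ E.H ≤ 0)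

/-- the side opposite to the normal is not locally inside a half space -/
def MP : Prop := ∀ U A B, E.Box U A B → ∀ q, E.f q ∈ U → ∀ v : E3, ‖v‖ = 1 →
  ∃ᶠ y in 𝓝 (E.f q), y ∈ A ∧ ⟪E.f q, v⟫ < ⟪y, v⟫

def BoxT : Prop := ∀ p ∉ E.bd, ∀ V ∈ 𝓝 (E.f p), ∃ U A B, E.f p ∈ U ∧ U ⊆ V ∧ E.Box U A B

def JumpEx : Prop := ∀ V, IsOpen V → Convex ℝ V → Disjoint V E.C → ∃ α, E.IsJ α V

def JumpUn : Prop := ∀ V α β, IsOpen V → IsPreconnected V → E.IsJ α V → E.IsJ β V →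
  ∃ d : ℤ, ∀ y ∈ V, y ∉ E.Sg → α y = β y + d

def JumpMono : Prop := ∀ V V' α, E.IsJ α V → IsOpen V' → V' ⊆ V → E.IsJ α V'

/-- points of the surface are limits of points of both sides that are off the plane -/
def BoxCl : Prop := ∀ U A B, E.Box U A B → ∀ q, E.f q ∈ U →
  E.f q ∈ closure (A ∩ {x | x 2 ≠ 0}) ∧ E.f q ∈ closure (B ∩ {x | x 2 ≠ 0})

def BoxSub : Prop := ∀ U A B U' A' B', E.Box U A B → E.Box U' A' B' → U' ⊆ U →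
  (∃ q, E.f q ∈ U') → A' ⊆ A ∧ B' ⊆ B

/-- integrand of the first variation formula -/
def fvI (c : ℝ) (X : E3 → E3) (q : M) : ℝ :=
  dv X (E.f q) - ⟪fderiv ℝ X (E.f q) (E.N q), E.N q⟫ + 2 * E.H * ⟪X (E.f q), E.N q⟫ +
    c * (dv X (E.f q) * E.N q 2 - ⟪fderiv ℝ X (E.f q) e3, E.N q⟫)

/-- the exterior derivative of the form `⟪X × N + Y, d f⟫` divided by the area form -/
def stI (X Y : E3 → E3) (q : M) : ℝ :=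
  ⟪curl Y (E.f q), E.N q⟫ -
    (dv X (E.f q) - ⟪fderiv ℝ X (E.f q) (E.N q), E.N q⟫ + 2 * E.H * ⟪X (E.f q), E.N q⟫)

/-- the function `a` on the two half spaces -/
structure Good0 (a : E3 → ℤ) : Prop where
  up : E.IsJ a {x | 0 < x 2}
  dn : E.IsJ a {x | x 2 < 0}
  far : ∃ R : ℝ, ∀ x, R ≤ ‖x‖ → a x = 0
  zero : ∀ x, x ∈ E.Sg ∨ x 2 = 0 → a x = 0

/-- `a` above the plane is the continuation of `a` below the plane plus `d` -/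
def Rel (a : E3 → ℤ) (y : E3) (d : ℤ) : Prop :=
  ∃ r > 0, ∃ α, Disjoint (ball y r) E.C ∧ E.IsJ α (ball y r) ∧
    ∀ x ∈ ball y r, x ∉ E.Sg → (0 < x 2 → a x = α x + d) ∧ (x 2 < 0 → a x = α x)

structure RelF (a : E3 → ℤ) (k m : ℤ) : Prop where
  two : ∀ y : E3, y 2 = 0 → y ∉ E.C → E.Rel a y (k - m) ∨ E.Rel a y (k + 1 - m)
  un : ∀ (y : E3) d d', y 2 = 0 → E.Rel a y d → E.Rel a y d' → d = d'
  lc : ∀ (y : E3) d, y 2 = 0 → E.Rel a y d → ∀ᶠ y' in 𝓝 y, y' 2 = 0 → E.Rel a y' d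
  far : ∃ R : ℝ, ∀ y : E3, y 2 = 0 → R ≤ ‖y‖ → E.Rel a y 0

/-- the zero set of `a` -/
def Z (a : E3 → ℤ) : Set E3 := {x | x ∉ E.Sg ∧ x 2 ≠ 0 ∧ a x = 0}

/-- the compact set across which `a` is not continued -/
structure Kz (a : E3 → ℤ) (K : Set E3) (σ : ℝ) : Prop where
  cp : IsCompact K
  sub : E.C ⊆ K
  pl : ∀ y ∈ K, y 2 = 0
  sg : σ = 1 ∨ σ = -1
  side : ∀ y ∈ K, ∀ᶠ x in 𝓝 y, x ∈ E.Z a → 0 < σ * x 2
  col : ∃ V, IsOpen V ∧ K ⊆ V ∧ ∀ y ∈ V, y 2 = 0 → y ∉ K → y ∉ closure (E.Z a)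
  rel : ∀ y : E3, y 2 = 0 → y ∉ K → E.Rel a y 0

/-- the counting property -/
def Cnt (c : ℝ) (a : E3 → ℤ) : Prop := ∀ x : E3, ∃ T : Finset (M × ℝ), a x ≤ T.card ∧
  ∀ z ∈ T, z.1 ∉ E.bd ∧ 0 < z.2 ∧ z.2 * E.H ≤ 1 ∧ 0 ≤ 1 - 2 * E.H * z.2 + E.K z.1 * z.2 ^ 2 ∧
    x = E.f z.1 + z.2 • (E.N z.1 + c • e3)

/-- parametrisation of the boundary -/
structure Par (γ : ℝ → E2) (β : ℝ → M) : Prop where
  sm : ContDiff ℝ 1 γ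
  per : Function.Periodic γ 1
  inj : InjOn γ (Ico 0 1)
  reg : ∀ s, deriv γ s ≠ 0
  cβ : Continuous β
  mem : ∀ s, β s ∈ E.bd
  eq : ∀ s, E.f (β s) = incl (γ s)
  sur : ∀ p ∈ E.bd, ∃ s, β s = p

/-- the boundary integral in a chart and along `γ` -/
def BdLoc (γ : ℝ → E2) (β : ℝ → M) : Prop := ∀ p, ∃ U ∈ 𝓝 (E.f p), ∃ τ : ℝ, (τ = 1 ∨ τ = -1) ∧
  ∀ Y : M → E3, Continuous Y → (∀ q, E.f q ∉ U → Y q = 0) →
    ∫ v in {v | ln v ∈ (E.c p).O}, ⟪Y ((E.c p).ψ (ln v)), pd (E.F p) 1 (ln v)⟫ =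
      τ * ∫ s in (0:ℝ)..1, ⟪Y (β s), incl (deriv γ s)⟫

section meas

variable [MeasurableSpace M] (μ : Measure M)

/-- the area measure -/
structure Mu : Prop where
  fin : IsFiniteMeasure μ
  lint : ∀ p (u : M → ℝ≥0∞), Measurable u →
    ∫⁻ q in (E.c p).S, u q ∂μ = ∫⁻ x in E.T p, ENNReal.ofReal |E.J p x| * u ((E.c p).ψ x)
  int : ∀ p (u : M → ℝ), Measurable u →
    ∫ q in (E.c p).S, u q ∂μ = ∫ x in E.T p, |E.J p x| * u ((E.c p).ψ x)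

/-- divergence theorem for the side `B` -/
def AD (U B : Set E3) (t : Prop) : Prop := ∀ X, C1c X → tsupport X ⊆ U → (t → Tg X) →
  ∫ x in B, dv X x = -∫ q, ⟪X (E.f q), E.N q⟫ ∂μ

def BoxI : Prop := ∀ p ∉ E.bd, ∀ V ∈ 𝓝 (E.f p),
  ∃ U A B, E.f p ∈ U ∧ U ⊆ V ∧ E.Box U A B ∧ E.AD μ U B False

def BoxB : Prop := ∀ p ∈ E.bd, ∀ V ∈ 𝓝 (E.f p),
  ∃ U A B, E.f p ∈ U ∧ U ⊆ V ∧ E.BBox U A B ∧ E.AD μ U B True

def JumpShr : Prop := ∀ α q l V, E.Jmp α q l V → ∀ V' ∈ 𝓝 (E.f q),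
  ∃ U A B, E.f q ∈ U ∧ U ⊆ V' ∧ U ⊆ V ∧ E.Box U A B ∧ E.AD μ U B False ∧
    (∀ y ∈ A, α y = l) ∧ ∀ y ∈ B, α y = l + 1

/-- local Stokes formula -/
def Stk : Prop := ∀ p, ∃ U ∈ 𝓝 (E.f p), ∃ ς : ℝ, (ς = 1 ∨ ς = -1) ∧
  ∀ X Y, C1c X → C1c Y → tsupport X ⊆ U → tsupport Y ⊆ U →
    ∫ q, E.stI X Y q ∂μ = ς * ∫ v in {v | ln v ∈ (E.c p).O},
      ⟪crs (X (E.F p (ln v))) (E.n p (ln v)) + Y (E.F p (ln v)), pd (E.F p) 1 (ln v)⟫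

/-- global Stokes formula -/
def StkG (γ : ℝ → E2) (β : ℝ → M) : Prop := ∃ ς : ℝ, (ς = 1 ∨ ς = -1) ∧
  ∀ X Y, C1c X → C1c Y → ∫ q, E.stI X Y q ∂μ =
    ς * ∫ s in (0:ℝ)..1, ⟪crs (X (incl (γ s))) (E.N (β s)) + Y (incl (γ s)), incl (deriv γ s)⟫

/-- local first variation formula -/
def FV (c : ℝ) : Prop := ∀ p, ∃ U ∈ 𝓝 (E.f p), ∀ X, C1c X → tsupport X ⊆ U →
  (∀ x ∈ E.C, X x 2 = 0) → ∫ q, E.fvI c X q ∂μ = 0

/-- everything that is known about an embedded surface -/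
structure W (c : ℝ) : Prop where
  ok : E.Ok
  mu : E.Mu μ
  em : E.Em c
  boxI : E.BoxI μ
  boxB : E.BoxB μ
  null : volume E.Sg = 0
  so : E.SOf
  mp : E.MP
  fv : E.FV μ c
  cl : E.BoxCl
  bsub : E.BoxSub
  shr : E.JumpShr μ
  mono : E.JumpMono
  jump : E.JumpEx
  uniq : E.JumpUn
  glue : SGlue
  div : SDiv

/-- the values of `a` near the boundary curve -/
def Edge (a : E3 → ℤ) (k m : ℤ) : Prop := ∀ p ∈ E.bd, ∀ V ∈ 𝓝 (E.f p),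
  ∃ U A B, E.f p ∈ U ∧ U ⊆ V ∧ E.BBox U A B ∧ E.AD μ U B True ∧ (∀ y ∈ A, a y = k) ∧
    (∀ y ∈ B, a y = k + 1) ∧ ∀ y ∈ U, y 2 < 0 → a y = m

structure Good1 (a : E3 → ℤ) (k m : ℤ) : Prop where
  g0 : E.Good0 a
  edge : E.Edge μ a k m
  rel : E.RelF a k m
  bdd : ∃ B : ℤ, ∀ x, |a x| ≤ B
  ms : Measurable a
  nn : ∀ x, 0 ≤ a x

/-- the flux identities on the outermost sheet -/
structure Flux (c : ℝ) (a : E3 → ℤ) (K : Set E3) : Prop where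
  amb : ∀ X, C1c X → tsupport X ⊆ Kᶜ → ∫ x in {x | 1 ≤ a x}, dv X x =
    -∫ q in E.f ⁻¹' closure (E.Z a), ⟪X (E.f q), E.N q⟫ ∂μ
  fv : ∀ X, C1c X → tsupport X ⊆ Kᶜ → ∫ q in E.f ⁻¹' closure (E.Z a), E.fvI c X q ∂μ = 0
  opn : ∀ q, E.f q ∉ K → E.f q ∈ closure (E.Z a) → ∀ᶠ q' in 𝓝 q, E.f q' ∈ closure (E.Z a)

end meas

end Dat

/-! ### Statements about surfaces -/

/-- from the manifold to the data -/
def SChart (M : Type) [TopologicalSpace M] [ChartedSpace (EuclideanHalfSpace 2) M] : Prop :=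
  ∀ (f N : M → E3) (H : ℝ), IsHSurface f N H →
    ∃ E : Dat M, E.f = f ∧ E.N = N ∧ E.H = H ∧ E.bd = (𝓡∂ 2).boundary M ∧ E.Ok0 ∧ E.Ctr

section st

variable {M : Type} [TopologicalSpace M] (E : Dat M)

def SSym : Prop := ∀ σ τ : ℝ, (σ = 1 ∨ σ = -1) → (τ = 1 ∨ τ = -1) → E.Ok0 → E.Ctr →
  (E.sym σ τ).Ok0 ∧ (E.sym σ τ).Ctr

def SInv : Prop := E.Ok0 → E.Ctr → E.Ok1

def SWein : Prop := E.Ok0 → E.Ok1 → E.Ok2

def SUp : Prop := E.Ok → E.Em0 → (∀ p ∈ E.bd, |E.N p 2| < 1) →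
  (∀ p ∈ E.bd, ∀ᶠ q in 𝓝 p, 0 ≤ E.f q 2) ∨ (∀ p ∈ E.bd, ∀ᶠ q in 𝓝 p, E.f q 2 ≤ 0)

def SFlat : Prop := SExt → E.Ok → ∀ c, E.Em c → ∀ p, ∀ V ∈ 𝓝 (E.f p),
  ∃ e n0 ε, E.Flat p e n0 ε ∧ e.target ⊆ V

def SBox : Prop := E.Ok → ∀ c, E.Em c → ∀ p e n0 ε, E.Flat p e n0 ε → E.f p ∈ e.target ∧
  (p ∉ E.bd → E.Box e.target (e '' (e.source ∩ {y | 0 < y 0 ∧ y 2 < 0}))
    (e '' (e.source ∩ {y | 0 < y 0 ∧ 0 < y 2}))) ∧
  (p ∈ E.bd → E.BBox e.target (e '' (e.source ∩ {y | 0 < y 0 ∧ y 2 < 0}))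
    (e '' (e.source ∩ {y | 0 < y 0 ∧ 0 < y 2})))

def SSO : Prop := E.Ok → E.SOf ∧ E.MP0

def SNull : Prop := E.Ok0 → volume E.Sg = 0

def SJump : Prop := E.Ok0 → E.BoxT → E.BoxSub → E.JumpEx

def SSph : Prop := E.Ok → E.H ≠ 0 → (∀ q, E.K q = E.H ^ 2) → ∃ o, ∀ q, E.f q + E.H⁻¹ • E.N q = o

def SBeta : Prop := E.Ok0 → ∀ γ : ℝ → E2, Continuous γ → BijOn E.f E.bd (incl '' range γ) →
  ∃ β : ℝ → M, Continuous β ∧ (∀ s, β s ∈ E.bd) ∧ (∀ s, E.f (β s) = incl (γ s)) ∧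
    (∀ p ∈ E.bd, ∃ s, β s = p) ∧ IsPreconnected E.bd ∧ E.bd.Nonempty ∧ ∀ p ∈ E.bd, E.f p 2 = 0

def SBdLoc : Prop := E.Ok → E.Em0 → ∀ γ β, E.Par γ β → E.BdLoc γ β

variable [MeasurableSpace M] (μ : Measure M) (c : ℝ)

def SMu : Prop := E.Ok → ∃ ν : Measure M, E.Mu ν

def SAD : Prop := E.Ok → E.Mu μ → E.Em c → ∀ p e n0 ε, E.Flat p e n0 ε →
  E.AD μ e.target (e '' (e.source ∩ {y | 0 < y 0 ∧ 0 < y 2})) (p ∈ E.bd)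

def SStk : Prop := E.Ok → E.Mu μ → Function.Injective E.f → E.Stk μ

def SFV : Prop := E.Ok → E.Em c → E.Stk μ → E.FV μ c

def SBas : Prop := E.Ok0 → E.Em c → E.BoxI μ → E.MP0 →
  E.BoxCl ∧ E.BoxSub ∧ E.JumpShr μ ∧ E.JumpMono ∧ E.JumpUn ∧ E.MP

def SA0 : Prop := E.W μ c → ∃ a, E.Good0 a

def SEdge : Prop := E.W μ c → ∀ a, E.Good0 a → ∃ k m, E.Edge μ a k m

def SRel : Prop := E.W μ c → ∀ a k m, E.Good0 a → E.Edge μ a k m → E.RelF a k m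

def SBdd : Prop := E.W μ c → ∀ a k m, E.Good0 a → E.Edge μ a k m → E.RelF a k m →
  (∃ B : ℤ, ∀ x, |a x| ≤ B) ∧ Measurable a ∧ ∀ x, 0 ≤ a x

def SKz : Prop := E.W μ c → ∀ a k m, E.Good1 μ a k m → 1 ≤ m → ∃ K σ, E.Kz a K σ

def SFlux : Prop := E.W μ c → ∀ a k m, E.Good1 μ a k m → ∀ K σ, E.Kz a K σ → E.Flux μ c a K

def SFluxEnd : Prop := E.W μ c → ∀ a k m, E.Good1 μ a k m → ∀ K σ, E.Kz a K σ →
  E.Flux μ c a K → Disjoint (closure (E.Z a)) K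

def SM0 : Prop := E.W μ c → ∀ a k m, E.Good1 μ a k m →
  (∀ K σ, E.Kz a K σ → E.Flux μ c a K → ¬ Disjoint (closure (E.Z a)) K) ∧
  (m ≤ 0 → m = 0 ∧ k = 0)

def SVol : Prop := E.W μ c → ∀ a, E.Good1 μ a 0 0 →
  Integrable (fun x => (a x : ℝ)) ∧ 3 * ∫ x, (a x : ℝ) = -∫ q, ⟪E.f q, E.N q⟫ ∂μ

def SMink : Prop := E.W μ c → ∫ q, (1 + E.H * ⟪E.f q, E.N q⟫ + c * E.N q 2) ∂μ = 0

def SCount : Prop := E.W μ c → ∀ a, E.Good1 μ a 0 0 → E.Cnt c a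

def SHK : Prop := SMult → E.Ok → E.Mu μ → E.Em c → ∀ a : E3 → ℤ, E.Cnt c a →
  ∫⁻ x, ENNReal.ofReal (a x) ≤ ∫⁻ q, ENNReal.ofReal ((1 + c * E.N q 2) * Gf E.H (E.K q)) ∂μ

def SUmb : Prop := E.Ok → E.Mu μ → E.Em c → ∀ a : E3 → ℤ, (∀ x, 0 ≤ a x) →
  Integrable (fun x => (a x : ℝ)) → 3 * ∫ x, (a x : ℝ) = -∫ q, ⟪E.f q, E.N q⟫ ∂μ →
  ∫ q, (1 + E.H * ⟪E.f q, E.N q⟫ + c * E.N q 2) ∂μ = 0 →
  ∫⁻ x, ENNReal.ofReal (a x) ≤ ∫⁻ q, ENNReal.ofReal ((1 + c * E.N q 2) * Gf E.H (E.K q)) ∂μ →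
  ∀ q, E.K q = E.H ^ 2

def SCap : Prop := E.W μ c → ∀ o : E3, (∀ q, E.f q + E.H⁻¹ • E.N q = o) →
  E.C = sphere o E.H⁻¹ ∩ {x | x 2 = 0} → E.Sg = sphere o E.H⁻¹ ∩ {x | 0 ≤ x 2}

def SStkG : Prop := SGlue → SDiv → E.Ok → E.Mu μ → E.Em0 → ∀ γ β, E.Par γ β → E.Stk μ →
  E.BdLoc γ β → E.StkG μ γ β

def SOrth : Prop := SGreen → SDiv → E.Ok → E.Mu μ → E.Em0 → ∀ γ β, E.Par γ β → E.StkG μ γ β →
  2 * |E.H| * area (inside (range γ)) = len γ → E.H ≠ 0 ∧ ∀ p ∈ E.bd, E.N p 2 = 0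

end st

end Pool.Agent.MP_efb2da_gt.Emb
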